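import Pool.Agent.CenC.Defs
import Pool.Agent.EXP.IntW

/-!
# CENC module E: the exponent of the limit problem is 3/4, `b = 27/16`
-/

set_option autoImplicit false

namespace CenC

open MeasureTheory Filter Topology EXS

namespace Expo

/-- closed half strip -/
def HS : Set ℂ := {z | |z.im| ≤ Real.pi / 3 ∧ 0 ≤ z.re}

theorem ofReal_mem {t : ℝ} (ht : 0 ≤ t) : (t : ℂ) ∈ HS := by
  refine ⟨?_, by simpa using ht⟩
  simp
  positivity

theorem line_bound {G G' : ℂ → ℂ} {K c : ℝ} (hc : 0 < c)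
    (hd : ∀ z ∈ HS, HasDerivAt G (G' z) z) (hb : ∀ z ∈ HS, ‖G' z‖ ≤ K * Real.exp (-(c * z.re)))
    {t s : ℝ} (ht : 0 ≤ t) (hs : t ≤ s) :
    ‖G (s : ℂ) - G (t : ℂ)‖ ≤ K / c * (Real.exp (-(c * t)) - Real.exp (-(c * s))) := by
  have key := image_norm_le_of_norm_deriv_right_le_deriv_boundary (f := fun x : ℝ => G (x : ℂ) - G (t : ℂ))
    (f' := fun x : ℝ => G' (x : ℂ)) (a := t) (b := s)
    (B := fun x : ℝ => K / c * (Real.exp (-(c * t)) - Real.exp (-(c * x))))
    (B' := fun x : ℝ => K * Real.exp (-(c * x))) ?_ ?_ ?_ ?_ ?_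
  · exact key ⟨hs, le_rfl⟩
  · intro x hx
    have h1 := (hd (x : ℂ) (ofReal_mem (ht.trans hx.1))).comp_ofReal
    exact (h1.continuousAt.sub continuousAt_const).continuousWithinAt
  · intro x hx
    have h1 := (hd (x : ℂ) (ofReal_mem (ht.trans hx.1))).comp_ofReal
    exact (h1.sub_const (G (t : ℂ))).hasDerivWithinAt
  · simp
  · intro x
    have h1 : HasDerivAt (fun x : ℝ => -(c * x)) (-(c * 1)) x := ((hasDerivAt_id x).const_mul c).neg
    have h2 := ((h1.exp).const_sub (Real.exp (-(c * t)))).const_mul (K / c)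
    refine h2.congr_deriv ?_
    field_simp
  · intro x hx
    have := hb (x : ℂ) (ofReal_mem (ht.trans hx.1))
    simpa using this

theorem strip_lim {G G' : ℂ → ℂ} {K c : ℝ} (hc : 0 < c)
    (hd : ∀ z ∈ HS, HasDerivAt G (G' z) z) (hb : ∀ z ∈ HS, ‖G' z‖ ≤ K * Real.exp (-(c * z.re))) :
    ∃ a : ℂ, ∃ C : ℝ, ∀ z ∈ HS, ‖G z - a‖ ≤ C * Real.exp (-(c * z.re)) := by
  have hK : 0 ≤ K := by
    have := hb 0 (by simpa using ofReal_mem (t := 0) le_rfl)
    have h2 := norm_nonneg (G' 0)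
    simp at this
    linarith
  have hL : ∀ t s : ℝ, 0 ≤ t → t ≤ s → ‖G (s : ℂ) - G (t : ℂ)‖ ≤ K / c * Real.exp (-(c * t)) := by
    intro t s ht hs
    refine (line_bound hc hd hb ht hs).trans ?_
    have : 0 ≤ K / c := by positivity
    have := Real.exp_pos (-(c * s))
    nlinarith
  have hex : Tendsto (fun t : ℝ => K / c * Real.exp (-(c * t))) atTop (𝓝 0) := by
    have h1 : Tendsto (fun t : ℝ => Real.exp (-(c * t))) atTop (𝓝 0) := by
      refine Real.tendsto_exp_neg_atTop_nhds_zero.comp ?_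
      exact tendsto_id.const_mul_atTop hc
    simpa using h1.const_mul (K / c)
  have hcau : CauchySeq (fun t : ℝ => G (t : ℂ)) := by
    rw [Metric.cauchySeq_iff']
    intro ε hε
    obtain ⟨T, hT⟩ := ((hex.eventually (gt_mem_nhds hε)).and (eventually_ge_atTop 0)).exists
    refine ⟨T, fun s hs => ?_⟩
    rw [dist_eq_norm]
    exact (hL T s hT.2 hs).trans_lt hT.1
  obtain ⟨a, ha⟩ := cauchySeq_tendsto_of_complete hcau
  have hA : ∀ t : ℝ, 0 ≤ t → ‖G (t : ℂ) - a‖ ≤ K / c * Real.exp (-(c * t)) := by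
    intro t ht
    have h1 : Tendsto (fun s : ℝ => ‖G (s : ℂ) - G (t : ℂ)‖) atTop (𝓝 ‖a - G (t : ℂ)‖) :=
      (ha.sub_const _).norm
    rw [norm_sub_rev]
    refine le_of_tendsto h1 ?_
    filter_upwards [eventually_ge_atTop t] with s hs using hL t s ht hs
  refine ⟨a, K / c + K * (Real.pi / 3), fun z hz => ?_⟩
  have hconv : Convex ℝ {w : ℂ | w.re = z.re ∧ |w.im| ≤ Real.pi / 3} := by
    have e : {w : ℂ | w.re = z.re ∧ |w.im| ≤ Real.pi / 3} =
        (Complex.reLm ⁻¹' {z.re}) ∩ (Complex.imLm ⁻¹' (Set.Icc (-(Real.pi / 3)) (Real.pi / 3))) := by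
      ext w
      simp [abs_le]
    rw [e]
    exact ((convex_singleton _).linear_preimage _).inter ((convex_Icc _ _).linear_preimage _)
  have hv := hconv.norm_image_sub_le_of_norm_hasDerivWithin_le (f := G) (f' := G')
    (C := K * Real.exp (-(c * z.re))) (x := ((z.re : ℝ) : ℂ)) (y := z)
    (fun w hw => (hd w ⟨hw.2, by rw [hw.1]; exact hz.2⟩).hasDerivWithinAt)
    (fun w hw => by
      have := hb w ⟨hw.2, by rw [hw.1]; exact hz.2⟩
      rwa [hw.1] at this)
    ⟨by simp, by simpa using (abs_nonneg _).trans hz.1⟩ ⟨rfl, hz.1⟩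
  have h3 : ‖z - ((z.re : ℝ) : ℂ)‖ ≤ Real.pi / 3 := by
    have e : z - ((z.re : ℝ) : ℂ) = ((z.im : ℝ) : ℂ) * Complex.I := by
      apply Complex.ext <;> simp
    rw [e, norm_mul, Complex.norm_I, mul_one, Complex.norm_real, Real.norm_eq_abs]
    exact hz.1
  have h4 := hA z.re hz.2
  have h5 : 0 ≤ K * Real.exp (-(c * z.re)) := by positivity
  calc ‖G z - a‖ = ‖(G z - G ((z.re : ℝ) : ℂ)) + (G ((z.re : ℝ) : ℂ) - a)‖ := by congr 1; ring
    _ ≤ ‖G z - G ((z.re : ℝ) : ℂ)‖ + ‖G ((z.re : ℝ) : ℂ) - a‖ := norm_add_le _ _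
    _ ≤ K * Real.exp (-(c * z.re)) * (Real.pi / 3) + K / c * Real.exp (-(c * z.re)) := by
        refine add_le_add (hv.trans ?_) h4
        exact mul_le_mul_of_nonneg_left h3 h5
    _ = (K / c + K * (Real.pi / 3)) * Real.exp (-(c * z.re)) := by ring

theorem exp_tendsto {c : ℝ} (hc : 0 < c) (C : ℝ) : Tendsto (fun t : ℝ => C * Real.exp (-(c * t))) atTop (𝓝 0) := by
  have h1 : Tendsto (fun t : ℝ => Real.exp (-(c * t))) atTop (𝓝 0) := by
    refine Real.tendsto_exp_neg_atTop_nhds_zero.comp ?_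
    exact tendsto_id.const_mul_atTop hc
  simpa using h1.const_mul C

theorem lim_eq {G : ℂ → ℂ} {a b : ℂ} {C c : ℝ} (hc : 0 < c)
    (hG : ∀ z ∈ HS, ‖G z - a‖ ≤ C * Real.exp (-(c * z.re)))
    (hb : Tendsto (fun t : ℝ => G (t : ℂ)) atTop (𝓝 b)) : a = b := by
  have h1 : Tendsto (fun t : ℝ => G (t : ℂ) - a) atTop (𝓝 0) := by
    refine squeeze_zero_norm' ?_ (exp_tendsto hc C)
    filter_upwards [eventually_ge_atTop 0] with t ht
    simpa using hG (t : ℂ) (ofReal_mem ht)
  have h2 : Tendsto (fun t : ℝ => G (t : ℂ)) atTop (𝓝 a) := by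
    have := h1.add_const a
    simpa using this
  exact tendsto_nhds_unique h2 hb

/-- the data -/
structure Dt (S P1 P2 P3 : ℂ → ℂ) (b r : ℝ) : Prop where
  r1 : 1 ≤ r
  r2 : r ^ 2 = 9 - 4 * b
  d : ∀ z : ℂ, |z.im| < Real.pi → HasDerivAt S (P1 z) z ∧ HasDerivAt P1 (P2 z) z ∧
        HasDerivAt P2 (P3 z) z ∧ P3 z + 3 * P2 z + b * P1 z = Complex.exp (-(3 * z)) * S z
  top : ∃ C : ℝ, ∀ z : ℂ, |z.im| ≤ Real.pi / 3 → 0 ≤ z.re → ‖S z - 1‖ ≤ C * Real.exp (-(z.re / 2)) ∧
        ‖P1 z‖ ≤ C * Real.exp (-(z.re / 2)) ∧ ‖P2 z‖ ≤ C * Real.exp (-(z.re / 2))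
  bot : ∃ C : ℝ, ∀ z : ℂ, |z.im| ≤ Real.pi / 3 → z.re ≤ 0 → ‖S z‖ ≤ C * Real.exp (-(Real.exp (-z.re) / 4)) ∧
        ‖P1 z‖ ≤ C * Real.exp (-(Real.exp (-z.re) / 4)) ∧ ‖P2 z‖ ≤ C * Real.exp (-(Real.exp (-z.re) / 4))
  conj : ∀ z : ℂ, S (starRingEnd ℂ z) = starRingEnd ℂ (S z)

variable {S P1 P2 P3 : ℂ → ℂ} {b r : ℝ}

theorem im_lt {z : ℂ} (hz : |z.im| ≤ Real.pi / 3) : |z.im| < Real.pi := by
  have := Real.pi_pos
  linarith

theorem exp_half_le {x : ℝ} (hx : 0 ≤ x) : Real.exp (-(x / 2)) ≤ 1 := by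
  rw [Real.exp_le_one_iff]; linarith

/-- limits at `+∞` on horizontal lines -/
theorem line_top (h : Dt S P1 P2 P3 b r) {θ : ℝ} (hθ : |θ| ≤ Real.pi / 3) :
    Tendsto (fun t : ℝ => S ((t : ℂ) + (θ : ℂ) * Complex.I)) atTop (𝓝 1) ∧
    Tendsto (fun t : ℝ => P1 ((t : ℂ) + (θ : ℂ) * Complex.I)) atTop (𝓝 0) ∧
    Tendsto (fun t : ℝ => P2 ((t : ℂ) + (θ : ℂ) * Complex.I)) atTop (𝓝 0) := by
  obtain ⟨C, hC⟩ := h.top
  have e1 : Tendsto (fun t : ℝ => C * Real.exp (-(1 / 2 * t))) atTop (𝓝 0) := exp_tendsto (by norm_num) C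
  have hre : ∀ t : ℝ, ((t : ℂ) + (θ : ℂ) * Complex.I).re = t := by intro t; simp
  have him : ∀ t : ℝ, ((t : ℂ) + (θ : ℂ) * Complex.I).im = θ := by intro t; simp
  refine ⟨?_, ?_, ?_⟩
  · have : Tendsto (fun t : ℝ => S ((t : ℂ) + (θ : ℂ) * Complex.I) - 1) atTop (𝓝 0) := by
      refine squeeze_zero_norm' ?_ e1
      filter_upwards [eventually_ge_atTop 0] with t ht
      have := (hC ((t : ℂ) + (θ : ℂ) * Complex.I) (by rw [him]; exact hθ) (by rw [hre]; exact ht)).1
      rw [hre] at this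
      rwa [show -(1 / 2 * t) = -(t / 2) by ring]
    simpa using this.add_const 1
  · refine squeeze_zero_norm' ?_ e1
    filter_upwards [eventually_ge_atTop 0] with t ht
    have := (hC ((t : ℂ) + (θ : ℂ) * Complex.I) (by rw [him]; exact hθ) (by rw [hre]; exact ht)).2.1
    rw [hre] at this
    rwa [show -(1 / 2 * t) = -(t / 2) by ring]
  · refine squeeze_zero_norm' ?_ e1
    filter_upwards [eventually_ge_atTop 0] with t ht
    have := (hC ((t : ℂ) + (θ : ℂ) * Complex.I) (by rw [him]; exact hθ) (by rw [hre]; exact ht)).2.2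
    rw [hre] at this
    rwa [show -(1 / 2 * t) = -(t / 2) by ring]

theorem real_top (h : Dt S P1 P2 P3 b r) :
    Tendsto (fun t : ℝ => S (t : ℂ)) atTop (𝓝 1) ∧
    Tendsto (fun t : ℝ => P1 (t : ℂ)) atTop (𝓝 0) ∧
    Tendsto (fun t : ℝ => P2 (t : ℂ)) atTop (𝓝 0) := by
  have := line_top h (θ := 0) (by simp; positivity)
  simpa using this

/-- `Y = P2 + 3 P1 + b S → b`, with rate `e^{-3x}` -/
theorem Y_bound (h : Dt S P1 P2 P3 b r) : ∃ C : ℝ, ∀ z ∈ HS,
    ‖P2 z + 3 * P1 z + b * S z - b‖ ≤ C * Real.exp (-(3 * z.re)) := by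
  obtain ⟨C0, hC0⟩ := h.top
  have hd : ∀ z ∈ HS, HasDerivAt (fun z => P2 z + 3 * P1 z + b * S z) (Complex.exp (-(3 * z)) * S z) z := by
    intro z hz
    obtain ⟨a1, a2, a3, a4⟩ := h.d z (im_lt hz.1)
    have := (a3.add (a2.const_mul 3)).add (a1.const_mul (b : ℂ))
    rw [a4] at this
    exact this
  have hb : ∀ z ∈ HS, ‖Complex.exp (-(3 * z)) * S z‖ ≤ (1 + |C0|) * Real.exp (-(3 * z.re)) := by
    intro z hz
    rw [norm_mul, Complex.norm_exp]
    have e1 : (-(3 * z)).re = -(3 * z.re) := by simp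
    have e2 : ‖S z‖ ≤ 1 + |C0| := by
      have := (hC0 z hz.1 hz.2).1
      have h3 : C0 * Real.exp (-(z.re / 2)) ≤ |C0| := by
        have h4 := exp_half_le hz.2
        have h5 := Real.exp_pos (-(z.re / 2))
        have h6 := le_abs_self C0
        have h7 := abs_nonneg C0
        nlinarith
      calc ‖S z‖ = ‖1 + (S z - 1)‖ := by congr 1; ring
        _ ≤ ‖(1 : ℂ)‖ + ‖S z - 1‖ := norm_add_le _ _
        _ ≤ 1 + |C0| := by rw [norm_one]; linarith
    rw [e1, mul_comm]
    exact mul_le_mul_of_nonneg_right e2 (Real.exp_pos _).le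
  obtain ⟨a, C, hC⟩ := strip_lim (c := 3) (by norm_num) hd hb
  obtain ⟨l0, l1, l2⟩ := real_top h
  have hl : Tendsto (fun t : ℝ => P2 (t : ℂ) + 3 * P1 (t : ℂ) + b * S (t : ℂ)) atTop (𝓝 (b : ℂ)) := by
    have := (l2.add (l1.const_mul 3)).add (l0.const_mul (b : ℂ))
    simpa using this
  have ea : a = (b : ℂ) := lim_eq (G := fun z => P2 z + 3 * P1 z + b * S z) (by norm_num) hC hl
  subst ea
  exact ⟨C, hC⟩

/-- `H1 = P1 + μ' (S - 1)` -/
noncomputable def H1 (S P1 : ℂ → ℂ) (r : ℝ) (z : ℂ) : ℂ := P1 z + ((3 + r) / 2 : ℝ) * (S z - 1)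

theorem H1_deriv (h : Dt S P1 P2 P3 b r) {z : ℂ} (hz : |z.im| < Real.pi) :
    HasDerivAt (H1 S P1 r) (P2 z + ((3 + r) / 2 : ℝ) * P1 z) z := by
  obtain ⟨a1, a2, a3, a4⟩ := h.d z hz
  exact a2.add ((a1.sub_const 1).const_mul _)

theorem exp_lin_deriv (m : ℂ) (z : ℂ) : HasDerivAt (fun z : ℂ => Complex.exp (m * z)) (m * Complex.exp (m * z)) z := by
  have h1 : HasDerivAt (fun z : ℂ => m * z) (m * 1) z := (hasDerivAt_id z).const_mul m
  have := h1.cexp
  refine this.congr_deriv ?_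
  ring

theorem norm_exp_lin (m : ℝ) (z : ℂ) : ‖Complex.exp ((m : ℂ) * z)‖ = Real.exp (m * z.re) := by
  rw [Complex.norm_exp]; simp

theorem exists_a (h : Dt S P1 P2 P3 b r) : ∃ a : ℂ, ∃ C : ℝ, ∀ z ∈ HS,
    ‖Complex.exp (((3 - r) / 2 : ℝ) * z) * H1 S P1 r z - a‖ ≤ C * Real.exp (-((3 + r) / 2 * z.re)) := by
  obtain ⟨C, hC⟩ := Y_bound h
  have hr1 := h.r1
  have hr2 := h.r2
  refine strip_lim (G' := fun z => Complex.exp (((3 - r) / 2 : ℝ) * z) * (P2 z + 3 * P1 z + b * S z - b))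
    (K := C) (by linarith) ?_ ?_
  · intro z hz
    have d1 := exp_lin_deriv (((3 - r) / 2 : ℝ) : ℂ) z
    have d2 := H1_deriv h (im_lt hz.1)
    refine (d1.mul d2).congr_deriv ?_
    have eb : (b : ℂ) = (((3 - r) / 2 : ℝ) : ℂ) * (((3 + r) / 2 : ℝ) : ℂ) := by
      rw [← Complex.ofReal_mul]
      congr 1
      linear_combination (1 / 4) * hr2
    unfold H1
    rw [eb]
    push_cast
    ring
  · intro z hz
    rw [norm_mul, norm_exp_lin]
    have := hC z hz
    calc Real.exp ((3 - r) / 2 * z.re) * ‖P2 z + 3 * P1 z + b * S z - b‖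
        ≤ Real.exp ((3 - r) / 2 * z.re) * (C * Real.exp (-(3 * z.re))) :=
          mul_le_mul_of_nonneg_left this (Real.exp_pos _).le
      _ = C * (Real.exp ((3 - r) / 2 * z.re) * Real.exp (-(3 * z.re))) := by ring
      _ = C * Real.exp (-((3 + r) / 2 * z.re)) := by
          rw [← Real.exp_add]
          congr 2
          ring

/-- the Wronskian identity -/
theorem wronsk (h : Dt S P1 P2 P3 b r) (t : ℝ) :
    Complex.exp (3 * (t : ℂ)) * (P2 t * P1 (zl t) - P1 t * P2 (zl t)) = S t * S (zl t) := by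
  have him : ∀ t : ℝ, |(zl t).im| = Real.pi / 3 := by
    intro t
    unfold zl
    simp
    positivity
  have him' : ∀ t : ℝ, |(zl t).im| < Real.pi := fun t => im_lt (him t).le
  have hre : ∀ t : ℝ, (zl t).re = t := by intro t; unfold zl; simp
  have him0 : ∀ t : ℝ, |((t : ℂ)).im| < Real.pi := by
    intro t; simpa using Real.pi_pos
  set W : ℝ → ℂ := fun t => Complex.exp (3 * (t : ℂ)) * (P2 t * P1 (zl t) - P1 t * P2 (zl t)) - S t * S (zl t)
    with hW
  have hd : ∀ t : ℝ, HasDerivAt W 0 t := by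
    intro t
    obtain ⟨a1, a2, a3, a4⟩ := h.d (t : ℂ) (him0 t)
    obtain ⟨b1, b2, b3, b4⟩ := h.d (zl t) (him' t)
    have a1' := a1.comp_ofReal
    have a2' := a2.comp_ofReal
    have a3' := a3.comp_ofReal
    have b1' : HasDerivAt (fun t : ℝ => S (zl t)) (P1 (zl t)) t :=
      (HasDerivAt.comp_sub_const (t : ℂ) (((Real.pi / 3 : ℝ) : ℂ) * Complex.I) b1).comp_ofReal
    have b2' : HasDerivAt (fun t : ℝ => P1 (zl t)) (P2 (zl t)) t :=
      (HasDerivAt.comp_sub_const (t : ℂ) (((Real.pi / 3 : ℝ) : ℂ) * Complex.I) b2).comp_ofReal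
    have b3' : HasDerivAt (fun t : ℝ => P2 (zl t)) (P3 (zl t)) t :=
      (HasDerivAt.comp_sub_const (t : ℂ) (((Real.pi / 3 : ℝ) : ℂ) * Complex.I) b3).comp_ofReal
    have e1 : HasDerivAt (fun t : ℝ => Complex.exp (3 * (t : ℂ))) (3 * Complex.exp (3 * (t : ℂ))) t :=
      (exp_lin_deriv 3 (t : ℂ)).comp_ofReal
    have := (e1.mul ((a3'.mul b2').sub (a2'.mul b3'))).sub (a1'.mul b1')
    refine this.congr_deriv ?_
    have c1 : P3 (t : ℂ) = Complex.exp (-(3 * (t : ℂ))) * S t - 3 * P2 t - b * P1 t := by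
      linear_combination a4
    have c2 : P3 (zl t) = -Complex.exp (-(3 * (t : ℂ))) * S (zl t) - 3 * P2 (zl t) - b * P1 (zl t) := by
      have e2 : Complex.exp (-(3 * zl t)) = -Complex.exp (-(3 * (t : ℂ))) := by
        unfold zl
        rw [show -(3 * ((t : ℂ) - ((Real.pi / 3 : ℝ) : ℂ) * Complex.I)) =
          -(3 * (t : ℂ)) + Real.pi * Complex.I by push_cast; ring, Complex.exp_add, Complex.exp_pi_mul_I]
        ring
      rw [← e2]
      linear_combination b4
    have e3 : Complex.exp (3 * (t : ℂ)) * Complex.exp (-(3 * (t : ℂ))) = 1 := by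
      rw [← Complex.exp_add]; simp
    rw [c1, c2]
    simp only [Pi.mul_apply, Pi.sub_apply]
    linear_combination (S t * P1 (zl t) + P1 t * S (zl t)) * e3
  have hconst : ∀ s t : ℝ, W s = W t := by
    refine is_const_of_deriv_eq_zero (fun t => (hd t).differentiableAt) (fun t => (hd t).deriv)
  have hbot : Tendsto W atBot (𝓝 0) := by
    obtain ⟨C, hC⟩ := h.bot
    have hlim : Tendsto (fun t : ℝ => (2 * (C * C)) * Real.exp (3 * t) + C * C * Real.exp (t)) atBot (𝓝 0) := by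
      have h1 : Tendsto (fun t : ℝ => Real.exp (3 * t)) atBot (𝓝 0) :=
        Real.tendsto_exp_atBot.comp (tendsto_id.const_mul_atBot (by norm_num))
      have := (h1.const_mul (2 * (C * C))).add (Real.tendsto_exp_atBot.const_mul (C * C))
      simpa using this
    refine squeeze_zero_norm' ?_ hlim
    filter_upwards [eventually_le_atBot 0] with t ht
    obtain ⟨s0, s1, s2⟩ := hC (t : ℂ) (by simp; positivity) (by simpa using ht)
    obtain ⟨z0, z1, z2⟩ := hC (zl t) (him t).le (by rw [hre]; exact ht)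
    rw [Complex.ofReal_re] at s0 s1 s2
    rw [hre] at z0 z1 z2
    have hC0 : 0 ≤ C := by
      have := (norm_nonneg _).trans s0
      exact nonneg_of_mul_nonneg_left this (Real.exp_pos _)
    set E := Real.exp (-(Real.exp (-t) / 4)) with hE
    have hE0 : 0 < E := Real.exp_pos _
    have hE1 : E ≤ 1 := by
      rw [hE, Real.exp_le_one_iff]
      have := Real.exp_pos (-t)
      linarith
    have hEt : E * E ≤ Real.exp t := by
      rw [hE, ← Real.exp_add]
      apply Real.exp_le_exp.mpr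
      have h2 : -t * 2 ≤ Real.exp (-t) := by
        have h5 : 0 ≤ -t := by linarith
        have h6 := Real.quadratic_le_exp_of_nonneg h5
        nlinarith [sq_nonneg (-t - 1), sq_nonneg (-t - 2)]
      linarith
    have n1 : ‖P2 t * P1 (zl t)‖ ≤ C * C := by
      rw [norm_mul]
      have : C * E ≤ C := by nlinarith
      exact mul_le_mul (s2.trans this) (z1.trans this) (norm_nonneg _) hC0
    have n2 : ‖P1 t * P2 (zl t)‖ ≤ C * C := by
      rw [norm_mul]
      have : C * E ≤ C := by nlinarith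
      exact mul_le_mul (s1.trans this) (z2.trans this) (norm_nonneg _) hC0
    have n3 : ‖S t * S (zl t)‖ ≤ C * C * Real.exp t := by
      rw [norm_mul]
      calc ‖S t‖ * ‖S (zl t)‖ ≤ (C * E) * (C * E) := mul_le_mul s0 z0 (norm_nonneg _) (by positivity)
        _ = C * C * (E * E) := by ring
        _ ≤ C * C * Real.exp t := mul_le_mul_of_nonneg_left hEt (by positivity)
    calc ‖W t‖ ≤ ‖Complex.exp (3 * (t : ℂ)) * (P2 t * P1 (zl t) - P1 t * P2 (zl t))‖ + ‖S t * S (zl t)‖ :=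
          norm_sub_le _ _
      _ ≤ Real.exp (3 * t) * (C * C + C * C) + C * C * Real.exp t := by
          refine add_le_add ?_ n3
          rw [norm_mul, Complex.norm_exp]
          have : (3 * (t : ℂ)).re = 3 * t := by simp
          rw [this]
          refine mul_le_mul_of_nonneg_left ?_ (Real.exp_pos _).le
          exact (norm_sub_le _ _).trans (add_le_add n1 n2)
      _ = _ := by ring
  have h0 : W t = 0 := by
    have h1 : Tendsto W atBot (𝓝 (W t)) := by
      have : W = fun _ => W t := funext fun s => hconst s t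
      rw [this]
      exact tendsto_const_nhds
    exact tendsto_nhds_unique h1 hbot
  have := h0
  simp only [hW] at this
  exact sub_eq_zero.mp this

theorem zl_mem {t : ℝ} (ht : 0 ≤ t) : zl t ∈ HS := by
  unfold zl
  refine ⟨?_, ?_⟩
  · simp
    rw [abs_of_pos (by positivity)]
  · simpa using ht

theorem zl_re (t : ℝ) : (zl t).re = t := by unfold zl; simp

theorem zl_top (h : Dt S P1 P2 P3 b r) :
    Tendsto (fun t : ℝ => S (zl t)) atTop (𝓝 1) ∧
    Tendsto (fun t : ℝ => P1 (zl t)) atTop (𝓝 0) := by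
  obtain ⟨a, b, -⟩ := line_top h (θ := -(Real.pi / 3)) (by rw [abs_neg, abs_of_pos (by positivity)])
  have e : ∀ t : ℝ, (t : ℂ) + ((-(Real.pi / 3) : ℝ) : ℂ) * Complex.I = zl t := by
    intro t; unfold zl; push_cast; ring
  simp only [e] at a b
  exact ⟨a, b⟩

theorem a_ne (h : Dt S P1 P2 P3 b r) {a : ℂ} {C : ℝ} (ha : ∀ z ∈ HS,
    ‖Complex.exp (((3 - r) / 2 : ℝ) * z) * H1 S P1 r z - a‖ ≤ C * Real.exp (-((3 + r) / 2 * z.re))) : a ≠ 0 := by
  rintro rfl
  have hr2 := h.r2
  have eb : (b : ℂ) = (((3 - r) / 2 : ℝ) : ℂ) * (((3 + r) / 2 : ℝ) : ℂ) := by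
    rw [← Complex.ofReal_mul]
    congr 1
    linear_combination (1 / 4) * hr2
  obtain ⟨C', hC'⟩ := Y_bound h
  have hH : ∀ z ∈ HS, ‖H1 S P1 r z‖ ≤ C * Real.exp (-(3 * z.re)) := by
    intro z hz
    have h1 := ha z hz
    rw [sub_zero, norm_mul, norm_exp_lin] at h1
    have h2 : Real.exp (-((3 - r) / 2 * z.re)) * (Real.exp ((3 - r) / 2 * z.re) * ‖H1 S P1 r z‖) ≤
        Real.exp (-((3 - r) / 2 * z.re)) * (C * Real.exp (-((3 + r) / 2 * z.re))) :=
      mul_le_mul_of_nonneg_left h1 (Real.exp_pos _).le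
    have e1 : Real.exp (-((3 - r) / 2 * z.re)) * (Real.exp ((3 - r) / 2 * z.re) * ‖H1 S P1 r z‖) =
        ‖H1 S P1 r z‖ := by
      rw [← mul_assoc, ← Real.exp_add]; simp
    have e2 : Real.exp (-((3 - r) / 2 * z.re)) * (C * Real.exp (-((3 + r) / 2 * z.re))) =
        C * Real.exp (-(3 * z.re)) := by
      rw [mul_left_comm, ← Real.exp_add]
      congr 2
      ring
    rwa [e1, e2] at h2
  set D : ℂ → ℂ := fun z => P2 z + ((3 + r) / 2 : ℝ) * P1 z with hDdef
  set K : ℝ := C' + |(3 - r) / 2| * C with hK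
  have hD : ∀ z ∈ HS, ‖D z‖ ≤ K * Real.exp (-(3 * z.re)) := by
    intro z hz
    have e1 : D z = (P2 z + 3 * P1 z + b * S z - b) - (((3 - r) / 2 : ℝ) : ℂ) * H1 S P1 r z := by
      rw [eb, hDdef]
      unfold H1
      push_cast
      ring
    rw [e1]
    refine (norm_sub_le _ _).trans ?_
    rw [norm_mul, Complex.norm_real, Real.norm_eq_abs, hK, add_mul]
    refine add_le_add (hC' z hz) ?_
    rw [mul_assoc]
    exact mul_le_mul_of_nonneg_left (hH z hz) (abs_nonneg _)
  obtain ⟨l0, l1, l2⟩ := real_top h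
  obtain ⟨m0, m1⟩ := zl_top h
  have hS : Tendsto (fun t : ℝ => S t * S (zl t)) atTop (𝓝 (1 * 1)) := l0.mul m0
  have hW : Tendsto (fun t : ℝ => S t * S (zl t)) atTop (𝓝 0) := by
    have hz0 : Tendsto (fun t : ℝ => K * (‖P1 (zl t)‖ + ‖P1 t‖)) atTop (𝓝 0) := by
      have := (m1.norm.add l1.norm).const_mul K
      simpa using this
    refine squeeze_zero_norm' ?_ hz0
    filter_upwards [eventually_ge_atTop 0] with t ht
    have h1 := hD t (ofReal_mem ht)
    have h2 := hD (zl t) (zl_mem ht)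
    rw [zl_re] at h2
    rw [Complex.ofReal_re] at h1
    rw [← wronsk h t]
    have e1 : P2 t * P1 (zl t) - P1 t * P2 (zl t) = D t * P1 (zl t) - P1 t * D (zl t) := by
      rw [hDdef]; ring
    rw [e1, norm_mul, Complex.norm_exp]
    have e2 : (3 * (t : ℂ)).re = 3 * t := by simp
    rw [e2]
    have h3 : ‖D t * P1 (zl t) - P1 t * D (zl t)‖ ≤ K * Real.exp (-(3 * t)) * (‖P1 (zl t)‖ + ‖P1 t‖) := by
      refine (norm_sub_le _ _).trans ?_
      rw [norm_mul, norm_mul, mul_add]
      refine add_le_add (mul_le_mul_of_nonneg_right h1 (norm_nonneg _)) ?_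
      rw [mul_comm]
      exact mul_le_mul_of_nonneg_right h2 (norm_nonneg _)
    calc Real.exp (3 * t) * ‖D t * P1 (zl t) - P1 t * D (zl t)‖
        ≤ Real.exp (3 * t) * (K * Real.exp (-(3 * t)) * (‖P1 (zl t)‖ + ‖P1 t‖)) :=
          mul_le_mul_of_nonneg_left h3 (Real.exp_pos _).le
      _ = (Real.exp (3 * t) * Real.exp (-(3 * t))) * (K * (‖P1 (zl t)‖ + ‖P1 t‖)) := by ring
      _ = K * (‖P1 (zl t)‖ + ‖P1 t‖) := by rw [← Real.exp_add]; simp
  have := tendsto_nhds_unique hS hW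
  norm_num at this

/-- conjugation: the derivative is conjugation symmetric on the real axis -/
theorem P1_real (h : Dt S P1 P2 P3 b r) (t : ℝ) : starRingEnd ℂ (P1 t) = P1 t := by
  have him0 : |((t : ℂ)).im| < Real.pi := by simpa using Real.pi_pos
  have h1 := (h.d (t : ℂ) him0).1
  have h2 := h1.conj_conj
  have e : (starRingEnd ℂ ∘ S ∘ starRingEnd ℂ) = S := by
    funext z
    simp [h.conj]
  rw [e, Complex.conj_ofReal] at h2
  exact h2.unique h1

theorem S_real (h : Dt S P1 P2 P3 b r) (t : ℝ) : starRingEnd ℂ (S t) = S t := by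
  rw [← h.conj, Complex.conj_ofReal]

theorem a_real (h : Dt S P1 P2 P3 b r) {a : ℂ} {C : ℝ} (ha : ∀ z ∈ HS,
    ‖Complex.exp (((3 - r) / 2 : ℝ) * z) * H1 S P1 r z - a‖ ≤ C * Real.exp (-((3 + r) / 2 * z.re))) :
    a = (a.re : ℂ) := by
  have hr1 := h.r1
  have h1 : Tendsto (fun t : ℝ => Complex.exp (((3 - r) / 2 : ℝ) * (t : ℂ)) * H1 S P1 r t) atTop (𝓝 a) := by
    have : Tendsto (fun t : ℝ => Complex.exp (((3 - r) / 2 : ℝ) * (t : ℂ)) * H1 S P1 r t - a) atTop (𝓝 0) := by
      refine squeeze_zero_norm' ?_ (exp_tendsto (c := (3 + r) / 2) (by linarith) C)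
      filter_upwards [eventually_ge_atTop 0] with t ht
      simpa using ha (t : ℂ) (ofReal_mem ht)
    simpa using this.add_const a
  have h2 : Tendsto (fun t : ℝ => (Complex.exp (((3 - r) / 2 : ℝ) * (t : ℂ)) * H1 S P1 r t)) atTop
      (𝓝 (starRingEnd ℂ a)) := by
    have h3 := (Complex.continuous_conj.tendsto a).comp h1
    refine h3.congr fun t => ?_
    simp only [Function.comp, map_mul]
    congr 1
    · rw [← Complex.exp_conj, map_mul, Complex.conj_ofReal, Complex.conj_ofReal]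
    · unfold H1
      simp only [map_add, map_mul, map_sub, map_one, Complex.conj_ofReal, P1_real h, S_real h]
  have h3 := tendsto_nhds_unique h2 h1
  exact (Complex.conj_eq_iff_re.mp h3).symm

theorem mu_pos (h : Dt S P1 P2 P3 b r) : 0 < (3 - r) / 2 := by
  by_contra hc
  push Not at hc
  obtain ⟨a, C, ha⟩ := exists_a h
  refine a_ne h ha ?_
  have hr1 := h.r1
  obtain ⟨l0, l1, l2⟩ := real_top h
  have hH : Tendsto (fun t : ℝ => H1 S P1 r t) atTop (𝓝 0) := by
    have h3 : Tendsto (fun t : ℝ => (((3 + r) / 2 : ℝ) : ℂ) * (S t - 1)) atTop (𝓝 0) := by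
      have := (l0.sub_const 1).const_mul (((3 + r) / 2 : ℝ) : ℂ)
      simpa using this
    have := l1.add h3
    simpa [H1] using this
  refine lim_eq (G := fun z => Complex.exp (((3 - r) / 2 : ℝ) * z) * H1 S P1 r z) (c := (3 + r) / 2)
    (by linarith) ha ?_
  have hn : Tendsto (fun t : ℝ => ‖H1 S P1 r t‖) atTop (𝓝 0) := by simpa using hH.norm
  refine squeeze_zero_norm' ?_ hn
  filter_upwards [eventually_ge_atTop 0] with t ht
  rw [norm_mul, norm_exp_lin]
  have h1 : Real.exp ((3 - r) / 2 * (t : ℂ).re) ≤ 1 := by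
    rw [Real.exp_le_one_iff, Complex.ofReal_re]
    exact mul_nonpos_of_nonpos_of_nonneg hc ht
  exact mul_le_of_le_one_left (norm_nonneg _) h1

/-- `e^{μ z} (S - 1) → α`, `α` real and nonzero -/
theorem exists_alpha (h : Dt S P1 P2 P3 b r) : ∃ α : ℝ, α ≠ 0 ∧ ∃ C : ℝ, ∀ z ∈ HS,
    ‖Complex.exp (((3 - r) / 2 : ℝ) * z) * (S z - 1) - α‖ ≤ C * Real.exp (-(r * z.re)) := by
  obtain ⟨a, C, ha⟩ := exists_a h
  have hr1 := h.r1
  have hmu := mu_pos h
  have ha0 := a_ne h ha
  have hare := a_real h ha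
  have hr0 : (r : ℂ) ≠ 0 := by
    have : r ≠ 0 := by linarith
    exact_mod_cast this
  -- f = e^{μ' z} (S - 1) - (a/r) e^{r z}
  obtain ⟨c, C2, hC2⟩ := strip_lim (G := fun z => Complex.exp (((3 + r) / 2 : ℝ) * z) * (S z - 1) -
      a / r * Complex.exp ((r : ℂ) * z))
    (G' := fun z => Complex.exp ((r : ℂ) * z) * (Complex.exp (((3 - r) / 2 : ℝ) * z) * H1 S P1 r z - a))
    (K := C) (c := (3 - r) / 2) hmu
    (by
      intro z hz
      have d1 := exp_lin_deriv (((3 + r) / 2 : ℝ) : ℂ) z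
      have d2 := (h.d z (im_lt hz.1)).1.sub_const 1
      have d3 := (exp_lin_deriv (r : ℂ) z).const_mul (a / r)
      refine ((d1.mul d2).sub d3).congr_deriv ?_
      have e1 : Complex.exp (((3 + r) / 2 : ℝ) * z) = Complex.exp ((r : ℂ) * z) *
          Complex.exp (((3 - r) / 2 : ℝ) * z) := by
        rw [← Complex.exp_add]
        congr 1
        push_cast
        ring
      rw [e1]
      unfold H1
      field_simp
      ring)
    (by
      intro z hz
      rw [norm_mul, norm_exp_lin]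
      calc Real.exp (r * z.re) * ‖Complex.exp (((3 - r) / 2 : ℝ) * z) * H1 S P1 r z - a‖
          ≤ Real.exp (r * z.re) * (C * Real.exp (-((3 + r) / 2 * z.re))) :=
            mul_le_mul_of_nonneg_left (ha z hz) (Real.exp_pos _).le
        _ = C * (Real.exp (r * z.re) * Real.exp (-((3 + r) / 2 * z.re))) := by ring
        _ = C * Real.exp (-((3 - r) / 2 * z.re)) := by
            rw [← Real.exp_add]
            congr 2
            ring)
  have hC20 : 0 ≤ C2 := by
    have := (norm_nonneg _).trans (hC2 0 (by simpa using ofReal_mem (t := 0) le_rfl))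
    simpa using this
  refine ⟨a.re / r, ?_, ‖c‖ + C2, ?_⟩
  · intro h0
    have h1 : a.re = 0 := by
      rcases div_eq_zero_iff.mp h0 with h2 | h2
      · exact h2
      · linarith
    rw [h1] at hare
    exact ha0 (by simpa using hare)
  · intro z hz
    have h1 := hC2 z hz
    have e0 : ((a.re / r : ℝ) : ℂ) = a / r := by
      rw [hare]
      simp
    have e1 : Complex.exp (((3 - r) / 2 : ℝ) * z) * (S z - 1) - a / r =
        Complex.exp (((-r : ℝ) : ℂ) * z) * (Complex.exp (((3 + r) / 2 : ℝ) * z) * (S z - 1) -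
          a / r * Complex.exp ((r : ℂ) * z)) := by
      have e2 : Complex.exp (((-r : ℝ) : ℂ) * z) * Complex.exp (((3 + r) / 2 : ℝ) * z) =
          Complex.exp (((3 - r) / 2 : ℝ) * z) := by
        rw [← Complex.exp_add]
        congr 1
        push_cast
        ring
      have e3 : Complex.exp (((-r : ℝ) : ℂ) * z) * Complex.exp ((r : ℂ) * z) = 1 := by
        rw [← Complex.exp_add]
        push_cast
        simp
      rw [← e2]
      linear_combination (a / r) * e3
    rw [e0, e1, norm_mul, norm_exp_lin, mul_comm]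
    have h2 : ‖Complex.exp (((3 + r) / 2 : ℝ) * z) * (S z - 1) - a / r * Complex.exp ((r : ℂ) * z)‖ ≤
        ‖c‖ + C2 := by
      have h3 : Real.exp (-((3 - r) / 2 * z.re)) ≤ 1 := by
        rw [Real.exp_le_one_iff]
        have := mul_nonneg hmu.le hz.2
        linarith
      have h4 : C2 * Real.exp (-((3 - r) / 2 * z.re)) ≤ C2 := mul_le_of_le_one_right hC20 h3
      calc ‖Complex.exp (((3 + r) / 2 : ℝ) * z) * (S z - 1) - a / r * Complex.exp ((r : ℂ) * z)‖
          = ‖c + (Complex.exp (((3 + r) / 2 : ℝ) * z) * (S z - 1) - a / r * Complex.exp ((r : ℂ) * z) - c)‖ := by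
            congr 1; ring
        _ ≤ ‖c‖ + ‖Complex.exp (((3 + r) / 2 : ℝ) * z) * (S z - 1) -
              a / r * Complex.exp ((r : ℂ) * z) - c‖ := norm_add_le _ _
        _ ≤ ‖c‖ + C2 := by linarith
    rw [show -(r * z.re) = -r * z.re by ring]
    exact mul_le_mul_of_nonneg_right h2 (Real.exp_pos _).le

/-! ### the density -/

variable {γ : ℝ → ℝ}

/-- `e^{μ t} γ(t)` -/
noncomputable def Gm (γ : ℝ → ℝ) (r : ℝ) (t : ℝ) : ℝ := Real.exp ((3 - r) / 2 * t) * γ t

theorem exp_zl (m t : ℝ) : Complex.exp ((m : ℂ) * zl t) =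
    ((Real.exp (m * t) : ℝ) : ℂ) * Complex.exp (-((m * (Real.pi / 3) : ℝ) : ℂ) * Complex.I) := by
  unfold zl
  rw [Complex.ofReal_exp, ← Complex.exp_add]
  congr 1
  push_cast
  ring

theorem Gm_eq (h5 : ∀ t : ℝ, γ t = Real.exp (-Real.exp (-t)) * (S (zl t)).im) (t : ℝ) :
    Gm γ r t = Real.exp (-Real.exp (-t)) *
      (Complex.exp ((((3 - r) / 2 * (Real.pi / 3) : ℝ) : ℂ) * Complex.I) *
        (Complex.exp (((3 - r) / 2 : ℝ) * zl t) * (S (zl t) - 1))).im := by
  rw [exp_zl]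
  have e : Complex.exp ((((3 - r) / 2 * (Real.pi / 3) : ℝ) : ℂ) * Complex.I) *
      (((Real.exp ((3 - r) / 2 * t) : ℝ) : ℂ) *
        Complex.exp (-((((3 - r) / 2) * (Real.pi / 3) : ℝ) : ℂ) * Complex.I) * (S (zl t) - 1)) =
      ((Real.exp ((3 - r) / 2 * t) : ℝ) : ℂ) * (S (zl t) - 1) := by
    have e1 : Complex.exp ((((3 - r) / 2 * (Real.pi / 3) : ℝ) : ℂ) * Complex.I) *
      Complex.exp (-((((3 - r) / 2) * (Real.pi / 3) : ℝ) : ℂ) * Complex.I) = 1 := by
      rw [← Complex.exp_add]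
      rw [show ((((3 - r) / 2 * (Real.pi / 3) : ℝ) : ℂ) * Complex.I) +
        (-((((3 - r) / 2) * (Real.pi / 3) : ℝ) : ℂ) * Complex.I) = 0 by ring, Complex.exp_zero]
    linear_combination ((Real.exp ((3 - r) / 2 * t) : ℝ) : ℂ) * (S (zl t) - 1) * e1
  rw [e, Complex.im_ofReal_mul]
  unfold Gm
  rw [h5 t]
  simp
  ring

theorem exp_exp_tendsto : Tendsto (fun t : ℝ => Real.exp (-Real.exp (-t))) atTop (𝓝 1) := by
  have h1 : Tendsto (fun t : ℝ => Real.exp (-t)) atTop (𝓝 0) := Real.tendsto_exp_neg_atTop_nhds_zero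
  have h2 : Tendsto (fun t : ℝ => -Real.exp (-t)) atTop (𝓝 0) := by simpa using h1.neg
  have h3 := (Real.continuous_exp.tendsto 0).comp h2
  rw [Real.exp_zero] at h3
  exact h3

theorem Gm_lim (h5 : ∀ t : ℝ, γ t = Real.exp (-Real.exp (-t)) * (S (zl t)).im) (hr : 0 < r) {α C : ℝ}
    (ha : ∀ z ∈ HS, ‖Complex.exp (((3 - r) / 2 : ℝ) * z) * (S z - 1) - α‖ ≤ C * Real.exp (-(r * z.re))) :
    Tendsto (Gm γ r) atTop (𝓝 (α * Real.sin ((3 - r) / 2 * (Real.pi / 3)))) := by
  have h1 : Tendsto (fun t : ℝ => Complex.exp (((3 - r) / 2 : ℝ) * zl t) * (S (zl t) - 1)) atTop (𝓝 (α : ℂ)) := by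
    have : Tendsto (fun t : ℝ => Complex.exp (((3 - r) / 2 : ℝ) * zl t) * (S (zl t) - 1) - α) atTop (𝓝 0) := by
      refine squeeze_zero_norm' ?_ (exp_tendsto hr C)
      filter_upwards [eventually_ge_atTop 0] with t ht
      have := ha (zl t) (zl_mem ht)
      rwa [zl_re] at this
    simpa using this.add_const (α : ℂ)
  have h2 := h1.const_mul (Complex.exp ((((3 - r) / 2 * (Real.pi / 3) : ℝ) : ℂ) * Complex.I))
  have h3 := (Complex.continuous_im.tendsto _).comp h2
  have h4 := exp_exp_tendsto.mul h3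
  have e : (1 : ℝ) * (Complex.exp ((((3 - r) / 2 * (Real.pi / 3) : ℝ) : ℂ) * Complex.I) * (α : ℂ)).im =
      α * Real.sin ((3 - r) / 2 * (Real.pi / 3)) := by
    rw [one_mul, Complex.im_mul_ofReal, Complex.exp_ofReal_mul_I_im]
    ring
  rw [e] at h4
  refine h4.congr fun t => ?_
  rw [Gm_eq h5]
  rfl

theorem Gm_bd (h : Dt S P1 P2 P3 b r) (h5 : ∀ t : ℝ, γ t = Real.exp (-Real.exp (-t)) * (S (zl t)).im) {α C : ℝ}
    (ha : ∀ z ∈ HS, ‖Complex.exp (((3 - r) / 2 : ℝ) * z) * (S z - 1) - α‖ ≤ C * Real.exp (-(r * z.re))) :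
    ∃ D : ℝ, 0 ≤ D ∧ ∀ t : ℝ, |Gm γ r t| ≤ D ∧ |Gm γ r t| ≤ D * Real.exp ((3 - r) / 2 * t) := by
  obtain ⟨C', hC'⟩ := h.bot
  have hmu := mu_pos h
  have hr1 := h.r1
  have hC0 : 0 ≤ C := by
    have := (norm_nonneg _).trans (ha 0 (by simpa using ofReal_mem (t := 0) le_rfl))
    simpa using this
  have key : ∀ t : ℝ, Real.exp (-Real.exp (-t)) ≤ 1 := by
    intro t
    rw [Real.exp_le_one_iff]
    have := Real.exp_pos (-t)
    linarith
  refine ⟨(|α| + C) + |C'|, by positivity, fun t => ?_⟩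
  rcases le_total 0 t with ht | ht
  · have h1 : |Gm γ r t| ≤ |α| + C := by
      rw [Gm_eq h5, abs_mul, abs_of_pos (Real.exp_pos _)]
      have h2 := ha (zl t) (zl_mem ht)
      rw [zl_re] at h2
      have h3 : ‖Complex.exp ((((3 - r) / 2 * (Real.pi / 3) : ℝ) : ℂ) * Complex.I) *
        (Complex.exp (((3 - r) / 2 : ℝ) * zl t) * (S (zl t) - 1))‖ ≤ |α| + C := by
        rw [norm_mul, Complex.norm_exp_ofReal_mul_I, one_mul]
        have h4 : C * Real.exp (-(r * t)) ≤ C := by
          refine mul_le_of_le_one_right hC0 ?_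
          rw [Real.exp_le_one_iff]
          have := mul_nonneg (by linarith : (0:ℝ) ≤ r) ht
          linarith
        calc ‖Complex.exp (((3 - r) / 2 : ℝ) * zl t) * (S (zl t) - 1)‖
            = ‖(α : ℂ) + (Complex.exp (((3 - r) / 2 : ℝ) * zl t) * (S (zl t) - 1) - α)‖ := by congr 1; ring
          _ ≤ ‖(α : ℂ)‖ + ‖Complex.exp (((3 - r) / 2 : ℝ) * zl t) * (S (zl t) - 1) - α‖ := norm_add_le _ _
          _ ≤ |α| + C := by
              rw [Complex.norm_real, Real.norm_eq_abs]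
              linarith
      have h4 := (Complex.abs_im_le_norm _).trans h3
      calc _ ≤ 1 * (|α| + C) := mul_le_mul (key t) h4 (abs_nonneg _) zero_le_one
        _ = |α| + C := one_mul _
    have h2 : 1 ≤ Real.exp ((3 - r) / 2 * t) := Real.one_le_exp (mul_nonneg hmu.le ht)
    have h3 := abs_nonneg C'
    have h4 := abs_nonneg α
    refine ⟨by linarith, ?_⟩
    nlinarith
  · have h1 : |γ t| ≤ |C'| := by
      rw [h5 t, abs_mul, abs_of_pos (Real.exp_pos _)]
      have him : |(zl t).im| ≤ Real.pi / 3 := by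
        unfold zl
        simp
        rw [abs_of_pos (by positivity)]
      have h2 := (hC' (zl t) him (by rw [zl_re]; exact ht)).1
      have h3 : C' * Real.exp (-(Real.exp (-(zl t).re) / 4)) ≤ |C'| := by
        have h4 : Real.exp (-(Real.exp (-(zl t).re) / 4)) ≤ 1 := by
          rw [Real.exp_le_one_iff]
          have := Real.exp_pos (-(zl t).re)
          linarith
        have h5 := Real.exp_pos (-(Real.exp (-(zl t).re) / 4))
        have h6 := le_abs_self C'
        have h7 := abs_nonneg C'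
        nlinarith
      calc _ ≤ 1 * |C'| := mul_le_mul (key t) ((Complex.abs_im_le_norm _).trans (h2.trans h3))
            (abs_nonneg _) zero_le_one
        _ = |C'| := one_mul _
    have h2 : |Gm γ r t| = Real.exp ((3 - r) / 2 * t) * |γ t| := by
      unfold Gm
      rw [abs_mul, abs_of_pos (Real.exp_pos _)]
    have h3 : Real.exp ((3 - r) / 2 * t) ≤ 1 := by
      rw [Real.exp_le_one_iff]
      exact mul_nonpos_of_nonneg_of_nonpos hmu.le ht
    have h4 := Real.exp_pos ((3 - r) / 2 * t)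
    have h6 := abs_nonneg (γ t)
    have h7 := abs_nonneg α
    have h8 := abs_nonneg C'
    rw [h2]
    constructor
    · nlinarith
    · rw [mul_comm]
      refine mul_le_mul_of_nonneg_right ?_ h4.le
      linarith

/-- real Cauchy transform -/
theorem Cl_real (γ : ℝ → ℝ) (x : ℝ) :
    Cl γ (x : ℂ) = ((1 / Real.pi * ∫ t : ℝ, γ t / (1 + Real.exp (x - t)) : ℝ) : ℂ) := by
  unfold Cl
  rw [Complex.ofReal_mul, ← integral_complex_ofReal]
  congr 1
  refine integral_congr_ae (Eventually.of_forall fun t => ?_)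
  push_cast
  rfl

theorem shift_int (γ : ℝ → ℝ) (r x : ℝ) : Real.exp ((3 - r) / 2 * x) * ∫ t : ℝ, γ t / (1 + Real.exp (x - t)) =
    ∫ v : ℝ, Gm γ r (x - v) * (Real.exp ((3 - r) / 2 * v) / (1 + Real.exp v)) := by
  rw [← integral_sub_left_eq_self (fun t => γ t / (1 + Real.exp (x - t))) volume x, ← integral_const_mul]
  refine integral_congr_ae (Eventually.of_forall fun v => ?_)
  unfold Gm
  simp only [sub_sub_cancel]
  have : Real.exp ((3 - r) / 2 * x) = Real.exp ((3 - r) / 2 * (x - v)) * Real.exp ((3 - r) / 2 * v) := by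
    rw [← Real.exp_add]; congr 1; ring
  rw [this]
  ring

/-- the value from `S` -/
theorem Cl_from_S (x : ℝ) :
    Real.exp ((3 - r) / 2 * x) * (1 / Real.pi * ∫ t : ℝ, γ t / (1 + Real.exp (x - t))) =
      Real.exp (Real.exp (-x)) * (Complex.exp (((3 - r) / 2 : ℝ) * (x : ℂ)) * (Ps γ x - 1)).re +
      Real.exp ((3 - r) / 2 * x) * (Real.exp (Real.exp (-x)) - 1) := by
  have h1 : Ps γ x = ((Real.exp (-Real.exp (-x)) *
      (1 + 1 / Real.pi * ∫ t : ℝ, γ t / (1 + Real.exp (x - t))) : ℝ) : ℂ) := by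
    unfold Ps
    rw [Cl_real]
    push_cast
    rfl
  have h2 : (Complex.exp (((3 - r) / 2 : ℝ) * (x : ℂ)) * (Ps γ x - 1)).re = Real.exp ((3 - r) / 2 * x) *
      (Real.exp (-Real.exp (-x)) * (1 + 1 / Real.pi * ∫ t : ℝ, γ t / (1 + Real.exp (x - t))) - 1) := by
    rw [h1, ← Complex.ofReal_mul, ← Complex.ofReal_exp, ← Complex.ofReal_one, ← Complex.ofReal_sub,
      ← Complex.ofReal_mul, Complex.ofReal_re]
  rw [h2]
  have e : Real.exp (Real.exp (-x)) * Real.exp (-Real.exp (-x)) = 1 := by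
    rw [← Real.exp_add]; simp
  linear_combination -(Real.exp ((3 - r) / 2 * x) *
    (1 + 1 / Real.pi * ∫ t : ℝ, γ t / (1 + Real.exp (x - t)))) * e

theorem re_lim (hr : 0 < r) {α C : ℝ}
    (ha : ∀ z ∈ HS, ‖Complex.exp (((3 - r) / 2 : ℝ) * z) * (S z - 1) - α‖ ≤ C * Real.exp (-(r * z.re))) :
    Tendsto (fun x : ℝ => (Complex.exp (((3 - r) / 2 : ℝ) * (x : ℂ)) * (S x - 1)).re) atTop (𝓝 α) := by
  have h1 : Tendsto (fun t : ℝ => Complex.exp (((3 - r) / 2 : ℝ) * (t : ℂ)) * (S t - 1)) atTop (𝓝 (α : ℂ)) := by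
    have : Tendsto (fun t : ℝ => Complex.exp (((3 - r) / 2 : ℝ) * (t : ℂ)) * (S t - 1) - α) atTop (𝓝 0) := by
      refine squeeze_zero_norm' ?_ (exp_tendsto hr C)
      filter_upwards [eventually_ge_atTop 0] with t ht
      simpa using ha (t : ℂ) (ofReal_mem ht)
    simpa using this.add_const (α : ℂ)
  have h2 := (Complex.continuous_re.tendsto _).comp h1
  rw [Complex.ofReal_re] at h2
  exact h2

theorem exp_exp_tendsto' : Tendsto (fun t : ℝ => Real.exp (Real.exp (-t))) atTop (𝓝 1) := by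
  have h1 : Tendsto (fun t : ℝ => Real.exp (-t)) atTop (𝓝 0) := Real.tendsto_exp_neg_atTop_nhds_zero
  have h3 := (Real.continuous_exp.tendsto 0).comp h1
  rw [Real.exp_zero] at h3
  exact h3

theorem exp_sub_le {m x : ℝ} (hx : 0 ≤ x) :
    |Real.exp (m * x) * (Real.exp (Real.exp (-x)) - 1)| ≤ 2 * Real.exp (-((1 - m) * x)) := by
  have h1 : |Real.exp (-x)| ≤ 1 := by
    rw [abs_of_pos (Real.exp_pos _), Real.exp_le_one_iff]; linarith
  have h2 := Real.abs_exp_sub_one_le h1
  rw [abs_mul, abs_of_pos (Real.exp_pos (m * x))]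
  rw [abs_of_pos (Real.exp_pos (-x))] at h2
  calc Real.exp (m * x) * |Real.exp (Real.exp (-x)) - 1|
      ≤ Real.exp (m * x) * (2 * Real.exp (-x)) := mul_le_mul_of_nonneg_left h2 (Real.exp_pos _).le
    _ = 2 * (Real.exp (m * x) * Real.exp (-x)) := by ring
    _ = 2 * Real.exp (-((1 - m) * x)) := by
        rw [← Real.exp_add]; congr 2; ring

/-- the limit of `e^{μ x} Cl γ(x)`, `μ < 1` -/
theorem Cl_lim (hr1 : 1 < r) {α C : ℝ}
    (ha : ∀ z ∈ HS, ‖Complex.exp (((3 - r) / 2 : ℝ) * z) * (Ps γ z - 1) - α‖ ≤ C * Real.exp (-(r * z.re))) :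
    Tendsto (fun x : ℝ => Real.exp ((3 - r) / 2 * x) * (1 / Real.pi * ∫ t : ℝ, γ t / (1 + Real.exp (x - t))))
      atTop (𝓝 α) := by
  have h1 := exp_exp_tendsto'.mul (re_lim (by linarith) ha)
  have h2 : Tendsto (fun x : ℝ => Real.exp ((3 - r) / 2 * x) * (Real.exp (Real.exp (-x)) - 1)) atTop (𝓝 0) := by
    refine squeeze_zero_norm' ?_ (exp_tendsto (c := 1 - (3 - r) / 2) (by linarith) 2)
    filter_upwards [eventually_ge_atTop 0] with x hx
    rw [Real.norm_eq_abs]
    exact exp_sub_le hx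
  have h3 := h1.add h2
  rw [one_mul, add_zero] at h3
  exact h3.congr fun x => (Cl_from_S x).symm

/-- the same from the integral -/
theorem int_lim (_hm : Measurable γ) {g D : ℝ} (hr3 : r < 3) (hr1 : 1 < r) (hg : Tendsto (Gm γ r) atTop (𝓝 g))
    (hD : ∀ t, |Gm γ r t| ≤ D) :
    Tendsto (fun x : ℝ => Real.exp ((3 - r) / 2 * x) * ∫ t : ℝ, γ t / (1 + Real.exp (x - t)))
      atTop (𝓝 (g * (Real.pi / Real.sin (Real.pi * ((3 - r) / 2))))) := by
  have hG : Measurable (Gm γ r) := by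
    unfold Gm
    fun_prop
  have hb := P2W.base_integrable (s := (3 - r) / 2) (by linarith) (by linarith)
  rw [← P2W.base_int (s := (3 - r) / 2) (by linarith) (by linarith), ← integral_const_mul]
  have key := tendsto_integral_filter_of_dominated_convergence (μ := volume) (l := atTop)
    (F := fun (x : ℝ) (v : ℝ) => Gm γ r (x - v) * (Real.exp ((3 - r) / 2 * v) / (1 + Real.exp v)))
    (f := fun v : ℝ => g * (Real.exp ((3 - r) / 2 * v) / (1 + Real.exp v)))
    (fun v => D * (Real.exp ((3 - r) / 2 * v) / (1 + Real.exp v)))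
    (by
      refine Eventually.of_forall fun x => ?_
      have h1 : Measurable fun v : ℝ => Gm γ r (x - v) := hG.comp (measurable_const.sub measurable_id)
      have h2 : Measurable fun v : ℝ => Real.exp ((3 - r) / 2 * v) / (1 + Real.exp v) := by fun_prop
      exact (h1.mul h2).aestronglyMeasurable)
    (by
      refine Eventually.of_forall fun x => Eventually.of_forall fun v => ?_
      have h2 : 0 ≤ Real.exp ((3 - r) / 2 * v) / (1 + Real.exp v) := by positivity
      rw [norm_mul, Real.norm_eq_abs, Real.norm_eq_abs, abs_of_nonneg h2]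
      exact mul_le_mul_of_nonneg_right (hD _) h2)
    (hb.const_mul D)
    (by
      refine Eventually.of_forall fun v => ?_
      have h1 : Tendsto (fun x : ℝ => x - v) atTop atTop := by
        simpa [sub_eq_add_neg] using tendsto_atTop_add_const_right atTop (-v) tendsto_id
      exact (hg.comp h1).mul_const _)
  refine key.congr fun x => (shift_int γ r x).symm

/-- `r = 1` is impossible -/
theorem r_ne_one (_hm : Measurable γ) (hi : ∀ x : ℝ, Integrable fun t : ℝ => γ t / (1 + Real.exp (x - t)))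
    {g D : ℝ} (hg : Tendsto (Gm γ 1) atTop (𝓝 g)) (hg0 : 0 < g)
    (hD0 : 0 ≤ D) (hD : ∀ t, |Gm γ 1 t| ≤ D * Real.exp t) {B : ℝ}
    (hB : ∀ x : ℝ, 0 ≤ x → |Real.exp x * ∫ t : ℝ, γ t / (1 + Real.exp (x - t))| ≤ B) : False := by
  obtain ⟨T, hT⟩ := ((hg.eventually (lt_mem_nhds (half_lt_self hg0))).and (eventually_ge_atTop 0)).exists_forall_of_atTop
  have hT0 : 0 ≤ T := (hT T le_rfl).2
  -- lower bound
  have hlow : ∀ x : ℝ, T ≤ x → g / 4 * (x - T) - D * Real.exp T ≤
      Real.exp x * ∫ t : ℝ, γ t / (1 + Real.exp (x - t)) := by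
    intro x hx
    set F : ℝ → ℝ := fun t => Real.exp x * (γ t / (1 + Real.exp (x - t))) with hF
    have hFi : Integrable F := (hi x).const_mul _
    have hFe : ∀ t, F t = Gm γ 1 t / (1 + Real.exp (t - x)) := by
      intro t
      simp only [hF, Gm]
      have e1 : Real.exp x = Real.exp t * Real.exp (x - t) := by
        rw [← Real.exp_add]; congr 1; ring
      have e2 : Real.exp (t - x) = (Real.exp (x - t))⁻¹ := by
        rw [← Real.exp_neg]; congr 1; ring
      have e3 : (3 - 1 : ℝ) / 2 * t = t := by ring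
      have e4 := Real.exp_pos (x - t)
      rw [e3, e2, e1]
      field_simp
      ring
    have hsplit : ∫ t, F t = (∫ t in Set.Iic T, F t) + ∫ t in Set.Ioi T, F t :=
      (intervalIntegral.integral_Iic_add_Ioi hFi.integrableOn hFi.integrableOn).symm
    have h1 : -(D * Real.exp T) ≤ ∫ t in Set.Iic T, F t := by
      have h2 : ∫ t in Set.Iic T, -(D * Real.exp t) ≤ ∫ t in Set.Iic T, F t := by
        refine setIntegral_mono_on ?_ hFi.integrableOn measurableSet_Iic ?_
        · exact ((integrableOn_exp_Iic T).const_mul D).neg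
        · intro t _
          rw [hFe]
          have h3 := hD t
          have h4 : 0 < Real.exp (t - x) := Real.exp_pos _
          have h5 : |Gm γ 1 t / (1 + Real.exp (t - x))| ≤ |Gm γ 1 t| := by
            rw [abs_div, abs_of_pos (by positivity : 0 < 1 + Real.exp (t - x))]
            exact div_le_self (abs_nonneg _) (by linarith)
          have h6 := neg_abs_le (Gm γ 1 t / (1 + Real.exp (t - x)))
          linarith
      have h3 : ∫ t in Set.Iic T, -(D * Real.exp t) = -(D * Real.exp T) := by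
        rw [integral_neg, integral_const_mul, integral_exp_Iic]
      rwa [h3] at h2
    have h2 : g / 4 * (x - T) ≤ ∫ t in Set.Ioi T, F t := by
      have h3 : ∫ t in Set.Ioc T x, F t ≤ ∫ t in Set.Ioi T, F t := by
        refine setIntegral_mono_set hFi.integrableOn ?_ (Set.Ioc_subset_Ioi_self).eventuallyLE
        refine (ae_restrict_mem measurableSet_Ioi).mono fun t ht => ?_
        have h4 := (hT t (le_of_lt ht)).1
        rw [hFe]
        have h5 : 0 < Gm γ 1 t := by linarith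
        have h6 : 0 < Real.exp (t - x) := Real.exp_pos _
        change (0 : ℝ) ≤ _
        positivity
      have h4 : ∫ t in Set.Ioc T x, (g / 4 : ℝ) ≤ ∫ t in Set.Ioc T x, F t := by
        refine setIntegral_mono_on (by simp) hFi.integrableOn measurableSet_Ioc ?_
        intro t ht
        have h4 := (hT t (le_of_lt ht.1)).1
        rw [hFe]
        have h6 : Real.exp (t - x) ≤ 1 := by
          rw [Real.exp_le_one_iff]; linarith [ht.2]
        have h7 : 0 < Real.exp (t - x) := Real.exp_pos _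
        rw [le_div_iff₀ (by positivity)]
        nlinarith
      have h5 : ∫ t in Set.Ioc T x, (g / 4 : ℝ) = g / 4 * (x - T) := by
        rw [setIntegral_const, smul_eq_mul]
        simp [hx]
        ring
      linarith
    have h3 : Real.exp x * ∫ t : ℝ, γ t / (1 + Real.exp (x - t)) = ∫ t, F t := by
      rw [← integral_const_mul]
    rw [h3, hsplit]
    linarith
  -- contradiction
  set x : ℝ := T + 4 * (B + D * Real.exp T + 1) / g with hx
  have hB0 : 0 ≤ B := (abs_nonneg _).trans (hB 0 le_rfl)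
  have hpos : 0 ≤ 4 * (B + D * Real.exp T + 1) / g := by positivity
  have h1 := hlow x (by linarith)
  have h2 := (le_abs_self _).trans (hB x (by linarith))
  have h3 : g / 4 * (x - T) = B + D * Real.exp T + 1 := by
    rw [hx]
    field_simp
    ring
  linarith

end Expo

open Expo in
/-- module E of board/CENC -/
theorem exponent {γ : ℝ → ℝ} (h : Sol γ) (_h0 : th0 γ ≠ 0) {b : ℝ} (hb : b ≤ 2) {P1 P2 P3 : ℂ → ℂ}
    (h1 : ∀ z : ℂ, |z.im| < Real.pi → HasDerivAt (Ps γ) (P1 z) z ∧ HasDerivAt P1 (P2 z) z ∧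
        HasDerivAt P2 (P3 z) z ∧ P3 z + 3 * P2 z + b * P1 z = Complex.exp (-(3 * z)) * Ps γ z)
    (h2 : ∃ C : ℝ, ∀ z : ℂ, |z.im| ≤ Real.pi / 3 → 0 ≤ z.re → ‖Ps γ z - 1‖ ≤ C * Real.exp (-(z.re / 2)) ∧
        ‖P1 z‖ ≤ C * Real.exp (-(z.re / 2)) ∧ ‖P2 z‖ ≤ C * Real.exp (-(z.re / 2)))
    (h3 : ∃ C : ℝ, ∀ z : ℂ, |z.im| ≤ Real.pi / 3 → z.re ≤ 0 → ‖Ps γ z‖ ≤ C * Real.exp (-(Real.exp (-z.re) / 4)) ∧
        ‖P1 z‖ ≤ C * Real.exp (-(Real.exp (-z.re) / 4)) ∧ ‖P2 z‖ ≤ C * Real.exp (-(Real.exp (-z.re) / 4)))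
    (h4 : ∀ z : ℂ, Ps γ (starRingEnd ℂ z) = starRingEnd ℂ (Ps γ z))
    (h5 : ∀ t : ℝ, γ t = Real.exp (-Real.exp (-t)) * (Ps γ (zl t)).im) : b = 27 / 16 := by
  have hd : Dt (Ps γ) P1 P2 P3 b (Real.sqrt (9 - 4 * b)) := by
    refine ⟨?_, Real.sq_sqrt (by linarith), h1, h2, h3, h4⟩
    rw [show (1 : ℝ) = Real.sqrt 1 by simp]
    exact Real.sqrt_le_sqrt (by linarith)
  generalize Real.sqrt (9 - 4 * b) = r at hd
  have hr1 := hd.r1
  have hr2 := hd.r2
  have hmu := mu_pos hd
  obtain ⟨α, hα, C, ha⟩ := exists_alpha hd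
  have hg := Gm_lim h5 (by linarith) ha
  obtain ⟨D, hD0, hD⟩ := Gm_bd hd h5 ha
  have hpi := Real.pi_pos
  rcases hr1.lt_or_eq with hlt | heq
  · -- μ < 1
    have l1 := Cl_lim hlt ha
    have l2 := (int_lim h.meas (by linarith) hlt hg (fun t => (hD t).1)).const_mul (1 / Real.pi)
    have l3 : Tendsto (fun x : ℝ => Real.exp ((3 - r) / 2 * x) *
        (1 / Real.pi * ∫ t : ℝ, γ t / (1 + Real.exp (x - t)))) atTop
        (𝓝 (1 / Real.pi * (α * Real.sin ((3 - r) / 2 * (Real.pi / 3)) *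
          (Real.pi / Real.sin (Real.pi * ((3 - r) / 2)))))) := by
      refine l2.congr fun x => ?_
      ring
    have l4 := tendsto_nhds_unique l1 l3
    set m := (3 - r) / 2 with hm
    have hm1 : m < 1 := by rw [hm]; linarith
    have hs : 0 < Real.sin (Real.pi * m) := Real.sin_pos_of_pos_of_lt_pi (by positivity) (by nlinarith)
    have l5 : Real.sin (Real.pi * m) = Real.sin (m * (Real.pi / 3)) := by
      have : α * Real.sin (Real.pi * m) = α * Real.sin (m * (Real.pi / 3)) := by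
        have e := congrArg (fun y => y * Real.sin (Real.pi * m)) l4
        refine e.trans ?_
        field_simp
      exact mul_left_cancel₀ hα this
    have l6 : Real.sin (Real.pi * m) - Real.sin (m * (Real.pi / 3)) =
        2 * Real.sin (Real.pi * m / 3) * Real.cos (2 * Real.pi * m / 3) := by
      rw [Real.sin_sub_sin]
      congr 2
      · congr 1; ring
      · ring
    have hs3 : 0 < Real.sin (Real.pi * m / 3) := by
      refine Real.sin_pos_of_pos_of_lt_pi (by positivity) ?_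
      nlinarith
    have l7 : Real.cos (2 * Real.pi * m / 3) = 0 := by
      rw [l5, sub_self] at l6
      have := mul_eq_zero.mp l6.symm
      rcases this with h' | h'
      · linarith
      · exact h'
    have l8 : 2 * Real.pi * m / 3 = Real.pi / 2 := by
      refine Real.injOn_cos ⟨by positivity, ?_⟩ ⟨by positivity, by linarith⟩ (by rw [l7, Real.cos_pi_div_two])
      nlinarith
    have l9 : m = 3 / 4 := by
      have : Real.pi * (m - 3 / 4) = 0 := by linarith
      rcases mul_eq_zero.mp this with h' | h'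
      · exact absurd h' hpi.ne'
      · linarith
    have hr : r = 3 / 2 := by rw [hm] at l9; linarith
    rw [hr] at hr2
    linarith
  · -- μ = 1
    exfalso
    subst heq
    have hi : ∀ x : ℝ, Integrable fun t : ℝ => γ t / (1 + Real.exp (x - t)) := by
      intro x
      have hG : Measurable γ := h.meas
      have hb1 : Integrable fun t : ℝ => Real.exp (1 / 2 * (x - t)) / (1 + Real.exp (x - t)) :=
        (P2W.base_integrable (s := 1 / 2) (by norm_num) (by norm_num)).comp_sub_left x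
      obtain ⟨M, hM⟩ := h.bd
      refine (hb1.const_mul (M * Real.exp (-(1 / 2 * x)))).mono' ?_ ?_
      · have : Measurable fun t : ℝ => γ t / (1 + Real.exp (x - t)) := by fun_prop
        exact this.aestronglyMeasurable
      · refine Eventually.of_forall fun t => ?_
        have h6 : 0 < 1 + Real.exp (x - t) := by positivity
        rw [Real.norm_eq_abs, abs_div, abs_of_pos h6, ← mul_div_assoc]
        refine div_le_div_of_nonneg_right ?_ h6.le
        refine (hM t).trans (le_of_eq ?_)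
        rw [mul_assoc, ← Real.exp_add]
        congr 2
        ring
    have hB : ∃ B : ℝ, ∀ x : ℝ, 0 ≤ x → |Real.exp x * ∫ t : ℝ, γ t / (1 + Real.exp (x - t))| ≤ B := by
      have hC0 : 0 ≤ C := by
        have := (norm_nonneg _).trans (ha 0 (by simpa using ofReal_mem (t := 0) le_rfl))
        simpa using this
      refine ⟨Real.pi * (Real.exp 1 * (|α| + C) + 2), fun x hx => ?_⟩
      have e := Cl_from_S (γ := γ) (r := 1) x
      have e3 : (3 - 1 : ℝ) / 2 * x = x := by ring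
      have b1 : |(Complex.exp (((3 - 1) / 2 : ℝ) * (x : ℂ)) * (Ps γ x - 1)).re| ≤ |α| + C := by
        refine (Complex.abs_re_le_norm _).trans ?_
        have h6 := ha (x : ℂ) (ofReal_mem hx)
        have h7 : C * Real.exp (-(1 * (x : ℂ).re)) ≤ C := by
          refine mul_le_of_le_one_right hC0 ?_
          rw [Real.exp_le_one_iff, Complex.ofReal_re]
          linarith
        calc ‖Complex.exp (((3 - 1) / 2 : ℝ) * (x : ℂ)) * (Ps γ x - 1)‖
            = ‖(α : ℂ) + (Complex.exp (((3 - 1) / 2 : ℝ) * (x : ℂ)) * (Ps γ x - 1) - α)‖ := by congr 1; ring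
          _ ≤ ‖(α : ℂ)‖ + ‖Complex.exp (((3 - 1) / 2 : ℝ) * (x : ℂ)) * (Ps γ x - 1) - α‖ := norm_add_le _ _
          _ ≤ |α| + C := by
              rw [Complex.norm_real, Real.norm_eq_abs]
              linarith
      have b2 := exp_sub_le (m := (3 - 1) / 2) hx
      have b3 : Real.exp (Real.exp (-x)) ≤ Real.exp 1 := by
        apply Real.exp_le_exp.mpr
        rw [Real.exp_le_one_iff]; linarith
      have b4 : |Real.exp ((3 - 1) / 2 * x) * (1 / Real.pi * ∫ t : ℝ, γ t / (1 + Real.exp (x - t)))| ≤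
          Real.exp 1 * (|α| + C) + 2 := by
        rw [e]
        refine (abs_add_le _ _).trans ?_
        refine add_le_add ?_ ?_
        · rw [abs_mul, abs_of_pos (Real.exp_pos _)]
          exact mul_le_mul b3 b1 (abs_nonneg _) (Real.exp_pos _).le
        · refine b2.trans ?_
          have : Real.exp (-((1 - (3 - 1) / 2) * x)) ≤ 1 := by
            rw [Real.exp_le_one_iff]
            norm_num
          linarith
      rw [e3] at b4
      have e4 : Real.exp x * ∫ t : ℝ, γ t / (1 + Real.exp (x - t)) =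
          Real.pi * (Real.exp x * (1 / Real.pi * ∫ t : ℝ, γ t / (1 + Real.exp (x - t)))) := by
        field_simp
      rw [e4, abs_mul, abs_of_pos hpi]
      exact mul_le_mul_of_nonneg_left b4 hpi.le
    obtain ⟨B, hB⟩ := hB
    have hD' : ∀ t, |Gm γ 1 t| ≤ D * Real.exp t := by
      intro t
      have := (hD t).2
      rwa [show (3 - 1 : ℝ) / 2 * t = t by ring] at this
    have hs : 0 < Real.sin ((3 - 1) / 2 * (Real.pi / 3)) := by
      refine Real.sin_pos_of_pos_of_lt_pi (by positivity) (by linarith)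
    rcases lt_or_gt_of_ne hα with hneg | hpos
    · -- replace γ by -γ
      have hGn : Gm (fun t => -γ t) 1 = fun t => -Gm γ 1 t := by
        funext t
        unfold Gm
        ring
      refine r_ne_one (γ := fun t => -γ t) (g := -(α * Real.sin ((3 - 1) / 2 * (Real.pi / 3)))) (D := D) (B := B)
        h.meas.neg ?_ ?_ ?_ hD0 ?_ ?_
      · intro x
        refine (hi x).neg.congr (Eventually.of_forall fun t => ?_)
        change -(γ t / (1 + Real.exp (x - t))) = -γ t / (1 + Real.exp (x - t))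
        rw [neg_div]
      · rw [hGn]
        exact hg.neg
      · nlinarith
      · intro t
        rw [hGn]
        simpa using hD' t
      · intro x hx
        have : ∫ t : ℝ, -γ t / (1 + Real.exp (x - t)) = -∫ t : ℝ, γ t / (1 + Real.exp (x - t)) := by
          rw [← integral_neg]
          refine integral_congr_ae (Eventually.of_forall fun t => ?_)
          simp only [neg_div]
        rw [this, mul_neg, abs_neg]
        exact hB x hx
    · exact r_ne_one h.meas hi hg (by positivity) hD0 hD' hB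

end CenC
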