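import Pool.Agent.CenC.Uniq

/-!
# CENC (board/CENC), module O: the third-order equation of the limit problem
-/

set_option autoImplicit false

namespace CenC

namespace Od

open MeasureTheory Filter Topology EXS

/-! ### the kernel -/

theorem den_lb (z : ℂ) (t : ℝ) (h : |z.im| ≤ Real.pi) :
    Real.cos (z.im / 2) * (1 + Real.exp (z.re - t)) ≤ ‖1 + Complex.exp (z - (t : ℂ))‖ := by
  have hc : 0 ≤ Real.cos (z.im / 2) := by
    apply Real.cos_nonneg_of_neg_pi_div_two_le_of_le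
    · have := (abs_le.mp h).1; linarith
    · have := (abs_le.mp h).2; linarith
  have hu : 0 < Real.exp (z.re - t) := Real.exp_pos _
  apply (pow_le_pow_iff_left₀ (by positivity) (norm_nonneg _) two_ne_zero).mp
  rw [← Complex.normSq_eq_norm_sq, Complex.normSq_apply]
  have e1 : (1 + Complex.exp (z - (t : ℂ))).re = 1 + Real.exp (z.re - t) * Real.cos z.im := by
    simp [Complex.exp_re]
  have e2 : (1 + Complex.exp (z - (t : ℂ))).im = Real.exp (z.re - t) * Real.sin z.im := by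
    simp [Complex.exp_im]
  rw [e1, e2]
  have e3 : Real.cos z.im = 2 * Real.cos (z.im / 2) ^ 2 - 1 := by
    rw [← Real.cos_two_mul]; congr 1; ring
  have e4 : Real.sin z.im ^ 2 = 1 - Real.cos z.im ^ 2 := by
    have := Real.sin_sq_add_cos_sq z.im; linarith
  have e5 : Real.cos (z.im / 2) ^ 2 ≤ 1 := by
    have := Real.sin_sq_add_cos_sq (z.im / 2); nlinarith [sq_nonneg (Real.sin (z.im / 2))]
  set u := Real.exp (z.re - t)
  set c := Real.cos (z.im / 2)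
  have e6 : (1 + u * Real.cos z.im) * (1 + u * Real.cos z.im) + u * Real.sin z.im * (u * Real.sin z.im) =
      1 + 2 * u * Real.cos z.im + u ^ 2 := by
    have : u * Real.sin z.im * (u * Real.sin z.im) = u ^ 2 * Real.sin z.im ^ 2 := by ring
    rw [this, e4]; ring
  rw [e6, e3]
  nlinarith [mul_nonneg (sub_nonneg.mpr e5) (sq_nonneg (1 - u))]

theorem cos_half_pos {θ : ℝ} (h0 : 0 ≤ θ) (h : θ < Real.pi) : 0 < Real.cos (θ / 2) :=
  Real.cos_pos_of_mem_Ioo ⟨by linarith [Real.pi_pos], by linarith⟩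

/-- uniform version -/
theorem den_lb' {θ : ℝ} (hθ : θ ≤ Real.pi) (z : ℂ) (hz : |z.im| ≤ θ) (t : ℝ) :
    Real.cos (θ / 2) * (1 + Real.exp (z.re - t)) ≤ ‖1 + Complex.exp (z - (t : ℂ))‖ := by
  refine le_trans ?_ (den_lb z t (hz.trans hθ))
  apply mul_le_mul_of_nonneg_right _ (by positivity)
  rw [← Real.cos_abs (z.im / 2), abs_div, abs_two]
  apply Real.cos_le_cos_of_nonneg_of_le_pi (by positivity) (by linarith [Real.pi_pos]) (by linarith)

theorem den_ne (z : ℂ) (t : ℝ) (h : |z.im| < Real.pi) : 1 + Complex.exp (z - (t : ℂ)) ≠ 0 := by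
  intro h0
  have h1 := den_lb' (θ := |z.im|) h.le z le_rfl t
  rw [h0, norm_zero] at h1
  have h2 := cos_half_pos (abs_nonneg z.im) h
  have h3 := Real.exp_pos (z.re - t)
  nlinarith

theorem ker1_bd {θ : ℝ} (h0 : 0 ≤ θ) (hθ : θ < Real.pi) (z : ℂ) (hz : |z.im| ≤ θ) (t : ℝ) :
    ‖(1 + Complex.exp (z - (t : ℂ)))⁻¹‖ ≤ (Real.cos (θ / 2))⁻¹ / (1 + Real.exp (z.re - t)) := by
  have h1 := den_lb' hθ.le z hz t
  have h2 := cos_half_pos h0 hθ
  have h3 : 0 < 1 + Real.exp (z.re - t) := by positivity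
  rw [norm_inv, div_eq_mul_inv, ← mul_inv]
  exact inv_anti₀ (by positivity) h1

theorem ker2_bd {θ : ℝ} (h0 : 0 ≤ θ) (hθ : θ < Real.pi) (z : ℂ) (hz : |z.im| ≤ θ) (t : ℝ) :
    ‖Complex.exp (z - (t : ℂ)) / (1 + Complex.exp (z - (t : ℂ))) ^ 2‖ ≤
      ((Real.cos (θ / 2))⁻¹) ^ 2 / (1 + Real.exp (z.re - t)) := by
  have h1 := ker1_bd h0 hθ z hz t
  have h2 := cos_half_pos h0 hθ
  have h3 : 0 < 1 + Real.exp (z.re - t) := by positivity
  have h4 : ‖Complex.exp (z - (t : ℂ))‖ = Real.exp (z.re - t) := by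
    rw [Complex.norm_exp]; simp
  rw [div_eq_mul_inv, norm_mul, ← inv_pow, norm_pow, h4]
  have h5 : ‖(1 + Complex.exp (z - (t : ℂ)))⁻¹‖ ^ 2 ≤ ((Real.cos (θ / 2))⁻¹ / (1 + Real.exp (z.re - t))) ^ 2 :=
    pow_le_pow_left₀ (norm_nonneg _) h1 2
  refine (mul_le_mul_of_nonneg_left h5 (Real.exp_pos _).le).trans ?_
  rw [div_pow, ← mul_div_assoc, div_le_div_iff₀ (by positivity) h3]
  have h6 : 0 ≤ ((Real.cos (θ / 2))⁻¹) ^ 2 := by positivity
  nlinarith [Real.exp_pos (z.re - t), mul_nonneg h6 h3.le]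

theorem meas_ker1 (z : ℂ) : Measurable (fun t : ℝ => (1 + Complex.exp (z - (t : ℂ)))⁻¹) := by
  fun_prop

theorem meas_ker2 (z : ℂ) :
    Measurable (fun t : ℝ => Complex.exp (z - (t : ℂ)) / (1 + Complex.exp (z - (t : ℂ))) ^ 2) := by
  fun_prop

theorem int_ea : Integrable (fun t : ℝ => Real.exp (-(|t| / 2))) := by
  rw [← integrableOn_univ, ← Set.Iic_union_Ioi (a := (0 : ℝ))]
  apply IntegrableOn.union
  · refine (integrableOn_exp_mul_Iic (a := 1 / 2) (by norm_num) 0).congr_fun ?_ measurableSet_Iic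
    intro t ht
    simp only [Set.mem_Iic] at ht
    show Real.exp (1 / 2 * t) = Real.exp (-(|t| / 2))
    rw [abs_of_nonpos ht]; congr 1; ring
  · refine (integrableOn_exp_mul_Ioi (a := -(1 / 2)) (by norm_num) 0).congr_fun ?_ measurableSet_Ioi
    intro t ht
    simp only [Set.mem_Ioi] at ht
    show Real.exp (-(1 / 2) * t) = Real.exp (-(|t| / 2))
    rw [abs_of_pos ht]; congr 1; ring

theorem half_ker (x t : ℝ) : Real.exp (-(t / 2)) / (1 + Real.exp (x - t)) ≤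
    Real.exp (-(x / 2)) * Real.exp (-(|t - x| / 2)) := by
  rw [div_le_iff₀ (by positivity)]
  rcases le_total x t with h | h
  · rw [abs_of_nonneg (by linarith)]
    have e1 : Real.exp (-(x / 2)) * Real.exp (-((t - x) / 2)) = Real.exp (-(t / 2)) := by
      rw [← Real.exp_add]; congr 1; ring
    rw [e1]
    nlinarith [Real.exp_pos (-(t / 2)), Real.exp_pos (x - t), mul_pos (Real.exp_pos (-(t / 2))) (Real.exp_pos (x - t))]
  · rw [abs_of_nonpos (by linarith)]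
    have e1 : Real.exp (-(x / 2)) * Real.exp (-(-(t - x) / 2)) * Real.exp (x - t) = Real.exp (-(t / 2)) := by
      rw [← Real.exp_add, ← Real.exp_add]; congr 1; ring
    have e2 : 0 < Real.exp (-(x / 2)) * Real.exp (-(-(t - x) / 2)) := by positivity
    nlinarith

/-- bound of a kernel integral -/
theorem ker_bd {f : ℝ → ℝ} {M c x : ℝ} (hc : 0 ≤ c) (hb : ∀ t, |f t| ≤ M * Real.exp (-(t / 2))) {G : ℝ → ℂ}
    (hG : ∀ t : ℝ, ‖G t‖ ≤ c / (1 + Real.exp (x - t))) :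
    ‖∫ t : ℝ, (f t : ℂ) * G t‖ ≤ M * c * (∫ t : ℝ, Real.exp (-(|t| / 2))) * Real.exp (-(x / 2)) := by
  have hM : 0 ≤ M := by
    have := hb 0
    simp at this
    exact (abs_nonneg _).trans this
  have h1 : Integrable (fun t : ℝ => M * c * Real.exp (-(x / 2)) * Real.exp (-(|t - x| / 2))) :=
    (int_ea.comp_sub_right x).const_mul _
  have h2 : ∫ t : ℝ, M * c * Real.exp (-(x / 2)) * Real.exp (-(|t - x| / 2)) =
      M * c * (∫ t : ℝ, Real.exp (-(|t| / 2))) * Real.exp (-(x / 2)) := by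
    rw [integral_const_mul, integral_sub_right_eq_self (fun t : ℝ => Real.exp (-(|t| / 2))) x]
    ring
  rw [← h2]
  apply norm_integral_le_of_norm_le h1
  filter_upwards with t
  rw [norm_mul, Complex.norm_real, Real.norm_eq_abs]
  calc |f t| * ‖G t‖ ≤ (M * Real.exp (-(t / 2))) * (c / (1 + Real.exp (x - t))) := by
        apply mul_le_mul (hb t) (hG t) (norm_nonneg _)
        positivity
    _ = M * c * (Real.exp (-(t / 2)) / (1 + Real.exp (x - t))) := by ring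
    _ ≤ M * c * (Real.exp (-(x / 2)) * Real.exp (-(|t - x| / 2))) := by
        apply mul_le_mul_of_nonneg_left (half_ker x t)
        positivity
    _ = _ := by ring

/-- the derivative of the Cauchy transform -/
noncomputable def Dl (f : ℝ → ℝ) (z : ℂ) : ℂ :=
  -(((1 / Real.pi : ℝ) : ℂ) * ∫ t : ℝ, (f t : ℂ) *
    (Complex.exp (z - (t : ℂ)) / (1 + Complex.exp (z - (t : ℂ))) ^ 2))

theorem Cl_eq (f : ℝ → ℝ) (z : ℂ) : Cl f z =
    ((1 / Real.pi : ℝ) : ℂ) * ∫ t : ℝ, (f t : ℂ) * (1 + Complex.exp (z - (t : ℂ)))⁻¹ := by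
  simp only [Cl, div_eq_mul_inv]

theorem Cl_bd {θ : ℝ} (h0 : 0 ≤ θ) (hθ : θ < Real.pi) {f : ℝ → ℝ} {M : ℝ}
    (hb : ∀ t, |f t| ≤ M * Real.exp (-(t / 2))) : ∃ C : ℝ, 0 ≤ C ∧ ∀ z : ℂ, |z.im| ≤ θ →
    ‖Cl f z‖ ≤ C * Real.exp (-(z.re / 2)) ∧ ‖Dl f z‖ ≤ C * Real.exp (-(z.re / 2)) := by
  have hM : 0 ≤ M := by
    have := hb 0
    simp at this
    exact (abs_nonneg _).trans this
  have hc := cos_half_pos h0 hθ
  have hI : 0 ≤ ∫ t : ℝ, Real.exp (-(|t| / 2)) := integral_nonneg fun t => (Real.exp_pos _).le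
  set c := (Real.cos (θ / 2))⁻¹ with hcd
  have hc' : 0 < c := by positivity
  set I := ∫ t : ℝ, Real.exp (-(|t| / 2))
  have hp := Real.pi_pos
  refine ⟨(1 / Real.pi) * (M * (c + c ^ 2) * I), by positivity, fun z hz => ⟨?_, ?_⟩⟩
  · rw [Cl_eq, norm_mul, Complex.norm_real, Real.norm_eq_abs, abs_of_pos (by positivity)]
    have h1 := ker_bd hc'.le hb (fun t => ker1_bd h0 hθ z hz t)
    rw [mul_assoc]
    apply mul_le_mul_of_nonneg_left _ (by positivity)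
    refine h1.trans ?_
    have : 0 ≤ M * c ^ 2 * I * Real.exp (-(z.re / 2)) := by positivity
    calc M * c * I * Real.exp (-(z.re / 2)) ≤ M * c * I * Real.exp (-(z.re / 2)) +
          M * c ^ 2 * I * Real.exp (-(z.re / 2)) := by linarith
      _ = _ := by ring
  · rw [Dl, norm_neg, norm_mul, Complex.norm_real, Real.norm_eq_abs, abs_of_pos (by positivity)]
    have h1 := ker_bd (by positivity : 0 ≤ c ^ 2) hb (fun t => ker2_bd h0 hθ z hz t)
    rw [mul_assoc]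
    apply mul_le_mul_of_nonneg_left _ (by positivity)
    refine h1.trans ?_
    have : 0 ≤ M * c * I * Real.exp (-(z.re / 2)) := by positivity
    calc M * c ^ 2 * I * Real.exp (-(z.re / 2)) ≤ M * c * I * Real.exp (-(z.re / 2)) +
          M * c ^ 2 * I * Real.exp (-(z.re / 2)) := by linarith
      _ = _ := by ring

theorem int_ker {f : ℝ → ℝ} (hf : Integrable f) {G : ℝ → ℂ} (hG : Measurable G) {c : ℝ} (h : ∀ t, ‖G t‖ ≤ c) :
    Integrable (fun t => (f t : ℂ) * G t) := by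
  refine (hf.norm.mul_const c).mono' ?_ ?_
  · exact (Complex.continuous_ofReal.comp_aestronglyMeasurable hf.1).mul hG.aestronglyMeasurable
  · filter_upwards with t
    rw [norm_mul, Complex.norm_real]
    exact mul_le_mul_of_nonneg_left (h t) (norm_nonneg _)

theorem ker1_bd' {θ : ℝ} (h0 : 0 ≤ θ) (hθ : θ < Real.pi) (z : ℂ) (hz : |z.im| ≤ θ) (t : ℝ) :
    ‖(1 + Complex.exp (z - (t : ℂ)))⁻¹‖ ≤ (Real.cos (θ / 2))⁻¹ := by
  refine (ker1_bd h0 hθ z hz t).trans ?_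
  have hc := cos_half_pos h0 hθ
  apply div_le_self (by positivity)
  have := Real.exp_pos (z.re - t); linarith

theorem ker2_bd' {θ : ℝ} (h0 : 0 ≤ θ) (hθ : θ < Real.pi) (z : ℂ) (hz : |z.im| ≤ θ) (t : ℝ) :
    ‖Complex.exp (z - (t : ℂ)) / (1 + Complex.exp (z - (t : ℂ))) ^ 2‖ ≤ ((Real.cos (θ / 2))⁻¹) ^ 2 := by
  refine (ker2_bd h0 hθ z hz t).trans ?_
  have hc := cos_half_pos h0 hθ
  apply div_le_self (by positivity)
  have := Real.exp_pos (z.re - t); linarith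

theorem int_k1 {f : ℝ → ℝ} (hf : Integrable f) {z : ℂ} (hz : |z.im| < Real.pi) :
    Integrable (fun t => (f t : ℂ) * (1 + Complex.exp (z - (t : ℂ)))⁻¹) :=
  int_ker hf (meas_ker1 z) (fun t => ker1_bd' (abs_nonneg z.im) hz z le_rfl t)

theorem int_k2 {f : ℝ → ℝ} (hf : Integrable f) {z : ℂ} (hz : |z.im| < Real.pi) :
    Integrable (fun t => (f t : ℂ) * (Complex.exp (z - (t : ℂ)) / (1 + Complex.exp (z - (t : ℂ))) ^ 2)) :=
  int_ker hf (meas_ker2 z) (fun t => ker2_bd' (abs_nonneg z.im) hz z le_rfl t)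

theorem hasDerivAt_Cl {f : ℝ → ℝ} (hf : Integrable f) {z : ℂ} (hz : |z.im| < Real.pi) :
    HasDerivAt (Cl f) (Dl f z) z := by
  set θ := (|z.im| + Real.pi) / 2 with hθd
  have h0 : 0 ≤ θ := by have := abs_nonneg z.im; have := Real.pi_pos; rw [hθd]; linarith
  have hθ : θ < Real.pi := by rw [hθd]; linarith
  have hzθ : |z.im| < θ := by rw [hθd]; linarith
  have hs : {w : ℂ | |w.im| < θ} ∈ 𝓝 z := by
    apply IsOpen.mem_nhds
    · exact isOpen_lt (continuous_abs.comp Complex.continuous_im) continuous_const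
    · exact hzθ
  have h := hasDerivAt_integral_of_dominated_loc_of_deriv_le (μ := volume) (𝕜 := ℂ) (E := ℂ)
    (F := fun (w : ℂ) (t : ℝ) => (f t : ℂ) * (1 + Complex.exp (w - (t : ℂ)))⁻¹)
    (F' := fun (w : ℂ) (t : ℝ) => -((f t : ℂ) * (Complex.exp (w - (t : ℂ)) / (1 + Complex.exp (w - (t : ℂ))) ^ 2)))
    (x₀ := z) (bound := fun t => ‖f t‖ * ((Real.cos (θ / 2))⁻¹) ^ 2) hs
    (Eventually.of_forall fun w => ((Complex.continuous_ofReal.comp_aestronglyMeasurable hf.1).mul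
      (meas_ker1 w).aestronglyMeasurable))
    (int_k1 hf hz)
    ((Complex.continuous_ofReal.comp_aestronglyMeasurable hf.1).mul
      (meas_ker2 z).aestronglyMeasurable).neg
    (by
      filter_upwards with t
      intro w hw
      rw [norm_neg, norm_mul, Complex.norm_real]
      exact mul_le_mul_of_nonneg_left (ker2_bd' h0 hθ w (le_of_lt hw) t) (norm_nonneg _))
    (hf.norm.mul_const _)
    (by
      filter_upwards with t
      intro w hw
      have hw' : |w.im| < Real.pi := lt_trans hw hθ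
      have hne := den_ne w t hw'
      have h1 : HasDerivAt (fun w : ℂ => 1 + Complex.exp (w - (t : ℂ))) (Complex.exp (w - (t : ℂ))) w := by
        have h2 : HasDerivAt (fun w : ℂ => w - (t : ℂ)) 1 w := (hasDerivAt_id w).sub_const _
        have h3 := h2.cexp.const_add (1 : ℂ)
        simpa using h3
      have h4 : HasDerivAt (fun w : ℂ => (f t : ℂ) * (1 + Complex.exp (w - (t : ℂ)))⁻¹)
          ((f t : ℂ) * (-Complex.exp (w - (t : ℂ)) / (1 + Complex.exp (w - (t : ℂ))) ^ 2)) w :=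
        (h1.inv hne).const_mul ((f t : ℂ))
      refine h4.congr_deriv ?_
      ring)
  have h5 := h.2.const_mul (((1 / Real.pi : ℝ) : ℂ))
  have e1 : Cl f = fun w : ℂ => ((1 / Real.pi : ℝ) : ℂ) * ∫ t : ℝ, (f t : ℂ) * (1 + Complex.exp (w - (t : ℂ)))⁻¹ := by
    funext w; exact Cl_eq f w
  rw [e1]
  refine h5.congr_deriv ?_
  rw [integral_neg, Dl]
  ring

/-! ### rapidly decaying functions -/

/-- every `e^{-kt} f` is `O(e^{-t/2})` -/
structure Dc (f : ℝ → ℝ) : Prop where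
  meas : Measurable f
  dec : ∀ k : ℕ, ∃ C : ℝ, ∀ t : ℝ, |f t| * Real.exp (-((k : ℝ) * t)) ≤ C * Real.exp (-(t / 2))

theorem Dc.bd {f : ℝ → ℝ} (h : Dc f) : ∃ M : ℝ, ∀ t : ℝ, |f t| ≤ M * Real.exp (-(t / 2)) := by
  obtain ⟨C, hC⟩ := h.dec 0
  exact ⟨C, fun t => by simpa using hC t⟩

theorem Dc.dec' {f : ℝ → ℝ} (h : Dc f) (k : ℕ) : ∃ C : ℝ, ∀ t : ℝ,
    |Real.exp (-((k : ℝ) * t)) * f t| ≤ C * Real.exp (-(|t| / 2)) := by
  obtain ⟨C, hC⟩ := h.dec k
  obtain ⟨D, hD⟩ := h.dec (k + 1)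
  refine ⟨max C D, fun t => ?_⟩
  rw [abs_mul, abs_of_pos (Real.exp_pos _), mul_comm]
  rcases le_total 0 t with ht | ht
  · rw [abs_of_nonneg ht]
    exact (hC t).trans (mul_le_mul_of_nonneg_right (le_max_left _ _) (Real.exp_pos _).le)
  · rw [abs_of_nonpos ht]
    have h1 := mul_le_mul_of_nonneg_right (hD t) (Real.exp_pos t).le
    have e1 : |f t| * Real.exp (-(((k + 1 : ℕ) : ℝ) * t)) * Real.exp t = |f t| * Real.exp (-((k : ℝ) * t)) := by
      rw [mul_assoc, ← Real.exp_add]; congr 2; push_cast; ring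
    have e2 : D * Real.exp (-(t / 2)) * Real.exp t = D * Real.exp (-(-t / 2)) := by
      rw [mul_assoc, ← Real.exp_add]; congr 2; ring
    rw [e1, e2] at h1
    exact h1.trans (mul_le_mul_of_nonneg_right (le_max_right _ _) (Real.exp_pos _).le)

theorem Dc.int {f : ℝ → ℝ} (h : Dc f) (k : ℕ) : Integrable (fun t : ℝ => Real.exp (-((k : ℝ) * t)) * f t) := by
  obtain ⟨C, hC⟩ := h.dec' k
  refine (int_ea.const_mul C).mono' ?_ ?_
  · exact ((by fun_prop : Measurable fun t : ℝ => Real.exp (-((k : ℝ) * t))).mul h.meas).aestronglyMeasurable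
  · filter_upwards with t
    exact hC t

theorem Dc.int0 {f : ℝ → ℝ} (h : Dc f) : Integrable f := by
  simpa using h.int 0

theorem Dc.add {f g : ℝ → ℝ} (hf : Dc f) (hg : Dc g) : Dc (fun t => f t + g t) := by
  refine ⟨hf.meas.add hg.meas, fun k => ?_⟩
  obtain ⟨C, hC⟩ := hf.dec k
  obtain ⟨D, hD⟩ := hg.dec k
  refine ⟨C + D, fun t => ?_⟩
  calc |f t + g t| * Real.exp (-((k : ℝ) * t)) ≤ (|f t| + |g t|) * Real.exp (-((k : ℝ) * t)) :=
        mul_le_mul_of_nonneg_right (abs_add_le _ _) (Real.exp_pos _).le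
    _ ≤ _ := by rw [add_mul, add_mul]; exact add_le_add (hC t) (hD t)

theorem Dc.smul {f : ℝ → ℝ} (hf : Dc f) (c : ℝ) : Dc (fun t => c * f t) := by
  refine ⟨hf.meas.const_mul c, fun k => ?_⟩
  obtain ⟨C, hC⟩ := hf.dec k
  refine ⟨|c| * C, fun t => ?_⟩
  rw [abs_mul, mul_assoc, mul_assoc]
  exact mul_le_mul_of_nonneg_left (hC t) (abs_nonneg _)

theorem Dc.emul {f : ℝ → ℝ} (hf : Dc f) : Dc (fun t => Real.exp (-t) * f t) := by
  refine ⟨(by fun_prop : Measurable fun t : ℝ => Real.exp (-t)).mul hf.meas, fun k => ?_⟩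
  obtain ⟨C, hC⟩ := hf.dec (k + 1)
  refine ⟨C, fun t => ?_⟩
  refine le_trans (le_of_eq ?_) (hC t)
  rw [abs_mul, abs_of_pos (Real.exp_pos _)]
  have : Real.exp (-(((k + 1 : ℕ) : ℝ) * t)) = Real.exp (-t) * Real.exp (-((k : ℝ) * t)) := by
    rw [← Real.exp_add]; congr 1; push_cast; ring
  rw [this]; ring

/-! ### the weight -/

theorem wl_arg (t : ℝ) : (-((1 + Complex.exp (((Real.pi / 3 : ℝ) : ℂ) * Complex.I)) * ((Real.exp (-t) : ℝ) : ℂ))) =
    ((-(3 / 2) * Real.exp (-t) : ℝ) : ℂ) + ((-(Real.sqrt 3 / 2) * Real.exp (-t) : ℝ) : ℂ) * Complex.I := by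
  rw [Complex.exp_mul_I, ← Complex.ofReal_cos, ← Complex.ofReal_sin, Real.cos_pi_div_three, Real.sin_pi_div_three]
  push_cast
  ring

theorem norm_wl (t : ℝ) : ‖wl t‖ = Real.exp (-(3 / 2) * Real.exp (-t)) := by
  rw [wl, wl_arg, Complex.norm_exp]
  simp only [Complex.add_re, Complex.ofReal_re, Complex.mul_re, Complex.I_re, mul_zero, Complex.ofReal_im,
    Complex.I_im, zero_mul, sub_self, add_zero]

theorem im_wl (t : ℝ) : |(wl t).im| ≤ Real.exp (-t) * ‖wl t‖ := by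
  rw [norm_wl, wl, wl_arg, Complex.exp_im]
  simp only [Complex.add_re, Complex.ofReal_re, Complex.mul_re, Complex.I_re, mul_zero, Complex.ofReal_im,
    Complex.I_im, mul_one, sub_self, add_zero, Complex.add_im, Complex.mul_im, zero_add]
  rw [abs_mul, abs_of_pos (Real.exp_pos _), mul_comm]
  apply mul_le_mul_of_nonneg_right _ (Real.exp_pos _).le
  refine (Real.abs_sin_le_abs).trans ?_
  rw [abs_mul, abs_of_pos (Real.exp_pos _), abs_neg, abs_of_pos (by positivity)]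
  have h3 : Real.sqrt 3 ≤ 2 := by
    rw [show (2 : ℝ) = Real.sqrt 4 by rw [show (4 : ℝ) = 2 ^ 2 by norm_num]; simp]
    exact Real.sqrt_le_sqrt (by norm_num)
  nlinarith [Real.exp_pos (-t)]

theorem wl_bd (n : ℕ) (t : ℝ) : ‖wl t‖ * Real.exp (-((n : ℝ) * t)) ≤ (n.factorial : ℝ) := by
  rw [norm_wl]
  have h1 := Real.pow_div_factorial_le_exp (Real.exp (-t)) (Real.exp_pos _).le n
  have e1 : Real.exp (-((n : ℝ) * t)) = Real.exp (-t) ^ n := by
    rw [← Real.exp_nat_mul]; congr 1; ring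
  have hf : 0 < (n.factorial : ℝ) := by positivity
  rw [div_le_iff₀ hf] at h1
  rw [e1]
  have h2 : Real.exp (-(3 / 2) * Real.exp (-t)) * Real.exp (Real.exp (-t)) ≤ 1 := by
    rw [← Real.exp_add, Real.exp_le_one_iff]
    nlinarith [Real.exp_pos (-t)]
  calc Real.exp (-(3 / 2) * Real.exp (-t)) * Real.exp (-t) ^ n ≤
        Real.exp (-(3 / 2) * Real.exp (-t)) * (Real.exp (Real.exp (-t)) * n.factorial) :=
        mul_le_mul_of_nonneg_left h1 (Real.exp_pos _).le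
    _ = (Real.exp (-(3 / 2) * Real.exp (-t)) * Real.exp (Real.exp (-t))) * n.factorial := by ring
    _ ≤ 1 * n.factorial := mul_le_mul_of_nonneg_right h2 hf.le
    _ = _ := one_mul _

theorem wl_le (t : ℝ) : ‖wl t‖ ≤ 1 := by simpa using wl_bd 0 t

theorem wl_bd' (n : ℕ) (t : ℝ) : ‖wl t‖ * Real.exp (-(((n + 1 : ℕ) : ℝ) * t)) ≤
    ((n + 1).factorial : ℝ) * Real.exp (-(t / 2)) := by
  have hf : 1 ≤ ((n + 1).factorial : ℝ) := by exact_mod_cast Nat.succ_le_of_lt (Nat.factorial_pos _)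
  rcases le_total 0 t with ht | ht
  · have h1 : Real.exp (-(((n + 1 : ℕ) : ℝ) * t)) ≤ Real.exp (-(t / 2)) := by
      apply Real.exp_le_exp.mpr
      push_cast
      have : 0 ≤ (n : ℝ) * t := by positivity
      nlinarith
    calc ‖wl t‖ * Real.exp (-(((n + 1 : ℕ) : ℝ) * t)) ≤ 1 * Real.exp (-(t / 2)) :=
          mul_le_mul (wl_le t) h1 (Real.exp_pos _).le zero_le_one
      _ ≤ _ := mul_le_mul_of_nonneg_right hf (Real.exp_pos _).le
  · refine (wl_bd (n + 1) t).trans ?_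
    have : 1 ≤ Real.exp (-(t / 2)) := Real.one_le_exp (by linarith)
    nlinarith

/-- a function controlled by the weight is rapidly decaying -/
theorem dc_of_bd {g : ℝ → ℝ} (hm : Measurable g) {c1 c2 c3 c4 c5 : ℝ}
    (hc : 0 ≤ c1 ∧ 0 ≤ c2 ∧ 0 ≤ c3 ∧ 0 ≤ c4 ∧ 0 ≤ c5)
    (h : ∀ t : ℝ, |g t| ≤ ‖wl t‖ * (c1 * Real.exp (-t) + c2 * Real.exp (-t) ^ 2 + c3 * Real.exp (-t) ^ 3 +
      c4 * Real.exp (-(t / 2)) + c5 * (Real.exp (-t) * Real.exp (-(t / 2))))) : Dc g := by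
  obtain ⟨h1, h2, h3, h4, h5⟩ := hc
  refine ⟨hm, fun k => ?_⟩
  refine ⟨c1 * (k + 1).factorial + c2 * (k + 1 + 1).factorial + c3 * (k + 2 + 1).factorial + c4 * k.factorial +
    c5 * (k + 1).factorial, fun t => ?_⟩
  have hE : 0 < Real.exp (-((k : ℝ) * t)) := Real.exp_pos _
  refine (mul_le_mul_of_nonneg_right (h t) hE.le).trans ?_
  have a1 : Real.exp (-t) * Real.exp (-((k : ℝ) * t)) = Real.exp (-(((k + 1 : ℕ) : ℝ) * t)) := by
    rw [← Real.exp_add]; congr 1; push_cast; ring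
  have a2 : Real.exp (-t) ^ 2 * Real.exp (-((k : ℝ) * t)) = Real.exp (-(((k + 1 + 1 : ℕ) : ℝ) * t)) := by
    rw [← Real.exp_nat_mul, ← Real.exp_add]; congr 1; push_cast; ring
  have a3 : Real.exp (-t) ^ 3 * Real.exp (-((k : ℝ) * t)) = Real.exp (-(((k + 2 + 1 : ℕ) : ℝ) * t)) := by
    rw [← Real.exp_nat_mul, ← Real.exp_add]; congr 1; push_cast; ring
  have b1 := mul_le_mul_of_nonneg_left (wl_bd' k t) h1
  have b2 := mul_le_mul_of_nonneg_left (wl_bd' (k + 1) t) h2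
  have b3 := mul_le_mul_of_nonneg_left (wl_bd' (k + 2) t) h3
  have b4 := mul_le_mul_of_nonneg_left (wl_bd k t) (mul_nonneg h4 (Real.exp_pos (-(t / 2))).le)
  have b5 := mul_le_mul_of_nonneg_left (wl_bd (k + 1) t) (mul_nonneg h5 (Real.exp_pos (-(t / 2))).le)
  rw [← a1] at b1 b5
  rw [← a2] at b2
  rw [← a3] at b3
  calc ‖wl t‖ * (c1 * Real.exp (-t) + c2 * Real.exp (-t) ^ 2 + c3 * Real.exp (-t) ^ 3 +
      c4 * Real.exp (-(t / 2)) + c5 * (Real.exp (-t) * Real.exp (-(t / 2)))) * Real.exp (-((k : ℝ) * t))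
      = c1 * (‖wl t‖ * (Real.exp (-t) * Real.exp (-((k : ℝ) * t)))) +
        c2 * (‖wl t‖ * (Real.exp (-t) ^ 2 * Real.exp (-((k : ℝ) * t)))) +
        c3 * (‖wl t‖ * (Real.exp (-t) ^ 3 * Real.exp (-((k : ℝ) * t)))) +
        c4 * Real.exp (-(t / 2)) * (‖wl t‖ * Real.exp (-((k : ℝ) * t))) +
        c5 * Real.exp (-(t / 2)) * (‖wl t‖ * (Real.exp (-t) * Real.exp (-((k : ℝ) * t)))) := by ring
    _ ≤ c1 * ((k + 1).factorial * Real.exp (-(t / 2))) + c2 * ((k + 1 + 1).factorial * Real.exp (-(t / 2))) +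
        c3 * ((k + 2 + 1).factorial * Real.exp (-(t / 2))) + c4 * Real.exp (-(t / 2)) * k.factorial +
        c5 * Real.exp (-(t / 2)) * (k + 1).factorial := by linarith
    _ = _ := by ring

/-! ### algebra of the Cauchy transform and of the moments -/

theorem Cl_add {f g : ℝ → ℝ} (hf : Integrable f) (hg : Integrable g) {z : ℂ} (hz : |z.im| < Real.pi) :
    Cl (fun t => f t + g t) z = Cl f z + Cl g z := by
  rw [Cl_eq, Cl_eq, Cl_eq, ← mul_add, ← integral_add (int_k1 hf hz) (int_k1 hg hz)]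
  congr 2
  funext t
  push_cast
  ring

theorem Cl_smul (c : ℝ) (f : ℝ → ℝ) (z : ℂ) : Cl (fun t => c * f t) z = (c : ℂ) * Cl f z := by
  have h1 : ∫ t : ℝ, ((c * f t : ℝ) : ℂ) * (1 + Complex.exp (z - (t : ℂ)))⁻¹ =
      (c : ℂ) * ∫ t : ℝ, (f t : ℂ) * (1 + Complex.exp (z - (t : ℂ)))⁻¹ := by
    rw [← integral_const_mul]
    congr 1
    funext t
    push_cast
    ring
  rw [Cl_eq, Cl_eq, h1]
  ring

theorem mo_ofReal (k : ℝ) (f : ℝ → ℝ) : ((mo k f : ℝ) : ℂ) =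
    ((1 / Real.pi : ℝ) : ℂ) * ∫ t : ℝ, ((Real.exp (-(k * t)) * f t : ℝ) : ℂ) := by
  rw [mo, Complex.ofReal_mul, ← integral_complex_ofReal]

theorem Cl_emul {f : ℝ → ℝ} (hf : Dc f) {z : ℂ} (hz : |z.im| < Real.pi) :
    Complex.exp (-z) * Cl f z = ((mo 0 f : ℝ) : ℂ) * Complex.exp (-z) - Cl (fun t => Real.exp (-t) * f t) z := by
  have h1 : Integrable (fun t : ℝ => ((Real.exp (-((0 : ℝ) * t)) * f t : ℝ) : ℂ)) := by
    have := (hf.int0).ofReal (𝕜 := ℂ)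
    simpa using this
  have h2 : Integrable (fun t : ℝ => ((Real.exp (-t) * f t : ℝ) : ℂ) * (1 + Complex.exp (z - (t : ℂ)))⁻¹) :=
    int_k1 hf.emul.int0 hz
  have h3 : Complex.exp (-z) * ∫ t : ℝ, (f t : ℂ) * (1 + Complex.exp (z - (t : ℂ)))⁻¹ =
      (∫ t : ℝ, ((Real.exp (-((0 : ℝ) * t)) * f t : ℝ) : ℂ)) * Complex.exp (-z) -
        ∫ t : ℝ, ((Real.exp (-t) * f t : ℝ) : ℂ) * (1 + Complex.exp (z - (t : ℂ)))⁻¹ := by
    rw [← integral_mul_const, ← integral_sub (h1.mul_const _) h2, ← integral_const_mul]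
    congr 1
    funext t
    have hne := den_ne z t hz
    have e1 : Complex.exp (-z) * Complex.exp (z - (t : ℂ)) = ((Real.exp (-t) : ℝ) : ℂ) := by
      rw [← Complex.exp_add]; push_cast; congr 1; ring
    have e2 : Complex.exp (-z) = Complex.exp (-z) * (1 + Complex.exp (z - (t : ℂ))) * (1 + Complex.exp (z - (t : ℂ)))⁻¹ := by
      rw [mul_assoc, mul_inv_cancel₀ hne, mul_one]
    have e3 : Complex.exp (-z) = Complex.exp (-z) * (1 + Complex.exp (z - (t : ℂ)))⁻¹ +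
        ((Real.exp (-t) : ℝ) : ℂ) * (1 + Complex.exp (z - (t : ℂ)))⁻¹ := by
      conv_lhs => rw [e2]
      rw [← e1]; ring
    have e4 : ((Real.exp (-((0 : ℝ) * t)) * f t : ℝ) : ℂ) = (f t : ℂ) := by simp
    rw [e4, Complex.ofReal_mul]
    linear_combination (-(f t : ℂ)) * e3
  rw [Cl_eq, Cl_eq, mo_ofReal, mul_left_comm, h3]
  ring

theorem mo_add {f g : ℝ → ℝ} (hf : Dc f) (hg : Dc g) (k : ℕ) :
    mo k (fun t => f t + g t) = mo k f + mo k g := by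
  rw [mo, mo, mo, ← mul_add, ← integral_add (hf.int k) (hg.int k)]
  congr 2
  funext t
  ring

theorem mo_smul (c : ℝ) (f : ℝ → ℝ) (k : ℝ) : mo k (fun t => c * f t) = c * mo k f := by
  have h1 : ∫ t : ℝ, Real.exp (-(k * t)) * (c * f t) = c * ∫ t : ℝ, Real.exp (-(k * t)) * f t := by
    rw [← integral_const_mul]
    congr 1
    funext t
    ring
  rw [mo, mo, h1]
  ring

theorem mo_emul (f : ℝ → ℝ) (k : ℝ) : mo k (fun t => Real.exp (-t) * f t) = mo (k + 1) f := by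
  rw [mo, mo]
  congr 2
  funext t
  rw [← mul_assoc, ← Real.exp_add]
  congr 2
  ring

theorem mo_deriv {f f' : ℝ → ℝ} (hf : Dc f) (hf' : Dc f') (h : ∀ t, HasDerivAt f (f' t) t) (k : ℕ) :
    mo k f' = k * mo k f := by
  have hv : ∀ t : ℝ, HasDerivAt (fun t : ℝ => Real.exp (-((k : ℝ) * t))) (Real.exp (-((k : ℝ) * t)) * (-(k : ℝ))) t := by
    intro t
    have h1 : HasDerivAt (fun t : ℝ => -((k : ℝ) * t)) (-(k : ℝ)) t := by
      simpa [neg_mul] using ((hasDerivAt_id' t).const_mul (-(k : ℝ)))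
    exact h1.exp
  have i1 : Integrable (f * fun t : ℝ => Real.exp (-((k : ℝ) * t)) * (-(k : ℝ))) := by
    have := (hf.int k).mul_const (-(k : ℝ))
    refine this.congr (Eventually.of_forall fun t => ?_)
    simp only [Pi.mul_apply]; ring
  have i2 : Integrable (f' * fun t : ℝ => Real.exp (-((k : ℝ) * t))) := by
    refine (hf'.int k).congr (Eventually.of_forall fun t => ?_)
    simp only [Pi.mul_apply]; ring
  have i3 : Integrable (f * fun t : ℝ => Real.exp (-((k : ℝ) * t))) := by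
    refine (hf.int k).congr (Eventually.of_forall fun t => ?_)
    simp only [Pi.mul_apply]; ring
  have h2 := integral_mul_deriv_eq_deriv_mul_of_integrable (fun t _ => h t) (fun t _ => hv t) i1 i2 i3
  have e1 : ∫ t : ℝ, f t * (Real.exp (-((k : ℝ) * t)) * (-(k : ℝ))) =
      -(k : ℝ) * ∫ t : ℝ, Real.exp (-((k : ℝ) * t)) * f t := by
    rw [← integral_const_mul]; congr 1; funext t; ring
  have e2 : ∫ t : ℝ, f' t * Real.exp (-((k : ℝ) * t)) = ∫ t : ℝ, Real.exp (-((k : ℝ) * t)) * f' t := by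
    congr 1; funext t; ring
  rw [e1, e2] at h2
  rw [mo, mo]
  linear_combination (1 / Real.pi) * h2

theorem Dl_eq {f f' : ℝ → ℝ} (hf : Dc f) (hf' : Dc f') (h : ∀ t, HasDerivAt f (f' t) t) {z : ℂ}
    (hz : |z.im| < Real.pi) : Dl f z = Cl f' z := by
  have hu : ∀ t : ℝ, HasDerivAt (fun t : ℝ => (f t : ℂ)) ((f' t : ℝ) : ℂ) t := fun t => (h t).ofReal_comp
  have hv : ∀ t : ℝ, HasDerivAt (fun t : ℝ => (1 + Complex.exp (z - (t : ℂ)))⁻¹)
      (Complex.exp (z - (t : ℂ)) / (1 + Complex.exp (z - (t : ℂ))) ^ 2) t := by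
    intro t
    have h1 : HasDerivAt (fun t : ℝ => 1 + Complex.exp (z - (t : ℂ))) (-Complex.exp (z - (t : ℂ))) t := by
      have h2 : HasDerivAt (fun t : ℝ => z - (t : ℂ)) (-1) t := by
        simpa using (Complex.ofRealCLM.hasDerivAt (x := t)).const_sub z
      have h3 := h2.cexp.const_add (1 : ℂ)
      simpa using h3
    have h4 := h1.inv (den_ne z t hz)
    refine h4.congr_deriv ?_
    ring
  have h2 := integral_mul_deriv_eq_deriv_mul_of_integrable (fun t _ => hu t) (fun t _ => hv t)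
    (int_k2 hf.int0 hz) (int_k1 hf'.int0 hz) (int_k1 hf.int0 hz)
  rw [Dl, Cl_eq, h2]
  ring

/-! ### the ray -/

theorem zl_im (t : ℝ) : (zl t).im = -(Real.pi / 3) := by simp [zl]

theorem zl_re (t : ℝ) : (zl t).re = t := by simp [zl]

theorem zl_abs (t : ℝ) : |(zl t).im| = Real.pi / 3 := by
  rw [zl_im, abs_neg, abs_of_pos (by positivity)]

theorem zl_lt (t : ℝ) : |(zl t).im| < Real.pi := by
  rw [zl_abs]; linarith [Real.pi_pos]

theorem exp_zl (t : ℝ) : Complex.exp (-(zl t)) =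
    ((Real.exp (-t) : ℝ) : ℂ) * Complex.exp (((Real.pi / 3 : ℝ) : ℂ) * Complex.I) := by
  rw [Complex.ofReal_exp, ← Complex.exp_add, zl]
  congr 1
  push_cast
  ring

theorem norm_exp_zl (t : ℝ) : ‖Complex.exp (-(zl t))‖ = Real.exp (-t) := by
  rw [Complex.norm_exp]; simp [zl]

theorem hasDerivAt_zl (t : ℝ) : HasDerivAt zl 1 t := by
  have h := (Complex.ofRealCLM.hasDerivAt (x := t)).sub_const (((Real.pi / 3 : ℝ) : ℂ) * Complex.I)
  have e : zl = fun t : ℝ => (Complex.ofRealCLM t) - ((Real.pi / 3 : ℝ) : ℂ) * Complex.I := by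
    funext t; simp [zl]
  rw [e]
  simpa using h

theorem hasDerivAt_wl (t : ℝ) : HasDerivAt wl
    ((((Real.exp (-t) : ℝ) : ℂ) + Complex.exp (-(zl t))) * wl t) t := by
  have h1 : HasDerivAt (fun t : ℝ => ((Real.exp (-t) : ℝ) : ℂ)) (((-Real.exp (-t) : ℝ)) : ℂ) t := by
    have : HasDerivAt (fun t : ℝ => Real.exp (-t)) (-Real.exp (-t)) t := by
      have h0 : HasDerivAt (fun t : ℝ => -t) (-1) t := by simpa using (hasDerivAt_id' t).fun_neg
      simpa using h0.exp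
    exact this.ofReal_comp
  have h2 : HasDerivAt (fun t : ℝ => -((1 + Complex.exp (((Real.pi / 3 : ℝ) : ℂ) * Complex.I)) *
      ((Real.exp (-t) : ℝ) : ℂ))) (-((1 + Complex.exp (((Real.pi / 3 : ℝ) : ℂ) * Complex.I)) *
      ((-Real.exp (-t) : ℝ) : ℂ))) t := (h1.const_mul _).fun_neg
  have h3 := h2.cexp
  have e : wl = fun t : ℝ => Complex.exp (-((1 + Complex.exp (((Real.pi / 3 : ℝ) : ℂ) * Complex.I)) *
      ((Real.exp (-t) : ℝ) : ℂ))) := by funext t; rw [wl]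
  rw [e]
  refine h3.congr_deriv ?_
  rw [exp_zl]
  push_cast
  ring

/-! ### levels -/

noncomputable def Ev (a0 a1 a2 a3 : ℝ) (z : ℂ) : ℂ :=
  (a0 : ℂ) + (a1 : ℂ) * Complex.exp (-z) + (a2 : ℂ) * Complex.exp (-z) ^ 2 + (a3 : ℂ) * Complex.exp (-z) ^ 3

structure Lv (a0 a1 a2 a3 : ℝ) (g : ℝ → ℝ) : Prop where
  dc : Dc g
  eq : ∀ t : ℝ, g t = (wl t * (Ev a0 a1 a2 a3 (zl t) + Cl g (zl t))).im

theorem hasDerivAt_en (z : ℂ) : HasDerivAt (fun z : ℂ => Complex.exp (-z)) (-Complex.exp (-z)) z := by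
  have h0 : HasDerivAt (fun z : ℂ => -z) (-1) z := by simpa using (hasDerivAt_id' z).fun_neg
  simpa using h0.cexp

theorem hasDerivAt_Ev (a0 a1 a2 : ℝ) (z : ℂ) : HasDerivAt (Ev a0 a1 a2 0) (Ev 0 (-a1) (-2 * a2) 0 z) z := by
  have h := hasDerivAt_en z
  have h1 := ((h.const_mul (a1 : ℂ)).const_add (a0 : ℂ)).add ((h.fun_pow 2).const_mul (a2 : ℂ))
  have e : Ev a0 a1 a2 0 = fun z : ℂ => ((a0 : ℂ) + (a1 : ℂ) * Complex.exp (-z)) + (a2 : ℂ) * Complex.exp (-z) ^ 2 := by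
    funext w; simp [Ev]
  rw [e]
  refine h1.congr_deriv ?_
  rw [Ev]
  push_cast
  ring

theorem hasDerivAt_im {f : ℝ → ℂ} {f' : ℂ} {t : ℝ} (h : HasDerivAt f f' t) :
    HasDerivAt (fun t => (f t).im) f'.im t := by
  exact Complex.imCLM.hasFDerivAt.comp_hasDerivAt t h

theorem five_norm (a1 a2 a3 : ℝ) (q D C : ℂ) :
    ‖(a1 : ℂ) * q + (a2 : ℂ) * q ^ 2 + (a3 : ℂ) * q ^ 3 + D + q * C‖ ≤
      |a1| * ‖q‖ + |a2| * ‖q‖ ^ 2 + |a3| * ‖q‖ ^ 3 + ‖D‖ + ‖q‖ * ‖C‖ := by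
  refine (norm_add_le _ _).trans ?_
  rw [norm_mul q C]
  apply add_le_add_left
  refine (norm_add_le _ _).trans ?_
  apply add_le_add_left
  refine (norm_add_le _ _).trans ?_
  rw [norm_mul (a3 : ℂ), norm_pow, Complex.norm_real, Real.norm_eq_abs]
  apply add_le_add_left
  refine (norm_add_le _ _).trans ?_
  rw [norm_mul, norm_mul, norm_pow, Complex.norm_real, Complex.norm_real, Real.norm_eq_abs, Real.norm_eq_abs]

theorem step {a0 a1 a2 : ℝ} {g : ℝ → ℝ} (h : Lv a0 a1 a2 0 g) : ∃ g' : ℝ → ℝ,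
    Lv 0 (-a1 + a0 + mo 0 g) (-2 * a2 + a1) a2 g' ∧
    (∀ z : ℂ, |z.im| < Real.pi →
      HasDerivAt (fun z => Complex.exp (-Complex.exp (-z)) * (Ev a0 a1 a2 0 z + Cl g z))
      (Complex.exp (-Complex.exp (-z)) * (Ev 0 (-a1 + a0 + mo 0 g) (-2 * a2 + a1) a2 z + Cl g' z)) z) ∧
    ∀ k : ℕ, mo k g' = k * mo k g - mo (k + 1) g := by
  have hR : ∀ z : ℂ, |z.im| < Real.pi → HasDerivAt (fun z => Ev a0 a1 a2 0 z + Cl g z)
      (Ev 0 (-a1) (-2 * a2) 0 z + Dl g z) z := fun z hz =>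
    (hasDerivAt_Ev a0 a1 a2 z).add (hasDerivAt_Cl h.dc.int0 hz)
  -- the derivative of `g`
  have hg : ∀ t : ℝ, HasDerivAt g ((wl t * (Ev 0 (-a1) (-2 * a2) 0 (zl t) + Dl g (zl t) +
      Complex.exp (-(zl t)) * (Ev a0 a1 a2 0 (zl t) + Cl g (zl t)))).im + Real.exp (-t) * g t) t := by
    intro t
    have h1 : HasDerivAt (fun t : ℝ => Ev a0 a1 a2 0 (zl t) + Cl g (zl t))
        ((Ev 0 (-a1) (-2 * a2) 0 (zl t) + Dl g (zl t)) * 1) t :=
      (hR (zl t) (zl_lt t)).comp t (hasDerivAt_zl t)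
    have h2 := hasDerivAt_im ((hasDerivAt_wl t).mul h1)
    have e : g = fun t => (wl t * (Ev a0 a1 a2 0 (zl t) + Cl g (zl t))).im := funext h.eq
    have h3 : HasDerivAt g ((((Real.exp (-t) : ℝ) : ℂ) + Complex.exp (-(zl t))) * wl t *
        (Ev a0 a1 a2 0 (zl t) + Cl g (zl t)) + wl t * ((Ev 0 (-a1) (-2 * a2) 0 (zl t) + Dl g (zl t)) * 1)).im t := by
      conv => arg 1; rw [e]
      exact h2
    refine h3.congr_deriv ?_
    rw [h.eq t]
    have e2 : (((Real.exp (-t) : ℝ) : ℂ) + Complex.exp (-(zl t))) * wl t *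
        (Ev a0 a1 a2 0 (zl t) + Cl g (zl t)) + wl t * ((Ev 0 (-a1) (-2 * a2) 0 (zl t) + Dl g (zl t)) * 1) =
        wl t * (Ev 0 (-a1) (-2 * a2) 0 (zl t) + Dl g (zl t) +
          Complex.exp (-(zl t)) * (Ev a0 a1 a2 0 (zl t) + Cl g (zl t))) +
        ((Real.exp (-t) : ℝ) : ℂ) * (wl t * (Ev a0 a1 a2 0 (zl t) + Cl g (zl t))) := by ring
    rw [e2, Complex.add_im, Complex.im_ofReal_mul]
  have hgp : ∀ t : ℝ, deriv g t - Real.exp (-t) * g t = (wl t * (Ev 0 (-a1) (-2 * a2) 0 (zl t) + Dl g (zl t) +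
      Complex.exp (-(zl t)) * (Ev a0 a1 a2 0 (zl t) + Cl g (zl t)))).im := by
    intro t
    rw [(hg t).deriv]; ring
  obtain ⟨M, hM⟩ := h.dc.bd
  obtain ⟨C, hC0, hC⟩ := Cl_bd (θ := Real.pi / 3) (by positivity) (by linarith [Real.pi_pos]) hM
  have hmeas : Measurable (fun t => deriv g t - Real.exp (-t) * g t) :=
    (measurable_deriv g).sub h.dc.emul.meas
  have hdc : Dc (fun t => deriv g t - Real.exp (-t) * g t) := by
    apply dc_of_bd hmeas (c1 := |-a1 + a0|) (c2 := |-2 * a2 + a1|) (c3 := |a2|) (c4 := C) (c5 := C)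
      ⟨abs_nonneg _, abs_nonneg _, abs_nonneg _, hC0, hC0⟩
    intro t
    rw [hgp t]
    refine (Complex.abs_im_le_norm _).trans ?_
    rw [norm_mul]
    apply mul_le_mul_of_nonneg_left _ (norm_nonneg _)
    have e1 : Ev 0 (-a1) (-2 * a2) 0 (zl t) + Dl g (zl t) +
      Complex.exp (-(zl t)) * (Ev a0 a1 a2 0 (zl t) + Cl g (zl t)) =
      ((-a1 + a0 : ℝ) : ℂ) * Complex.exp (-(zl t)) + ((-2 * a2 + a1 : ℝ) : ℂ) * Complex.exp (-(zl t)) ^ 2 +
        (a2 : ℂ) * Complex.exp (-(zl t)) ^ 3 + Dl g (zl t) + Complex.exp (-(zl t)) * Cl g (zl t) := by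
      simp only [Ev]
      push_cast
      ring
    rw [e1]
    refine (five_norm _ _ _ _ _ _).trans ?_
    rw [norm_exp_zl]
    have h1 := hC (zl t) (zl_abs t).le
    rw [zl_re] at h1
    have h2 := mul_le_mul_of_nonneg_left h1.1 (Real.exp_pos (-t)).le
    linarith [h1.2]
  have hdd : Dc (fun t => (deriv g t - Real.exp (-t) * g t) + Real.exp (-t) * g t) := hdc.add h.dc.emul
  have hder : ∀ t, HasDerivAt g ((fun t => (deriv g t - Real.exp (-t) * g t) + Real.exp (-t) * g t) t) t := by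
    intro t
    refine (hg t).differentiableAt.hasDerivAt.congr_deriv ?_
    simp
  have hD : ∀ z : ℂ, |z.im| < Real.pi → Dl g z + Complex.exp (-z) * Cl g z =
      Cl (fun t => deriv g t - Real.exp (-t) * g t) z + ((mo 0 g : ℝ) : ℂ) * Complex.exp (-z) := by
    intro z hz
    rw [Dl_eq h.dc hdd hder hz, Cl_add hdc.int0 h.dc.emul.int0 hz, Cl_emul h.dc hz]
    ring
  have hE : ∀ z : ℂ, |z.im| < Real.pi → Ev 0 (-a1) (-2 * a2) 0 z + Dl g z +
      Complex.exp (-z) * (Ev a0 a1 a2 0 z + Cl g z) =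
      Ev 0 (-a1 + a0 + mo 0 g) (-2 * a2 + a1) a2 z + Cl (fun t => deriv g t - Real.exp (-t) * g t) z := by
    intro z hz
    have := hD z hz
    simp only [Ev]
    push_cast
    linear_combination this
  refine ⟨fun t => deriv g t - Real.exp (-t) * g t, ⟨hdc, ?_⟩, ?_, ?_⟩
  · intro t
    show deriv g t - Real.exp (-t) * g t = _
    rw [hgp t, hE (zl t) (zl_lt t)]
  · intro z hz
    have h1 := ((hasDerivAt_en z).fun_neg.cexp).mul (hR z hz)
    refine h1.congr_deriv ?_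
    rw [← hE z hz]
    ring
  · intro k
    have h1 := mo_deriv h.dc hdd hder k
    rw [mo_add hdc h.dc.emul k, mo_emul] at h1
    linarith

theorem lv0 {γ : ℝ → ℝ} (h : Sol γ) : Lv 1 0 0 0 γ := by
  obtain ⟨M, hM⟩ := h.bd
  obtain ⟨C, hC0, hC⟩ := Cl_bd (θ := Real.pi / 3) (by positivity) (by linarith [Real.pi_pos]) hM
  refine ⟨?_, fun t => ?_⟩
  · apply dc_of_bd h.meas (c1 := 1) (c2 := 0) (c3 := 0) (c4 := C) (c5 := 0)
      ⟨zero_le_one, le_rfl, le_rfl, hC0, le_rfl⟩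
    intro t
    rw [h.eq t, mul_add, mul_one, Complex.add_im]
    refine (abs_add_le _ _).trans ?_
    have h1 := hC (zl t) (zl_abs t).le
    rw [zl_re] at h1
    have h2 := im_wl t
    have h3 : |(wl t * Cl γ (zl t)).im| ≤ ‖wl t‖ * (C * Real.exp (-(t / 2))) := by
      refine (Complex.abs_im_le_norm _).trans ?_
      rw [norm_mul]
      exact mul_le_mul_of_nonneg_left h1.1 (norm_nonneg _)
    nlinarith
  · have e : Ev 1 0 0 0 (zl t) = 1 := by simp [Ev]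
    rw [e]; exact h.eq t

theorem exp_zl_cube (t : ℝ) : Complex.exp (-(zl t)) ^ 3 = -(((Real.exp (-t) * (Real.exp (-t) * Real.exp (-t)) : ℝ)) : ℂ) := by
  rw [exp_zl, mul_pow, ← Complex.exp_nat_mul]
  have e : (((3 : ℕ) : ℂ)) * (((Real.pi / 3 : ℝ) : ℂ) * Complex.I) = (Real.pi : ℂ) * Complex.I := by
    push_cast; ring
  rw [e, Complex.exp_pi_mul_I]
  push_cast
  ring

theorem norm_ee (z : ℂ) (hz : |z.im| ≤ Real.pi / 3) :
    ‖Complex.exp (-Complex.exp (-z))‖ ≤ Real.exp (-(Real.exp (-z.re) / 2)) := by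
  rw [Complex.norm_exp]
  apply Real.exp_le_exp.mpr
  have e1 : (-Complex.exp (-z)).re = -(Real.exp (-z.re) * Real.cos z.im) := by
    rw [Complex.neg_re, Complex.exp_re]; simp
  rw [e1]
  have h1 : 1 / 2 ≤ Real.cos z.im := by
    rw [← Real.cos_pi_div_three, ← Real.cos_abs z.im]
    exact Real.cos_le_cos_of_nonneg_of_le_pi (abs_nonneg _) (by linarith [Real.pi_pos]) hz
  have := Real.exp_pos (-z.re)
  nlinarith

theorem norm_ee_le (z : ℂ) (hz : |z.im| ≤ Real.pi / 3) : ‖Complex.exp (-Complex.exp (-z))‖ ≤ 1 := by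
  refine (norm_ee z hz).trans ?_
  rw [Real.exp_le_one_iff]
  have := Real.exp_pos (-z.re)
  linarith

theorem norm_en (z : ℂ) : ‖Complex.exp (-z)‖ = Real.exp (-z.re) := by
  rw [Complex.norm_exp, Complex.neg_re]

theorem norm_Ev (a0 a1 a2 a3 : ℝ) (z : ℂ) : ‖Ev a0 a1 a2 a3 z‖ ≤
    |a0| + |a1| * Real.exp (-z.re) + |a2| * Real.exp (-z.re) ^ 2 + |a3| * Real.exp (-z.re) ^ 3 := by
  rw [Ev, ← norm_en]
  refine (norm_add_le _ _).trans ?_
  rw [norm_mul (a3 : ℂ), norm_pow, Complex.norm_real, Real.norm_eq_abs]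
  apply add_le_add_left
  refine (norm_add_le _ _).trans ?_
  rw [norm_mul (a2 : ℂ), norm_pow, Complex.norm_real, Real.norm_eq_abs]
  apply add_le_add_left
  refine (norm_add_le _ _).trans ?_
  rw [norm_mul (a1 : ℂ), Complex.norm_real, Complex.norm_real, Real.norm_eq_abs, Real.norm_eq_abs]

theorem right_bd (a1 a2 a3 : ℝ) {g : ℝ → ℝ} (hg : Dc g) : ∃ C : ℝ, 0 ≤ C ∧ ∀ z : ℂ, |z.im| ≤ Real.pi / 3 →
    0 ≤ z.re → ‖Complex.exp (-Complex.exp (-z)) * (Ev 0 a1 a2 a3 z + Cl g z)‖ ≤ C * Real.exp (-(z.re / 2)) := by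
  obtain ⟨M, hM⟩ := hg.bd
  obtain ⟨C, hC0, hC⟩ := Cl_bd (θ := Real.pi / 3) (by positivity) (by linarith [Real.pi_pos]) hM
  refine ⟨|a1| + |a2| + |a3| + C, by positivity, fun z hz hx => ?_⟩
  rw [norm_mul]
  have h1 := norm_ee_le z hz
  have h2 := norm_Ev 0 a1 a2 a3 z
  rw [abs_zero, zero_add] at h2
  have h3 := (hC z hz).1
  set v := Real.exp (-z.re) with hv
  set w := Real.exp (-(z.re / 2)) with hw
  have hv0 : 0 < v := Real.exp_pos _
  have hw0 : 0 < w := Real.exp_pos _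
  have hv1 : v ≤ 1 := Real.exp_le_one_iff.mpr (by linarith)
  have hvw : v ≤ w := Real.exp_le_exp.mpr (by linarith)
  have hv2 : v ^ 2 ≤ w := by nlinarith
  have hv3 : v ^ 3 ≤ w := by
    have : v ^ 3 ≤ v ^ 2 := pow_le_pow_of_le_one hv0.le hv1 (by norm_num)
    linarith
  have h4 : ‖Ev 0 a1 a2 a3 z + Cl g z‖ ≤ (|a1| + |a2| + |a3| + C) * w := by
    refine (norm_add_le _ _).trans ?_
    have b1 := mul_le_mul_of_nonneg_left hvw (abs_nonneg a1)
    have b2 := mul_le_mul_of_nonneg_left hv2 (abs_nonneg a2)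
    have b3 := mul_le_mul_of_nonneg_left hv3 (abs_nonneg a3)
    linarith
  calc ‖Complex.exp (-Complex.exp (-z))‖ * ‖Ev 0 a1 a2 a3 z + Cl g z‖ ≤ 1 * ((|a1| + |a2| + |a3| + C) * w) :=
        mul_le_mul h1 h4 (norm_nonneg _) zero_le_one
    _ = _ := one_mul _

theorem left_bd (a0 a1 a2 a3 : ℝ) {g : ℝ → ℝ} (hg : Dc g) : ∃ C : ℝ, 0 ≤ C ∧ ∀ z : ℂ, |z.im| ≤ Real.pi / 3 →
    z.re ≤ 0 → ‖Complex.exp (-Complex.exp (-z)) * (Ev a0 a1 a2 a3 z + Cl g z)‖ ≤
      C * Real.exp (-(Real.exp (-z.re) / 4)) := by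
  obtain ⟨M, hM⟩ := hg.bd
  obtain ⟨C, hC0, hC⟩ := Cl_bd (θ := Real.pi / 3) (by positivity) (by linarith [Real.pi_pos]) hM
  refine ⟨(|a0| + |a1| + |a2| + |a3| + C) * 384, by positivity, fun z hz hx => ?_⟩
  rw [norm_mul]
  have h1 := norm_ee z hz
  have h2 := norm_Ev a0 a1 a2 a3 z
  have h3 := (hC z hz).1
  have h5 : Real.exp (-(z.re / 2)) ≤ Real.exp (-z.re) := Real.exp_le_exp.mpr (by linarith)
  set v := Real.exp (-z.re) with hv
  have hv0 : 0 < v := Real.exp_pos _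
  have hv1 : 1 ≤ v := Real.one_le_exp (by linarith)
  have p1 : 1 ≤ v ^ 3 := one_le_pow₀ hv1
  have p2 : v ≤ v ^ 3 := by
    calc v = v ^ 1 := (pow_one v).symm
      _ ≤ v ^ 3 := pow_le_pow_right₀ hv1 (by norm_num)
  have p3 : v ^ 2 ≤ v ^ 3 := pow_le_pow_right₀ hv1 (by norm_num)
  have h4 : ‖Ev a0 a1 a2 a3 z + Cl g z‖ ≤ (|a0| + |a1| + |a2| + |a3| + C) * v ^ 3 := by
    refine (norm_add_le _ _).trans ?_
    have b0 := mul_le_mul_of_nonneg_left p1 (abs_nonneg a0)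
    have b1 := mul_le_mul_of_nonneg_left p2 (abs_nonneg a1)
    have b2 := mul_le_mul_of_nonneg_left p3 (abs_nonneg a2)
    have b4 := mul_le_mul_of_nonneg_left (h5.trans p2) hC0
    linarith
  have h6 : v ^ 3 ≤ 384 * Real.exp (v / 4) := by
    have := Real.pow_div_factorial_le_exp (v / 4) (by positivity) 3
    rw [div_le_iff₀ (by positivity)] at this
    have e : ((Nat.factorial 3 : ℕ) : ℝ) = 6 := by norm_num [Nat.factorial]
    rw [e] at this
    nlinarith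
  have h7 : Real.exp (-(v / 2)) * Real.exp (v / 4) = Real.exp (-(v / 4)) := by
    rw [← Real.exp_add]; congr 1; ring
  have hA : 0 ≤ |a0| + |a1| + |a2| + |a3| + C := by positivity
  calc ‖Complex.exp (-Complex.exp (-z))‖ * ‖Ev a0 a1 a2 a3 z + Cl g z‖ ≤
        Real.exp (-(v / 2)) * ((|a0| + |a1| + |a2| + |a3| + C) * v ^ 3) :=
        mul_le_mul h1 h4 (norm_nonneg _) (Real.exp_pos _).le
    _ ≤ Real.exp (-(v / 2)) * ((|a0| + |a1| + |a2| + |a3| + C) * (384 * Real.exp (v / 4))) := by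
        apply mul_le_mul_of_nonneg_left _ (Real.exp_pos _).le
        exact mul_le_mul_of_nonneg_left h6 hA
    _ = (|a0| + |a1| + |a2| + |a3| + C) * 384 * (Real.exp (-(v / 2)) * Real.exp (v / 4)) := by ring
    _ = _ := by rw [h7]

theorem Cl_conj (f : ℝ → ℝ) (z : ℂ) : Cl f (starRingEnd ℂ z) = starRingEnd ℂ (Cl f z) := by
  rw [Cl, Cl, map_mul, Complex.conj_ofReal, ← integral_conj]
  congr 2
  funext t
  rw [map_div₀, Complex.conj_ofReal, map_add, map_one, ← Complex.exp_conj, map_sub, Complex.conj_ofReal]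

theorem Ps_conj (γ : ℝ → ℝ) (z : ℂ) : Ps γ (starRingEnd ℂ z) = starRingEnd ℂ (Ps γ z) := by
  rw [Ps, Ps, Cl_conj, map_mul, map_add, map_one, ← Complex.exp_conj, map_neg, ← Complex.exp_conj, map_neg]

theorem Ps_zl {γ : ℝ → ℝ} (h : Sol γ) (t : ℝ) : γ t = Real.exp (-Real.exp (-t)) * (Ps γ (zl t)).im := by
  have e1 : wl t = ((Real.exp (-Real.exp (-t)) : ℝ) : ℂ) * Complex.exp (-Complex.exp (-(zl t))) := by
    have e2 : ((Real.exp (-Real.exp (-t)) : ℝ) : ℂ) = Complex.exp (-((Real.exp (-t) : ℝ) : ℂ)) := by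
      rw [Complex.ofReal_exp, Complex.ofReal_neg]
    rw [exp_zl, wl, e2]
    generalize ((Real.exp (-t) : ℝ) : ℂ) = r
    generalize Complex.exp (((Real.pi / 3 : ℝ) : ℂ) * Complex.I) = E
    rw [← Complex.exp_add]
    congr 1
    ring
  rw [h.eq t, e1, mul_assoc, Complex.im_ofReal_mul, Ps]

/-- uniqueness for the homogeneous limit equation (proved in another module) -/
def Uq : Prop := ∀ (δ : ℝ → ℝ), Measurable δ → ∀ M : ℝ, (∀ t, |δ t| ≤ M * Real.exp (-(t / 2))) →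
    (∀ t, δ t = (wl t * Cl δ (zl t)).im) → ∀ t, δ t = 0

theorem ode_of_uniq (uq : Uq) {γ : ℝ → ℝ} (h : Sol γ) (h0 : th0 γ ≠ 0) : ∃ b : ℝ,
    b * th0 γ = 2 * th0 γ - 3 * th1 γ ∧ 6 * th2 γ = -(4 + b) * th1 γ ∧
    ∃ P1 P2 P3 : ℂ → ℂ, (∀ z : ℂ, |z.im| < Real.pi → HasDerivAt (Ps γ) (P1 z) z ∧ HasDerivAt P1 (P2 z) z ∧
        HasDerivAt P2 (P3 z) z ∧ P3 z + 3 * P2 z + b * P1 z = Complex.exp (-(3 * z)) * Ps γ z) ∧
      (∃ C : ℝ, ∀ z : ℂ, |z.im| ≤ Real.pi / 3 → 0 ≤ z.re → ‖Ps γ z - 1‖ ≤ C * Real.exp (-(z.re / 2)) ∧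
        ‖P1 z‖ ≤ C * Real.exp (-(z.re / 2)) ∧ ‖P2 z‖ ≤ C * Real.exp (-(z.re / 2))) ∧
      (∃ C : ℝ, ∀ z : ℂ, |z.im| ≤ Real.pi / 3 → z.re ≤ 0 → ‖Ps γ z‖ ≤ C * Real.exp (-(Real.exp (-z.re) / 4)) ∧
        ‖P1 z‖ ≤ C * Real.exp (-(Real.exp (-z.re) / 4)) ∧ ‖P2 z‖ ≤ C * Real.exp (-(Real.exp (-z.re) / 4))) ∧
      (∀ z : ℂ, Ps γ (starRingEnd ℂ z) = starRingEnd ℂ (Ps γ z)) ∧
      ∀ t : ℝ, γ t = Real.exp (-Real.exp (-t)) * (Ps γ (zl t)).im := by
  have l0 := lv0 h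
  obtain ⟨g1, l1, d1, m1⟩ := step l0
  have a11 : (-0 + 1 + mo 0 γ : ℝ) = th0 γ := by rw [th0]; ring
  have a12 : (-2 * 0 + 0 : ℝ) = 0 := by ring
  rw [a11, a12] at l1 d1
  obtain ⟨g2, l2, d2, m2⟩ := step l1
  have mm1 : mo 0 g1 = th1 γ := by
    have := m1 0
    simp only [Nat.cast_zero, zero_mul, zero_add] at this
    rw [this, th1]; ring
  have a21 : (-th0 γ + 0 + mo 0 g1 : ℝ) = th1 γ - th0 γ := by rw [mm1]; ring
  have a22 : (-2 * 0 + th0 γ : ℝ) = th0 γ := by ring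
  rw [a21, a22] at l2 d2
  obtain ⟨g3, l3, d3, m3⟩ := step l2
  have mm1' : mo 1 g1 = mo 1 γ - mo 2 γ := by
    have := m1 1
    simp only [Nat.cast_one, one_mul] at this
    rw [this]; norm_num
  have mm1'' : mo 2 g1 = 2 * mo 2 γ - mo 3 γ := by
    have := m1 2
    push_cast at this
    rw [this]; norm_num
  have mm2 : mo 0 g2 = th1 γ + th2 γ := by
    have := m2 0
    simp only [Nat.cast_zero, zero_mul, zero_add] at this
    rw [this, mm1', th1, th2]; ring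
  have mm2' : mo 1 g2 = mo 1 g1 - mo 2 g1 := by
    have := m2 1
    simp only [Nat.cast_one, one_mul] at this
    rw [this]; norm_num
  have mm3 : mo 0 g3 = -mo 1 γ + 3 * mo 2 γ - mo 3 γ := by
    have := m3 0
    simp only [Nat.cast_zero, zero_mul, zero_add] at this
    rw [this, mm2', mm1', mm1'']; ring
  have a31 : (-(th1 γ - th0 γ) + 0 + mo 0 g2 : ℝ) = th2 γ + th0 γ := by rw [mm2]; ring
  have a32 : (-2 * th0 γ + (th1 γ - th0 γ) : ℝ) = th1 γ - 3 * th0 γ := by ring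
  rw [a31, a32] at l3 d3
  set b : ℝ := 2 - 3 * th1 γ / th0 γ with hb
  have hb1 : b * th0 γ = 2 * th0 γ - 3 * th1 γ := by
    rw [hb]; field_simp
  -- the combination
  have e1 : Dc (fun t => Real.exp (-t) * γ t) := l0.dc.emul
  have e2 : Dc (fun t => Real.exp (-t) * (Real.exp (-t) * γ t)) := e1.emul
  have e3 : Dc (fun t => Real.exp (-t) * (Real.exp (-t) * (Real.exp (-t) * γ t))) := e2.emul
  have s2 : Dc (fun t => 3 * g2 t) := l2.dc.smul 3
  have s1 : Dc (fun t => b * g1 t) := l1.dc.smul b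
  have t1 : Dc (fun t => g3 t + 3 * g2 t) := l3.dc.add s2
  have t2 : Dc (fun t => g3 t + 3 * g2 t + b * g1 t) := t1.add s1
  have t3 : Dc (fun t => g3 t + 3 * g2 t + b * g1 t + Real.exp (-t) * (Real.exp (-t) * (Real.exp (-t) * γ t))) :=
    t2.add e3
  set δ : ℝ → ℝ := fun t => g3 t + 3 * g2 t + b * g1 t + Real.exp (-t) * (Real.exp (-t) * (Real.exp (-t) * γ t))
    with hδ
  have hCl : ∀ z : ℂ, |z.im| < Real.pi → Cl δ z =
      (Ev 0 (th2 γ + th0 γ) (th1 γ - 3 * th0 γ) (th0 γ) z + Cl g3 z) +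
      3 * (Ev 0 (th1 γ - th0 γ) (th0 γ) 0 z + Cl g2 z) + b * (Ev 0 (th0 γ) 0 0 z + Cl g1 z) -
      Complex.exp (-z) ^ 3 * (Ev 1 0 0 0 z + Cl γ z) := by
    intro z hz
    have c1 : Cl δ z = Cl g3 z + 3 * Cl g2 z + b * Cl g1 z +
        Cl (fun t => Real.exp (-t) * (Real.exp (-t) * (Real.exp (-t) * γ t))) z := by
      rw [hδ, Cl_add t2.int0 e3.int0 hz, Cl_add t1.int0 s1.int0 hz, Cl_add l3.dc.int0 s2.int0 hz,
        Cl_smul, Cl_smul]
      push_cast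
      ring
    have f1 := Cl_emul l0.dc hz
    have f2 := Cl_emul e1 hz
    have f3 := Cl_emul e2 hz
    rw [mo_emul, zero_add] at f2
    rw [mo_emul, mo_emul, zero_add, show (1 : ℝ) + 1 = 2 by norm_num] at f3
    have g0' : ((th0 γ : ℝ) : ℂ) = 1 + ((mo 0 γ : ℝ) : ℂ) := by rw [th0]; push_cast; ring
    have g1' : ((th1 γ : ℝ) : ℂ) = -((mo 1 γ : ℝ) : ℂ) := by rw [th1]; push_cast; ring
    have g2' : ((th2 γ : ℝ) : ℂ) = ((mo 2 γ : ℝ) : ℂ) := by rw [th2]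
    have hbc : (b : ℂ) * (th0 γ : ℂ) = 2 * (th0 γ : ℂ) - 3 * (th1 γ : ℂ) := by exact_mod_cast hb1
    rw [c1]
    simp only [Ev]
    push_cast
    rw [g1'] at hbc ⊢
    rw [g2']
    rw [g0'] at hbc ⊢
    linear_combination (-Complex.exp (-z)) * hbc + (Complex.exp (-z) ^ 2) * f1 - (Complex.exp (-z)) * f2 + f3
  have hδeq : ∀ t : ℝ, δ t = (wl t * Cl δ (zl t)).im := by
    intro t
    rw [hCl (zl t) (zl_lt t), exp_zl_cube]
    have r1 := l1.eq t
    have r2 := l2.eq t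
    have r3 := l3.eq t
    have r0 := l0.eq t
    have e : wl t * ((Ev 0 (th2 γ + th0 γ) (th1 γ - 3 * th0 γ) (th0 γ) (zl t) + Cl g3 (zl t)) +
      3 * (Ev 0 (th1 γ - th0 γ) (th0 γ) 0 (zl t) + Cl g2 (zl t)) + b * (Ev 0 (th0 γ) 0 0 (zl t) + Cl g1 (zl t)) -
      -(((Real.exp (-t) * (Real.exp (-t) * Real.exp (-t)) : ℝ)) : ℂ) * (Ev 1 0 0 0 (zl t) + Cl γ (zl t))) =
      wl t * (Ev 0 (th2 γ + th0 γ) (th1 γ - 3 * th0 γ) (th0 γ) (zl t) + Cl g3 (zl t)) +
      ((3 : ℝ) : ℂ) * (wl t * (Ev 0 (th1 γ - th0 γ) (th0 γ) 0 (zl t) + Cl g2 (zl t))) +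
      (b : ℂ) * (wl t * (Ev 0 (th0 γ) 0 0 (zl t) + Cl g1 (zl t))) +
      ((Real.exp (-t) * (Real.exp (-t) * Real.exp (-t)) : ℝ) : ℂ) * (wl t * (Ev 1 0 0 0 (zl t) + Cl γ (zl t))) := by
      push_cast
      ring
    rw [e, Complex.add_im, Complex.add_im, Complex.add_im, Complex.im_ofReal_mul, Complex.im_ofReal_mul,
      Complex.im_ofReal_mul, ← r1, ← r2, ← r3, ← r0, hδ]
    ring
  obtain ⟨M, hM⟩ := t3.bd
  have hz0 : ∀ t, δ t = 0 := uq δ t3.meas M hM hδeq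
  have hδ0 : δ = fun _ => (0 : ℝ) := funext hz0
  have hC0 : ∀ z, Cl δ z = 0 := by
    intro z
    rw [hδ0, Cl]
    simp
  have hm0 : mo 0 δ = 0 := by
    rw [hδ0, mo]; simp
  have hb2 : 6 * th2 γ = -(4 + b) * th1 γ := by
    have q1 : mo 0 δ = mo 0 g3 + 3 * mo 0 g2 + b * mo 0 g1 + mo 3 γ := by
      have := mo_add t2 e3 0
      rw [Nat.cast_zero] at this
      rw [hδ, this]
      have := mo_add t1 s1 0
      rw [Nat.cast_zero] at this
      rw [this]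
      have := mo_add l3.dc s2 0
      rw [Nat.cast_zero] at this
      rw [this, mo_smul, mo_smul, mo_emul, mo_emul, mo_emul]
      norm_num
    rw [hm0, mm1, mm2, mm3] at q1
    have v1 : mo 1 γ = -th1 γ := by rw [th1]; ring
    have v2 : mo 2 γ = th2 γ := by rw [th2]
    rw [v1, v2] at q1
    linarith
  -- the functions
  have hP0 : ∀ z : ℂ, Ps γ z = Complex.exp (-Complex.exp (-z)) * (Ev 1 0 0 0 z + Cl γ z) := by
    intro z
    have : Ev 1 0 0 0 z = 1 := by simp [Ev]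
    rw [Ps, this]
  have hP0' : Ps γ = fun z : ℂ => Complex.exp (-Complex.exp (-z)) * (Ev 1 0 0 0 z + Cl γ z) := funext hP0
  obtain ⟨M0, hM0⟩ := h.bd
  obtain ⟨C0, hC00, hCC⟩ := Cl_bd (θ := Real.pi / 3) (by positivity) (by linarith [Real.pi_pos]) hM0
  obtain ⟨A1, hA10, hA1⟩ := right_bd (th0 γ) 0 0 l1.dc
  obtain ⟨A2, hA20, hA2⟩ := right_bd (th1 γ - th0 γ) (th0 γ) 0 l2.dc
  obtain ⟨B0, hB00, hB0⟩ := left_bd 1 0 0 0 l0.dc
  obtain ⟨B1, hB10, hB1⟩ := left_bd 0 (th0 γ) 0 0 l1.dc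
  obtain ⟨B2, hB20, hB2⟩ := left_bd 0 (th1 γ - th0 γ) (th0 γ) 0 l2.dc
  refine ⟨b, hb1, hb2, fun z => Complex.exp (-Complex.exp (-z)) * (Ev 0 (th0 γ) 0 0 z + Cl g1 z),
    fun z => Complex.exp (-Complex.exp (-z)) * (Ev 0 (th1 γ - th0 γ) (th0 γ) 0 z + Cl g2 z),
    fun z => Complex.exp (-Complex.exp (-z)) *
      (Ev 0 (th2 γ + th0 γ) (th1 γ - 3 * th0 γ) (th0 γ) z + Cl g3 z),
    fun z hz => ⟨?_, d2 z hz, d3 z hz, ?_⟩, ⟨2 + C0 + A1 + A2, fun z hz hx => ⟨?_, ?_, ?_⟩⟩,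
    ⟨B0 + B1 + B2, fun z hz hx => ⟨?_, ?_, ?_⟩⟩, Ps_conj γ, Ps_zl h⟩
  · rw [hP0']
    exact d1 z hz
  · have q1 := hCl z hz
    rw [hC0] at q1
    have q2 : Complex.exp (-(3 * z)) = Complex.exp (-z) ^ 3 := by
      rw [← Complex.exp_nat_mul]; congr 1; push_cast; ring
    rw [q2, hP0 z]
    linear_combination (-Complex.exp (-Complex.exp (-z))) * q1
  · have w0 : 0 < Real.exp (-(z.re / 2)) := Real.exp_pos _
    have q1 : ‖Ps γ z - 1‖ ≤ (2 + C0) * Real.exp (-(z.re / 2)) := by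
      have q2 : Ps γ z - 1 = (Complex.exp (-Complex.exp (-z)) - 1) + Complex.exp (-Complex.exp (-z)) * Cl γ z := by
        rw [Ps]; ring
      rw [q2]
      refine (norm_add_le _ _).trans ?_
      have q3 : ‖-Complex.exp (-z)‖ ≤ 1 := by
        rw [norm_neg, norm_en]; exact Real.exp_le_one_iff.mpr (by linarith)
      have q4 := Complex.norm_exp_sub_one_le q3
      rw [norm_neg, norm_en] at q4
      have q5 : Real.exp (-z.re) ≤ Real.exp (-(z.re / 2)) := Real.exp_le_exp.mpr (by linarith)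
      have q6 : ‖Complex.exp (-Complex.exp (-z)) * Cl γ z‖ ≤ 1 * (C0 * Real.exp (-(z.re / 2))) := by
        rw [norm_mul]
        exact mul_le_mul (norm_ee_le z hz) (hCC z hz).1 (norm_nonneg _) zero_le_one
      linarith
    refine q1.trans ?_
    apply mul_le_mul_of_nonneg_right _ w0.le
    linarith
  · refine (hA1 z hz hx).trans ?_
    apply mul_le_mul_of_nonneg_right _ (Real.exp_pos _).le
    linarith
  · refine (hA2 z hz hx).trans ?_
    apply mul_le_mul_of_nonneg_right _ (Real.exp_pos _).le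
    linarith
  · rw [hP0 z]
    refine (hB0 z hz hx).trans ?_
    apply mul_le_mul_of_nonneg_right _ (Real.exp_pos _).le
    linarith
  · refine (hB1 z hz hx).trans ?_
    apply mul_le_mul_of_nonneg_right _ (Real.exp_pos _).le
    linarith
  · refine (hB2 z hz hx).trans ?_
    apply mul_le_mul_of_nonneg_right _ (Real.exp_pos _).le
    linarith

end Od

/-- **Module O of board/CENC**: the third-order equation of the limit problem. -/
theorem ode {γ : ℝ → ℝ} (h : Sol γ) (h0 : th0 γ ≠ 0) : ∃ b : ℝ,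
    b * th0 γ = 2 * th0 γ - 3 * th1 γ ∧ 6 * th2 γ = -(4 + b) * th1 γ ∧
    ∃ P1 P2 P3 : ℂ → ℂ, (∀ z : ℂ, |z.im| < Real.pi → HasDerivAt (Ps γ) (P1 z) z ∧ HasDerivAt P1 (P2 z) z ∧
        HasDerivAt P2 (P3 z) z ∧ P3 z + 3 * P2 z + b * P1 z = Complex.exp (-(3 * z)) * Ps γ z) ∧
      (∃ C : ℝ, ∀ z : ℂ, |z.im| ≤ Real.pi / 3 → 0 ≤ z.re → ‖Ps γ z - 1‖ ≤ C * Real.exp (-(z.re / 2)) ∧
        ‖P1 z‖ ≤ C * Real.exp (-(z.re / 2)) ∧ ‖P2 z‖ ≤ C * Real.exp (-(z.re / 2))) ∧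
      (∃ C : ℝ, ∀ z : ℂ, |z.im| ≤ Real.pi / 3 → z.re ≤ 0 → ‖Ps γ z‖ ≤ C * Real.exp (-(Real.exp (-z.re) / 4)) ∧
        ‖P1 z‖ ≤ C * Real.exp (-(Real.exp (-z.re) / 4)) ∧ ‖P2 z‖ ≤ C * Real.exp (-(Real.exp (-z.re) / 4))) ∧
      (∀ z : ℂ, Ps γ (starRingEnd ℂ z) = starRingEnd ℂ (Ps γ z)) ∧
      ∀ t : ℝ, γ t = Real.exp (-Real.exp (-t)) * (Ps γ (zl t)).im :=
  Od.ode_of_uniq (fun _ hm _ hb he => uniq hm hb he) h h0

end CenC
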