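import Pool.Agent.CenC.FinB
import Pool.Agent.CenC.Ode
import Pool.Agent.CenC.Expo

/-!
# CENC F: the second order of the weight of the polygons in T rows
-/

set_option autoImplicit false

namespace CenC

open Filter Topology EXS

theorem sol_main {γ : ℝ → ℝ} (h : Sol γ) (h0 : th0 γ ≠ 0) (h1 : 2 * th0 γ * th2 γ - th1 γ ^ 2 ≤ 0) :
    2 * th0 γ * th2 γ - th1 γ ^ 2 = -(5 / 24) * th0 γ ^ 2 := by
  obtain ⟨b, hb1, hb2, P1, P2, P3, hd, hA, hB, hC, hD⟩ := ode h h0
  have e1 : 2 * th0 γ * th2 γ - th1 γ ^ 2 = -2 * th0 γ * th1 γ := by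
    linear_combination (th0 γ / 3) * hb2 - (th1 γ / 3) * hb1
  have hb : b ≤ 2 := by
    have h3 : 0 ≤ th0 γ * th1 γ := by rw [e1] at h1; nlinarith
    have h4 : (2 - b) * th0 γ ^ 2 = 3 * (th0 γ * th1 γ) := by linear_combination -(th0 γ) * hb1
    have h5 : 0 < th0 γ ^ 2 := by positivity
    by_contra hc
    push Not at hc
    nlinarith
  have h2 := exponent h h0 hb hd hA hB hC hD
  subst h2
  rw [e1]
  linear_combination (-(2 / 3) * th0 γ) * hb1

/-- the tail of the weight of the polygons -/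
theorem central : Tendsto (fun T : ℕ => (T : ℝ) ^ 2 * (HexPolygon.Sall - HexPolygon.S T).toReal) atTop
      (𝓝 (5 * Real.sqrt 3 / 108)) :=
  central_of fun _ h h0 h1 => sol_main h h0 h1

end CenC
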