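import Pool.Agent.CenC.Defs
import Pool.Agent.EXS.NumW

/-!
# CENC, module C: the kernel integrals for the exponent 1/2
-/

set_option autoImplicit false

namespace CenC

open MeasureTheory Set Filter Topology EXS

/-- antiderivative of `2 (a y² + b) / (1 + y² + y⁴)` -/
noncomputable def gy (a b y : ℝ) : ℝ :=
  (a + b) / √3 * (Real.arctan ((2 * y - 1) / √3) + Real.arctan ((2 * y + 1) / √3)) +
    (a - b) / 2 * (Real.log (y ^ 2 - y + 1) - Real.log (y ^ 2 + y + 1))

theorem s3_sq : √3 ^ 2 = (3 : ℝ) := Real.sq_sqrt (by norm_num)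

theorem s3_pos : (0 : ℝ) < √3 := Real.sqrt_pos.2 (by norm_num)

theorem gy_deriv (a b y : ℝ) :
    HasDerivAt (gy a b) (2 * (a * y ^ 2 + b) / (1 + y ^ 2 + y ^ 4)) y := by
  have h3 := s3_sq
  have h3p := s3_pos
  have p1 : 0 < y ^ 2 - y + 1 := by nlinarith [sq_nonneg (y - 1 / 2)]
  have p2 : 0 < y ^ 2 + y + 1 := by nlinarith [sq_nonneg (y + 1 / 2)]
  have d1 : HasDerivAt (fun y : ℝ => (2 * y - 1) / √3) (2 / √3) y := by
    have := (((hasDerivAt_id y).const_mul (2 : ℝ)).sub_const 1).div_const (√3)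
    simpa using this
  have d2 : HasDerivAt (fun y : ℝ => (2 * y + 1) / √3) (2 / √3) y := by
    have := (((hasDerivAt_id y).const_mul (2 : ℝ)).add_const 1).div_const (√3)
    simpa using this
  have e1 : HasDerivAt (fun y : ℝ => y ^ 2 - y + 1) (2 * y - 1) y := by
    have := ((hasDerivAt_pow 2 y).sub (hasDerivAt_id y)).add_const 1
    simpa using this
  have e2 : HasDerivAt (fun y : ℝ => y ^ 2 + y + 1) (2 * y + 1) y := by
    have := ((hasDerivAt_pow 2 y).add (hasDerivAt_id y)).add_const 1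
    simpa using this
  have h := (((d1.arctan).add (d2.arctan)).const_mul ((a + b) / √3)).add
    (((e1.log p1.ne').sub (e2.log p2.ne')).const_mul ((a - b) / 2))
  refine h.congr_deriv ?_
  have q1 : 1 + ((2 * y - 1) / √3) ^ 2 = 4 / 3 * (y ^ 2 - y + 1) := by
    rw [div_pow, h3]; ring
  have q2 : 1 + ((2 * y + 1) / √3) ^ 2 = 4 / 3 * (y ^ 2 + y + 1) := by
    rw [div_pow, h3]; ring
  have q3 : 1 + y ^ 2 + y ^ 4 = (y ^ 2 - y + 1) * (y ^ 2 + y + 1) := by ring
  have q4 : (a + b) / √3 * (1 / (1 + ((2 * y - 1) / √3) ^ 2) * (2 / √3) +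
      1 / (1 + ((2 * y + 1) / √3) ^ 2) * (2 / √3)) =
      (a + b) / 2 * (1 / (y ^ 2 - y + 1) + 1 / (y ^ 2 + y + 1)) := by
    rw [q1, q2]
    have : (a + b) / √3 * (1 / (4 / 3 * (y ^ 2 - y + 1)) * (2 / √3) +
      1 / (4 / 3 * (y ^ 2 + y + 1)) * (2 / √3)) =
      (a + b) * (3 / 2) / √3 ^ 2 * (1 / (y ^ 2 - y + 1) + 1 / (y ^ 2 + y + 1)) := by
      field_simp
      ring
    rw [this, h3]
    ring
  rw [q4, q3]
  have q5 : ∀ P Q : ℝ, P ≠ 0 → Q ≠ 0 → (a + b) / 2 * (1 / P + 1 / Q) +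
      (a - b) / 2 * ((2 * y - 1) / P - (2 * y + 1) / Q) =
      ((a + b) / 2 * (Q + P) + (a - b) / 2 * ((2 * y - 1) * Q - (2 * y + 1) * P)) / (P * Q) := by
    intro P Q hP hQ
    field_simp
  rw [q5 _ _ p1.ne' p2.ne']
  congr 1
  ring

theorem gy_zero (a b : ℝ) : gy a b 0 = 0 := by
  unfold gy
  have : (2 * 0 - 1 : ℝ) / √3 = -((2 * 0 + 1) / √3) := by ring
  rw [this, Real.arctan_neg]
  simp

theorem gy_top (a b : ℝ) : Tendsto (gy a b) atTop (𝓝 ((a + b) * Real.pi / √3)) := by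
  have h3p := s3_pos
  have h1 : Tendsto (fun y : ℝ => (2 * y - 1) / √3) atTop atTop := by
    refine Tendsto.atTop_div_const h3p ?_
    exact tendsto_atTop_add_const_right _ _ (tendsto_id.const_mul_atTop (by norm_num))
  have h2 : Tendsto (fun y : ℝ => (2 * y + 1) / √3) atTop atTop := by
    refine Tendsto.atTop_div_const h3p ?_
    exact tendsto_atTop_add_const_right _ _ (tendsto_id.const_mul_atTop (by norm_num))
  have a1 := (tendsto_nhds_of_tendsto_nhdsWithin Real.tendsto_arctan_atTop).comp h1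
  have a2 := (tendsto_nhds_of_tendsto_nhdsWithin Real.tendsto_arctan_atTop).comp h2
  have h4 : Tendsto (fun y : ℝ => Real.log (y ^ 2 - y + 1) - Real.log (y ^ 2 + y + 1)) atTop (𝓝 0) := by
    have h5 : Tendsto (fun y : ℝ => (1 - y⁻¹ + y⁻¹ ^ 2) / (1 + y⁻¹ + y⁻¹ ^ 2)) atTop (𝓝 1) := by
      have hi : Tendsto (fun y : ℝ => y⁻¹) atTop (𝓝 0) := tendsto_inv_atTop_zero
      have := ((tendsto_const_nhds (x := (1 : ℝ))).sub hi |>.add (hi.pow 2)).div
        ((tendsto_const_nhds (x := (1 : ℝ))).add hi |>.add (hi.pow 2)) (by norm_num)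
      refine (this.congr fun y => rfl).trans (le_of_eq ?_)
      norm_num
    have h6 := (Real.continuousAt_log (one_ne_zero)).tendsto.comp h5
    rw [Real.log_one] at h6
    refine h6.congr' ?_
    filter_upwards [eventually_gt_atTop 0] with y hy
    have p1 : 0 < y ^ 2 - y + 1 := by nlinarith [sq_nonneg (y - 1 / 2)]
    have p2 : 0 < y ^ 2 + y + 1 := by positivity
    rw [← Real.log_div p1.ne' p2.ne']
    show Real.log _ = _
    congr 1
    rw [div_eq_div_iff (by positivity) p2.ne']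
    field_simp
  have h := ((a1.add a2).const_mul ((a + b) / √3)).add (h4.const_mul ((a - b) / 2))
  have e : (a + b) / √3 * (Real.pi / 2 + Real.pi / 2) + (a - b) / 2 * 0 = (a + b) * Real.pi / √3 := by ring
  rw [e] at h
  exact h

/-- the integral of `x^(-1/2) (a x + b t) / (x² + x t + t²)` -/
theorem ker_int {a b t : ℝ} (ha : 0 ≤ a) (hb : 0 ≤ b) (ht : 0 < t) :
    IntegrableOn (fun x : ℝ => x ^ (-(1 / 2) : ℝ) * ((a * x + b * t) / (x ^ 2 + x * t + t ^ 2))) (Ioi 0) ∧
    ∫ x in Ioi (0 : ℝ), x ^ (-(1 / 2) : ℝ) * ((a * x + b * t) / (x ^ 2 + x * t + t ^ 2)) =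
      (a + b) * Real.pi / √3 / √t := by
  have hst : 0 < √t := Real.sqrt_pos.2 ht
  have hst2 : √t ^ 2 = t := Real.sq_sqrt ht.le
  set g : ℝ → ℝ := fun x => gy a b (√x / √t) / √t with hg
  have hc : ContinuousWithinAt g (Ici 0) 0 := by
    have hgc : Continuous (gy a b) :=
      continuous_iff_continuousAt.2 fun y => (gy_deriv a b y).continuousAt
    have : Continuous g := (hgc.comp (Real.continuous_sqrt.div_const _)).div_const _
    exact this.continuousWithinAt
  have hd : ∀ x ∈ Ioi (0 : ℝ), HasDerivAt g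
      (x ^ (-(1 / 2) : ℝ) * ((a * x + b * t) / (x ^ 2 + x * t + t ^ 2))) x := by
    intro x hx
    have hx0 : (0 : ℝ) < x := hx
    have hsx : 0 < √x := Real.sqrt_pos.2 hx0
    have hsx2 : √x ^ 2 = x := Real.sq_sqrt hx0.le
    have h1 : HasDerivAt (fun x : ℝ => √x / √t) (1 / (2 * √x) / √t) x :=
      (Real.hasDerivAt_sqrt hx0.ne').div_const _
    have h2 := ((gy_deriv a b (√x / √t)).comp x h1).div_const (√t)
    refine h2.congr_deriv ?_
    have e1 : x ^ (-(1 / 2) : ℝ) = 1 / √x := by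
      rw [Real.rpow_neg hx0.le, ← Real.sqrt_eq_rpow, one_div]
    have e2 : (√x / √t) ^ 2 = x / t := by rw [div_pow, hsx2, hst2]
    have e3 : (√x / √t) ^ 4 = x ^ 2 / t ^ 2 := by
      rw [show (√x / √t) ^ 4 = ((√x / √t) ^ 2) ^ 2 by ring, e2, div_pow]
    rw [e1, e2, e3]
    have e4 : 1 + x / t + x ^ 2 / t ^ 2 = (x ^ 2 + x * t + t ^ 2) / t ^ 2 := by
      field_simp
      ring
    have h0 : 0 < x ^ 2 + x * t + t ^ 2 := by positivity
    rw [e4]
    have e5 : 2 * (a * (x / t) + b) / ((x ^ 2 + x * t + t ^ 2) / t ^ 2) * (1 / (2 * √x) / √t) / √t =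
        (a * x + b * t) * t / ((x ^ 2 + x * t + t ^ 2) * √x * √t ^ 2) := by
      field_simp
    rw [e5, hst2]
    field_simp
  have hp : ∀ x ∈ Ioi (0 : ℝ), 0 ≤ x ^ (-(1 / 2) : ℝ) * ((a * x + b * t) / (x ^ 2 + x * t + t ^ 2)) := by
    intro x hx
    have hx0 : (0 : ℝ) < x := hx
    positivity
  have hl : Tendsto g atTop (𝓝 ((a + b) * Real.pi / √3 / √t)) := by
    have h1 : Tendsto (fun x : ℝ => √x / √t) atTop atTop :=
      Real.tendsto_sqrt_atTop.atTop_div_const hst
    exact ((gy_top a b).comp h1).div_const _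
  refine ⟨integrableOn_Ioi_deriv_of_nonneg hc hd hp hl, ?_⟩
  rw [integral_Ioi_of_hasDerivAt_of_nonneg hc hd hp hl]
  simp [hg, gy_zero]

/-- the same in the logarithmic variable -/
theorem ker_int_log {a b : ℝ} (ha : 0 ≤ a) (hb : 0 ≤ b) :
    Integrable (fun u : ℝ => Real.exp (u / 2) * ((a * Real.exp u + b) / (1 + Real.exp u + Real.exp u ^ 2))) ∧
    ∫ u : ℝ, Real.exp (u / 2) * ((a * Real.exp u + b) / (1 + Real.exp u + Real.exp u ^ 2)) =
      (a + b) * Real.pi / √3 := by
  set g : ℝ → ℝ := fun u => gy a b (Real.exp (u / 2)) with hg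
  have hd : ∀ u : ℝ, HasDerivAt g
      (Real.exp (u / 2) * ((a * Real.exp u + b) / (1 + Real.exp u + Real.exp u ^ 2))) u := by
    intro u
    have h1 : HasDerivAt (fun u : ℝ => Real.exp (u / 2)) (Real.exp (u / 2) * (1 / 2)) u :=
      ((hasDerivAt_id u).div_const 2).exp
    refine ((gy_deriv a b (Real.exp (u / 2))).comp u h1).congr_deriv ?_
    have e2 : Real.exp (u / 2) ^ 2 = Real.exp u := by
      rw [← Real.exp_nat_mul]; congr 1; push_cast; ring
    have e4 : Real.exp (u / 2) ^ 4 = Real.exp u ^ 2 := by rw [← e2]; ring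
    rw [e2, e4]
    ring
  have hp : ∀ u : ℝ, 0 ≤ Real.exp (u / 2) * ((a * Real.exp u + b) / (1 + Real.exp u + Real.exp u ^ 2)) := by
    intro u; positivity
  have hexp : Tendsto (fun u : ℝ => Real.exp (u / 2)) atTop atTop :=
    Real.tendsto_exp_atTop.comp (tendsto_id.atTop_div_const (by norm_num))
  have hexpb : Tendsto (fun u : ℝ => Real.exp (u / 2)) atBot (𝓝 0) :=
    Real.tendsto_exp_atBot.comp (tendsto_id.atBot_div_const (by norm_num))
  have htop : Tendsto g atTop (𝓝 ((a + b) * Real.pi / √3)) := (gy_top a b).comp hexp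
  have hbot : Tendsto g atBot (𝓝 0) := by
    have h := ((gy_deriv a b 0).continuousAt.tendsto).comp hexpb
    rw [gy_zero] at h
    exact h
  have hi : Integrable (fun u : ℝ => Real.exp (u / 2) * ((a * Real.exp u + b) / (1 + Real.exp u + Real.exp u ^ 2))) := by
    refine integrable_of_intervalIntegral_norm_tendsto (a := fun n : ℝ => -n) (b := fun n : ℝ => n) (l := atTop)
      ((a + b) * Real.pi / √3 - 0) (fun n => ?_) tendsto_neg_atTop_atBot tendsto_id ?_
    · refine (Continuous.intervalIntegrable ?_ _ _).1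
      refine Continuous.mul (by fun_prop) (Continuous.div (by fun_prop) (by fun_prop) ?_)
      intro u
      positivity
    · have h2 : ∀ n : ℝ, ∫ x in (-n)..n, ‖Real.exp (x / 2) * ((a * Real.exp x + b) / (1 + Real.exp x + Real.exp x ^ 2))‖ =
          g n - g (-n) := by
        intro n
        rw [intervalIntegral.integral_congr (g := fun u => Real.exp (u / 2) * ((a * Real.exp u + b) / (1 + Real.exp u + Real.exp u ^ 2)))
          (fun x _ => by show ‖_‖ = _; rw [Real.norm_eq_abs, abs_of_nonneg (hp x)])]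
        refine intervalIntegral.integral_eq_sub_of_hasDerivAt (fun x _ => hd x) ?_
        refine Continuous.intervalIntegrable ?_ _ _
        refine Continuous.mul (by fun_prop) (Continuous.div (by fun_prop) (by fun_prop) ?_)
        intro u
        positivity
      simp_rw [h2]
      exact htop.sub (hbot.comp tendsto_neg_atTop_atBot)
  refine ⟨hi, ?_⟩
  rw [integral_of_hasDerivAt_of_tendsto hd hi hbot htop, sub_zero]

end CenC
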