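import Pool.Agent.CenC.ConK

/-!
# CENC, module C: the contraction for the exponent 1/2
-/

set_option autoImplicit false

namespace CenC

open MeasureTheory Set Filter Topology EXS EXS.Num

/-- the additional factor of `WD` -/
theorem WD_eq {N : ℕ} (τ : Fin N → ℝ) (u : ℝ) {X : ℝ} (hX : X ≠ 0) :
    WD τ u X = Wf τ X * ((((X - u) / X : ℝ) : ℂ) * (T2 X / (T2 X + (u : ℂ)))) := by
  unfold WD Wt
  have : (X : ℂ) ≠ 0 := by exact_mod_cast hX
  push_cast
  ring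

theorem fac {X u : ℝ} (hX : 1 < X) (hu : ta ≤ u) (hu1 : u ≤ 1) :
    ‖(((X - u) / X : ℝ) : ℂ) * (T2 X / (T2 X + (u : ℂ)))‖ ≤ 1 ∧
    |((((X - u) / X : ℝ) : ℂ) * (T2 X / (T2 X + (u : ℂ)))).im| ≤
      0.87 / X * ‖(((X - u) / X : ℝ) : ℂ) * (T2 X / (T2 X + (u : ℂ)))‖ := by
  have hu0 : 0 < u := lt_of_lt_of_le (by have := ta_lo; linarith) hu
  have hX0 : 0 < X := by linarith
  have h5 : 0 ≤ u ^ 2 - 3 / 4 := by
    rw [← Num.ta_sq]
    nlinarith [ta_lo]
  have hns : Complex.normSq (T2 X) = X ^ 2 - 3 / 4 := by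
    have := nsq hX.le 0
    simpa using this
  constructor
  · rw [norm_mul, Complex.norm_real, Real.norm_eq_abs,
      abs_of_nonneg (div_nonneg (by linarith) hX0.le)]
    refine mul_le_one₀ ?_ (norm_nonneg _) ?_
    · rw [div_le_one hX0]
      linarith
    · refine le_of_sq_le_sq ?_ zero_le_one
      rw [Complex.sq_norm, Complex.normSq_div, nsq hX.le, hns, one_pow, div_le_one (by nlinarith)]
      nlinarith
  · refine im_real_mul (im_div (T2_add_ne hX.le hu0.le) (by positivity) ?_)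
    rw [nsq hX.le, hns]
    simp only [Complex.add_re, Complex.ofReal_re, Complex.add_im, Complex.ofReal_im, add_zero, Num.T2_re]
    have h1 : √(X ^ 2 - 1) ^ 2 = X ^ 2 - 1 := Real.sq_sqrt (by nlinarith)
    have hb : (T2 X).im ^ 2 = 3 / 4 * (X ^ 2 - 1) := by
      rw [Num.T2_im, mul_pow, neg_sq, h1, div_pow √3, s3_sq]
      ring
    have e : ((T2 X).im * (X / 2 + u) - X / 2 * (T2 X).im) ^ 2 = 3 / 4 * u ^ 2 * (X ^ 2 - 1) := by
      have : ((T2 X).im * (X / 2 + u) - X / 2 * (T2 X).im) ^ 2 = u ^ 2 * (T2 X).im ^ 2 := by ring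
      rw [this, hb]
      ring
    rw [e, div_pow (0.87 : ℝ), div_mul_eq_mul_div ((0.87 : ℝ) ^ 2) (X ^ 2) _, le_div_iff₀ (by positivity : (0:ℝ) < X ^ 2)]
    have h4 : X ^ 2 * (X ^ 2 - 1) ≤ (X ^ 2 - 3 / 4) * (X ^ 2 - 3 / 4 + u ^ 2 + u * X) := by
      have h6 : X ^ 2 ≤ X ^ 2 - 3 / 4 + u ^ 2 + u * X := by nlinarith
      have h7 : 0 ≤ X ^ 2 - 1 := by nlinarith
      calc X ^ 2 * (X ^ 2 - 1) ≤ (X ^ 2 - 3 / 4 + u ^ 2 + u * X) * (X ^ 2 - 3 / 4) := by
            refine mul_le_mul h6 (by linarith) h7 (by nlinarith)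
        _ = _ := by ring
    have h8 : 3 / 4 * u ^ 2 ≤ (0.87 : ℝ) ^ 2 := by
      have : u ^ 2 ≤ 1 := by nlinarith
      nlinarith
    have h9 : 0 ≤ X ^ 2 * (X ^ 2 - 1) := by
      have : 0 ≤ X ^ 2 - 1 := by nlinarith
      positivity
    calc 3 / 4 * u ^ 2 * (X ^ 2 - 1) * X ^ 2 = 3 / 4 * u ^ 2 * (X ^ 2 * (X ^ 2 - 1)) := by ring
      _ ≤ (0.87 : ℝ) ^ 2 * (X ^ 2 * (X ^ 2 - 1)) := mul_le_mul_of_nonneg_right h8 h9
      _ ≤ (0.87 : ℝ) ^ 2 * ((X ^ 2 - 3 / 4) * (X ^ 2 - 3 / 4 + u ^ 2 + u * X)) :=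
          mul_le_mul_of_nonneg_left h4 (by norm_num)

/-- modulus and imaginary part of the multiplier `WD` -/
theorem WD_bd {N : ℕ} {τ : Fin N → ℝ} (hτ : ∀ k, ta ≤ τ k ∧ τ k ≤ 1) {u : ℝ} (hu : ta ≤ u) (hu1 : u ≤ 1)
    {X : ℝ} (hX : 1 < X) :
    ‖WD τ u X‖ ≤ Real.exp (-(2.8 * (∑ k, τ k) / X)) ∧
      |(WD τ u X).im| ≤ (2.55 + √3 * ∑ k, τ k) / X * ‖WD τ u X‖ := by
  have hX0 : 0 < X := by linarith
  obtain ⟨f1, f2⟩ := fac hX hu hu1
  obtain ⟨w1, w2⟩ := Wf_bd hτ hX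
  have hs : 0 ≤ ∑ k, τ k := Finset.sum_nonneg fun k _ => by
    have := ta_lo
    linarith [(hτ k).1]
  rw [WD_eq τ u hX0.ne']
  constructor
  · rw [norm_mul]
    refine (mul_le_mul w1 f1 (norm_nonneg _) (Real.exp_pos _).le).trans (le_of_eq (mul_one _))
  · refine (im_mul (by positivity) w2 f2).trans (le_of_eq ?_)
    ring

theorem sum_ge {N : ℕ} {τ : Fin N → ℝ} (hτ : ∀ k, ta ≤ τ k ∧ τ k ≤ 1) : 0.866 * (N : ℝ) ≤ ∑ k, τ k := by
  have h3 : ∑ _k : Fin N, (0.866 : ℝ) ≤ ∑ k, τ k :=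
    Finset.sum_le_sum fun k _ => ta_lo.le.trans (hτ k).1
  rw [Finset.sum_const, Finset.card_univ, Fintype.card_fin, nsmul_eq_mul] at h3
  linarith

/-- `N ≥ 50` nodes: the imaginary part of the multiplier is at most `1/4` -/
theorem WD_im {N : ℕ} (hN : 50 ≤ N) {τ : Fin N → ℝ} (hτ : ∀ k, ta ≤ τ k ∧ τ k ≤ 1) {u : ℝ} (hu : ta ≤ u)
    (hu1 : u ≤ 1) {X : ℝ} (hX : 1 < X) : |(WD τ u X).im| ≤ 1 / 4 := by
  have hX0 : 0 < X := by linarith
  obtain ⟨h1, h2⟩ := WD_bd hτ hu hu1 hX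
  have hs2 := sum_ge hτ
  set s := ∑ k, τ k with hs
  have hs1 : 43.3 ≤ s := by
    have h4 : (50 : ℝ) ≤ N := by exact_mod_cast hN
    linarith
  set y := 2.8 * s / X with hy
  have hy0 : 0 < y := by positivity
  have h5 : y * Real.exp (-y) ≤ 0.3679 := by
    have h6 := Real.add_one_le_exp (y - 1)
    have h7 : y ≤ Real.exp (y - 1) := by linarith
    have h8 : y * Real.exp (-y) ≤ Real.exp (y - 1) * Real.exp (-y) :=
      mul_le_mul_of_nonneg_right h7 (Real.exp_pos _).le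
    rw [← Real.exp_add, show y - 1 + -y = -1 by ring] at h8
    have h9 := Real.exp_neg_one_lt_d9
    linarith
  have h10 : (2.55 + √3 * s) / X ≤ 1.8 * s / X := by
    refine div_le_div_of_nonneg_right ?_ hX0.le
    have := s3_hi
    nlinarith
  have h11 : 1.8 * s / X = 1.8 / 2.8 * y := by
    rw [hy]
    ring
  calc |(WD τ u X).im| ≤ (2.55 + √3 * s) / X * ‖WD τ u X‖ := h2
    _ ≤ (1.8 / 2.8 * y) * Real.exp (-y) := by
        rw [← h11]
        exact mul_le_mul h10 h1 (norm_nonneg _) (by positivity)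
    _ = 1.8 / 2.8 * (y * Real.exp (-y)) := by ring
    _ ≤ 1.8 / 2.8 * 0.3679 := by gcongr
    _ ≤ 1 / 4 := by norm_num

theorem WD_le_one {N : ℕ} {τ : Fin N → ℝ} (hτ : ∀ k, ta ≤ τ k ∧ τ k ≤ 1) {u : ℝ} (hu : ta ≤ u)
    (hu1 : u ≤ 1) {X : ℝ} (hX : 1 < X) : ‖WD τ u X‖ ≤ 1 := by
  refine (WD_bd hτ hu hu1 hX).1.trans (Real.exp_le_one_iff.2 ?_)
  have hs := sum_ge hτ
  have h0 : (0 : ℝ) ≤ N := Nat.cast_nonneg N
  have : 0 ≤ 2.8 * (∑ k, τ k) / X := div_nonneg (by linarith) (by linarith)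
  linarith

/-- the modulus -/
theorem WD_norm {N : ℕ} {τ : Fin N → ℝ} (hτ : ∀ k, ta ≤ τ k ∧ τ k ≤ 1) {u : ℝ} (hu : ta ≤ u)
    (hu1 : u ≤ 1) {X : ℝ} (hX : 1 < X) : ‖WD τ u X‖ ≤ Real.exp (-((N : ℝ) / X)) := by
  refine (WD_bd hτ hu hu1 hX).1.trans (Real.exp_le_exp.2 (neg_le_neg ?_))
  refine div_le_div_of_nonneg_right ?_ (by linarith)
  have hs := sum_ge hτ
  have h0 : (0 : ℝ) ≤ N := Nat.cast_nonneg N
  linarith

/-- the imaginary part of the kernel -/
theorem kerD_im {W : ℂ} {X x : ℝ} (hX : 1 ≤ X) :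
    (W / (x + T2 X)).im =
      (W.im * (x + X / 2) + W.re * (√3 / 2 * √(X ^ 2 - 1))) / (x ^ 2 + x * X + nT X ^ 2) := by
  have hn := Num.T2_normSq hX
  have h1 : Complex.normSq ((x : ℂ) + T2 X) = x ^ 2 + x * X + nT X ^ 2 := by
    rw [Complex.normSq_apply, ← hn]
    simp only [Complex.add_re, Complex.ofReal_re, Complex.add_im, Complex.ofReal_im, zero_add, Num.T2_re]
    ring
  rw [Complex.div_im, h1]
  simp only [Complex.add_re, Complex.ofReal_re, Complex.add_im, Complex.ofReal_im, zero_add]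
  rw [Num.T2_re, Num.T2_im]
  ring

theorem Bh_nonneg {f : ℝ → ℝ} {M : ℝ} (h : Bh f M) : 0 ≤ M := by
  have h := (abs_nonneg _).trans (h 2 (by norm_num))
  exact nonneg_of_mul_nonneg_left h (Real.rpow_pos_of_pos (by norm_num) _)

/-- integrability of the Cauchy kernel -/
theorem intgD {X : ℝ} (hX : 1 ≤ X) {f : ℝ → ℝ} {M : ℝ} (hf : Measurable f) (hM : Bh f M) :
    IntegrableOn (fun x : ℝ => (f x : ℂ) / (x + T2 X)) (Ioi 1) := by
  have h1 := (integrableOn_Ioi_rpow_of_lt (a := -(3 / 2)) (by norm_num) (zero_lt_one' ℝ)).const_mul M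
  refine Integrable.mono' h1 ?_ ?_
  · refine (Complex.measurable_ofReal.comp hf).aestronglyMeasurable.mul ?_
    refine ContinuousOn.aestronglyMeasurable ?_ measurableSet_Ioi
    refine ContinuousOn.inv₀ (by fun_prop) ?_
    intro x hx h
    have h' := congrArg Complex.re h
    rw [Complex.add_re, Complex.ofReal_re, Num.T2_re, Complex.zero_re] at h'
    have : (1:ℝ) < x := hx
    linarith
  · refine (ae_restrict_iff' measurableSet_Ioi).2 (Filter.Eventually.of_forall fun x hx => ?_)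
    have hx1 : (1:ℝ) < x := hx
    have hx0 : (0:ℝ) < x := by linarith
    have hn : x ≤ ‖(x : ℂ) + T2 X‖ := by
      refine le_trans ?_ (Complex.abs_re_le_norm _)
      rw [Complex.add_re, Complex.ofReal_re, Num.T2_re]
      refine le_trans ?_ (le_abs_self _)
      linarith
    rw [norm_div, Complex.norm_real, Real.norm_eq_abs]
    calc |f x| / ‖(x : ℂ) + T2 X‖ ≤ |f x| / x := by gcongr
      _ ≤ M * x ^ (-(1 / 2) : ℝ) / x := by
          gcongr
          exact hM x hx1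
      _ = M * x ^ (-(3 / 2) : ℝ) := by
          rw [mul_div_assoc, ← Real.rpow_sub_one hx0.ne']
          norm_num

/-- the general estimate of the operator -/
theorem contr_gen {W : ℂ} {p r : ℝ} (hp : |W.re| ≤ p) (hr : |W.im| ≤ r) {X : ℝ} (hX : 1 ≤ X) {f : ℝ → ℝ}
    {M : ℝ} (hf : Measurable f) (hM : Bh f M) :
    |(W * Cf f (T2 X)).im| ≤ M * ((r + (r * X / (2 * nT X) + √3 / 2 * p)) / √3 / √(nT X)) := by
  have hM0 := Bh_nonneg hM
  have hp0 := (abs_nonneg _).trans hp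
  have hr0 := (abs_nonneg _).trans hr
  have hi := intgD hX hf hM
  have hX0 : 0 < X := by linarith
  have ht := nT_pos hX
  have htX := nT_le hX
  set t := nT X with ht'
  have hpi := Real.pi_pos
  have h1 : (W * Cf f (T2 X)).im = 1 / Real.pi * ∫ x in Ioi (1:ℝ), (W * ((f x : ℂ) / (x + T2 X))).im := by
    have h2 := integral_im (𝕜 := ℂ) (hi.const_mul W)
    simp only [RCLike.im_eq_complex_im] at h2
    rw [h2, integral_const_mul]
    unfold Cf
    rw [mul_left_comm, Complex.im_ofReal_mul]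
  set a := r with ha
  set b := r * X / (2 * t) + √3 / 2 * p with hb
  have hb0 : 0 ≤ b := by positivity
  obtain ⟨ki, ke⟩ := ker_int hr0 hb0 ht
  have hker : ∀ x : ℝ, 1 < x → |(W * ((f x : ℂ) / (x + T2 X))).im| ≤
      M * (x ^ (-(1 / 2) : ℝ) * ((a * x + b * t) / (x ^ 2 + x * t + t ^ 2))) := by
    intro x hx
    have hx0 : 0 < x := by linarith
    have e : W * ((f x : ℂ) / (x + T2 X)) = ((f x : ℝ) : ℂ) * (W / (x + T2 X)) := by ring
    rw [e, Complex.im_ofReal_mul, abs_mul, kerD_im hX]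
    have h2 : |(W.im * (x + X / 2) + W.re * (√3 / 2 * √(X ^ 2 - 1))) / (x ^ 2 + x * X + nT X ^ 2)| ≤
        (a * x + b * t) / (x ^ 2 + x * t + t ^ 2) := by
      rw [← ht', abs_div, abs_of_pos (by positivity : 0 < x ^ 2 + x * X + t ^ 2)]
      refine div_le_div₀ (by positivity) ?_ (by positivity) (by gcongr)
      have e2 : a * x + b * t = r * (x + X / 2) + p * (√3 / 2 * t) := by
        rw [ha, hb]
        field_simp
        ring
      rw [e2]
      refine (abs_add_le _ _).trans (add_le_add ?_ ?_)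
      · rw [abs_mul, abs_of_pos (by positivity : 0 < x + X / 2)]
        gcongr
      · rw [abs_mul, abs_of_nonneg (by positivity : 0 ≤ √3 / 2 * √(X ^ 2 - 1))]
        refine mul_le_mul hp b_le (by positivity) hp0
    have h3 := mul_le_mul (hM x hx) h2 (abs_nonneg _) (mul_nonneg hM0 (Real.rpow_nonneg hx0.le _))
    refine h3.trans (le_of_eq ?_)
    ring
  have ki1 : IntegrableOn (fun x => M * (x ^ (-(1 / 2) : ℝ) * ((a * x + b * t) / (x ^ 2 + x * t + t ^ 2)))) (Ioi 1) :=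
    (ki.mono_set (Ioi_subset_Ioi zero_le_one)).const_mul _
  have h4 : |∫ x in Ioi (1:ℝ), (W * ((f x : ℂ) / (x + T2 X))).im| ≤
      ∫ x in Ioi (1:ℝ), M * (x ^ (-(1 / 2) : ℝ) * ((a * x + b * t) / (x ^ 2 + x * t + t ^ 2))) := by
    rw [← Real.norm_eq_abs]
    refine norm_integral_le_of_norm_le ki1 ?_
    refine (ae_restrict_iff' measurableSet_Ioi).2 (Filter.Eventually.of_forall fun x hx => ?_)
    rw [Real.norm_eq_abs]
    exact hker x hx
  have h5 : ∫ x in Ioi (1:ℝ), M * (x ^ (-(1 / 2) : ℝ) * ((a * x + b * t) / (x ^ 2 + x * t + t ^ 2))) ≤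
      M * ((a + b) * Real.pi / √3 / √t) := by
    rw [integral_const_mul]
    refine mul_le_mul_of_nonneg_left (le_trans ?_ ke.le) hM0
    refine setIntegral_mono_set ki ?_ (Ioi_subset_Ioi zero_le_one).eventuallyLE
    refine (ae_restrict_iff' measurableSet_Ioi).2 (Filter.Eventually.of_forall fun x hx => ?_)
    have hx0 : (0 : ℝ) < x := hx
    show 0 ≤ _
    positivity
  rw [h1, abs_mul, abs_of_pos (by positivity : 0 < 1 / Real.pi)]
  calc 1 / Real.pi * |∫ x in Ioi (1:ℝ), (W * ((f x : ℂ) / (x + T2 X))).im|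
      ≤ 1 / Real.pi * (M * ((a + b) * Real.pi / √3 / √t)) := by
        refine mul_le_mul_of_nonneg_left (h4.trans h5) (by positivity)
    _ = _ := by
        field_simp

/-- **the contraction** -/
theorem contr : ∃ N0 : ℕ, ∀ N : ℕ, N0 ≤ N → ∀ τ : Fin N → ℝ, (∀ k, ta ≤ τ k ∧ τ k ≤ 1) →
    ∀ u : ℝ, ta ≤ u → u ≤ 1 → ∀ (f : ℝ → ℝ) (M : ℝ), 0 ≤ M → Measurable f → Bh f M →
      Bh (KD τ u f) (4 / 5 * M) := by
  refine ⟨50, fun N hN τ hτ u hu hu1 f M hM0 hf hM X hX => ?_⟩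
  have hX0 : 0 < X := by linarith
  have hsX : 0 < √X := Real.sqrt_pos.2 hX0
  have ht := nT_pos hX.le
  have ht2 := nT_sq hX.le
  have hst : 0 < √(nT X) := Real.sqrt_pos.2 ht
  have hst2 : √(nT X) ^ 2 = nT X := Real.sq_sqrt ht.le
  have hsX2 : √X ^ 2 = X := Real.sq_sqrt hX0.le
  have e1 : X ^ (-(1 / 2) : ℝ) = 1 / √X := by
    rw [Real.rpow_neg hX0.le, ← Real.sqrt_eq_rpow, one_div]
  have s3l := s3_lo
  have s3h := s3_hi
  have h3p := s3_pos
  rw [e1]
  show |(WD τ u X * Cf f (T2 X)).im| ≤ _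
  -- it is enough to bound the constant
  suffices h : ∃ p r : ℝ, |(WD τ u X).re| ≤ p ∧ |(WD τ u X).im| ≤ r ∧
      (r + (r * X / (2 * nT X) + √3 / 2 * p)) / √3 / √(nT X) ≤ 4 / 5 * (1 / √X) by
    obtain ⟨p, r, h1, h2, h3⟩ := h
    refine (contr_gen h1 h2 hX.le hf hM).trans ?_
    calc M * ((r + (r * X / (2 * nT X) + √3 / 2 * p)) / √3 / √(nT X)) ≤ M * (4 / 5 * (1 / √X)) :=
          mul_le_mul_of_nonneg_left h3 hM0
      _ = _ := by ring
  rcases le_or_gt 4 X with h4 | h4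
  · refine ⟨1, 1 / 4, (Complex.abs_re_le_norm _).trans (WD_le_one hτ hu hu1 hX), WD_im hN hτ hu hu1 hX, ?_⟩
    have ht3 : 0.976 * X ≤ nT X := by
      refine abs_le_of_sq_le_sq' ?_ ht.le |>.2
      rw [ht2]
      nlinarith
    have hs1 : 0.9879 * √X ≤ √(nT X) := by
      refine abs_le_of_sq_le_sq' ?_ hst.le |>.2
      rw [hst2, mul_pow, hsX2]
      nlinarith
    have h6 : X / (2 * nT X) ≤ 0.5123 := by
      rw [div_le_iff₀ (by positivity)]
      nlinarith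
    have h7 : 1 / 4 + (1 / 4 * X / (2 * nT X) + √3 / 2 * 1) ≤ 1.2442 := by
      have : 1 / 4 * X / (2 * nT X) = 1 / 4 * (X / (2 * nT X)) := by ring
      rw [this]
      linarith
    have h8 : (1 / 4 + (1 / 4 * X / (2 * nT X) + √3 / 2 * 1)) / √3 ≤ 0.7184 := by
      rw [div_le_iff₀ h3p]
      nlinarith
    rw [div_le_iff₀ hst]
    refine h8.trans ?_
    have h9 : 4 / 5 * (1 / √X) * (0.9879 * √X) ≤ 4 / 5 * (1 / √X) * √(nT X) :=
      mul_le_mul_of_nonneg_left hs1 (by positivity)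
    refine le_trans ?_ h9
    have : 4 / 5 * (1 / √X) * (0.9879 * √X) = 4 / 5 * 0.9879 := by
      field_simp
    rw [this]
    norm_num
  · have hW : ‖WD τ u X‖ ≤ 1 / 4 := by
      refine (WD_norm hτ hu hu1 hX).trans ?_
      have h5 : (50 : ℝ) ≤ N := by exact_mod_cast hN
      have h6 : 12 ≤ (N : ℝ) / X := by
        rw [le_div_iff₀ hX0]
        linarith
      have h7 : Real.exp (-((N : ℝ) / X)) ≤ Real.exp (-12) := Real.exp_le_exp.2 (by linarith)
      have h8 : Real.exp (-12) ≤ 1 / 4 := by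
        rw [Real.exp_neg, ← one_div]
        refine one_div_le_one_div_of_le (by norm_num) ?_
        have := Real.add_one_le_exp (12 : ℝ)
        linarith
      exact h7.trans h8
    refine ⟨1 / 4, 1 / 4, (Complex.abs_re_le_norm _).trans hW, (Complex.abs_im_le_norm _).trans hW, ?_⟩
    have ht3 := le_nT hX.le
    have hs1 : √X ≤ 1.4143 * √(nT X) := by
      refine abs_le_of_sq_le_sq' ?_ (by positivity) |>.2
      rw [mul_pow, hst2, hsX2]
      nlinarith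
    have h6 : X / (2 * nT X) ≤ 1 := by
      rw [div_le_iff₀ (by positivity)]
      linarith
    have h7 : 1 / 4 + (1 / 4 * X / (2 * nT X) + √3 / 2 * (1 / 4)) ≤ 0.7166 := by
      have : 1 / 4 * X / (2 * nT X) = 1 / 4 * (X / (2 * nT X)) := by ring
      rw [this]
      linarith
    have h8 : (1 / 4 + (1 / 4 * X / (2 * nT X) + √3 / 2 * (1 / 4))) / √3 ≤ 0.414 := by
      rw [div_le_iff₀ h3p]
      nlinarith
    rw [div_le_iff₀ hst]
    refine h8.trans ?_
    have h9 : 4 / 5 * (1 / √X) * (√X / 1.4143) ≤ 4 / 5 * (1 / √X) * √(nT X) := by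
      refine mul_le_mul_of_nonneg_left ?_ (by positivity)
      rw [div_le_iff₀ (by norm_num)]
      linarith
    refine le_trans ?_ h9
    have : 4 / 5 * (1 / √X) * (√X / 1.4143) = 4 / 5 / 1.4143 := by
      field_simp
    rw [this]
    norm_num

end CenC
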