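import Pool.Agent.EXS.S4a

/-!
# CENC (board/CENC): definitions

`T^2 (S_oo - S_T) -> 5 sqrt3 / 108`.  Finite strips: the difference function `V` of two consecutive
normalised residual functions; the limit problem in the variable `X = A e^t`.
-/

set_option autoImplicit false

namespace CenC

open MeasureTheory Filter Topology EXS

/-- the multiplier of the difference function: rows `τ` (zeros and poles), one more row `u` (poles only) -/
noncomputable def WD {N : ℕ} (τ : Fin N → ℝ) (u : ℝ) (X : ℝ) : ℂ :=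
  Wt (Wf τ) X * (((u : ℂ) - (X : ℂ)) / (T2 X + (u : ℂ)))

/-- the difference function in the strip `|Re w| ≤ π`, `T = cos w` -/
structure VF {N : ℕ} (τ : Fin N → ℝ) (u : ℝ) (V : ℂ → ℂ) : Prop where
  cont : ContinuousOn V {w | |w.re| ≤ Real.pi}
  diff : DifferentiableOn ℂ V {w | |w.re| < Real.pi}
  even : ∀ w, V (-w) = V w
  real : ∀ w, V (starRingEnd ℂ w) = starRingEnd ℂ (V w)
  bd : ∃ C : ℝ, ∀ w : ℂ, |w.re| ≤ Real.pi → ‖V w - 1‖ ≤ C * Real.exp (-(3 / 4 * |w.im|))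
  jump : ∀ η : ℝ, 0 < η → (V ((Real.pi : ℂ) + Complex.I * (η : ℂ))).im =
    (WD τ u (Real.cosh η) * V (((Real.pi / 3 : ℝ) : ℂ) + Complex.I * (η : ℂ))).im

/-- the operator of the integral equation of the difference function -/
noncomputable def KD {N : ℕ} (τ : Fin N → ℝ) (u : ℝ) (f : ℝ → ℝ) (X : ℝ) : ℝ := (WD τ u X * Cf f (T2 X)).im

/-- the norm, exponent 1/2 -/
def Bh (f : ℝ → ℝ) (M : ℝ) : Prop := ∀ X : ℝ, 1 < X → |f X| ≤ M * X ^ (-(1 / 2) : ℝ)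

/-! ### the limit problem in the variable `t`, `X = A e^t` -/

/-- the limit weight `exp(-(1 + e^{iπ/3}) e^{-t})` -/
noncomputable def wl (t : ℝ) : ℂ :=
  Complex.exp (-((1 + Complex.exp (((Real.pi / 3 : ℝ) : ℂ) * Complex.I)) * ((Real.exp (-t) : ℝ) : ℂ)))

/-- the Cauchy transform `(1/π) ∫ γ(t) dt / (1 + e^{z-t})` -/
noncomputable def Cl (γ : ℝ → ℝ) (z : ℂ) : ℂ :=
  ((1 / Real.pi : ℝ) : ℂ) * ∫ t : ℝ, (γ t : ℂ) / (1 + Complex.exp (z - (t : ℂ)))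

/-- the ray `t - iπ/3` -/
noncomputable def zl (t : ℝ) : ℂ := (t : ℂ) - ((Real.pi / 3 : ℝ) : ℂ) * Complex.I

/-- the solution of the limit problem -/
structure Sol (γ : ℝ → ℝ) : Prop where
  meas : Measurable γ
  bd : ∃ M : ℝ, ∀ t : ℝ, |γ t| ≤ M * Real.exp (-(t / 2))
  eq : ∀ t : ℝ, γ t = (wl t * (1 + Cl γ (zl t))).im

/-- the moments `(1/π) ∫ e^{-kt} γ(t) dt` -/
noncomputable def mo (k : ℝ) (γ : ℝ → ℝ) : ℝ := (1 / Real.pi) * ∫ t : ℝ, Real.exp (-(k * t)) * γ t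

/-- Taylor coefficients at `s = 0` of `F(s) = 1 + (1/π) ∫ γ dt/(1 + s e^{-t})` -/
noncomputable def th0 (γ : ℝ → ℝ) : ℝ := 1 + mo 0 γ
noncomputable def th1 (γ : ℝ → ℝ) : ℝ := -mo 1 γ
noncomputable def th2 (γ : ℝ → ℝ) : ℝ := mo 2 γ

/-- `Ψ(z) = exp(-e^{-z}) (1 + Cl γ z)`, `|Im z| < π` -/
noncomputable def Ps (γ : ℝ → ℝ) (z : ℂ) : ℂ := Complex.exp (-Complex.exp (-z)) * (1 + Cl γ z)

end CenC
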