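import Mathlib

/-!
# CENC: real analysis for the final step
-/

set_option autoImplicit false

namespace CenC

open Filter Topology

noncomputable section

/-- the error -/
def del (n : ℕ) : ℝ := 1 / ((n : ℝ) + 1) ^ 3

lemma del_pos (n : ℕ) : 0 < del n := by unfold del; positivity

lemma del_le (n : ℕ) (hn : 1 ≤ n) : del n ≤ 1 / 2 := by
  unfold del
  have h1 : (1 : ℝ) ≤ n := by exact_mod_cast hn
  rw [div_le_div_iff₀ (by positivity) (by norm_num)]
  nlinarith [sq_nonneg ((n : ℝ) - 1), pow_nonneg (show (0 : ℝ) ≤ n by linarith) 3]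

lemma sq_del : Tendsto (fun n : ℕ => (n : ℝ) ^ 2 * del n) atTop (𝓝 0) := by
  have h1 : Tendsto (fun n : ℕ => 1 / ((n : ℝ) + 1)) atTop (𝓝 0) := tendsto_one_div_add_atTop_nhds_zero_nat
  refine squeeze_zero (fun n => mul_nonneg (by positivity) (del_pos n).le) (fun n => ?_) h1
  unfold del
  have h2 : (0 : ℝ) ≤ n := Nat.cast_nonneg n
  rw [mul_one_div, div_le_div_iff₀ (by positivity) (by positivity)]
  nlinarith [pow_nonneg h2 3, pow_nonneg h2 2]

lemma del_zero : Tendsto del atTop (𝓝 0) := by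
  have h1 : Tendsto (fun n : ℕ => 1 / ((n : ℝ) + 1)) atTop (𝓝 0) := tendsto_one_div_add_atTop_nhds_zero_nat
  refine squeeze_zero (fun n => (del_pos n).le) (fun n => ?_) h1
  unfold del
  have h2 : (0 : ℝ) ≤ n := Nat.cast_nonneg n
  rw [div_le_div_iff₀ (by positivity) (by positivity)]
  nlinarith [pow_nonneg h2 3, pow_nonneg h2 2]

lemma abs_sub_cases (p q : ℝ) : |p - q| = |p| + |q| ∨ |p - q| = abs (abs p - abs q) := by
  rcases le_total 0 p with hp | hp <;> rcases le_total 0 q with hq | hq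
  · right
    rw [abs_of_nonneg hp, abs_of_nonneg hq]
  · left
    rw [abs_of_nonneg hp, abs_of_nonpos hq, abs_of_nonneg (by linarith)]
    ring
  · left
    rw [abs_of_nonpos hp, abs_of_nonneg hq, abs_of_nonpos (by linarith)]
    ring
  · right
    rw [abs_of_nonpos hp, abs_of_nonpos hq]
    rw [show -p - -q = -(p - q) by ring, abs_neg]

/-- a quantity with a small error times n ^ 2 -/
lemma sq_small {a : ℕ → ℝ} {C : ℝ} (h : ∀ᶠ n in atTop, |a n| ≤ C * del n) :
    Tendsto (fun n : ℕ => (n : ℝ) ^ 2 * a n) atTop (𝓝 0) := by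
  have h1 : Tendsto (fun n : ℕ => C * ((n : ℝ) ^ 2 * del n)) atTop (𝓝 0) := by
    have := sq_del.const_mul C
    rwa [mul_zero] at this
  refine squeeze_zero_norm' ?_ h1
  filter_upwards [h] with n hn
  rw [Real.norm_eq_abs, abs_mul, abs_of_nonneg (by positivity : (0 : ℝ) ≤ (n : ℝ) ^ 2)]
  have : (0 : ℝ) ≤ (n : ℝ) ^ 2 := by positivity
  nlinarith

lemma small {a : ℕ → ℝ} {C : ℝ} (h : ∀ᶠ n in atTop, |a n| ≤ C * del n) :
    Tendsto a atTop (𝓝 0) := by
  have h1 : Tendsto (fun n : ℕ => C * del n) atTop (𝓝 0) := by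
    have := del_zero.const_mul C
    rwa [mul_zero] at this
  refine squeeze_zero_norm' ?_ h1
  filter_upwards [h] with n hn
  rwa [Real.norm_eq_abs]

section

variable {b D w p q f c X : ℕ → ℝ} {C0 w1 θ : ℝ}
  (hC0 : 0 < C0)
  (hb : ∀ n, 1 ≤ n → 0 < b n) (hratio : Tendsto (fun n => b (n + 1) / b n) atTop (𝓝 1))
  (hD : ∀ n, 1 ≤ n → 0 < D n) (hstar : ∀ n, 1 ≤ n → b n + b (n + 1) = D n * w n)
  (hw : Tendsto w atTop (𝓝 w1))
  (hp : ∀ n, 1 ≤ n → |(|p n|) - b n| ≤ del n * D n)
  (hq : ∀ n, 1 ≤ n → |(|q n|) - b (n + 1)| ≤ del n * D n)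
  (hf : ∀ n, 1 ≤ n → |f n - D n| ≤ del n * D n)
  (hc : ∀ n, 1 ≤ n → |c n - Real.sqrt 3 / 2| ≤ 3 * del n)
  (hX : ∀ n, 1 ≤ n → |X n| = C0 * |c n| * |p n - q n| / |f n|)
  (hθ : Tendsto X atTop (𝓝 θ)) (hθ0 : θ ≠ 0)

include hb hratio hD hstar hw in
lemma bad_zero : Tendsto (fun n => |b n - b (n + 1)| / D n) atTop (𝓝 0) := by
  have h1 : Tendsto (fun n => |1 - b (n + 1) / b n| / (1 + b (n + 1) / b n) * w n) atTop
      (𝓝 (|1 - 1| / (1 + 1) * w1)) :=
    ((tendsto_const_nhds.sub hratio).abs.div (tendsto_const_nhds.add hratio) (by norm_num)).mul hw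
  rw [sub_self, abs_zero, zero_div, zero_mul] at h1
  refine h1.congr' ?_
  filter_upwards [eventually_ge_atTop 1] with n hn
  have h2 := hb n hn
  have h3 := hb (n + 1) (by omega)
  have h4 := hD n hn
  have h5 := hstar n hn
  have h6 : w n = (b n + b (n + 1)) / D n := by
    rw [h5]
    field_simp
  rw [h6]
  have h7 : 1 - b (n + 1) / b n = (b n - b (n + 1)) / b n := by field_simp
  rw [h7, abs_div, abs_of_pos h2]
  field_simp

include hf hD in
lemma f_bd {n : ℕ} (hn : 1 ≤ n) : D n / 2 ≤ |f n| := by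
  have h1 := hf n hn
  have h2 := hD n hn
  have h3 := del_le n hn
  have h4 : del n * D n ≤ D n / 2 := by nlinarith
  have h5 := abs_le.1 h1
  have h6 : D n / 2 ≤ f n := by linarith
  exact h6.trans (le_abs_self _)

include hc in
lemma c_bd {n : ℕ} (hn : 1 ≤ n) : |c n| ≤ 3 := by
  have h1 := hc n hn
  have h3 := del_le n hn
  have h4 : Real.sqrt 3 / 2 ≤ 1 := by
    have : Real.sqrt 3 ≤ 2 := by
      rw [Real.sqrt_le_left (by norm_num)]; norm_num
    linarith
  have h5 : 0 ≤ Real.sqrt 3 / 2 := by positivity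
  rw [abs_le] at h1 ⊢
  constructor <;> linarith [h1.1, h1.2]

include hC0 hb hratio hD hstar hw hp hq hf hc hX hθ hθ0 in
lemma good : ∀ᶠ n in atTop, |(|p n - q n|) - (b n + b (n + 1))| ≤ 2 * del n * D n := by
  have h1 : Tendsto (fun n => C0 * 3 * (|b n - b (n + 1)| / D n + 2 * del n) * 2) atTop (𝓝 0) := by
    have := (((bad_zero hb hratio hD hstar hw).add (del_zero.const_mul 2)).const_mul (C0 * 3)).mul_const 2
    simpa using this
  have hθa : 0 < |θ| / 2 := by positivity
  have h2 : ∀ᶠ n in atTop, C0 * 3 * (|b n - b (n + 1)| / D n + 2 * del n) * 2 < |θ| / 2 :=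
    h1.eventually (gt_mem_nhds hθa)
  have h3 : ∀ᶠ n in atTop, |θ| / 2 < |X n| :=
    hθ.abs.eventually (lt_mem_nhds (by linarith))
  filter_upwards [h2, h3, eventually_ge_atTop 1] with n h2 h3 hn
  have hDn := hD n hn
  have hpn := abs_le.1 (hp n hn)
  have hqn := abs_le.1 (hq n hn)
  rcases abs_sub_cases (p n) (q n) with h4 | h4
  · rw [h4, abs_le]
    constructor <;> linarith [hpn.1, hpn.2, hqn.1, hqn.2]
  · exfalso
    have h5 : |p n - q n| ≤ |b n - b (n + 1)| + 2 * del n * D n := by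
      rw [h4]
      have h6 : |p n| - |q n| = (b n - b (n + 1)) + ((|p n| - b n) - (|q n| - b (n + 1))) := by ring
      rw [h6]
      refine (abs_add_le _ _).trans ?_
      have h7 : |(|p n| - b n) - (|q n| - b (n + 1))| ≤ del n * D n + del n * D n :=
        (abs_sub _ _).trans (add_le_add (hp n hn) (hq n hn))
      linarith
    have h6 : |X n| ≤ C0 * 3 * (|b n - b (n + 1)| / D n + 2 * del n) * 2 := by
      rw [hX n hn]
      have h8 := f_bd hD hf hn
      have h9 := c_bd hc hn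
      have h10 : 0 < |f n| := lt_of_lt_of_le (by positivity) h8
      rw [div_le_iff₀ h10]
      have h11 : (|b n - b (n + 1)| / D n + 2 * del n) * D n = |b n - b (n + 1)| + 2 * del n * D n := by
        field_simp
      have h12 : 0 ≤ |b n - b (n + 1)| / D n + 2 * del n := by
        have := (del_pos n).le
        positivity
      calc C0 * |c n| * |p n - q n| ≤ C0 * 3 * ((|b n - b (n + 1)| / D n + 2 * del n) * D n) := by
            rw [h11]
            exact mul_le_mul (by nlinarith [abs_nonneg (c n)]) h5 (abs_nonneg _) (by positivity)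
        _ = C0 * 3 * (|b n - b (n + 1)| / D n + 2 * del n) * 2 * (D n / 2) := by ring
        _ ≤ C0 * 3 * (|b n - b (n + 1)| / D n + 2 * del n) * 2 * |f n| :=
            mul_le_mul_of_nonneg_left h8 (by positivity)
    linarith

include hC0 hb hratio hD hstar hw hp hq hf hc hX hθ hθ0 in
/-- the comparison -/
theorem core_diff : Tendsto (fun n : ℕ => (n : ℝ) ^ 2 * (X n ^ 2 - (C0 * (Real.sqrt 3 / 2) * w n) ^ 2)) atTop (𝓝 0) := by
  have hgood := good hC0 hb hratio hD hstar hw hp hq hf hc hX hθ hθ0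
  -- the three relative errors
  set g : ℕ → ℝ := fun n => |p n - q n| / D n with hg
  set h : ℕ → ℝ := fun n => |f n| / D n with hh
  have e1 : ∀ᶠ n in atTop, |g n - w n| ≤ 2 * del n := by
    filter_upwards [hgood, eventually_ge_atTop 1] with n h1 hn
    have h2 := hD n hn
    have h3 : g n - w n = (|p n - q n| - (b n + b (n + 1))) / D n := by
      rw [hstar n hn, hg]
      field_simp
    rw [h3, abs_div, abs_of_pos h2, div_le_iff₀ h2]
    exact h1
  have e2 : ∀ᶠ n in atTop, |h n - 1| ≤ 1 * del n := by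
    filter_upwards [eventually_ge_atTop 1] with n hn
    have h2 := hD n hn
    have h3 : h n - 1 = (|f n| - D n) / D n := by
      rw [hh]
      field_simp
    rw [h3, abs_div, abs_of_pos h2, div_le_iff₀ h2, one_mul]
    have h4 : abs (abs (f n) - abs (D n)) ≤ |f n - D n| := abs_abs_sub_abs_le_abs_sub _ _
    rw [abs_of_pos h2] at h4
    exact h4.trans (hf n hn)
  have e3 : ∀ᶠ n in atTop, |(|c n|) - Real.sqrt 3 / 2| ≤ 3 * del n := by
    filter_upwards [eventually_ge_atTop 1] with n hn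
    have h4 : abs (abs (c n) - abs (Real.sqrt 3 / 2)) ≤ |c n - Real.sqrt 3 / 2| := abs_abs_sub_abs_le_abs_sub _ _
    rw [abs_of_pos (show 0 < Real.sqrt 3 / 2 by positivity)] at h4
    exact h4.trans (hc n hn)
  have t1 := sq_small e1
  have t2 := sq_small e2
  have t3 := sq_small e3
  have gl : Tendsto g atTop (𝓝 w1) := by
    have := (small e1).add hw
    simpa using this
  have hl : Tendsto h atTop (𝓝 1) := by
    have := (small e2).add_const 1
    simpa using this
  have cl : Tendsto (fun n => |c n|) atTop (𝓝 (Real.sqrt 3 / 2)) := by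
    have := (small e3).add_const (Real.sqrt 3 / 2)
    simpa using this
  -- |X n| - v n
  have d1 : Tendsto (fun n : ℕ => (n : ℝ) ^ 2 * (|X n| - C0 * (Real.sqrt 3 / 2) * w n)) atTop (𝓝 0) := by
    have d2 : Tendsto (fun n : ℕ => C0 * ((n : ℝ) ^ 2 * (|c n| - Real.sqrt 3 / 2)) * (g n / h n) +
        C0 * (Real.sqrt 3 / 2) * (((n : ℝ) ^ 2 * (g n - w n)) / h n - w n * ((n : ℝ) ^ 2 * (h n - 1)) / h n))
        atTop (𝓝 (C0 * 0 * (w1 / 1) + C0 * (Real.sqrt 3 / 2) * (0 / 1 - w1 * 0 / 1))) :=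
      ((t3.const_mul C0).mul (gl.div hl one_ne_zero)).add
        (((t1.div hl one_ne_zero).sub ((hw.mul t2).div hl one_ne_zero)).const_mul _)
    rw [show C0 * 0 * (w1 / 1) + C0 * (Real.sqrt 3 / 2) * (0 / 1 - w1 * 0 / 1) = 0 by ring] at d2
    refine d2.congr' ?_
    filter_upwards [eventually_ge_atTop 1] with n hn
    have h2 := hD n hn
    have h3 := f_bd hD hf hn
    have h4 : 0 < |f n| := lt_of_lt_of_le (by positivity) h3
    have h5 : h n ≠ 0 := by
      have : 0 < h n := div_pos h4 h2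
      exact this.ne'
    have h6 : |X n| = C0 * |c n| * (g n / h n) := by
      rw [hX n hn, hg, hh]
      field_simp
    rw [h6]
    field_simp
    ring
  have hv : Tendsto (fun n => C0 * (Real.sqrt 3 / 2) * w n) atTop (𝓝 (C0 * (Real.sqrt 3 / 2) * w1)) := hw.const_mul _
  have d3 := d1.mul (hθ.abs.add hv)
  rw [zero_mul] at d3
  refine d3.congr (fun n => ?_)
  rw [← sq_abs (X n)]
  ring

end

/-- the conclusion: from the second order of v ^ 2 to the second order of w -/
theorem core_fin {v : ℕ → ℝ} {L v1 : ℝ} (hv1 : 0 < v1) (hL : Tendsto (fun n : ℕ => (n : ℝ) ^ 2 * (v n ^ 2 - v1 ^ 2)) atTop (𝓝 L))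
    (hv : Tendsto v atTop (𝓝 v1)) :
    Tendsto (fun n : ℕ => (n : ℝ) ^ 2 * (v n - v1)) atTop (𝓝 (L / (2 * v1))) := by
  have h1 : Tendsto (fun n => v n + v1) atTop (𝓝 (v1 + v1)) := hv.add_const v1
  have h2 : v1 + v1 ≠ 0 := by linarith
  have h3 := hL.div h1 h2
  rw [show v1 + v1 = 2 * v1 by ring] at h3
  refine h3.congr' ?_
  have h4 : ∀ᶠ n in atTop, 0 < v n + v1 := h1.eventually (lt_mem_nhds (by linarith))
  filter_upwards [h4] with n hn
  show (n : ℝ) ^ 2 * (v n ^ 2 - v1 ^ 2) / (v n + v1) = (n : ℝ) ^ 2 * (v n - v1)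
  rw [div_eq_iff hn.ne']
  ring

/-- if n ^ 2 a n converges then a n converges to 0 -/
theorem zero_of_sq {a : ℕ → ℝ} {L : ℝ} (h : Tendsto (fun n : ℕ => (n : ℝ) ^ 2 * a n) atTop (𝓝 L)) :
    Tendsto a atTop (𝓝 0) := by
  have h1 : Tendsto (fun n : ℕ => ((n : ℝ) ^ 2)⁻¹) atTop (𝓝 0) := by
    have : Tendsto (fun n : ℕ => (n : ℝ) ^ 2) atTop atTop :=
      (tendsto_pow_atTop two_ne_zero).comp tendsto_natCast_atTop_atTop
    exact this.inv_tendsto_atTop
  have h2 := h1.mul h
  rw [zero_mul] at h2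
  refine h2.congr' ?_
  filter_upwards [eventually_ge_atTop 1] with n hn
  have : (0 : ℝ) < n := by exact_mod_cast hn
  field_simp

end

end CenC
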