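import Pool.Agent.CenC.LimD
import Pool.Agent.CenC.Contr

/-! CENC, module L: the limit `N → ∞` of the difference function. -/

set_option autoImplicit false

namespace CenC

open MeasureTheory Filter Topology EXS

/-- module L -/
theorem lim_main {τ : (n : ℕ) → Fin n → ℝ} {u : ℕ → ℝ} {V : ℕ → ℂ → ℂ} {w : ℕ → ℝ}
    (hτ : ∀ n k, ta ≤ τ n k ∧ τ n k ≤ 1) (hu : ∀ n, ta ≤ u n ∧ u n < 1)
    (hδ : ∀ ε : ℝ, 0 < ε → ∀ᶠ n in atTop, ∀ k, |τ n k - ta| ≤ ε) (hδu : Tendsto u atTop (𝓝 ta))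
    (hV : ∀ᶠ n in atTop, VF (τ n) (u n) (V n)) (hw : ∀ n, 0 < w n ∧ w n < Real.pi / 2 ∧ Real.cos (w n) = u n) :
    ∃ γ : ℝ → ℝ, Sol γ ∧
      Tendsto (fun n => V n ((Real.pi / 2 : ℝ) : ℂ)) atTop (𝓝 (th0 γ : ℂ)) ∧
      Tendsto (fun n : ℕ => (n : ℂ) ^ 2 * (V n ((Real.pi / 2 : ℝ) : ℂ) ^ 2 -
        V n ((w n : ℝ) : ℂ) * V n ((Real.pi - w n : ℝ) : ℂ))) atTop
        (𝓝 ((-(1 / 4) * (2 * th0 γ * th2 γ - th1 γ ^ 2) : ℝ) : ℂ)) :=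
  lim_main' contr hτ hu hδ hδu hV hw

end CenC
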