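import Pool.Agent.CenC.Vf
import Pool.Agent.EXK.Final
import Pool.Agent.EXS.Main

/-!
# CENC module N (board/CENC): the nodes

For every `n ≥ 1` there are residual data for `n` and for `n + 1` nodes near `π/16` (the first `n` nodes are the
same), whose values at `cos (3π/8)` are close to the bridge weights and whose first moments are close to
`tau2 KR / 2`.
-/

set_option autoImplicit false

namespace CenC

open Finset Filter Topology EXS Pool.Agent.EXL Pool.Agent.EXL.Glue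

/-- `LatRel` and `LatRelK` together, at the same nodes -/
theorem latRel2 {N : ℕ} (hN : 1 ≤ N) : ∃ Bx bx : (Fin N → ℝ) → ℂ,
    Tendsto Bx (nf N) (𝓝 (HexObs.bT N : ℂ)) ∧
    Tendsto bx (nf N) (𝓝 (-(4 * (Real.cos (3 * Real.pi / 8) : ℝ)) * (EXK.tau2 EXK.KR N : ℂ))) ∧
    ∀ᶠ x in nf N, ∃ (b : ℂ → ℂ) (ρ : ℂ), Cl.BF x b (Bx x) ρ ∧ Cl.Bs b (bx x) :=
  EXK.lat_atK (setupN N) (Ins.laws (LN N)) (row := fun i => Sum.inl i)
    Sum.inl_injective rfl (aux4N N) (c := Sum.inr 0) ⟨0, rfl⟩ (F₀ := Pool.Agent.EXK.Fc N)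
    (β := (HexObs.bT N : ℂ))
    (by
      rw [opsC_eq]
      exact inj_colC hN (AN_full N) (AN_empty N) (presH N) (reach N) (coReach fun p h => AN_axE h))
    (by
      rw [opsC_eq]
      exact half_colC hN (AN_full N) (AN_empty N) (presH N) (reach N))
    (by
      unfold Pool.Agent.EXK.Fc
      rw [Pool.Agent.EXK.Fh_empty]
      simp)
    (fun p hp => by
      unfold Pool.Agent.EXK.Fc Pool.Agent.EXK.Fh HS.Flim
      rw [if_neg (fun h => hp h.1)]
      rfl)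
    (Pool.Agent.EXK.beta0 hN)

theorem HH_eq (c d : ℝ) : HH c d = P2F.H c d := rfl

theorem HH_symm (c d : ℝ) : HH c d = HH d c := by
  unfold HH
  ring

/-- the first moment of the coefficients from the second node relation -/
theorem F1_eq {N : ℕ} {x : Fin N → ℝ} {s0 : ℝ} {s : Fin N → ℝ} (h : SD x s0 s) {t : ℝ} {g : Fin N → ℝ}
    (hg : ∀ y, (y = Real.pi / 16 ∨ ∃ i, y = x i) →
      2 * Real.cos (2 * y) - t = ∑ j, g j / P2F.H (Real.cos (2 * y)) (Real.cos (2 * x j))) :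
    2 * F1 x s0 s = t := by
  have h0 := hg (Real.pi / 16) (Or.inl rfl)
  have h1 := fun i => hg (x i) (Or.inr ⟨i, rfl⟩)
  rw [show 2 * (Real.pi / 16) = Real.pi / 8 by ring] at h0
  have h2 : s0 * (2 * Real.cos (Real.pi / 8) - t) + ∑ i, s i * (2 * Real.cos (2 * x i) - t) =
      ∑ j, g j * SS x s0 s (Real.cos (2 * x j)) := by
    have h5 : ∑ i, s i * (2 * Real.cos (2 * x i) - t) =
        ∑ i, s i * ∑ j, g j / P2F.H (Real.cos (2 * x i)) (Real.cos (2 * x j)) :=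
      Finset.sum_congr rfl fun i _ => by rw [h1 i]
    rw [h0, h5, Finset.mul_sum]
    have h3 : ∑ i, s i * ∑ j, g j / P2F.H (Real.cos (2 * x i)) (Real.cos (2 * x j)) =
        ∑ j, ∑ i, g j * (s i / HH (Real.cos (2 * x j)) (Real.cos (2 * x i))) := by
      rw [Finset.sum_comm]
      refine Finset.sum_congr rfl fun i _ => ?_
      rw [Finset.mul_sum]
      refine Finset.sum_congr rfl fun j _ => ?_
      rw [HH_symm, HH_eq]
      ring
    rw [h3, ← Finset.sum_add_distrib]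
    refine Finset.sum_congr rfl fun j _ => ?_
    unfold SS
    rw [mul_add, Finset.mul_sum, HH_symm _ (Real.cos (Real.pi / 8)), HH_eq]
    ring
  have h3 : ∑ j, g j * SS x s0 s (Real.cos (2 * x j)) = 0 :=
    Finset.sum_eq_zero fun j _ => by rw [h.zero j, mul_zero]
  rw [h3] at h2
  have h4 : ∑ i, s i * (2 * Real.cos (2 * x i) - t) =
      2 * ∑ i, s i * Real.cos (2 * x i) - t * ∑ i, s i := by
    rw [Finset.mul_sum, Finset.mul_sum, ← Finset.sum_sub_distrib]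
    exact Finset.sum_congr rfl fun i _ => by ring
  rw [h4] at h2
  unfold F1
  linear_combination h2 + t * h.sum

/-- what is true for all small `e` -/
def Good (N : ℕ) (ε : ℝ) (x : Fin N → ℝ) : Prop :=
  ∃ (s0 : ℝ) (s : Fin N → ℝ), (∀ k, |x k - Real.pi / 16| ≤ ε) ∧ SD x s0 s ∧
    |(|SS x s0 s cst|) - HexObs.bT N| ≤ ε ∧ |2 * F1 x s0 s - EXK.tau2 EXK.KR N| ≤ ε

theorem good_ev {N : ℕ} (hN : 1 ≤ N) {ε : ℝ} (hε : 0 < ε) :
    ∀ᶠ e in 𝓝[>] (0 : ℝ), Good N ε (fun i : Fin N => P2F.xx (zs N e i)) := by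
  obtain ⟨Bx, bx, hB, hb, hout⟩ := latRel2 hN
  have hc3 := EXK.c3_pos
  have h1 : ∀ᶠ x in nf N, ‖Bx x - (HexObs.bT N : ℂ)‖ < ε :=
    (tendsto_iff_norm_sub_tendsto_zero.1 hB).eventually (eventually_lt_nhds hε)
  have h1' : ∀ᶠ x in nf N, ‖bx x - (-(4 * (Real.cos (3 * Real.pi / 8) : ℝ)) *
      (EXK.tau2 EXK.KR N : ℂ))‖ < ε * (4 * Real.cos (3 * Real.pi / 8)) :=
    (tendsto_iff_norm_sub_tendsto_zero.1 hb).eventually (eventually_lt_nhds (by positivity))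
  have h2 : ∀ᶠ x in nf N, ∀ k, |x k - Real.pi / 16| < ε := by
    have h3 : ∀ᶠ x in 𝓝 (fun _ : Fin N => Real.pi / 16), ∀ k, |x k - Real.pi / 16| < ε := by
      have := Metric.ball_mem_nhds (fun _ : Fin N => Real.pi / 16) hε
      filter_upwards [this] with x hx k
      have h4 := dist_le_pi_dist x (fun _ => Real.pi / 16) k
      rw [Real.dist_eq] at h4
      exact lt_of_le_of_lt h4 (Metric.mem_ball.1 hx)
    exact h3.filter_mono nhdsWithin_le_nhds
  filter_upwards [(tendsto_zs N).eventually (h1.and (h1'.and (h2.and hout))), small_ev N,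
    self_mem_nhdsWithin] with e ha hs he
  obtain ⟨a1, a1', a2, b, ρ, hbf, hbs⟩ := ha
  have he' : (0 : ℝ) < e := he
  have hnd := nd_zs he' hs
  have hsm := fun i => zs_small he' hs i
  have hsm' : ∀ i, |zs N e i| < 1 / 20 := fun i => by
    rw [abs_of_pos (hsm i).1]; exact (hsm i).2
  obtain ⟨s0, s, hSD, hSS⟩ := SD_of_ClOut hnd (clOut_of_bf hnd hbf)
  obtain ⟨t, ht, g, hg⟩ := EXK.relK hsm' (zs_inj he') hnd hbf hbs
  refine ⟨s0, s, fun k => (a2 k).le, hSD, ?_, ?_⟩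
  · rw [← hSS]
    have a7 : HexObs.bT N = ‖(HexObs.bT N : ℂ)‖ := by
      rw [Complex.norm_real, Real.norm_eq_abs, abs_of_nonneg (HexObs.bT_pos hN).le]
    rw [a7]
    exact (abs_norm_sub_norm_le _ _).trans a1.le
  · rw [F1_eq hSD hg]
    rw [ht, ← mul_sub, norm_mul, ← Complex.ofReal_sub, Complex.norm_real, Real.norm_eq_abs] at a1'
    have e1 : ‖(-(4 * (Real.cos (3 * Real.pi / 8) : ℝ)) : ℂ)‖ = 4 * Real.cos (3 * Real.pi / 8) := by
      rw [norm_neg, norm_mul, Complex.norm_real, Real.norm_eq_abs, abs_of_pos hc3]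
      norm_num
    rw [e1, mul_comm] at a1'
    exact (lt_of_mul_lt_mul_right a1' (by positivity)).le

/-- **nodes** -/
theorem nodes (n : ℕ) (hn : 1 ≤ n) (ε : ℝ) (hε : 0 < ε) : ∃ (x : Fin (n + 1) → ℝ) (s0 s0' : ℝ) (s : Fin n → ℝ)
    (s' : Fin (n + 1) → ℝ), (∀ k, |x k - Real.pi / 16| ≤ ε) ∧ SD (cs x) s0 s ∧ SD x s0' s' ∧
      |(|SS (cs x) s0 s cst|) - HexObs.bT n| ≤ ε ∧ |(|SS x s0' s' cst|) - HexObs.bT (n + 1)| ≤ ε ∧
      |2 * F1 (cs x) s0 s - EXK.tau2 EXK.KR n| ≤ ε ∧ |2 * F1 x s0' s' - EXK.tau2 EXK.KR (n + 1)| ≤ ε := by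
  obtain ⟨e, h1, h2⟩ := ((good_ev hn hε).and (good_ev (N := n + 1) (by omega) hε)).exists
  obtain ⟨s0, s, -, a1, a2, a3⟩ := h1
  obtain ⟨s0', s', b0, b1, b2, b3⟩ := h2
  exact ⟨_, s0, s0', s, s', b0, a1, b1, a2, b2, a3, b3⟩

end CenC
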