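import Pool.Agent.CenC.Prod
import Pool.Agent.CenC.Node
import Pool.Agent.CenC.Lim
import Pool.Agent.CenC.FinA
import Pool.Agent.HexPG.Hand

/-!
# CENC F: the second order of the weight of the polygons in T rows
-/

set_option autoImplicit false

namespace CenC

open Filter Topology EXS HexPolygon

noncomputable section

/-- `T²(S_∞ - S_T) → 5√3/108`: the increments of `K` -/
def DD (n : ℕ) : ℝ := (Real.sqrt 2 + 1) * ((HexPolygon.K (n + 1)).toReal - (HexPolygon.K n).toReal)

/-- the factor of the exact identity -/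
def ww (n : ℕ) : ℝ := HexPolygon.x + HexPolygon.x⁻¹ - 2 * Real.sin (Real.pi / 8) * (HexPolygon.S (n + 1)).toReal

/-- the constant -/
def C0 : ℝ := Real.sqrt 3 / (8 * Real.sqrt 2 * cst)

lemma cst_eq : cst = Real.sin (Real.pi / 8) := by
  rw [cst, ← Real.sin_pi_div_two_sub]
  congr 1
  ring

lemma s1_pos : 0 < Real.sin (Real.pi / 8) :=
  Real.sin_pos_of_pos_of_lt_pi (by positivity) (by linarith [Real.pi_pos])

lemma C0_pos : 0 < C0 := by
  unfold C0
  rw [cst_eq]
  have := s1_pos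
  positivity

lemma tan3 : Real.sin (3 * Real.pi / 8) / Real.cos (3 * Real.pi / 8) = Real.sqrt 2 + 1 := by
  have h1 : Real.cos (3 * Real.pi / 8) = Real.sin (Real.pi / 8) := cst_eq
  have h2 : Real.sin (3 * Real.pi / 8) = Real.cos (Real.pi / 8) := by
    rw [← Real.sin_pi_div_two_sub]
    congr 1
    ring
  have h3 := s1_pos
  have h4 : 0 < Real.cos (Real.pi / 8) := EXK.c1_pos
  have h5 : Real.sqrt 2 ^ 2 = 2 := Real.sq_sqrt (by norm_num)
  have e1 := Real.sin_two_mul (Real.pi / 8)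
  have e2 := Real.cos_two_mul (Real.pi / 8)
  have e3 := Real.sin_sq_add_cos_sq (Real.pi / 8)
  rw [show 2 * (Real.pi / 8) = Real.pi / 4 by ring, Real.sin_pi_div_four] at e1
  rw [show 2 * (Real.pi / 8) = Real.pi / 4 by ring, Real.cos_pi_div_four] at e2
  rw [h1, h2, div_eq_iff h3.ne']
  have e4 : Real.sin (Real.pi / 8) * (Real.cos (Real.pi / 8) - (Real.sqrt 2 + 1) * Real.sin (Real.pi / 8)) = 0 := by
    linear_combination (-1 / 2) * e1 - (Real.sqrt 2 + 1) * e3 + (-(Real.sqrt 2 + 1) / 2) * e2 + (1 / 4) * h5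
  rcases mul_eq_zero.1 e4 with h | h
  · exact absurd h h3.ne'
  · linarith

lemma tau_sub {n : ℕ} (hn : 1 ≤ n) : (EXK.tau2 EXK.KR (n + 1) - EXK.tau2 EXK.KR n) / 2 = DD n := by
  unfold EXK.tau2 DD
  rw [EXK.KR_eq hn, EXK.KR_eq (by omega), K_eq, K_eq, tan3]
  ring

lemma bT_pos' {n : ℕ} (hn : 1 ≤ n) : 0 < HexObs.bT n := HexObs.bT_pos hn

lemma starD {n : ℕ} (hn : 1 ≤ n) : HexObs.bT n + HexObs.bT (n + 1) = DD n * ww n := by
  have h := HexPolygon.star hn
  rw [B_eq hn, B_eq (by omega)] at h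
  exact h

lemma DD_pos {n : ℕ} (hn : 1 ≤ n) : 0 < DD n := by
  have h1 := HexObs.PG.kt_sub hn
  have h2 : 0 ≤ (HexObs.SP.XX n).toReal := ENNReal.toReal_nonneg
  have hx := HexObs.xc_pos
  have h3 : 0 ≤ DD n := by
    unfold DD
    rw [K_eq, K_eq]
    rw [h1, mul_assoc] at h2
    exact nonneg_of_mul_nonneg_right h2 hx
  rcases h3.lt_or_eq with h | h
  · exact h
  · exfalso
    have h4 := starD hn
    rw [← h, zero_mul] at h4
    have := bT_pos' hn
    have := bT_pos' (n := n + 1) (by omega)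
    linarith

lemma ww_pos {n : ℕ} (hn : 1 ≤ n) : 0 < ww n := by
  have h1 := DD_pos hn
  have h2 := starD hn
  have h3 := bT_pos' hn
  have h4 := bT_pos' (n := n + 1) (by omega)
  have h5 : 0 < DD n * ww n := by rw [← h2]; linarith
  exact (mul_pos_iff_of_pos_left h1).1 h5

lemma Sall_ne : HexPolygon.Sall ≠ ⊤ := by
  rw [HexPolygon.total]
  exact ENNReal.ofReal_ne_top

lemma S_tendR : Tendsto (fun n => (HexPolygon.S n).toReal) atTop (𝓝 (HexPolygon.Sall).toReal) :=
  (ENNReal.tendsto_toReal Sall_ne).comp S_tendsto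

/-- the limit of ww -/
def w1 : ℝ := HexPolygon.x + HexPolygon.x⁻¹ - 2 * Real.sin (Real.pi / 8) * (HexPolygon.Sall).toReal

lemma ww_lim : Tendsto ww atTop (𝓝 w1) :=
  ((S_tendR.comp (tendsto_add_atTop_nat 1)).const_mul _).const_sub _

lemma ratio_b : Tendsto (fun n => HexObs.bT (n + 1) / HexObs.bT n) atTop (𝓝 1) := by
  have h1 := EXK.bT_asym
  have h2 := HexPGC.shift_lim h1
  have h3 := h2.div h1 EXG.bB_pos.ne'
  rw [div_self EXG.bB_pos.ne'] at h3
  refine h3.congr' ?_
  filter_upwards [eventually_ge_atTop 1] with n hn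
  have h4 : (0 : ℝ) < n := by exact_mod_cast hn
  have h5 : (n : ℝ) ^ (1 / 4 : ℝ) ≠ 0 := (Real.rpow_pos_of_pos h4 _).ne'
  have h6 := (bT_pos' hn).ne'
  show HexObs.bT (n + 1) * (n : ℝ) ^ (1 / 4 : ℝ) / (HexObs.bT n * (n : ℝ) ^ (1 / 4 : ℝ)) = _
  field_simp

lemma cos_lip (a b : ℝ) : |Real.cos a - Real.cos b| ≤ |a - b| := by
  have h := Real.lipschitzWith_cos.dist_le_mul a b
  rw [Real.dist_eq, Real.dist_eq] at h
  simpa using h

lemma ta_eq : ta = Real.cos (Real.pi / 6) := by rw [Real.cos_pi_div_six]; rfl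

/-- the data for n -/
theorem data (n : ℕ) : ∃ (τ : Fin n → ℝ) (u w X p q f c : ℝ) (V : ℂ → ℂ),
    (∀ k, ta ≤ τ k ∧ τ k ≤ 1) ∧ (∀ k, |τ k - ta| ≤ 3 * del n) ∧ (ta ≤ u ∧ u < 1) ∧ |u - ta| ≤ 3 * del n ∧
    (0 < w ∧ w < Real.pi / 2 ∧ Real.cos w = u) ∧
    (1 ≤ n → VF τ u V ∧ V ((Real.pi / 2 : ℝ) : ℂ) = (X : ℂ) ∧
      V ((w : ℝ) : ℂ) * V ((Real.pi - w : ℝ) : ℂ) = 2 / 3 ∧
      |(|p|) - HexObs.bT n| ≤ del n * DD n ∧ |(|q|) - HexObs.bT (n + 1)| ≤ del n * DD n ∧
      |f - DD n| ≤ del n * DD n ∧ |c - Real.sqrt 3 / 2| ≤ 3 * del n ∧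
      |X| = C0 * |c| * |p - q| / |f|) := by
  have hp := Real.pi_pos
  rcases Nat.eq_zero_or_pos n with h0 | hn
  · subst h0
    have h1 : Real.cos (Real.pi / 6) < 1 := by
      rw [← Real.cos_zero]
      exact Real.cos_lt_cos_of_nonneg_of_le_pi le_rfl (by linarith) (by linarith)
    refine ⟨fun k => k.elim0, ta, Real.pi / 6, 0, 0, 0, 0, 0, fun _ => 0, fun k => k.elim0, fun k => k.elim0,
      ⟨le_rfl, ta_eq ▸ h1⟩, ?_, ⟨by linarith, by linarith, ta_eq.symm⟩, fun h => absurd h (by omega)⟩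
    rw [sub_self, abs_zero]
    have := (del_pos 0).le
    positivity
  · have hD := DD_pos hn
    have hdp := del_pos n
    set ε : ℝ := del n * min (DD n) 1 with hε
    have hm : 0 < min (DD n) 1 := lt_min hD one_pos
    have hε0 : 0 < ε := mul_pos hdp hm
    have hε1 : ε ≤ del n * DD n := mul_le_mul_of_nonneg_left (min_le_left _ _) hdp.le
    have hε2 : ε ≤ del n := by
      have := mul_le_mul_of_nonneg_left (min_le_right (DD n) 1) hdp.le
      rw [mul_one] at this
      exact this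
    obtain ⟨x, s0, s0', s, s', hx, hs, hs', hP, hQ, hF, hF'⟩ := nodes n hn ε hε0
    have hff : |(F1 x s0' s' - F1 (cs x) s0 s) - DD n| ≤ ε := by
      rw [← tau_sub hn]
      rw [abs_le] at hF hF' ⊢
      constructor <;> linarith [hF.1, hF.2, hF'.1, hF'.2]
    have hfp : 0 < F1 x s0' s' - F1 (cs x) s0 s := by
      have h1 := del_le n hn
      have h2 : del n * DD n ≤ DD n / 2 := by nlinarith
      have h3 := (abs_le.1 hff).1
      linarith
    have hne : F1 (cs x) s0 s ≠ F1 x s0' s' := by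
      intro h
      rw [h, sub_self] at hfp
      exact lt_irrefl _ hfp
    obtain ⟨V, hV, hV1, hV2⟩ := exists_VF hs hs' hne
    have hcos : ∀ k, |Real.cos (8 * x k / 3) - ta| ≤ 3 * del n := by
      intro k
      rw [ta_eq]
      refine (cos_lip _ _).trans ?_
      have h1 : 8 * x k / 3 - Real.pi / 6 = 8 / 3 * (x k - Real.pi / 16) := by ring
      rw [h1, abs_mul, abs_of_pos (show (0 : ℝ) < 8 / 3 by norm_num)]
      have := hx k
      linarith
    have hrange : ∀ k, ta ≤ Real.cos (8 * x k / 3) ∧ Real.cos (8 * x k / 3) < 1 := by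
      intro k
      have h1 := hs'.pos k
      have h2 := hs'.lt k
      constructor
      · rw [ta_eq]
        exact Real.cos_le_cos_of_nonneg_of_le_pi (by linarith) (by linarith) (by linarith)
      · rw [← Real.cos_zero]
        exact Real.cos_lt_cos_of_nonneg_of_le_pi le_rfl (by linarith) (by linarith)
    refine ⟨fun k => Real.cos (8 * cs x k / 3), Real.cos (8 * x (Fin.last n) / 3), 8 * x (Fin.last n) / 3,
      Real.sqrt 3 / (8 * Real.sqrt 2 * cst) * Real.cos (8 * x (Fin.last n) / 3) * (-1) ^ n *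
          (SS (cs x) s0 s cst - SS x s0' s' cst) / (F1 x s0' s' - F1 (cs x) s0 s),
      SS (cs x) s0 s cst, SS x s0' s' cst, F1 x s0' s' - F1 (cs x) s0 s, Real.cos (8 * x (Fin.last n) / 3), V,
      fun k => ⟨(hrange _).1, (hrange _).2.le⟩, fun k => hcos _, hrange _, hcos _, ⟨?_, ?_, rfl⟩, fun _ => ⟨hV, hV1, hV2,
        hP.trans hε1, hQ.trans hε1, hff.trans hε1, hcos _, ?_⟩⟩
    · have := hs'.pos (Fin.last n)
      positivity
    · have := hs'.lt (Fin.last n)
      linarith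
    · rw [abs_div, abs_mul, abs_mul, abs_mul, abs_pow, abs_neg, abs_one, one_pow, mul_one]
      congr 3
      have := C0_pos
      unfold C0 at this ⊢
      exact abs_of_pos this

/-- **the main result from the solution of the limit problem** -/
theorem central_of (hsol : ∀ γ : ℝ → ℝ, Sol γ → th0 γ ≠ 0 → 2 * th0 γ * th2 γ - th1 γ ^ 2 ≤ 0 →
      2 * th0 γ * th2 γ - th1 γ ^ 2 = -(5 / 24) * th0 γ ^ 2) :
    Tendsto (fun T : ℕ => (T : ℝ) ^ 2 * (HexPolygon.Sall - HexPolygon.S T).toReal) atTop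
      (𝓝 (5 * Real.sqrt 3 / 108)) := by
  choose τ u w X p q f c V h1 h2 h3 h4 h5 h6 using data
  have hdel3 : Tendsto (fun n => 3 * del n) atTop (𝓝 0) := by
    have := del_zero.const_mul 3
    rwa [mul_zero] at this
  obtain ⟨γ, hγ, l1, l2⟩ := lim_main (τ := τ) (u := u) (V := V) (w := w) h1 h3
    (fun ε hε => by
      filter_upwards [hdel3.eventually (gt_mem_nhds hε)] with n hn k
      exact (h2 n k).trans hn.le)
    (by
      rw [← tendsto_sub_nhds_zero_iff]
      exact squeeze_zero_norm (fun n => by rw [Real.norm_eq_abs]; exact h4 n) hdel3)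
    (by filter_upwards [eventually_ge_atTop 1] with n hn; exact (h6 n hn).1)
    h5
  -- real limits
  have m1 : Tendsto X atTop (𝓝 (th0 γ)) := by
    have := (Complex.continuous_re.tendsto _).comp l1
    rw [Complex.ofReal_re] at this
    refine this.congr' ?_
    filter_upwards [eventually_ge_atTop 1] with n hn
    rw [Function.comp_apply, (h6 n hn).2.1, Complex.ofReal_re]
  set L : ℝ := -(1 / 4) * (2 * th0 γ * th2 γ - th1 γ ^ 2) with hL
  have m2 : Tendsto (fun n : ℕ => (n : ℝ) ^ 2 * (X n ^ 2 - 2 / 3)) atTop (𝓝 L) := by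
    have := (Complex.continuous_re.tendsto _).comp l2
    rw [Complex.ofReal_re] at this
    refine this.congr' ?_
    filter_upwards [eventually_ge_atTop 1] with n hn
    rw [Function.comp_apply, (h6 n hn).2.1, (h6 n hn).2.2.1]
    have e : (n : ℂ) ^ 2 * ((X n : ℂ) ^ 2 - 2 / 3) = (((n : ℝ) ^ 2 * (X n ^ 2 - 2 / 3) : ℝ) : ℂ) := by
      push_cast
      rfl
    rw [e, Complex.ofReal_re]
  have m3 : Tendsto (fun n : ℕ => X n ^ 2) atTop (𝓝 (2 / 3)) := by
    have := (zero_of_sq m2).add_const (2 / 3)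
    simpa using this
  have m4 : th0 γ ^ 2 = 2 / 3 := tendsto_nhds_unique (m1.pow 2) m3
  have m5 : th0 γ ≠ 0 := by
    intro h
    rw [h] at m4
    norm_num at m4
  have hC := C0_pos
  have key := core_diff (b := HexObs.bT) (D := DD) (w := ww) (p := p) (q := q) (f := f) (c := c) (X := X) (w1 := w1) hC
    (fun n hn => bT_pos' hn) ratio_b (fun n hn => DD_pos hn) (fun n hn => starD hn) ww_lim
    (fun n hn => (h6 n hn).2.2.2.1) (fun n hn => (h6 n hn).2.2.2.2.1) (fun n hn => (h6 n hn).2.2.2.2.2.1)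
    (fun n hn => (h6 n hn).2.2.2.2.2.2.1) (fun n hn => (h6 n hn).2.2.2.2.2.2.2) m1 m5
  set v : ℕ → ℝ := fun n => C0 * (Real.sqrt 3 / 2) * ww n with hv
  set v1 : ℝ := C0 * (Real.sqrt 3 / 2) * w1 with hv1
  have k1 : Tendsto (fun n : ℕ => (n : ℝ) ^ 2 * (v n ^ 2 - 2 / 3)) atTop (𝓝 L) := by
    have := m2.sub key
    rw [sub_zero] at this
    refine this.congr (fun n => ?_)
    ring
  have k2 : Tendsto v atTop (𝓝 v1) := ww_lim.const_mul _
  have k3 : v1 ^ 2 = 2 / 3 := by
    have := (zero_of_sq k1).add_const (2 / 3)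
    simp only [sub_add_cancel, zero_add] at this
    exact tendsto_nhds_unique (k2.pow 2) this
  have hpos : ∀ n, 1 ≤ n → 0 ≤ v n := by
    intro n hn
    have := ww_pos hn
    positivity
  have k4 : 0 < v1 := by
    have h7 : 0 ≤ v1 := ge_of_tendsto k2 (by filter_upwards [eventually_ge_atTop 1] with n hn; exact hpos n hn)
    rcases h7.lt_or_eq with h | h
    · exact h
    · exfalso
      rw [← h] at k3
      norm_num at k3
  have hs := s1_pos
  have hk : C0 * (Real.sqrt 3 / 2) * (2 * Real.sin (Real.pi / 8)) = 3 / (8 * Real.sqrt 2) := by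
    unfold C0
    rw [cst_eq]
    have : Real.sqrt 3 ^ 2 = 3 := Real.sq_sqrt (by norm_num)
    field_simp
    linear_combination this
  have hSle : ∀ n, (HexPolygon.S n).toReal ≤ (HexPolygon.Sall).toReal := by
    intro n
    refine ENNReal.toReal_mono Sall_ne ?_
    unfold HexPolygon.S HexPolygon.Sall
    have h1 := tsum_subtype {L : List (ℤ × ℤ) | Polygon L} HexPolygon.wt
    have h2 := tsum_subtype {L : List (ℤ × ℤ) | Polygon L ∧ ∀ p ∈ L, p.2 ≤ (n : ℤ)} HexPolygon.wt
    refine (le_of_eq h2).trans (le_trans ?_ (le_of_eq h1.symm))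
    refine ENNReal.tsum_le_tsum fun L => ?_
    exact Set.indicator_le_indicator_of_subset (fun L hL => hL.1) (fun _ => zero_le) L
  have kv : ∀ n, v n - v1 = 3 / (8 * Real.sqrt 2) * ((HexPolygon.Sall).toReal - (HexPolygon.S (n + 1)).toReal) := by
    intro n
    rw [← hk]
    show C0 * (Real.sqrt 3 / 2) * ww n - C0 * (Real.sqrt 3 / 2) * w1 = _
    unfold ww w1
    ring
  have k5 : 0 ≤ L := by
    refine ge_of_tendsto k1 ?_
    filter_upwards [eventually_ge_atTop 1] with n hn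
    have h7 : v1 ≤ v n := by
      have := kv n
      have h8 := hSle (n + 1)
      have h9 : 0 ≤ 3 / (8 * Real.sqrt 2) * ((HexPolygon.Sall).toReal - (HexPolygon.S (n + 1)).toReal) :=
        mul_nonneg (by positivity) (by linarith)
      linarith
    have h8 : v1 ^ 2 ≤ v n ^ 2 := pow_le_pow_left₀ k4.le h7 2
    rw [k3] at h8
    exact mul_nonneg (by positivity) (by linarith)
  have k6 : L = 5 / 144 := by
    have := hsol γ hγ m5 (by rw [hL] at k5; linarith)
    rw [hL, this, m4]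
    norm_num
  rw [k6, ← k3] at k1
  have k7 := core_fin k4 k1 k2
  have k8 : Tendsto (fun n : ℕ => (n : ℝ) ^ 2 * ((HexPolygon.Sall).toReal - (HexPolygon.S (n + 1)).toReal)) atTop
      (𝓝 (5 * Real.sqrt 3 / 108)) := by
    have h7 := k7.const_mul (8 * Real.sqrt 2 / 3)
    have h8 : 8 * Real.sqrt 2 / 3 * (5 / 144 / (2 * v1)) = 5 * Real.sqrt 3 / 108 := by
      have e1 : v1 * Real.sqrt 3 = Real.sqrt 2 := by
        have : (v1 * Real.sqrt 3) ^ 2 = 2 := by
          rw [mul_pow, k3, Real.sq_sqrt (by norm_num)]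
          norm_num
        rw [← this, Real.sqrt_sq (by positivity)]
      rw [← e1]
      field_simp
      norm_num
    rw [h8] at h7
    refine h7.congr (fun n => ?_)
    rw [kv n]
    field_simp
  have k9 : Tendsto (fun n : ℕ => (((n : ℝ) + 1) / n) ^ 2) atTop (𝓝 1) := by
    have := HexPGC.ratio_one 2
    refine this.congr (fun n => ?_)
    rw [Real.rpow_two]
  have k10 := k9.mul k8
  rw [one_mul] at k10
  rw [← tendsto_add_atTop_iff_nat 1]
  refine k10.congr' ?_
  filter_upwards [eventually_ge_atTop 1] with n hn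
  have h7 : (0 : ℝ) < n := by exact_mod_cast hn
  rw [ENNReal.toReal_sub_of_le ?_ Sall_ne]
  · push_cast
    field_simp
  · have := hSle (n + 1)
    rwa [ENNReal.toReal_le_toReal (HexPolygon.S_ne_top n) Sall_ne] at this

end

end CenC
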