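import Pool.Agent.CenC.FinB

/-!
# CENC: the statement in elementary terms
-/

set_option autoImplicit false

namespace HexPolygon

open ENNReal Filter Topology

/-- Weight of the polygons that meet more than `T` rows, up to translation. -/
noncomputable def U (T : ℕ) : ℝ≥0∞ := ∑' L : {L // Polygon L ∧ ∃ p ∈ L, (T : ℤ) < p.2}, wt L

theorem S_add_U (T : ℕ) : S T + U T = Sall := by
  classical
  unfold S U Sall
  have h1 := tsum_subtype {L : List (ℤ × ℤ) | Polygon L} wt
  have h2 := tsum_subtype {L : List (ℤ × ℤ) | Polygon L ∧ ∀ p ∈ L, p.2 ≤ (T : ℤ)} wt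
  have h3 := tsum_subtype {L : List (ℤ × ℤ) | Polygon L ∧ ∃ p ∈ L, (T : ℤ) < p.2} wt
  refine (congrArg₂ (· + ·) h2 h3).trans (Eq.trans ?_ h1.symm)
  rw [← ENNReal.tsum_add]
  refine tsum_congr fun L => ?_
  by_cases hL : Polygon L
  · by_cases hT : ∀ p ∈ L, p.2 ≤ (T : ℤ)
    · have hn : ¬ ∃ p ∈ L, (T : ℤ) < p.2 := by
        rintro ⟨p, hp, h⟩
        exact absurd (hT p hp) (not_le.2 h)
      rw [Set.indicator_of_mem (show L ∈ {L : List (ℤ × ℤ) | Polygon L ∧ ∀ p ∈ L, p.2 ≤ (T : ℤ)} from ⟨hL, hT⟩),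
        Set.indicator_of_notMem (fun h => hn h.2),
        Set.indicator_of_mem (show L ∈ {L : List (ℤ × ℤ) | Polygon L} from hL), add_zero]
    · have hy : ∃ p ∈ L, (T : ℤ) < p.2 := by
        by_contra h
        exact hT fun p hp => not_lt.1 fun h' => h ⟨p, hp, h'⟩
      rw [Set.indicator_of_notMem (show L ∉ {L : List (ℤ × ℤ) | Polygon L ∧ ∀ p ∈ L, p.2 ≤ (T : ℤ)} from
        fun h => hT h.2), Set.indicator_of_mem (show L ∈ {L : List (ℤ × ℤ) | Polygon L ∧ ∃ p ∈ L, (T : ℤ) < p.2} from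
        ⟨hL, hy⟩), Set.indicator_of_mem (show L ∈ {L : List (ℤ × ℤ) | Polygon L} from hL), zero_add]
  · rw [Set.indicator_of_notMem (fun h => hL h.1), Set.indicator_of_notMem (fun h => hL h.1),
      Set.indicator_of_notMem (show L ∉ {L : List (ℤ × ℤ) | Polygon L} from hL), add_zero]

theorem U_ne_top (T : ℕ) : U T ≠ ∞ := by
  have h := S_add_U T
  intro hU
  rw [hU, add_top] at h
  exact CenC.Sall_ne h.symm

theorem U_eq (T : ℕ) : (U T).toReal = (Sall - S T).toReal := by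
  have h := S_add_U T
  have hS : S T ≠ ∞ := by
    intro hS
    rw [hS, top_add] at h
    exact CenC.Sall_ne h.symm
  rw [← h, ENNReal.add_sub_cancel_left hS]

/-- the second order from the statement for `Sall - S T` -/
theorem tail_of {c : ℝ} (h : Tendsto (fun T : ℕ => (T : ℝ) ^ 2 * (Sall - S T).toReal) atTop (𝓝 c)) :
    Tendsto (fun T : ℕ => (T : ℝ) ^ 2 * (U T).toReal) atTop (𝓝 c) := by
  simp_rw [U_eq]
  exact h

end HexPolygon
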