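import Pool.Agent.CenC.Defs
import Pool.Agent.EXS.S5

/-! CENC, module I: the integral equation of the difference function. -/

set_option autoImplicit false

namespace CenC

open MeasureTheory Filter Topology EXS

theorem int_eq {N : ℕ} {τ : Fin N → ℝ} {u : ℝ} {V : ℂ → ℂ} (hV : VF τ u V) :
    ∃ q : ℝ → ℝ, Measurable q ∧ (∃ M : ℝ, Bh q M) ∧
      (∀ X : ℝ, 1 < X → q X = (WD τ u X).im + KD τ u q X) ∧
      ∀ w : ℝ, 0 < w → w < Real.pi →
        V (w : ℂ) = ((1 + (1 / Real.pi) * ∫ X in Set.Ioi (1 : ℝ), q X / (X + Real.cos w) : ℝ) : ℂ) := by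
  classical
  have hpi := Real.pi_pos
  obtain ⟨C, hC⟩ := hV.bd
  set f : ℂ → ℂ := fun w => V w - 1 with hf
  have fcont : ContinuousOn f {w | |w.re| ≤ Real.pi} := hV.cont.sub continuousOn_const
  have fdiff : DifferentiableOn ℂ f {w | |w.re| < Real.pi} := hV.diff.sub (differentiableOn_const _)
  have feven : ∀ w, f (-w) = f w := fun w => by
    simp only [hf]
    rw [hV.even]
  have freal : ∀ w, f (starRingEnd ℂ w) = starRingEnd ℂ (f w) := fun w => by
    simp only [hf]
    rw [hV.real, map_sub, map_one]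
  -- the boundary function
  set g : ℝ → ℝ := fun X => (f ((Real.pi : ℂ) + Complex.I * (Real.arcosh X : ℂ))).im with hg
  have gcont : ContinuousOn g (Set.Ioi 1) := by
    have h1 : ContinuousOn (fun X : ℝ => (Real.pi : ℂ) + Complex.I * (Real.arcosh X : ℂ)) (Set.Ioi 1) := by
      have h2 : ContinuousOn Real.arcosh (Set.Ioi 1) :=
        Real.continuousOn_arcosh.mono fun X hX => Set.mem_Ici.2 (le_of_lt (Set.mem_Ioi.1 hX))
      exact continuousOn_const.add (continuousOn_const.mul (Complex.continuous_ofReal.comp_continuousOn h2))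
    have h3 : ContinuousOn (fun X : ℝ => f ((Real.pi : ℂ) + Complex.I * (Real.arcosh X : ℂ))) (Set.Ioi 1) :=
      fcont.comp h1 fun X _ => by
        show |((Real.pi : ℂ) + Complex.I * (Real.arcosh X : ℂ)).re| ≤ Real.pi
        rw [re_pi, abs_of_pos Real.pi_pos]
    exact Complex.continuous_im.comp_continuousOn h3
  set q : ℝ → ℝ := (Set.Ioi (1:ℝ)).piecewise g (fun _ => 0) with hq
  have qm : Measurable q := gcont.measurable_piecewise continuousOn_const measurableSet_Ioi
  have qX : ∀ X : ℝ, 1 < X → q X = g X := fun X hX => Set.piecewise_eq_of_mem _ _ _ (Set.mem_Ioi.2 hX)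
  have qη : ∀ η : ℝ, 0 < η → q (Real.cosh η) = (f ((Real.pi : ℂ) + Complex.I * (η : ℂ))).im := by
    intro η hη
    rw [qX _ (Real.one_lt_cosh.2 hη.ne'), hg]
    simp only
    rw [Real.arcosh_cosh hη.le]
  have disp := fun (w : ℂ) (h0 : 0 < w.re) (h1 : w.re < Real.pi) =>
    dispersion fcont fdiff feven freal (a := 3 / 4) (by norm_num) hC h0 h1 (F := q) qη
  refine ⟨q, qm, ⟨|C|, ?_⟩, ?_, ?_⟩
  · intro X hX
    rw [qX X hX, hg]
    simp only
    set η := Real.arcosh X with hη
    have hη0 : 0 < η := arcosh_pos' hX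
    have h1 := hC ((Real.pi : ℂ) + Complex.I * (η : ℂ)) (by rw [re_pi, abs_of_pos hpi])
    rw [im_pi, abs_of_pos hη0] at h1
    have h2 : Real.exp (-(3 / 4 * η)) ≤ X ^ (-(1 / 2) : ℝ) := by
      have h3 : X ≤ Real.exp η := by
        rw [← Real.cosh_arcosh hX.le, ← hη]
        rw [Real.cosh_eq]
        have : Real.exp (-η) ≤ Real.exp η := Real.exp_le_exp.2 (by linarith)
        linarith
      have h4 : Real.log X ≤ η := by
        rw [← Real.log_exp η]
        exact Real.log_le_log (by linarith) h3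
      have h5 : 0 < Real.log X := Real.log_pos hX
      rw [Real.rpow_def_of_pos (by linarith), Real.exp_le_exp]
      nlinarith
    calc |(f ((Real.pi : ℂ) + Complex.I * (η : ℂ))).im| ≤ ‖f ((Real.pi : ℂ) + Complex.I * (η : ℂ))‖ :=
          Complex.abs_im_le_norm _
      _ ≤ C * Real.exp (-(3 / 4 * η)) := h1
      _ ≤ |C| * Real.exp (-(3 / 4 * η)) := mul_le_mul_of_nonneg_right (le_abs_self C) (Real.exp_pos _).le
      _ ≤ |C| * X ^ (-(1 / 2) : ℝ) := mul_le_mul_of_nonneg_left h2 (abs_nonneg _)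
  · intro X hX
    set η := Real.arcosh X with hη
    have hη0 : 0 < η := arcosh_pos' hX
    have hXc : Real.cosh η = X := Real.cosh_arcosh hX.le
    have h1 := qη η hη0
    have h0 : (f ((Real.pi : ℂ) + Complex.I * (η : ℂ))).im = (V ((Real.pi : ℂ) + Complex.I * (η : ℂ))).im := by
      simp only [hf, Complex.sub_im, Complex.one_im, sub_zero]
    rw [h0, hV.jump η hη0, hXc] at h1
    have h2 := disp (((Real.pi / 3 : ℝ) : ℂ) + Complex.I * (η : ℂ)) (by simp [hpi]) (by simp; linarith)
    rw [T2_cosh5 hη0.le, hXc] at h2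
    have h3 : V (((Real.pi / 3 : ℝ) : ℂ) + Complex.I * (η : ℂ)) = 1 + Cf q (T2 X) := by
      rw [← h2, hf]
      simp only
      ring
    rw [h3, mul_add, mul_one, Complex.add_im] at h1
    exact h1
  · intro w hw0 hw1
    have h2 := disp (w : ℂ) (by rwa [Complex.ofReal_re]) (by rwa [Complex.ofReal_re])
    have h3 : V (w : ℂ) = 1 + Cf q (Complex.cos (w : ℂ)) := by
      rw [← h2, hf]
      simp only
      ring
    rw [h3]
    unfold Cf
    rw [← Complex.ofReal_cos]
    push_cast
    congr 2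
    rw [← integral_complex_ofReal]
    apply setIntegral_congr_fun measurableSet_Ioi
    intro X _
    push_cast
    rfl

end CenC
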