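import Pool.Agent.CenC.Defs
import Pool.Agent.EXS.C2

/-! CENC, module L, part 1: bounds of the multiplier, of the Cauchy transform (exponent 1/2), iterates. -/

set_option autoImplicit false

namespace CenC

open MeasureTheory Filter Topology EXS

namespace L

/-! ### `Bh` facts -/

theorem Bh_mono {f : ℝ → ℝ} {M M' : ℝ} (h : Bh f M) (hM : M ≤ M') : Bh f M' := by
  intro X hX
  have hX0 : 0 < X := by linarith
  refine (h X hX).trans ?_
  gcongr

theorem Bh_add {f g : ℝ → ℝ} {M M' : ℝ} (h : Bh f M) (h' : Bh g M') :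
    Bh (fun X => f X + g X) (M + M') := by
  intro X hX
  have := h X hX
  have := h' X hX
  calc |f X + g X| ≤ |f X| + |g X| := abs_add_le _ _
    _ ≤ _ := by rw [add_mul]; linarith

theorem M_nonneg {f : ℝ → ℝ} {M : ℝ} (hM : Bh f M) : 0 ≤ M := by
  have h := hM 2 (by norm_num)
  have h1 : (0 : ℝ) < 2 ^ (-(1 / 2) : ℝ) := by positivity
  by_contra hc
  rw [not_le] at hc
  have h2 : M * 2 ^ (-(1 / 2) : ℝ) < 0 := mul_neg_of_neg_of_pos hc h1
  linarith [abs_nonneg (f 2)]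

/-- pointwise bounds of the integrand of the Cauchy transform -/
theorem Cf_pt {f : ℝ → ℝ} {M : ℝ} (hM : Bh f M) {X x : ℝ} (hX : 1 < X) (hx : 1 < x) :
    ‖(f x : ℂ) / ((x : ℂ) + T2 X)‖ ≤ M * x ^ (-(1 / 2) : ℝ) / (x + X / 2) := by
  rw [norm_div, Complex.norm_real, Real.norm_eq_abs]
  have h1 := norm_add_T2_ge (x := x) (by linarith) hX
  have h2 := hM x hx
  exact div_le_div₀ (le_trans (abs_nonneg _) h2) h2 (by linarith) h1

theorem rpow_div_self {x : ℝ} (hx : 0 < x) : x ^ (-(1 / 2) : ℝ) / x = x ^ (-(3 / 2) : ℝ) := by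
  have h : (-(3 / 2) : ℝ) = -(1 / 2) - 1 := by norm_num
  rw [h, Real.rpow_sub hx, Real.rpow_one]

theorem Cf_int {f : ℝ → ℝ} {M : ℝ} (hf : Measurable f) (hM : Bh f M) {X : ℝ} (hX : 1 < X) :
    IntegrableOn (fun x : ℝ => (f x : ℂ) / ((x : ℂ) + T2 X)) (Set.Ioi 1) := by
  have hM0 := M_nonneg hM
  have h1 : IntegrableOn (fun x : ℝ => M * x ^ (-(3 / 2) : ℝ)) (Set.Ioi 1) :=
    (integrableOn_Ioi_rpow_of_lt (by norm_num) zero_lt_one).const_mul M
  refine Integrable.mono' h1 (Cf_integrand_meas hf X).aestronglyMeasurable ?_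
  refine (ae_restrict_iff' measurableSet_Ioi).mpr (Filter.Eventually.of_forall ?_)
  intro x hx
  have hx1 : (1 : ℝ) < x := hx
  refine le_trans (Cf_pt hM hX hx1) ?_
  rw [← rpow_div_self (by linarith : (0 : ℝ) < x), ← mul_div_assoc]
  exact div_le_div_of_nonneg_left (by positivity) (by linarith) (by linarith)

theorem Cf_le : ∃ C : ℝ, ∀ (f : ℝ → ℝ) (M : ℝ), Measurable f → Bh f M → ∀ X : ℝ, 1 < X →
    ‖Cf f (T2 X)‖ ≤ C * M * X ^ (-(1 / 2) : ℝ) := by
  refine ⟨1 / Real.pi * (4 + 2), fun f M hf hM X hX => ?_⟩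
  have hM0 := M_nonneg hM
  have hX0 : (0 : ℝ) < X := by linarith
  have hpi := Real.pi_pos
  have hI := Cf_int hf hM hX
  unfold Cf
  rw [norm_mul, Complex.norm_real, Real.norm_eq_abs, abs_of_nonneg (by positivity)]
  rw [mul_assoc, mul_assoc (1 / Real.pi)]
  refine mul_le_mul_of_nonneg_left ?_ (by positivity)
  refine le_trans (norm_integral_le_integral_norm _) ?_
  have hsplit : Set.Ioi (1 : ℝ) = Set.Ioc 1 X ∪ Set.Ioi X := (Set.Ioc_union_Ioi_eq_Ioi hX.le).symm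
  have hd : Disjoint (Set.Ioc 1 X) (Set.Ioi X) := Set.Ioc_disjoint_Ioi le_rfl
  rw [hsplit]
  rw [hsplit] at hI
  have hI1 := (hI.mono_set Set.subset_union_left).norm
  have hI2 := (hI.mono_set Set.subset_union_right).norm
  rw [setIntegral_union hd measurableSet_Ioi hI1 hI2]
  have hA : ∫ x in Set.Ioc 1 X, ‖(f x : ℂ) / ((x : ℂ) + T2 X)‖ ≤
      4 * (M * X ^ (-(1 / 2) : ℝ)) := by
    have hg : IntegrableOn (fun x : ℝ => M * (2 / X) * x ^ (-(1 / 2) : ℝ)) (Set.Ioc 1 X) := by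
      have h := (intervalIntegral.intervalIntegrable_rpow (a := 1) (b := X) (r := (-(1 / 2) : ℝ))
        (μ := volume) (Or.inr (by
          rw [Set.uIcc_of_le hX.le]
          intro h
          exact absurd h.1 (by norm_num))))
      rw [intervalIntegrable_iff_integrableOn_Ioc_of_le hX.le] at h
      exact h.const_mul _
    have hmono : ∫ x in Set.Ioc 1 X, ‖(f x : ℂ) / ((x : ℂ) + T2 X)‖ ≤
        ∫ x in Set.Ioc 1 X, M * (2 / X) * x ^ (-(1 / 2) : ℝ) := by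
      refine setIntegral_mono_on hI1 hg measurableSet_Ioc ?_
      intro x hx
      have hx1 : (1 : ℝ) < x := hx.1
      refine le_trans (Cf_pt hM hX hx1) ?_
      have e : M * (2 / X) * x ^ (-(1 / 2) : ℝ) = M * x ^ (-(1 / 2) : ℝ) / (X / 2) := by
        field_simp
      rw [e]
      exact div_le_div_of_nonneg_left (by positivity) (by linarith) (by linarith)
    refine le_trans hmono ?_
    rw [integral_const_mul, ← intervalIntegral.integral_of_le hX.le,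
      integral_rpow (Or.inl (by norm_num))]
    have e1 : (-(1 / 2) : ℝ) + 1 = 1 / 2 := by norm_num
    rw [e1, Real.one_rpow]
    have e2 : X ^ (-(1 / 2) : ℝ) = X ^ (1 / 2 : ℝ) / X := by
      have h : (-(1 / 2) : ℝ) = 1 / 2 - 1 := by norm_num
      rw [h, Real.rpow_sub hX0, Real.rpow_one]
    rw [e2]
    have e3 : M * (2 / X) * ((X ^ (1 / 2 : ℝ) - 1) / (1 / 2)) =
        4 * (M * (X ^ (1 / 2 : ℝ) / X)) - 4 * (M / X) := by
      field_simp
      ring
    rw [e3]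
    have : 0 ≤ M / X := by positivity
    linarith
  have hB : ∫ x in Set.Ioi X, ‖(f x : ℂ) / ((x : ℂ) + T2 X)‖ ≤
      2 * (M * X ^ (-(1 / 2) : ℝ)) := by
    have hg : IntegrableOn (fun x : ℝ => M * x ^ (-(3 / 2) : ℝ)) (Set.Ioi X) :=
      (integrableOn_Ioi_rpow_of_lt (by norm_num) hX0).const_mul M
    have hmono : ∫ x in Set.Ioi X, ‖(f x : ℂ) / ((x : ℂ) + T2 X)‖ ≤
        ∫ x in Set.Ioi X, M * x ^ (-(3 / 2) : ℝ) := by
      refine setIntegral_mono_on hI2 hg measurableSet_Ioi ?_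
      intro x hx
      have hx1 : (1 : ℝ) < x := lt_trans hX hx
      refine le_trans (Cf_pt hM hX hx1) ?_
      rw [← rpow_div_self (by linarith : (0 : ℝ) < x), ← mul_div_assoc]
      exact div_le_div_of_nonneg_left (by positivity) (by linarith) (by linarith)
    refine le_trans hmono ?_
    rw [integral_const_mul, integral_Ioi_rpow_of_lt (by norm_num) hX0]
    have e1 : (-(3 / 2) : ℝ) + 1 = -(1 / 2) := by norm_num
    rw [e1]
    have e2 : M * (-X ^ (-(1 / 2) : ℝ) / (-(1 / 2) : ℝ)) = 2 * (M * X ^ (-(1 / 2) : ℝ)) := by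
      ring
    rw [e2]
  calc _ ≤ 4 * (M * X ^ (-(1 / 2) : ℝ)) + 2 * (M * X ^ (-(1 / 2) : ℝ)) := add_le_add hA hB
    _ = _ := by ring

/-! ### the multiplier -/

theorem WD_eq {N : ℕ} (τ : Fin N → ℝ) (u : ℝ) (X : ℝ) :
    WD τ u X = Wf τ X * ((T2 X / (X : ℂ)) * (((X : ℂ) - (u : ℂ)) / (T2 X + (u : ℂ)))) := by
  unfold WD Wt
  rw [show (u : ℂ) - (X : ℂ) = -((X : ℂ) - (u : ℂ)) by ring, neg_div]
  ring

theorem T2_norm_le {X : ℝ} (hX : 1 < X) : ‖T2 X‖ ≤ X := by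
  have h : Complex.normSq (T2 X) ≤ Complex.normSq (X : ℂ) := by
    rw [T2_normSq hX.le, Complex.normSq_ofReal]
    nlinarith
  have h2 := norm_le_of_normSq h
  rwa [Complex.norm_real, Real.norm_of_nonneg (by linarith)] at h2

theorem br_norm {u X : ℝ} (hu : ta ≤ u) (hu1 : u ≤ 1) (hX : 1 < X) :
    ‖(T2 X / (X : ℂ)) * (((X : ℂ) - (u : ℂ)) / (T2 X + (u : ℂ)))‖ ≤ 1 := by
  have h0 := ta_gt_half
  have hX0 : 0 < X := by linarith
  have h1 := T2_norm_le hX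
  have h2 := X_le_norm_T2_add (t := u) (by linarith) hX
  have h3 : ‖(X : ℂ) - (u : ℂ)‖ ≤ X := by
    rw [show (X : ℂ) - (u : ℂ) = ((X - u : ℝ) : ℂ) by push_cast; rfl, Complex.norm_real,
      Real.norm_of_nonneg (by linarith)]
    linarith
  rw [norm_mul, norm_div, norm_div, Complex.norm_real, Real.norm_of_nonneg hX0.le]
  have h4 : ‖T2 X‖ / X ≤ 1 := (div_le_one hX0).2 h1
  have h5 : ‖(X : ℂ) - (u : ℂ)‖ / ‖T2 X + (u : ℂ)‖ ≤ 1 :=
    (div_le_one (lt_of_lt_of_le hX0 h2)).2 (h3.trans h2)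
  calc _ ≤ (1 : ℝ) * 1 := mul_le_mul h4 h5 (by positivity) zero_le_one
    _ = 1 := one_mul _

theorem br_sub_one {u X : ℝ} (hu : ta ≤ u) (hu1 : u ≤ 1) (hX : 1 < X) :
    ‖(T2 X / (X : ℂ)) * (((X : ℂ) - (u : ℂ)) / (T2 X + (u : ℂ))) - 1‖ ≤ 2 / X := by
  have h0 := ta_gt_half
  have hX0 : 0 < X := by linarith
  have h1 := T2_norm_le hX
  have h2 := X_le_norm_T2_add (t := u) (by linarith) hX
  have hXc : (X : ℂ) ≠ 0 := by exact_mod_cast hX0.ne'
  have hTc : T2 X + (u : ℂ) ≠ 0 := by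
    intro h
    rw [h, norm_zero] at h2
    linarith
  have e : (T2 X / (X : ℂ)) * (((X : ℂ) - (u : ℂ)) / (T2 X + (u : ℂ))) - 1 =
      -((u : ℂ) * (T2 X + (X : ℂ))) / ((X : ℂ) * (T2 X + (u : ℂ))) := by
    field_simp
    ring
  rw [e, norm_div, norm_neg, norm_mul, norm_mul, Complex.norm_real, Complex.norm_real,
    Real.norm_of_nonneg (by linarith), Real.norm_of_nonneg hX0.le]
  have h3 : ‖T2 X + (X : ℂ)‖ ≤ 2 * X := by
    refine (norm_add_le _ _).trans ?_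
    rw [Complex.norm_real, Real.norm_of_nonneg hX0.le]
    linarith
  calc u * ‖T2 X + (X : ℂ)‖ / (X * ‖T2 X + (u : ℂ)‖) ≤ 1 * (2 * X) / (X * X) := by gcongr
    _ = 2 / X := by field_simp

theorem WD_norm {N : ℕ} {τ : Fin N → ℝ} (hτ : ∀ k, ta ≤ τ k ∧ τ k ≤ 1) {u : ℝ} (hu : ta ≤ u) (hu1 : u ≤ 1)
    {X : ℝ} (hX : 1 < X) : ‖WD τ u X‖ ≤ Real.exp (-((N : ℝ) / X)) := by
  rw [WD_eq, norm_mul]
  calc _ ≤ Real.exp (-((N : ℝ) / X)) * 1 :=
        mul_le_mul (Wf_norm hτ hX) (br_norm hu hu1 hX) (norm_nonneg _) (Real.exp_pos _).le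
    _ = _ := mul_one _

theorem WD_sub_one : ∃ C : ℝ, 0 ≤ C ∧ ∀ (N : ℕ) (τ : Fin N → ℝ), (∀ k, ta ≤ τ k ∧ τ k ≤ 1) →
    ∀ u : ℝ, ta ≤ u → u ≤ 1 → ∀ X : ℝ, 1 < X → ‖WD τ u X - 1‖ ≤ C * ((N + 1) / X) := by
  obtain ⟨C, hC⟩ := Wf_sub_one
  refine ⟨|C| + 2, by positivity, fun N τ hτ u hu hu1 X hX => ?_⟩
  have hX0 : 0 < X := by linarith
  have h1 := hC N τ hτ X hX
  have h2 := br_sub_one hu hu1 hX
  have h3 : ‖Wf τ X‖ ≤ 1 := by
    refine (Wf_norm hτ hX).trans ?_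
    rw [Real.exp_le_one_iff]
    have : 0 ≤ (N : ℝ) / X := by positivity
    linarith
  rw [WD_eq]
  refine (norm_mul_sub_one h3).trans ?_
  have h4 : C * ((N + 1) / X) ≤ |C| * ((N + 1) / X) :=
    mul_le_mul_of_nonneg_right (le_abs_self _) (by positivity)
  have h5 : 2 / X ≤ 2 * ((N + 1) / X) := by
    rw [← mul_div_assoc]
    gcongr
    have : (0:ℝ) ≤ N := Nat.cast_nonneg _
    linarith
  rw [add_mul]
  linarith

/-- the source is bounded in the norm -/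
theorem src_Bh : ∃ C : ℝ, 0 ≤ C ∧ ∀ (N : ℕ) (τ : Fin N → ℝ), (∀ k, ta ≤ τ k ∧ τ k ≤ 1) →
    ∀ u : ℝ, ta ≤ u → u ≤ 1 → Bh (fun X => (WD τ u X).im) (C * Real.sqrt (N + 1)) := by
  obtain ⟨C, hC0, hC⟩ := WD_sub_one
  refine ⟨C + 1, by positivity, fun N τ hτ u hu hu1 X hX => ?_⟩
  have hX0 : 0 < X := by linarith
  have h1 : |(WD τ u X).im| ≤ C * ((N + 1) / X) := by
    have e : (WD τ u X).im = (WD τ u X - 1).im := by simp
    rw [e]
    exact (Complex.abs_im_le_norm _).trans (hC N τ hτ u hu hu1 X hX)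
  have h2 : |(WD τ u X).im| ≤ 1 := by
    refine (Complex.abs_im_le_norm _).trans ((WD_norm hτ hu hu1 hX).trans ?_)
    rw [Real.exp_le_one_iff]
    have : 0 ≤ (N : ℝ) / X := by positivity
    linarith
  have e2 : X ^ (-(1 / 2) : ℝ) = (Real.sqrt X)⁻¹ := by
    rw [Real.rpow_neg hX0.le, Real.sqrt_eq_rpow]
  rw [e2, ← div_eq_mul_inv]
  have hs : 0 < Real.sqrt X := Real.sqrt_pos.2 hX0
  have hN : (0:ℝ) ≤ (N : ℝ) + 1 := by positivity
  have hsN := Real.sqrt_nonneg ((N : ℝ) + 1)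
  rw [le_div_iff₀ hs]
  rcases le_total X ((N : ℝ) + 1) with h | h
  · have h3 : Real.sqrt X ≤ Real.sqrt ((N : ℝ) + 1) := Real.sqrt_le_sqrt h
    calc |(WD τ u X).im| * Real.sqrt X ≤ 1 * Real.sqrt ((N : ℝ) + 1) :=
          mul_le_mul h2 h3 hs.le zero_le_one
      _ ≤ (C + 1) * Real.sqrt ((N : ℝ) + 1) := mul_le_mul_of_nonneg_right (by linarith) hsN
  · have h3 : Real.sqrt ((N : ℝ) + 1) ≤ Real.sqrt X := Real.sqrt_le_sqrt h
    have h4 : ((N : ℝ) + 1) / X * Real.sqrt X ≤ Real.sqrt ((N : ℝ) + 1) := by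
      have h5 : ((N : ℝ) + 1) / X * Real.sqrt X = ((N : ℝ) + 1) / Real.sqrt X := by
        have : X = Real.sqrt X * Real.sqrt X := (Real.mul_self_sqrt hX0.le).symm
        rw [div_mul_eq_mul_div, div_eq_div_iff hX0.ne' hs.ne']
        nlinarith
      rw [h5, div_le_iff₀ hs]
      have h6 : ((N : ℝ) + 1) = Real.sqrt ((N : ℝ) + 1) * Real.sqrt ((N : ℝ) + 1) :=
        (Real.mul_self_sqrt hN).symm
      calc ((N : ℝ) + 1) = Real.sqrt ((N : ℝ) + 1) * Real.sqrt ((N : ℝ) + 1) := h6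
        _ ≤ _ := mul_le_mul_of_nonneg_left h3 hsN
    calc |(WD τ u X).im| * Real.sqrt X ≤ C * (((N : ℝ) + 1) / X) * Real.sqrt X :=
          mul_le_mul_of_nonneg_right h1 hs.le
      _ = C * (((N : ℝ) + 1) / X * Real.sqrt X) := by ring
      _ ≤ C * Real.sqrt ((N : ℝ) + 1) := mul_le_mul_of_nonneg_left h4 hC0
      _ ≤ _ := mul_le_mul_of_nonneg_right (by linarith) hsN

/-! ### measurability, linearity -/

theorem WD_meas {N : ℕ} (τ : Fin N → ℝ) (u : ℝ) : Measurable (WD τ u) := by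
  unfold WD
  have h1 := Wt_meas (Wf_meas τ)
  have h2 := T2_meas
  fun_prop

theorem KD_meas {N : ℕ} (τ : Fin N → ℝ) (u : ℝ) {f : ℝ → ℝ} (hf : Measurable f) : Measurable (KD τ u f) := by
  unfold KD
  have h4 := WD_meas τ u
  have h5 := Cf_meas hf
  exact Complex.measurable_im.comp (h4.mul h5)

theorem KD_sub {N : ℕ} {τ : Fin N → ℝ} {u : ℝ} {f g : ℝ → ℝ} {M M' : ℝ} (hf : Measurable f) (hg : Measurable g)
    (h : Bh f M) (h' : Bh g M') {X : ℝ} (hX : 1 < X) :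
    KD τ u f X - KD τ u g X = KD τ u (fun x => f x - g x) X := by
  unfold KD
  rw [← Complex.sub_im, ← mul_sub]
  congr 2
  unfold Cf
  rw [← mul_sub, ← integral_sub (Cf_int hf h hX) (Cf_int hg h' hX)]
  congr 1
  refine integral_congr_ae (ae_of_all _ fun x => ?_)
  simp only
  push_cast
  ring

/-! ### the iteration -/

/-- the iterates -/
noncomputable def itd {N : ℕ} (τ : Fin N → ℝ) (u : ℝ) : ℕ → ℝ → ℝ
  | 0 => fun _ => 0
  | n + 1 => fun X => (WD τ u X).im + KD τ u (itd τ u n) X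

theorem itd_meas {N : ℕ} (τ : Fin N → ℝ) (u : ℝ) (n : ℕ) : Measurable (itd τ u n) := by
  induction n with
  | zero => exact measurable_const
  | succ n ih => exact (Complex.measurable_im.comp (WD_meas τ u)).add (KD_meas τ u ih)

section

variable {N : ℕ} {τ : Fin N → ℝ} {u S : ℝ}

theorem itd_Bh (hS0 : 0 ≤ S) (hS : Bh (fun X => (WD τ u X).im) S)
    (hK : ∀ (f : ℝ → ℝ) (M : ℝ), 0 ≤ M → Measurable f → Bh f M → Bh (KD τ u f) (4 / 5 * M)) (n : ℕ) :
    Bh (itd τ u n) (5 * S) := by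
  induction n with
  | zero =>
    intro X hX
    have hX0 : 0 < X := by linarith
    simp only [itd, abs_zero]
    positivity
  | succ n ih =>
    have := Bh_add hS (hK _ _ (by positivity) (itd_meas τ u n) ih)
    exact Bh_mono this (by linarith)

/-- a priori bound of the solution -/
theorem sol_Bh {v : ℝ → ℝ} (hm : Measurable v) {M : ℝ}
    (hS0 : 0 ≤ S) (hS : Bh (fun X => (WD τ u X).im) S)
    (hK : ∀ (f : ℝ → ℝ) (M : ℝ), 0 ≤ M → Measurable f → Bh f M → Bh (KD τ u f) (4 / 5 * M))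
    (hM : Bh v M) (heq : ∀ X : ℝ, 1 < X → v X = (WD τ u X).im + KD τ u v X) : Bh v (5 * S) := by
  have h1 : ∀ n : ℕ, Bh v ((4 / 5) ^ n * |M| + 5 * S) := by
    intro n
    induction n with
    | zero => exact Bh_mono hM (by have := le_abs_self M; simp; linarith)
    | succ n ih =>
      have h2 := Bh_add hS (hK _ _ (by positivity) hm ih)
      have h3 : S + 4 / 5 * ((4 / 5) ^ n * |M| + 5 * S) = (4 / 5) ^ (n + 1) * |M| + 5 * S := by
        ring
      rw [h3] at h2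
      intro X hX
      rw [heq X hX]
      exact h2 X hX
  intro X hX
  have h4 : Tendsto (fun n : ℕ => ((4 / 5 : ℝ) ^ n * |M| + 5 * S) * X ^ (-(1 / 2) : ℝ)) atTop
      (𝓝 ((0 * |M| + 5 * S) * X ^ (-(1 / 2) : ℝ))) :=
    (((tendsto_pow_atTop_nhds_zero_of_lt_one (by norm_num) (by norm_num)).mul_const _).add_const
      _).mul_const _
  rw [zero_mul, zero_add] at h4
  exact ge_of_tendsto' h4 fun n => h1 n X hX

/-- the iterates approximate the solution -/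
theorem sol_itd {v : ℝ → ℝ} (hm : Measurable v)
    (hS0 : 0 ≤ S) (hS : Bh (fun X => (WD τ u X).im) S)
    (hK : ∀ (f : ℝ → ℝ) (M : ℝ), 0 ≤ M → Measurable f → Bh f M → Bh (KD τ u f) (4 / 5 * M))
    (hM : Bh v (5 * S)) (heq : ∀ X : ℝ, 1 < X → v X = (WD τ u X).im + KD τ u v X) (n : ℕ) :
    Bh (fun X => v X - itd τ u n X) ((4 / 5) ^ n * (5 * S)) := by
  induction n with
  | zero => simpa [itd] using hM
  | succ n ih =>
    have h2 := hK _ _ (by positivity) (hm.sub (itd_meas τ u n)) ih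
    intro X hX
    have h3 : |KD τ u (fun x => v x - itd τ u n x) X| ≤
      4 / 5 * ((4 / 5) ^ n * (5 * S)) * X ^ (-(1 / 2) : ℝ) := h2 X hX
    have h4 : v X - itd τ u (n + 1) X = KD τ u (fun x => v x - itd τ u n x) X := by
      rw [← KD_sub hm (itd_meas τ u n) hM (itd_Bh hS0 hS hK n) hX]
      have h5 := heq X hX
      simp only [itd]
      linarith
    simp only [h4]
    calc _ ≤ _ := h3
      _ = _ := by ring

end

/-- exponential bound near zero -/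
theorem v_le {N : ℕ} {τ : Fin N → ℝ} (hτ : ∀ k, ta ≤ τ k ∧ τ k ≤ 1) {u : ℝ} (hu : ta ≤ u) (hu1 : u ≤ 1)
    {v : ℝ → ℝ} {X B : ℝ} (hX : 1 < X) (hv : v X = (WD τ u X).im + KD τ u v X)
    (hB : ‖Cf v (T2 X)‖ ≤ B) : |v X| ≤ Real.exp (-((N : ℝ) / X)) * (1 + B) := by
  have h1 : v X = (WD τ u X * (1 + Cf v (T2 X))).im := by
    rw [hv, KD, mul_add, mul_one, Complex.add_im]
  rw [h1]
  refine (Complex.abs_im_le_norm _).trans ?_
  rw [norm_mul]
  refine mul_le_mul (WD_norm hτ hu hu1 hX) ?_ (norm_nonneg _) (Real.exp_pos _).le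
  refine (norm_add_le _ _).trans ?_
  rw [norm_one]
  linarith

end L

end CenC
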