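import Pool.Agent.CenC.LimA
import Pool.Agent.CenC.Int
import Pool.Agent.EXS.U6

/-! CENC, module L, part 2: the scaling limit of the solution of the integral equation. -/

set_option autoImplicit false

namespace CenC

open MeasureTheory Filter Topology Set EXS

namespace L

/-- the contraction hypothesis (module C) -/
def Contr : Prop := ∃ N0 : ℕ, ∀ N : ℕ, N0 ≤ N → ∀ τ : Fin N → ℝ, (∀ k, ta ≤ τ k ∧ τ k ≤ 1) →
    ∀ u : ℝ, ta ≤ u → u ≤ 1 → ∀ (f : ℝ → ℝ) (M : ℝ), 0 ≤ M → Measurable f → Bh f M →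
      Bh (KD τ u f) (4 / 5 * M)

/-- the limit of `T2 (A s) / A` -/
noncomputable def zs (s : ℝ) : ℂ := ((s / 2 : ℝ) : ℂ) + ((-(ta * √(s ^ 2 - 0)) : ℝ) : ℂ) * Complex.I

theorem zs_re (s : ℝ) : (zs s).re = s / 2 := by simp [zs]

/-- bound of the scaled function -/
theorem Bh_scale {f : ℝ → ℝ} {C : ℝ} (hC : 0 ≤ C) {H H1 : ℝ} (hH : 0 < H) (hH1 : H1 ≤ 4 * H)
    (hb : Bh f (C * √H1)) {t : ℝ} (ht : 0 < t) (h1 : 1 / H < t) :
    |f (H * t)| ≤ 2 * C * t ^ (-(1 / 2) : ℝ) := by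
  have h2 : 1 < H * t := by
    rw [div_lt_iff₀ hH] at h1
    linarith
  have h3 := hb _ h2
  have h4 : √H1 ≤ 2 * H ^ (1 / 2 : ℝ) := by
    rw [← Real.sqrt_eq_rpow]
    have : 2 * √H = √(4 * H) := by
      rw [Real.sqrt_mul (by norm_num), show (4:ℝ) = 2 ^ 2 by norm_num,
        Real.sqrt_sq (by norm_num)]
    rw [this]
    exact Real.sqrt_le_sqrt hH1
  calc |f (H * t)|
      ≤ C * √H1 * (H * t) ^ (-(1 / 2) : ℝ) := h3
    _ ≤ C * (2 * H ^ (1 / 2 : ℝ)) * (H * t) ^ (-(1 / 2) : ℝ) := by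
        gcongr
    _ = 2 * C * (H ^ (1 / 2 : ℝ) * H ^ (-(1 / 2) : ℝ)) * t ^ (-(1 / 2) : ℝ) := by
        rw [Real.mul_rpow hH.le ht.le]; ring
    _ = 2 * C * t ^ (-(1 / 2) : ℝ) := by
        rw [← Real.rpow_add hH]
        norm_num

section

variable {A B : ℕ → ℝ}

theorem inv_lt_ev (hA : Tendsto A atTop atTop) {t : ℝ} (ht : 0 < t) : ∀ᶠ N : ℕ in atTop, 1 / A N < t :=
  (hA.const_div_atTop 1).eventually (gt_mem_nhds ht)

/-- the scaled Cauchy transform converges -/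
theorem Cf_lim (hA : Tendsto A atTop atTop) (hB : ∀ᶠ N in atTop, B N ≤ 4 * A N) {f : ℕ → ℝ → ℝ}
    (hf : ∀ N, Measurable (f N)) {C : ℝ} (hC : 0 ≤ C)
    (hb : ∀ᶠ N in atTop, Bh (f N) (C * √(B N))) {g : ℝ → ℝ}
    (hg : ∀ s : ℝ, 0 < s → Tendsto (fun N : ℕ => f N (A N * s)) atTop
      (𝓝 (g s))) {s : ℝ} (hs : 0 < s) :
    Tendsto (fun N : ℕ => Cf (f N) (T2 (A N * s))) atTop
      (𝓝 (((1 / Real.pi : ℝ) : ℂ) * ∫ t in Ioi (0:ℝ), (g t : ℂ) / ((t : ℂ) + zs s))) := by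
  set F : ℕ → ℝ → ℂ := fun N => (Ioi ((1 : ℝ) / A N)).indicator
    (fun t => ((f N (A N * t) : ℝ) : ℂ) / ((t : ℂ) + T2 (A N * s) / (A N : ℂ)))
    with hF
  have hmeas : ∀ N, AEStronglyMeasurable (F N) (volume.restrict (Ioi (0:ℝ))) := by
    intro N
    have := hf N
    apply Measurable.aestronglyMeasurable
    apply Measurable.indicator _ measurableSet_Ioi
    fun_prop
  have hlim : Tendsto (fun N => ∫ t in Ioi (0:ℝ), F N t) atTop
      (𝓝 (∫ t in Ioi (0:ℝ), (g t : ℂ) / ((t : ℂ) + zs s))) := by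
    refine tendsto_integral_filter_of_dominated_convergence
      (fun t => 2 * C * (t ^ (-(1 / 2) : ℝ) / (s / 2 + t)))
      (Eventually.of_forall hmeas) ?_ ?_ ?_
    · filter_upwards [hb, hA.eventually_ge_atTop 1, hB] with N hbN hN hBN
      refine (ae_restrict_iff' measurableSet_Ioi).2 (ae_of_all _ fun t ht => ?_)
      have ht0 : 0 < t := ht
      have hN0 : 0 < A N := by linarith
      have hden := EXS.Univ.norm_den hs ht0 hN0
      have hnn : 0 ≤ 2 * C * (t ^ (-(1 / 2) : ℝ) / (s / 2 + t)) := by positivity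
      simp only [hF, indicator]
      split_ifs with h1
      · rw [norm_div, Complex.norm_real, Real.norm_eq_abs]
        have h2 := Bh_scale hC hN0 hBN hbN ht0 h1
        have h3 : 0 < s / 2 + t := by positivity
        calc _ ≤ (2 * C * t ^ (-(1 / 2) : ℝ)) / (s / 2 + t) :=
              div_le_div₀ (by positivity) h2 h3 hden
          _ = _ := by ring
      · rw [norm_zero]; exact hnn
    · exact (integrableOn_rpow_div (by norm_num) (by norm_num) (by positivity)).const_mul _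
    · refine (ae_restrict_iff' measurableSet_Ioi).2 (ae_of_all _ fun t ht => ?_)
      have ht0 : 0 < t := ht
      have h1 : Tendsto (fun N : ℕ => ((f N (A N * t) : ℝ) : ℂ) /
          ((t : ℂ) + T2 (A N * s) / (A N : ℂ))) atTop (𝓝 ((g t : ℂ) / ((t : ℂ) + zs s))) := by
        refine Tendsto.div ((Complex.continuous_ofReal.tendsto _).comp (hg t ht0))
          ((EXS.Univ.T2_scale hA s).const_add _) ?_
        intro h0
        have := congrArg Complex.re h0
        rw [Complex.add_re, Complex.ofReal_re, Complex.zero_re] at this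
        rw [zs_re] at this
        linarith
      refine h1.congr' ?_
      filter_upwards [inv_lt_ev hA ht0] with N hN
      simp only [hF, indicator, mem_Ioi, hN, if_true]
  refine (hlim.const_mul _).congr' ?_
  filter_upwards [hA.eventually_gt_atTop 0] with N hN0
  have hNc : (A N : ℂ) ≠ 0 := by exact_mod_cast hN0.ne'
  unfold Cf
  rw [EXS.Univ.scale_int _ hN0]
  congr 1
  refine integral_congr_ae (ae_of_all _ fun t => ?_)
  simp only [hF, indicator]
  split_ifs with h1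
  · rw [Complex.real_smul]
    push_cast
    have e : (A N : ℂ) * (t : ℂ) + T2 (A N * s) = A N * ((t : ℂ) + T2 (A N * s) / A N) := by
      field_simp
    have e3 : (A N : ℂ) * ((f N (A N * t) : ℂ) / (A N * ((t : ℂ) + T2 (A N * s) / A N)))
        = (f N (A N * t) : ℂ) / ((t : ℂ) + T2 (A N * s) / A N) := by
      rw [mul_div_assoc', mul_div_mul_left _ _ hNc]
    rw [e, e3]
  · rfl

variable {τ : (n : ℕ) → Fin n → ℝ} {u : ℕ → ℝ}

/-- comparison of the scale with the number of rows -/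
theorem A_cmp (hτ : ∀ n k, ta ≤ τ n k ∧ τ n k ≤ 1) (hA : ∀ n, A n = 2 * ∑ k, τ n k) (n : ℕ) :
    (n : ℝ) ≤ A n ∧ A n ≤ 2 * n := by
  have h := EXS.Univ.h_le_n (n := fun n => n) (τ := τ) (h := fun n => ∑ k, τ n k) hτ (fun _ => rfl) n
  rw [hA n]
  constructor <;> linarith [h.1, h.2]

theorem A_lim (hτ : ∀ n k, ta ≤ τ n k ∧ τ n k ≤ 1) (hA : ∀ n, A n = 2 * ∑ k, τ n k) :
    Tendsto A atTop atTop :=
  tendsto_atTop_mono (fun n => (A_cmp hτ hA n).1) tendsto_natCast_atTop_atTop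

/-- the multiplier converges -/
theorem WD_lim (hτ : ∀ n k, ta ≤ τ n k ∧ τ n k ≤ 1) (hu : ∀ n, ta ≤ u n ∧ u n < 1)
    (hA : ∀ n, A n = 2 * ∑ k, τ n k) {s : ℝ} (hs : 0 < s) :
    Tendsto (fun n : ℕ => WD (τ n) (u n) (A n * s)) atTop (𝓝 (Complex.exp (EXS.Univ.Ae (2 * s)))) := by
  have hAl := A_lim hτ hA
  have h1 := EXS.Univ.Wf_lim (n := fun n => n) (τ := τ) (h := fun n => ∑ k, τ n k) hτ (fun _ => rfl) (by
    have h2 : Tendsto (fun n => A n * (1 / 2)) atTop atTop := hAl.atTop_mul_const (by norm_num)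
    refine h2.congr fun n => ?_
    rw [hA n]
    ring) (s := 2 * s) (by positivity)
  have hX : Tendsto (fun n => A n * s) atTop atTop := hAl.atTop_mul_const hs
  have h3 := EXS.A6.T2_lim.comp hX
  have h4 : Tendsto (fun n => ((u n / (A n * s) : ℝ) : ℂ)) atTop (𝓝 0) := by
    rw [← Complex.ofReal_zero]
    refine (Complex.continuous_ofReal.tendsto _).comp ?_
    refine squeeze_zero' ?_ ?_ (hX.const_div_atTop 1)
    · filter_upwards [hX.eventually_gt_atTop 0] with n hn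
      have := (hu n).1
      have := ta_pos
      have : 0 ≤ u n := by linarith
      positivity
    · filter_upwards [hX.eventually_gt_atTop 0] with n hn
      have := (hu n).2.le
      gcongr
  have h5 : Tendsto (fun n => (T2 (A n * s) / ((A n * s : ℝ) : ℂ)) *
      ((1 - ((u n / (A n * s) : ℝ) : ℂ)) / (T2 (A n * s) / ((A n * s : ℝ) : ℂ) + ((u n / (A n * s) : ℝ) : ℂ))))
      atTop (𝓝 (EXS.A6.r0 * ((1 - 0) / (EXS.A6.r0 + 0)))) := by
    refine h3.mul (Tendsto.div (h4.const_sub 1) (h3.add h4) ?_)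
    rw [add_zero]
    exact EXS.A6.r0_ne
  rw [sub_zero, add_zero, mul_one_div_cancel EXS.A6.r0_ne] at h5
  have h6 := h1.mul h5
  rw [mul_one] at h6
  refine h6.congr' ?_
  filter_upwards [hX.eventually_gt_atTop 1] with n hn
  have e1 : (∑ k, τ n k) * (2 * s) = A n * s := by
    rw [hA n]
    ring
  rw [WD_eq, e1]
  congr 2
  have hX0 : ((A n * s : ℝ) : ℂ) ≠ 0 := by
    have : A n * s ≠ 0 := by linarith
    exact_mod_cast this
  have hT : T2 (A n * s) + (u n : ℂ) ≠ 0 := T2_add_ne (by linarith [(hu n).1, ta_pos]) hn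
  set X : ℂ := ((A n * s : ℝ) : ℂ) with hXd
  have e2 : ((u n / (A n * s) : ℝ) : ℂ) = (u n : ℂ) / X := by
    rw [hXd]
    push_cast
    rfl
  rw [e2]
  have e3 : T2 (A n * s) / X + (u n : ℂ) / X = (T2 (A n * s) + (u n : ℂ)) / X := by ring
  have e4 : 1 - (u n : ℂ) / X = (X - (u n : ℂ)) / X := by
    field_simp
  rw [e3, e4, div_div_div_cancel_right₀ hX0]

/-- pointwise convergence of the iterates -/
theorem itd_lim (hτ : ∀ n k, ta ≤ τ n k ∧ τ n k ≤ 1) (hu : ∀ n, ta ≤ u n ∧ u n < 1)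
    (hA : ∀ n, A n = 2 * ∑ k, τ n k) (hBA : ∀ᶠ N in atTop, B N ≤ 4 * A N) {C : ℝ} (hC : 0 ≤ C)
    (hB : ∀ m : ℕ, ∀ᶠ n in atTop, Bh (itd (τ n) (u n) m) (C * √(B n))) (m : ℕ) :
    ∃ g : ℝ → ℝ, ∀ s : ℝ, 0 < s →
      Tendsto (fun n : ℕ => itd (τ n) (u n) m (A n * s)) atTop (𝓝 (g s)) := by
  induction m with
  | zero => exact ⟨fun _ => 0, fun s _ => by simp [itd]⟩
  | succ m ih =>
    obtain ⟨g, hg⟩ := ih
    refine ⟨fun s => (Complex.exp (EXS.Univ.Ae (2 * s))).im + (Complex.exp (EXS.Univ.Ae (2 * s)) *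
      (((1 / Real.pi : ℝ) : ℂ) * ∫ t in Ioi (0:ℝ), (g t : ℂ) / ((t : ℂ) + zs s))).im, fun s hs => ?_⟩
    have h1 := WD_lim hτ hu hA hs
    have h2 := Cf_lim (A_lim hτ hA) hBA (fun n => itd_meas (τ n) (u n) m) hC (hB m) hg hs
    exact ((Complex.continuous_im.tendsto _).comp h1).add ((Complex.continuous_im.tendsto _).comp (h1.mul h2))

end

/-- **the scaling limit** -/
theorem scaled (hcon : Contr) {A : ℕ → ℝ} {τ : (n : ℕ) → Fin n → ℝ} {u : ℕ → ℝ}
    (hτ : ∀ n k, ta ≤ τ n k ∧ τ n k ≤ 1) (hu : ∀ n, ta ≤ u n ∧ u n < 1)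
    (hA : ∀ n, A n = 2 * ∑ k, τ n k) {v : ℕ → ℝ → ℝ} (hm : ∀ n, Measurable (v n))
    (hev : ∀ᶠ n in atTop, (∃ M : ℝ, Bh (v n) M) ∧
      ∀ X : ℝ, 1 < X → v n X = (WD (τ n) (u n) X).im + KD (τ n) (u n) (v n) X) :
    ∃ g : ℝ → ℝ, Measurable g ∧ ∃ D : ℝ, 0 ≤ D ∧
      (∀ᶠ n in atTop, ∀ s : ℝ, 0 < s → 1 / A n < s →
        |v n (A n * s)| ≤ D * (Real.exp (-(1 / 2) / s) * s ^ (-(1 / 2) : ℝ))) ∧
      (∀ s : ℝ, 0 < s → Tendsto (fun n => v n (A n * s)) atTop (𝓝 (g s))) ∧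
      (∀ s : ℝ, 0 < s → |g s| ≤ D * (Real.exp (-(1 / 2) / s) * s ^ (-(1 / 2) : ℝ))) ∧
      ∀ s : ℝ, 0 < s → g s = (Complex.exp (EXS.Univ.Ae (2 * s)) *
        (1 + ((1 / Real.pi : ℝ) : ℂ) * ∫ t in Ioi (0:ℝ), (g t : ℂ) / ((t : ℂ) + zs s))).im := by
  obtain ⟨C1, hC10, hC1⟩ := src_Bh
  obtain ⟨C2', hC2'⟩ := Cf_le
  obtain ⟨N0, hN0⟩ := hcon
  set C2 := |C2'| with hC2def
  have hC20 : 0 ≤ C2 := abs_nonneg _
  have hAl := A_lim hτ hA
  have hcmp := A_cmp hτ hA
  set B : ℕ → ℝ := fun n => (n : ℝ) + 1 with hBdef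
  have hBA : ∀ᶠ n in atTop, B n ≤ 4 * A n := by
    filter_upwards [eventually_ge_atTop 1] with n hn
    have h1 : (1 : ℝ) ≤ n := by exact_mod_cast hn
    have h2 := (hcmp n).1
    simp only [hBdef]
    linarith
  have hS : ∀ n, Bh (fun X => (WD (τ n) (u n) X).im) (C1 * √(B n)) := fun n =>
    hC1 n (τ n) (hτ n) (u n) (hu n).1 (hu n).2.le
  have hS0 : ∀ n : ℕ, 0 ≤ C1 * √(B n) := fun n => by positivity
  have hK : ∀ n, N0 ≤ n → ∀ (f : ℝ → ℝ) (M : ℝ), 0 ≤ M → Measurable f → Bh f M →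
      Bh (KD (τ n) (u n) f) (4 / 5 * M) := fun n hn =>
    hN0 n hn (τ n) (hτ n) (u n) (hu n).1 (hu n).2.le
  -- a priori bound
  have hv : ∀ᶠ n in atTop, Bh (v n) (5 * C1 * √(B n)) ∧
      ∀ X : ℝ, 1 < X → v n X = (WD (τ n) (u n) X).im + KD (τ n) (u n) (v n) X := by
    filter_upwards [hev, eventually_ge_atTop N0] with n hn hn0
    obtain ⟨⟨M, hM⟩, h2⟩ := hn
    refine ⟨?_, h2⟩
    have := sol_Bh (hm n) (hS0 n) (hS n) (hK n hn0) hM h2
    rwa [← mul_assoc] at this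
  -- the iterates
  have hI : ∀ m : ℕ, ∀ᶠ n in atTop, Bh (itd (τ n) (u n) m) (5 * C1 * √(B n)) := by
    intro m
    filter_upwards [eventually_ge_atTop N0] with n hn
    have := itd_Bh (hS0 n) (hS n) (hK n hn) m
    rwa [← mul_assoc] at this
  have hIl := itd_lim hτ hu hA hBA (C := 5 * C1) (by positivity) hI
  -- pointwise limit of `v`
  have hV : ∀ s : ℝ, ∃ L : ℝ, (0 < s → Tendsto (fun n : ℕ => v n (A n * s)) atTop (𝓝 L)) ∧
      (¬ 0 < s → L = 0) := by
    intro s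
    by_cases hs : 0 < s
    swap
    · exact ⟨0, fun h => absurd h hs, fun _ => rfl⟩
    have : ∃ L : ℝ, Tendsto (fun n : ℕ => v n (A n * s)) atTop (𝓝 L) := by
      apply EXS.tendsto_of_approx
      intro ε hε
      have h1 : Tendsto (fun m : ℕ => 2 * ((4 / 5 : ℝ) ^ m * (5 * C1)) * s ^ (-(1 / 2) : ℝ)) atTop
          (𝓝 (2 * (0 * (5 * C1)) * s ^ (-(1 / 2) : ℝ))) :=
        (((tendsto_pow_atTop_nhds_zero_of_lt_one (by norm_num) (by norm_num)).mul_const
          _).const_mul _).mul_const _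
      rw [zero_mul, mul_zero, zero_mul] at h1
      obtain ⟨m, hmε⟩ := (h1.eventually (gt_mem_nhds hε)).exists
      obtain ⟨g, hg⟩ := hIl m
      refine ⟨_, _, hg s hs, ?_⟩
      filter_upwards [inv_lt_ev hAl hs, hv, eventually_ge_atTop N0, hBA, hAl.eventually_gt_atTop 0]
        with n h3 h4 h5 h6 h7
      have hM' : Bh (v n) (5 * (C1 * √(B n))) := by
        rw [← mul_assoc]
        exact h4.1
      have h8 := sol_itd (hm n) (hS0 n) (hS n) (hK n h5) hM' h4.2 m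
      have h9 : (4 / 5 : ℝ) ^ m * (5 * (C1 * √(B n)))
          = (4 / 5) ^ m * (5 * C1) * √(B n) := by ring
      rw [h9] at h8
      exact (Bh_scale (by positivity) h7 h6 h8 hs h3).trans hmε.le
    obtain ⟨L, hL⟩ := this
    exact ⟨L, fun _ => hL, fun h => absurd hs h⟩
  choose g hg hg0 using hV
  have hgm : Measurable g := by
    refine measurable_of_tendsto_metrizable (f := fun (n : ℕ) => (Ioi (0:ℝ)).indicator
      (fun s => v n (A n * s))) (fun n => ?_) ?_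
    · have := hm n
      apply Measurable.indicator _ measurableSet_Ioi
      fun_prop
    · rw [tendsto_pi_nhds]
      intro s
      by_cases hs : 0 < s
      · simpa only [indicator, mem_Ioi, hs, if_true] using hg s hs
      · simp only [indicator, mem_Ioi, hs, if_false]
        rw [hg0 s hs]
        exact tendsto_const_nhds
  set D : ℝ := Real.exp (1 / 2) * (1 + 10 * C1 + C2 * (10 * C1)) with hD
  have hD0 : 0 ≤ D := by positivity
  have hbd : ∀ᶠ n in atTop, ∀ s : ℝ, 0 < s → 1 / A n < s →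
        |v n (A n * s)| ≤ D * (Real.exp (-(1 / 2) / s) * s ^ (-(1 / 2) : ℝ)) := by
    filter_upwards [hv, hBA, hAl.eventually_gt_atTop 0] with n h4 h6 h7 s hs h3
    have h1 := Bh_scale (by positivity) h7 h6 h4.1 hs h3
    have hX : 1 < A n * s := by
      rw [div_lt_iff₀ h7] at h3
      linarith
    have hp : 0 < s ^ (-(1 / 2) : ℝ) := by positivity
    rcases le_total 1 s with hs1 | hs1
    · have h2 : Real.exp (-(1 / 2)) ≤ Real.exp (-(1 / 2) / s) := by
        apply Real.exp_le_exp.2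
        rw [le_div_iff₀ hs]
        linarith
      have h5 : Real.exp (1 / 2) * Real.exp (-(1 / 2)) = 1 := by
        rw [← Real.exp_add]
        simp
      have h8 : 1 ≤ Real.exp (1 / 2) * Real.exp (-(1 / 2) / s) :=
        h5.symm.le.trans (mul_le_mul_of_nonneg_left h2 (Real.exp_pos _).le)
      calc |v n (A n * s)| ≤ 2 * (5 * C1) * s ^ (-(1 / 2) : ℝ) := h1
        _ = (10 * C1) * (1 * s ^ (-(1 / 2) : ℝ)) := by ring
        _ ≤ (1 + 10 * C1 + C2 * (10 * C1)) * (Real.exp (1 / 2) * Real.exp (-(1 / 2) / s) * s ^ (-(1 / 2) : ℝ)) := by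
            have h9 : 10 * C1 ≤ 1 + 10 * C1 + C2 * (10 * C1) := by
              have : 0 ≤ C2 * (10 * C1) := by positivity
              linarith
            gcongr
        _ = _ := by rw [hD]; ring
    · have h2 := hC2' (v n) _ (hm n) h4.1 (A n * s) hX
      have h5 : ‖Cf (v n) (T2 (A n * s))‖ ≤ C2 * (10 * C1) * s ^ (-(1 / 2) : ℝ) := by
        have h8 : √(B n) ≤ 2 * (A n) ^ (1 / 2 : ℝ) := by
          rw [← Real.sqrt_eq_rpow]
          have : 2 * √(A n) = √(4 * A n) := by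
            rw [Real.sqrt_mul (by norm_num), show (4:ℝ) = 2 ^ 2 by norm_num,
              Real.sqrt_sq (by norm_num)]
          rw [this]
          exact Real.sqrt_le_sqrt h6
        have h9 : C2' ≤ C2 := le_abs_self _
        calc ‖Cf (v n) (T2 (A n * s))‖ ≤ C2' * (5 * C1 * √(B n)) * (A n * s) ^ (-(1 / 2) : ℝ) := h2
          _ ≤ C2 * (5 * C1 * (2 * (A n) ^ (1 / 2 : ℝ))) * (A n * s) ^ (-(1 / 2) : ℝ) := by gcongr
          _ = C2 * (10 * C1) * ((A n) ^ (1 / 2 : ℝ) * (A n) ^ (-(1 / 2) : ℝ)) * s ^ (-(1 / 2) : ℝ) := by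
              rw [Real.mul_rpow h7.le hs.le]; ring
          _ = C2 * (10 * C1) * s ^ (-(1 / 2) : ℝ) := by
              rw [← Real.rpow_add h7]
              norm_num
      have h8 := v_le (hτ n) (hu n).1 (hu n).2.le hX (h4.2 _ hX) h5
      have h9 : Real.exp (-((n : ℝ) / (A n * s))) ≤ Real.exp (-(1 / 2) / s) := by
        apply Real.exp_le_exp.2
        rw [neg_div, neg_le_neg_iff, div_le_div_iff₀ hs (by positivity)]
        nlinarith [(hcmp n).2]
      have h10 : 1 ≤ s ^ (-(1 / 2) : ℝ) := Real.one_le_rpow_of_pos_of_le_one_of_nonpos hs hs1 (by norm_num)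
      have h11 : 1 ≤ Real.exp (1 / 2) := Real.one_le_exp (by norm_num)
      calc |v n (A n * s)| ≤ Real.exp (-((n : ℝ) / (A n * s))) * (1 + C2 * (10 * C1) * s ^ (-(1 / 2) : ℝ)) := h8
        _ ≤ Real.exp (-(1 / 2) / s) * (s ^ (-(1 / 2) : ℝ) + C2 * (10 * C1) * s ^ (-(1 / 2) : ℝ)) := by gcongr
        _ = (1 + C2 * (10 * C1)) * (Real.exp (-(1 / 2) / s) * s ^ (-(1 / 2) : ℝ)) := by ring
        _ ≤ D * (Real.exp (-(1 / 2) / s) * s ^ (-(1 / 2) : ℝ)) := by
            refine mul_le_mul_of_nonneg_right ?_ (by positivity)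
            rw [hD]
            have h12 : 0 ≤ C2 * (10 * C1) := by positivity
            nlinarith
  refine ⟨g, hgm, D, hD0, hbd, hg, fun s hs => ?_, fun s hs => ?_⟩
  · refine le_of_tendsto (hg s hs).abs ?_
    filter_upwards [hbd, inv_lt_ev hAl hs] with n h1 h2
    exact h1 s hs h2
  · have h1 := WD_lim hτ hu hA hs
    have h2 := Cf_lim hAl hBA hm (by positivity : 0 ≤ 5 * C1) (hv.mono fun n hn => hn.1) hg hs
    have h3 := (Complex.continuous_im.tendsto _).comp (h1.mul (h2.const_add 1))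
    refine tendsto_nhds_unique ((hg s hs).congr' ?_) h3
    filter_upwards [hv, (hAl.atTop_mul_const hs).eventually_gt_atTop 1] with n h4 h5
    simp only [Function.comp_apply]
    rw [h4.2 _ h5, KD, mul_add, mul_one, Complex.add_im]

end L

end CenC
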