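import Pool.Agent.CenC.LimB

/-! CENC, module L, part 3: moments, the variable `t`, the limit of the difference function. -/

set_option autoImplicit false

namespace CenC

open MeasureTheory Filter Topology Set EXS

namespace L

/-- change of variables `s = e^t` -/
theorem int_exp {E : Type*} [NormedAddCommGroup E] [NormedSpace ℝ E] (F : ℝ → E) :
    ∫ s in Ioi (0 : ℝ), F s = ∫ t : ℝ, Real.exp t • F (Real.exp t) := by
  have h := integral_image_eq_integral_abs_deriv_smul (s := Set.univ) (f := Real.exp) (f' := Real.exp)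
    MeasurableSet.univ (fun x _ => (Real.hasDerivAt_exp x).hasDerivWithinAt)
    (Real.exp_injective.injOn) F
  rw [image_univ, Real.range_exp] at h
  rw [h, Measure.restrict_univ]
  refine integral_congr_ae (ae_of_all _ fun t => ?_)
  simp only [abs_of_pos (Real.exp_pos t)]

/-- the limit of integrals against kernels -/
theorem ker_lim {A : ℕ → ℝ} (hA : Tendsto A atTop atTop) {v : ℕ → ℝ → ℝ} (hm : ∀ n, Measurable (v n))
    {D : ℝ} (hD0 : 0 ≤ D)
    (hD : ∀ᶠ n in atTop, ∀ s : ℝ, 0 < s → 1 / A n < s →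
        |v n (A n * s)| ≤ D * (Real.exp (-(1 / 2) / s) * s ^ (-(1 / 2) : ℝ)))
    {g : ℝ → ℝ} (hg : ∀ s : ℝ, 0 < s → Tendsto (fun n => v n (A n * s)) atTop (𝓝 (g s)))
    {k : ℝ} (hk : 0 ≤ k) {κ : ℕ → ℝ → ℝ} (hκm : ∀ n, Measurable (κ n)) {K : ℝ} (hK0 : 0 ≤ K)
    (hK : ∀ᶠ n in atTop, ∀ s : ℝ, 0 < s → 1 / A n < s → |κ n s| ≤ K * s ^ (-1 - k))
    (hκ : ∀ s : ℝ, 0 < s → Tendsto (fun n => κ n s) atTop (𝓝 (s ^ (-1 - k)))) :
    Tendsto (fun n => ∫ s in Ioi (0:ℝ), (Ioi (1 / A n)).indicator (fun s => v n (A n * s) * κ n s) s) atTop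
      (𝓝 (∫ s in Ioi (0:ℝ), g s * s ^ (-1 - k))) := by
  refine tendsto_integral_filter_of_dominated_convergence
      (fun s => D * K * (Real.exp (-(1 / 2) / s) * s ^ (-1 - (1 / 2 + k) : ℝ)))
      (Eventually.of_forall fun n => ?_) ?_ ?_ ?_
  · have h1 := hm n
    have h2 := hκm n
    apply Measurable.aestronglyMeasurable
    apply Measurable.indicator _ measurableSet_Ioi
    fun_prop
  · filter_upwards [hD, hK] with n h1 h2
    refine (ae_restrict_iff' measurableSet_Ioi).2 (ae_of_all _ fun s hs => ?_)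
    have hs0 : 0 < s := hs
    simp only [indicator]
    split_ifs with h3
    · rw [norm_mul, Real.norm_eq_abs, Real.norm_eq_abs]
      calc |v n (A n * s)| * |κ n s| ≤ (D * (Real.exp (-(1 / 2) / s) * s ^ (-(1 / 2) : ℝ))) * (K * s ^ (-1 - k)) :=
            mul_le_mul (h1 s hs0 h3) (h2 s hs0 h3) (abs_nonneg _) (by positivity)
        _ = D * K * (Real.exp (-(1 / 2) / s) * (s ^ (-(1 / 2) : ℝ) * s ^ (-1 - k))) := by ring
        _ = _ := by
            rw [← Real.rpow_add hs0]
            congr 3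
            ring_nf
    · rw [norm_zero]
      positivity
  · exact (integrableOn_exp_rpow (by linarith) (by norm_num)).const_mul _
  · refine (ae_restrict_iff' measurableSet_Ioi).2 (ae_of_all _ fun s hs => ?_)
    have hs0 : 0 < s := hs
    refine ((hg s hs0).mul (hκ s hs0)).congr' ?_
    filter_upwards [inv_lt_ev hA hs0] with n hn
    simp only [indicator, mem_Ioi, hn, if_true]

/-- moments in the variable `t` -/
theorem mo_eq (g : ℝ → ℝ) (k : ℝ) :
    (1 / Real.pi) * ∫ s in Ioi (0:ℝ), g s * s ^ (-1 - k) = mo k (fun t => g (Real.exp t)) := by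
  unfold mo
  rw [int_exp]
  congr 1
  refine integral_congr_ae (ae_of_all _ fun t => ?_)
  simp only [smul_eq_mul]
  rw [← Real.exp_mul]
  have h : Real.exp t * Real.exp (t * (-1 - k)) = Real.exp (-(k * t)) := by
    rw [← Real.exp_add]
    congr 1
    ring
  rw [← h]
  ring

/-- `zs s = s e^{-iπ/3}` -/
theorem zs_exp (t : ℝ) : zs (Real.exp t) = Complex.exp (zl t) := by
  have h1 : zs (Real.exp t) = (Real.exp t : ℂ) * EXS.A6.r0 := by
    have h2 : √(Real.exp t ^ 2 - 0) = Real.exp t := by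
      rw [sub_zero, Real.sqrt_sq (Real.exp_pos t).le]
    unfold zs
    rw [h2]
    apply Complex.ext
    · simp [EXS.A6.r0]
      ring
    · simp [EXS.A6.r0]
      ring
  rw [h1, EXS.A6.r0_eq, zl, Complex.ofReal_exp, ← Complex.exp_add]
  congr 1
  ring

/-- the Cauchy transform in the variable `t` -/
theorem Cl_eq (g : ℝ → ℝ) (t : ℝ) :
    ((1 / Real.pi : ℝ) : ℂ) * ∫ s in Ioi (0:ℝ), (g s : ℂ) / ((s : ℂ) + zs (Real.exp t)) =
      Cl (fun t => g (Real.exp t)) (zl t) := by
  unfold Cl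
  rw [int_exp]
  congr 1
  refine integral_congr_ae (ae_of_all _ fun r => ?_)
  simp only
  rw [Complex.real_smul, zs_exp, Complex.exp_sub, Complex.ofReal_exp, ← mul_div_assoc]
  have h1 : Complex.exp (r : ℂ) ≠ 0 := Complex.exp_ne_zero _
  have h2 : 1 + Complex.exp (zl t) / Complex.exp (r : ℂ) =
      (Complex.exp (r : ℂ) + Complex.exp (zl t)) / Complex.exp (r : ℂ) := by
    field_simp
  rw [h2, div_div_eq_mul_div, mul_comm]

/-- the limit weight -/
theorem wl_eq (t : ℝ) : Complex.exp (EXS.Univ.Ae (2 * Real.exp t)) = wl t := by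
  unfold wl EXS.Univ.Ae
  congr 1
  have hr : (1 : ℂ) / EXS.A6.r0 = Complex.exp (((Real.pi / 3 : ℝ) : ℂ) * Complex.I) := by
    rw [EXS.A6.r0_eq, Complex.exp_neg, one_div, inv_inv, mul_comm]
  have h1 : (1 + EXS.A6.r0) / EXS.A6.r0 = 1 + Complex.exp (((Real.pi / 3 : ℝ) : ℂ) * Complex.I) := by
    rw [← hr]
    have := EXS.A6.r0_ne
    field_simp
    ring
  rw [h1, Real.exp_neg]
  have h2 : ((Real.exp t : ℝ) : ℂ) ≠ 0 := by exact_mod_cast (Real.exp_pos t).ne'
  push_cast
  push_cast at h2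
  field_simp

end L

end CenC
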