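import Pool.Agent.CenC.LimC

/-! CENC, module L, part 4: the limit of the difference function. -/

set_option autoImplicit false

namespace CenC

open MeasureTheory Filter Topology Set EXS

namespace L

/-- integrability against kernels -/
theorem ker_int {a : ℝ} {f : ℝ → ℝ} (hf : Measurable f) {D : ℝ} (hD0 : 0 ≤ D)
    (hD : ∀ s : ℝ, 0 < s → a < s → |f s| ≤ D * (Real.exp (-(1 / 2) / s) * s ^ (-(1 / 2) : ℝ)))
    {k : ℝ} (hk : 0 ≤ k) {κ : ℝ → ℝ} (hκm : Measurable κ) {K : ℝ} (hK0 : 0 ≤ K)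
    (hK : ∀ s : ℝ, 0 < s → a < s → |κ s| ≤ K * s ^ (-1 - k)) :
    IntegrableOn (fun s => (Ioi a).indicator (fun s => f s * κ s) s) (Ioi 0) := by
  have h0 : IntegrableOn (fun s => D * K * (Real.exp (-(1 / 2) / s) * s ^ (-1 - (1 / 2 + k) : ℝ))) (Ioi 0) :=
    (integrableOn_exp_rpow (by linarith) (by norm_num)).const_mul _
  refine Integrable.mono' h0 ?_ ?_
  · apply Measurable.aestronglyMeasurable
    apply Measurable.indicator _ measurableSet_Ioi
    fun_prop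
  · refine (ae_restrict_iff' measurableSet_Ioi).2 (ae_of_all _ fun s hs => ?_)
    have hs0 : 0 < s := hs
    simp only [indicator]
    split_ifs with h3
    · rw [norm_mul, Real.norm_eq_abs, Real.norm_eq_abs]
      calc |f s| * |κ s| ≤ (D * (Real.exp (-(1 / 2) / s) * s ^ (-(1 / 2) : ℝ))) * (K * s ^ (-1 - k)) :=
            mul_le_mul (hD s hs0 h3) (hK s hs0 h3) (abs_nonneg _) (by positivity)
        _ = D * K * (Real.exp (-(1 / 2) / s) * (s ^ (-(1 / 2) : ℝ) * s ^ (-1 - k))) := by ring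
        _ = _ := by
            rw [← Real.rpow_add hs0]
            congr 3
            ring_nf
    · rw [norm_zero]
      positivity

/-- scaled form of the integral in the formula for `V` -/
theorem int_scale {H : ℝ} (hH : 0 < H) (f : ℝ → ℝ) (c : ℝ) :
    ∫ X in Ioi (1:ℝ), f X / (X + c) =
      ∫ s in Ioi (0:ℝ), (Ioi (1 / H)).indicator (fun s => f (H * s) * (1 / (s + c / H))) s := by
  rw [EXS.Univ.scale_int _ hH]
  refine integral_congr_ae (ae_of_all _ fun t => ?_)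
  simp only [indicator]
  split_ifs with h
  · rw [smul_eq_mul]
    have e : H * t + c = H * (t + c / H) := by field_simp
    rw [e, mul_div_assoc', mul_div_mul_left _ _ hH.ne', mul_one_div]
  · rfl

theorem rpow_k0 {s : ℝ} (hs : 0 < s) : s ^ (-1 - 0 : ℝ) = 1 / s := by
  rw [sub_zero, Real.rpow_neg_one, one_div]

theorem rpow_k1 {s : ℝ} (hs : 0 < s) : s ^ (-1 - 1 : ℝ) = 1 / s ^ 2 := by
  rw [show (-1 - 1 : ℝ) = -((2 : ℕ) : ℝ) by norm_num, Real.rpow_neg hs.le, Real.rpow_natCast, one_div]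

theorem rpow_k2 {s : ℝ} (hs : 0 < s) : s ^ (-1 - 2 : ℝ) = 1 / s ^ 3 := by
  rw [show (-1 - 2 : ℝ) = -((3 : ℕ) : ℝ) by norm_num, Real.rpow_neg hs.le, Real.rpow_natCast, one_div]

/-- bound of the third kernel -/
theorem ker_le {H σ c0 : ℝ} (hH : 0 < H) (hc0 : 0 < c0) (h1 : |σ| ≤ (1 - c0) / H) {s : ℝ} (hs : 0 < s)
    (hs1 : 1 / H < s) : |1 / (s ^ 2 * (s + σ))| ≤ 1 / c0 * s ^ (-1 - 2 : ℝ) ∧ 0 < s + σ := by
  have h2 : (1 - c0) / H ≤ (1 - c0) * s ∨ 1 - c0 < 0 := by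
    rcases lt_or_ge (1 - c0) 0 with h | h
    · exact Or.inr h
    · left
      rw [div_eq_mul_one_div]
      exact mul_le_mul_of_nonneg_left hs1.le h
  have h3 : c0 * s ≤ s + σ := by
    rcases h2 with h2 | h2
    · have := (abs_le.1 h1).1
      nlinarith
    · have h4 : (1 - c0) / H < 0 := div_neg_of_neg_of_pos h2 hH
      linarith [abs_nonneg σ]
  have h4 : 0 < s + σ := lt_of_lt_of_le (by positivity) h3
  refine ⟨?_, h4⟩
  rw [rpow_k2 hs, abs_of_nonneg (by positivity), div_mul_div_comm, one_mul]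
  apply div_le_div_of_nonneg_left zero_le_one (by positivity)
  calc c0 * s ^ 3 = s ^ 2 * (c0 * s) := by ring
    _ ≤ _ := by gcongr

/-- expansion of the integral -/
theorem expand {H σ c0 : ℝ} (hH : 0 < H) (hc0 : 0 < c0) (h1 : |σ| ≤ (1 - c0) / H)
    {f : ℝ → ℝ} (hf : Measurable f) {D : ℝ} (hD0 : 0 ≤ D)
    (hD : ∀ s : ℝ, 0 < s → 1 / H < s → |f s| ≤ D * (Real.exp (-(1 / 2) / s) * s ^ (-(1 / 2) : ℝ))) :
    ∫ s in Ioi (0:ℝ), (Ioi (1 / H)).indicator (fun s => f s * (1 / (s + σ))) s =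
      (∫ s in Ioi (0:ℝ), (Ioi (1 / H)).indicator (fun s => f s * s ^ (-1 - 0 : ℝ)) s) -
      σ * (∫ s in Ioi (0:ℝ), (Ioi (1 / H)).indicator (fun s => f s * s ^ (-1 - 1 : ℝ)) s) +
      σ ^ 2 * (∫ s in Ioi (0:ℝ), (Ioi (1 / H)).indicator (fun s => f s * (1 / (s ^ 2 * (s + σ)))) s) := by
  have i0 := ker_int hf hD0 hD (k := 0) le_rfl (κ := fun s => s ^ (-1 - 0 : ℝ)) (by fun_prop) zero_le_one
    (fun s hs _ => by rw [one_mul, abs_of_nonneg (by positivity)])
  have i1 := ker_int hf hD0 hD (k := 1) zero_le_one (κ := fun s => s ^ (-1 - 1 : ℝ)) (by fun_prop) zero_le_one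
    (fun s hs _ => by rw [one_mul, abs_of_nonneg (by positivity)])
  have i2 := ker_int hf hD0 hD (k := 2) zero_le_two (κ := fun s => 1 / (s ^ 2 * (s + σ))) (by fun_prop)
    (by positivity : 0 ≤ 1 / c0) (fun s hs hs1 => (ker_le hH hc0 h1 hs hs1).1)
  have j : IntegrableOn (fun s => (Ioi (1 / H)).indicator (fun s => f s * s ^ (-1 - 0 : ℝ)) s -
      σ * (Ioi (1 / H)).indicator (fun s => f s * s ^ (-1 - 1 : ℝ)) s) (Ioi 0) := i0.sub (i1.const_mul σ)
  rw [← integral_const_mul, ← integral_const_mul, ← integral_sub i0 (i1.const_mul _),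
    ← integral_add j (i2.const_mul _)]
  refine setIntegral_congr_fun measurableSet_Ioi fun s hs => ?_
  have hs0 : 0 < s := hs
  simp only [indicator]
  split_ifs with h
  · have h2 := (ker_le hH hc0 h1 hs0 h).2
    rw [rpow_k0 hs0, rpow_k1 hs0]
    field_simp
    ring
  · ring

/-- the number of rows against the scale -/
theorem n_div_A {A : ℕ → ℝ} {τ : (n : ℕ) → Fin n → ℝ}
    (hA : ∀ n, A n = 2 * ∑ k, τ n k)
    (hδ : ∀ ε : ℝ, 0 < ε → ∀ᶠ n in atTop, ∀ k, |τ n k - ta| ≤ ε) :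
    Tendsto (fun n : ℕ => (n : ℝ) / A n) atTop (𝓝 (1 / (2 * ta))) := by
  have h1 : Tendsto (fun n : ℕ => A n / (n : ℝ)) atTop (𝓝 (2 * ta)) := by
    rw [Metric.tendsto_atTop]
    intro ε hε
    obtain ⟨N0, hN0⟩ := ((hδ (ε / 4) (by positivity)).and (eventually_gt_atTop 0)).exists_forall_of_atTop
    refine ⟨N0, fun n hn => ?_⟩
    obtain ⟨h2, h3⟩ := hN0 n hn
    have hn0 : (0 : ℝ) < n := by exact_mod_cast h3
    have e1 : A n / (n : ℝ) - 2 * ta = 2 * (∑ k, (τ n k - ta)) / n := by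
      rw [Finset.sum_sub_distrib, Finset.sum_const, Finset.card_univ, Fintype.card_fin, nsmul_eq_mul, hA n]
      field_simp
    rw [Real.dist_eq, e1, abs_div, abs_mul, abs_of_pos hn0, abs_of_pos (by norm_num : (0:ℝ) < 2),
      div_lt_iff₀ hn0]
    have h4 : |∑ k, (τ n k - ta)| ≤ n * (ε / 4) := by
      refine (Finset.abs_sum_le_sum_abs _ _).trans ((Finset.sum_le_sum fun k _ => h2 k).trans ?_)
      rw [Finset.sum_const, Finset.card_univ, Fintype.card_fin, nsmul_eq_mul]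
    nlinarith
  have h2 := h1.inv₀ (by have := ta_pos; positivity)
  rw [one_div]
  refine h2.congr fun n => ?_
  rw [inv_div]

end L

/-- module L, the contraction as a hypothesis -/
theorem lim_main' (hcon : L.Contr) {τ : (n : ℕ) → Fin n → ℝ} {u : ℕ → ℝ} {V : ℕ → ℂ → ℂ} {w : ℕ → ℝ}
    (hτ : ∀ n k, ta ≤ τ n k ∧ τ n k ≤ 1) (hu : ∀ n, ta ≤ u n ∧ u n < 1)
    (hδ : ∀ ε : ℝ, 0 < ε → ∀ᶠ n in atTop, ∀ k, |τ n k - ta| ≤ ε) (hδu : Tendsto u atTop (𝓝 ta))
    (hV : ∀ᶠ n in atTop, VF (τ n) (u n) (V n)) (hw : ∀ n, 0 < w n ∧ w n < Real.pi / 2 ∧ Real.cos (w n) = u n) :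
    ∃ γ : ℝ → ℝ, Sol γ ∧
      Tendsto (fun n => V n ((Real.pi / 2 : ℝ) : ℂ)) atTop (𝓝 (th0 γ : ℂ)) ∧
      Tendsto (fun n : ℕ => (n : ℂ) ^ 2 * (V n ((Real.pi / 2 : ℝ) : ℂ) ^ 2 -
        V n ((w n : ℝ) : ℂ) * V n ((Real.pi - w n : ℝ) : ℂ))) atTop
        (𝓝 ((-(1 / 4) * (2 * th0 γ * th2 γ - th1 γ ^ 2) : ℝ) : ℂ)) := by
  classical
  have hpi := Real.pi_pos
  have key : ∀ n, ∃ q : ℝ → ℝ, Measurable q ∧ (VF (τ n) (u n) (V n) → (∃ M : ℝ, Bh q M) ∧
      (∀ X : ℝ, 1 < X → q X = (WD (τ n) (u n) X).im + KD (τ n) (u n) q X) ∧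
      ∀ w : ℝ, 0 < w → w < Real.pi →
        V n (w : ℂ) = ((1 + (1 / Real.pi) * ∫ X in Set.Ioi (1 : ℝ), q X / (X + Real.cos w) : ℝ) : ℂ)) := by
    intro n
    by_cases h : VF (τ n) (u n) (V n)
    · obtain ⟨q, h1, h2, h3, h4⟩ := int_eq h
      exact ⟨q, h1, fun _ => ⟨h2, h3, h4⟩⟩
    · exact ⟨fun _ => 0, measurable_const, fun h' => absurd h' h⟩
  choose q hqm hq using key
  set A : ℕ → ℝ := fun n => 2 * ∑ k, τ n k with hAdef
  have hA : ∀ n, A n = 2 * ∑ k, τ n k := fun _ => rfl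
  have hAl := L.A_lim hτ hA
  obtain ⟨g, hgm, D, hD0, hD, hg, hgb, hge⟩ := L.scaled hcon hτ hu hA hqm
    (hV.mono fun n hn => ⟨(hq n hn).1, (hq n hn).2.1⟩)
  set γ : ℝ → ℝ := fun t => g (Real.exp t) with hγ
  -- the solution
  have hSol : Sol γ := by
    refine ⟨hgm.comp Real.measurable_exp, ⟨D, fun t => ?_⟩, fun t => ?_⟩
    · have h1 := hgb (Real.exp t) (Real.exp_pos t)
      refine h1.trans ?_
      have h2 : Real.exp (-(1 / 2) / Real.exp t) ≤ 1 := by
        rw [Real.exp_le_one_iff]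
        have := Real.exp_pos t
        rw [neg_div, neg_nonpos]
        positivity
      have h3 : Real.exp t ^ (-(1 / 2) : ℝ) = Real.exp (-(t / 2)) := by
        rw [← Real.exp_mul]
        congr 1
        ring
      rw [h3]
      have h4 := Real.exp_pos (-(t / 2))
      calc D * (Real.exp (-(1 / 2) / Real.exp t) * Real.exp (-(t / 2))) ≤ D * (1 * Real.exp (-(t / 2))) := by
            gcongr
        _ = _ := by rw [one_mul]
    · have h1 := hge (Real.exp t) (Real.exp_pos t)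
      rw [L.Cl_eq, L.wl_eq] at h1
      exact h1
  -- kernels
  set c0 : ℝ := (1 - ta) / 2 with hc0d
  have hc0 : 0 < c0 := by
    have := ta_lt_one
    rw [hc0d]
    linarith
  have huc : ∀ᶠ n in atTop, u n ≤ 1 - c0 := by
    have : ta < 1 - c0 := by
      have := ta_lt_one
      rw [hc0d]
      linarith
    exact (hδu.eventually (gt_mem_nhds this)).mono fun n hn => le_of_lt hn
  set σ : ℕ → ℝ := fun n => u n / A n with hσ
  have hσ0 : Tendsto σ atTop (𝓝 0) := by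
    refine squeeze_zero' ?_ ?_ (hAl.const_div_atTop 1)
    · filter_upwards [hAl.eventually_gt_atTop 0] with n hn
      have h1 := (hu n).1
      have h2 := ta_pos
      have : 0 ≤ u n := by linarith
      simp only [hσ]
      positivity
    · filter_upwards [hAl.eventually_gt_atTop 0] with n hn
      have := (hu n).2.le
      simp only [hσ]
      gcongr
  have hσb : ∀ᶠ n in atTop, 0 < A n ∧ |σ n| ≤ (1 - c0) / A n := by
    filter_upwards [hAl.eventually_gt_atTop 0, huc] with n hn h1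
    refine ⟨hn, ?_⟩
    have h3 := (hu n).1
    have h2 := ta_pos
    have h4 : 0 ≤ u n := by linarith
    simp only [hσ]
    rw [abs_of_nonneg (by positivity)]
    gcongr
  have kl : ∀ ε : ℝ, ε = 1 ∨ ε = -1 → Tendsto (fun n => ∫ s in Ioi (0:ℝ), (Ioi (1 / A n)).indicator
      (fun s => q n (A n * s) * (1 / (s ^ 2 * (s + ε * σ n)))) s) atTop
      (𝓝 (∫ s in Ioi (0:ℝ), g s * s ^ (-1 - 2 : ℝ))) := by
    intro ε hε
    have hε1 : |ε| = 1 := by
      rcases hε with h | h <;> simp [h]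
    refine L.ker_lim hAl hqm hD0 hD hg (k := 2) zero_le_two (κ := fun n s => 1 / (s ^ 2 * (s + ε * σ n)))
      (fun n => by fun_prop) (by positivity : 0 ≤ 1 / c0) ?_ ?_
    · filter_upwards [hσb] with n hn s hs hs1
      exact (L.ker_le hn.1 hc0 (by rw [abs_mul, hε1, one_mul]; exact hn.2) hs hs1).1
    · intro s hs
      rw [L.rpow_k2 hs]
      have h1 : Tendsto (fun n => 1 / (s ^ 2 * (s + ε * σ n))) atTop (𝓝 (1 / (s ^ 2 * (s + ε * 0)))) := by
        refine Tendsto.div tendsto_const_nhds (((hσ0.const_mul ε).const_add s).const_mul _) ?_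
        rw [mul_zero, add_zero]
        positivity
      rw [mul_zero, add_zero] at h1
      have e : s ^ 2 * s = s ^ 3 := by ring
      rwa [e] at h1
  have k0 : Tendsto (fun n => ∫ s in Ioi (0:ℝ), (Ioi (1 / A n)).indicator
      (fun s => q n (A n * s) * s ^ (-1 - 0 : ℝ)) s) atTop (𝓝 (∫ s in Ioi (0:ℝ), g s * s ^ (-1 - 0 : ℝ))) :=
    L.ker_lim hAl hqm hD0 hD hg (k := 0) le_rfl (κ := fun _ s => s ^ (-1 - 0 : ℝ)) (fun n => by fun_prop)
      zero_le_one (Eventually.of_forall fun n s hs _ => by rw [one_mul, abs_of_nonneg (by positivity)])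
      (fun s hs => tendsto_const_nhds)
  have k1 : Tendsto (fun n => ∫ s in Ioi (0:ℝ), (Ioi (1 / A n)).indicator
      (fun s => q n (A n * s) * s ^ (-1 - 1 : ℝ)) s) atTop (𝓝 (∫ s in Ioi (0:ℝ), g s * s ^ (-1 - 1 : ℝ))) :=
    L.ker_lim hAl hqm hD0 hD hg (k := 1) zero_le_one (κ := fun _ s => s ^ (-1 - 1 : ℝ)) (fun n => by fun_prop)
      zero_le_one (Eventually.of_forall fun n s hs _ => by rw [one_mul, abs_of_nonneg (by positivity)])
      (fun s hs => tendsto_const_nhds)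
  set m0 : ℕ → ℝ := fun n => (1 / Real.pi) * ∫ s in Ioi (0:ℝ), (Ioi (1 / A n)).indicator
      (fun s => q n (A n * s) * s ^ (-1 - 0 : ℝ)) s with hm0
  set m1 : ℕ → ℝ := fun n => (1 / Real.pi) * ∫ s in Ioi (0:ℝ), (Ioi (1 / A n)).indicator
      (fun s => q n (A n * s) * s ^ (-1 - 1 : ℝ)) s with hm1
  set R : ℝ → ℕ → ℝ := fun ε n => (1 / Real.pi) * ∫ s in Ioi (0:ℝ), (Ioi (1 / A n)).indicator
      (fun s => q n (A n * s) * (1 / (s ^ 2 * (s + ε * σ n)))) s with hR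
  have t0 : Tendsto m0 atTop (𝓝 (mo 0 γ)) := by
    rw [← L.mo_eq g 0]
    exact k0.const_mul _
  have t1 : Tendsto m1 atTop (𝓝 (mo 1 γ)) := by
    rw [← L.mo_eq g 1]
    exact k1.const_mul _
  have tR : ∀ ε : ℝ, ε = 1 ∨ ε = -1 → Tendsto (R ε) atTop (𝓝 (mo 2 γ)) := by
    intro ε hε
    rw [← L.mo_eq g 2]
    exact (kl ε hε).const_mul _
  -- values of `V`
  have hVv : ∀ᶠ n in atTop, V n ((Real.pi / 2 : ℝ) : ℂ) = ((1 + m0 n : ℝ) : ℂ) ∧
      V n ((w n : ℝ) : ℂ) = ((1 + m0 n - σ n * m1 n + σ n ^ 2 * R 1 n : ℝ) : ℂ) ∧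
      V n ((Real.pi - w n : ℝ) : ℂ) = ((1 + m0 n + σ n * m1 n + σ n ^ 2 * R (-1) n : ℝ) : ℂ) := by
    filter_upwards [hV, hσb, hD] with n h1 h2 h3
    obtain ⟨hq1, hq2, hq3⟩ := hq n h1
    obtain ⟨hA0, hσn⟩ := h2
    have hqA : Measurable (fun s => q n (A n * s)) := by
      have := hqm n
      fun_prop
    refine ⟨?_, ?_, ?_⟩
    · rw [hq3 (Real.pi / 2) (by positivity) (by linarith), Real.cos_pi_div_two, L.int_scale hA0]
      congr 3
      refine setIntegral_congr_fun measurableSet_Ioi fun s hs => ?_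
      have hs0 : 0 < s := hs
      simp only [indicator]
      split_ifs with h
      · rw [L.rpow_k0 hs0, zero_div, add_zero]
      · rfl
    · rw [hq3 (w n) (hw n).1 (by linarith [(hw n).2.1]), (hw n).2.2, L.int_scale hA0,
        L.expand hA0 hc0 (σ := u n / A n) hσn hqA hD0 h3]
      congr 1
      rw [hm0, hm1, hR]
      simp only [one_mul]
      rw [show σ n = u n / A n from rfl]
      ring
    · rw [hq3 (Real.pi - w n) (by linarith [(hw n).2.1]) (by linarith [(hw n).1]), Real.cos_pi_sub,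
        (hw n).2.2, L.int_scale hA0, neg_div,
        L.expand hA0 hc0 (σ := -(u n / A n)) (by rw [abs_neg]; exact hσn) hqA hD0 h3]
      congr 1
      rw [hm0, hm1, hR]
      simp only [neg_one_mul]
      rw [show σ n = u n / A n from rfl]
      ring
  refine ⟨γ, hSol, ?_, ?_⟩
  · have h1 : Tendsto (fun n => ((1 + m0 n : ℝ) : ℂ)) atTop (𝓝 ((th0 γ : ℝ) : ℂ)) :=
      (Complex.continuous_ofReal.tendsto _).comp (t0.const_add 1)
    exact h1.congr' (hVv.mono fun n hn => hn.1.symm)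
  · have hnσ : Tendsto (fun n : ℕ => (n : ℝ) * σ n) atTop (𝓝 (1 / 2)) := by
      have h1 := (L.n_div_A hA hδ).mul hδu
      have e : 1 / (2 * ta) * ta = 1 / 2 := by
        have := ta_pos
        field_simp
      rw [e] at h1
      refine h1.congr fun n => ?_
      simp only [hσ]
      ring
    have hmain : Tendsto (fun n : ℕ => ((n : ℝ) * σ n) ^ 2 * (m1 n ^ 2 - (1 + m0 n) * (R 1 n + R (-1) n) -
        σ n * (m1 n * (R 1 n - R (-1) n)) - σ n ^ 2 * (R 1 n * R (-1) n))) atTop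
        (𝓝 ((1 / 2) ^ 2 * (mo 1 γ ^ 2 - (1 + mo 0 γ) * (mo 2 γ + mo 2 γ) -
        0 * (mo 1 γ * (mo 2 γ - mo 2 γ)) - 0 ^ 2 * (mo 2 γ * mo 2 γ)))) := by
      have r1 := tR 1 (Or.inl rfl)
      have r2 := tR (-1) (Or.inr rfl)
      exact (hnσ.pow 2).mul ((((t1.pow 2).sub ((t0.const_add 1).mul (r1.add r2))).sub
        (hσ0.mul (t1.mul (r1.sub r2)))).sub ((hσ0.pow 2).mul (r1.mul r2)))
    have e : (1 / 2) ^ 2 * (mo 1 γ ^ 2 - (1 + mo 0 γ) * (mo 2 γ + mo 2 γ) -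
        0 * (mo 1 γ * (mo 2 γ - mo 2 γ)) - 0 ^ 2 * (mo 2 γ * mo 2 γ)) =
        -(1 / 4) * (2 * th0 γ * th2 γ - th1 γ ^ 2) := by
      unfold th0 th1 th2
      ring
    rw [e] at hmain
    refine ((Complex.continuous_ofReal.tendsto _).comp hmain).congr' ?_
    filter_upwards [hVv] with n hn
    obtain ⟨e1, e2, e3⟩ := hn
    simp only [Function.comp_apply]
    rw [e1, e2, e3]
    push_cast
    ring

end CenC
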