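import Pool.Agent.CenC.Vf

/-!
# CENC V2: the values of the difference function; `V(w₊) V(w₋) = 2/3`
-/

set_option autoImplicit false

namespace CenC

open MeasureTheory Filter Topology EXS Polynomial Real EXS.S3

noncomputable section

/-- `cos 8x` as a polynomial of `c = cos 2x` -/
def T4 (c : ℝ) : ℝ := 8 * c ^ 4 - 8 * c ^ 2 + 1

lemma HH_T4 (c d : ℝ) : 8 * (c ^ 2 + d ^ 2 - √2 * c * d - 1 / 2) * HH c d = T4 c + T4 d := by
  have h2 : √2 ^ 2 = 2 := Real.sq_sqrt (by norm_num)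
  unfold HH T4
  linear_combination (-8 * c ^ 2 * d ^ 2) * h2

lemma T4_cos (y : ℝ) : T4 (cos (2 * y)) = cos (8 * y) := by
  have h1 : cos (8 * y) = 2 * cos (4 * y) ^ 2 - 1 := by rw [← Real.cos_two_mul]; congr 1; ring
  have h2 : cos (4 * y) = 2 * cos (2 * y) ^ 2 - 1 := by rw [← Real.cos_two_mul]; congr 1; ring
  rw [h1, h2]
  unfold T4
  ring

variable {N : ℕ} {x : Fin (N + 1) → ℝ} {s0 s0' : ℝ} {s : Fin N → ℝ} {s' : Fin (N + 1) → ℝ}

/-- coefficients of the difference -/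
def muO (s0 s0' : ℝ) (s : Fin N → ℝ) (s' : Fin (N + 1) → ℝ) : Option (Fin (N + 1)) → ℝ :=
  fun i => i.elim s0 (Fin.snoc (α := fun _ => ℝ) s 0) - sO s0' s' i

lemma sum_mu (f : Option (Fin (N + 1)) → ℝ) : ∑ i, muO s0 s0' s s' i * f i =
    (s0 * f none + ∑ k : Fin N, s k * f (some k.castSucc)) -
      (s0' * f none + ∑ k : Fin (N + 1), s' k * f (some k)) := by
  unfold muO sO
  simp only [sub_mul, Finset.sum_sub_distrib, Fintype.sum_option, Fin.sum_univ_castSucc, Option.elim, Fin.snoc_castSucc,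
    Fin.snoc_last, zero_mul, add_zero]

lemma mu_zero (h : SD (cs x) s0 s) (h' : SD x s0' s') : ∑ i, muO s0 s0' s s' i = 0 := by
  have := sum_mu (s0 := s0) (s0' := s0') (s := s) (s' := s') (fun _ => 1)
  simp only [mul_one] at this
  rw [this, h.sum, h'.sum, sub_self]

lemma mu_one : ∑ i, muO s0 s0' s s' i * cos (2 * yO x i) = F1 (cs x) s0 s - F1 x s0' s' := by
  rw [sum_mu]
  unfold F1
  have : cos (2 * yO x none) = cos (π / 8) := by
    show cos (2 * (π / 16)) = _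
    congr 1; ring
  rw [this]
  rfl

lemma mu_SS (c : ℝ) : ∑ i, muO s0 s0' s s' i * (HH c (cos (2 * yO x i)))⁻¹ =
    SS (cs x) s0 s c - SS x s0' s' c := by
  rw [sum_mu]
  unfold SS
  have : cos (2 * yO x none) = cos (π / 8) := by
    show cos (2 * (π / 16)) = _
    congr 1; ring
  rw [this]
  simp only [div_eq_mul_inv]
  rfl

lemma HH_symm (c d : ℝ) : HH c d = HH d c := by unfold HH; ring

/-- the displacement identity -/
theorem disp_id (h : SD (cs x) s0 s) (h' : SD x s0' s') :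
    4 * √2 * (F1 (cs x) s0 s - F1 x s0' s') ^ 2 =
      cos (8 * x (Fin.last N)) * s' (Fin.last N) * SS (cs x) s0 s (cos (2 * x (Fin.last N))) := by
  set μ := muO s0 s0' s s' with hμ
  set q : Option (Fin (N + 1)) → ℝ := fun i => cos (2 * yO x i) with hq
  have hH : ∀ i j, HH (q i) (q j) ≠ 0 := fun i j =>
    (HH_pos (cos_node_gt (yO_pos h' i) (yO_le h' i)) (cos_node_gt (yO_pos h' j) (yO_le h' j))).ne'
  -- the double sum, first way
  have e1 : ∑ i, ∑ j, μ i * μ j * (8 * (q i ^ 2 + q j ^ 2 - √2 * q i * q j - 1 / 2)) =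
      -(8 * √2 * (F1 (cs x) s0 s - F1 x s0' s') ^ 2) := by
    have h1 : ∀ i j, μ i * μ j * (8 * (q i ^ 2 + q j ^ 2 - √2 * q i * q j - 1 / 2)) =
        8 * ((μ i * q i ^ 2) * μ j + μ i * (μ j * q j ^ 2) - √2 * ((μ i * q i) * (μ j * q j)) -
          1 / 2 * (μ i * μ j)) := fun i j => by ring
    simp only [h1, ← Finset.mul_sum, Finset.sum_sub_distrib, Finset.sum_add_distrib, ← Finset.sum_mul]
    rw [hμ, mu_zero h h', ← hμ]
    have h2 : ∑ i, μ i * q i = F1 (cs x) s0 s - F1 x s0' s' := mu_one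
    rw [h2]
    ring
  -- the double sum, second way
  have e2 : ∑ i, ∑ j, μ i * μ j * (8 * (q i ^ 2 + q j ^ 2 - √2 * q i * q j - 1 / 2)) =
      2 * ∑ i, T4 (q i) * μ i * (SS (cs x) s0 s (q i) - SS x s0' s' (q i)) := by
    have h1 : ∀ i j, μ i * μ j * (8 * (q i ^ 2 + q j ^ 2 - √2 * q i * q j - 1 / 2)) =
        T4 (q i) * μ i * (μ j * (HH (q i) (q j))⁻¹) + T4 (q j) * μ j * (μ i * (HH (q j) (q i))⁻¹) := by
      intro i j
      rw [HH_symm (q j) (q i)]
      have h2 := HH_T4 (q i) (q j)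
      have h3 : HH (q i) (q j) * (HH (q i) (q j))⁻¹ = 1 := mul_inv_cancel₀ (hH i j)
      linear_combination (μ i * μ j * (HH (q i) (q j))⁻¹) * h2 -
        (μ i * μ j * (8 * (q i ^ 2 + q j ^ 2 - √2 * q i * q j - 1 / 2))) * h3
    simp only [h1, Finset.sum_add_distrib]
    rw [Finset.sum_comm (f := fun i j => T4 (q j) * μ j * (μ i * (HH (q j) (q i))⁻¹))]
    have h2 : ∀ i, ∑ j, T4 (q i) * μ i * (μ j * (HH (q i) (q j))⁻¹) =
        T4 (q i) * μ i * (SS (cs x) s0 s (q i) - SS x s0' s' (q i)) := by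
      intro i
      rw [← Finset.mul_sum, ← mu_SS (x := x) (q i)]
    rw [Finset.sum_congr rfl fun i _ => h2 i]
    ring
  have e3 : ∑ i, T4 (q i) * μ i * (SS (cs x) s0 s (q i) - SS x s0' s' (q i)) =
      -(cos (8 * x (Fin.last N)) * s' (Fin.last N) * SS (cs x) s0 s (cos (2 * x (Fin.last N)))) := by
    rw [Fintype.sum_option, Fin.sum_univ_castSucc]
    have h1 : T4 (q none) = 0 := by
      show T4 (cos (2 * (π / 16))) = 0
      rw [T4_cos, show 8 * (π / 16) = π / 2 by ring, Real.cos_pi_div_two]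
    have h2 : ∀ k : Fin N, SS (cs x) s0 s (q (some k.castSucc)) - SS x s0' s' (q (some k.castSucc)) = 0 := by
      intro k
      have a1 := h.zero k
      have a2 := h'.zero k.castSucc
      show SS (cs x) s0 s (cos (2 * x k.castSucc)) - SS x s0' s' (cos (2 * x k.castSucc)) = 0
      rw [a2, sub_zero]
      exact a1
    have h3 : SS x s0' s' (q (some (Fin.last N))) = 0 := h'.zero (Fin.last N)
    have h4 : μ (some (Fin.last N)) = -s' (Fin.last N) := by
      show Fin.snoc (α := fun _ => ℝ) s 0 (Fin.last N) - s' (Fin.last N) = _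
      rw [Fin.snoc_last, zero_sub]
    have h5 : T4 (q (some (Fin.last N))) = cos (8 * x (Fin.last N)) := T4_cos _
    rw [h1, h3, h4, h5, Finset.sum_eq_zero fun k _ => by rw [h2 k, mul_zero]]
    show 0 * μ none * _ + (0 + cos (8 * x (Fin.last N)) * -s' (Fin.last N) *
      (SS (cs x) s0 s (cos (2 * x (Fin.last N))) - 0)) = _
    ring
  rw [e2, e3] at e1
  linear_combination (1 / 2 : ℝ) * e1

/-! ### values -/

/-- `U` at `w₊`, `cos w₊ = u` -/
lemma U_plus (h : SD (cs x) s0 s) (h' : SD x s0' s') {Q : ℝ[X]}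
    (hQ : Pp (cs x) s0 s = (∏ k, (X - C (cos (2 * cs x k)))) * Q) :
    Uw (cs x) Q ((8 * x (Fin.last N) / 3 : ℝ) : ℂ) =
      (((cos (8 * x (Fin.last N) / 3) + ta) * ((cos (8 * x (Fin.last N) / 3) + 1 / 2) / 2) *
      (∏ k : Fin N, ((cos (8 * x (Fin.last N) / 3) + cos (8 * cs x k / 3)) /
        (cos (8 * x (Fin.last N) / 3) - cos (8 * cs x k / 3)))) *
      (SS (cs x) s0 s (cos (2 * x (Fin.last N))) / cos (2 * x (Fin.last N))) : ℝ) : ℂ) := by
  have hx0 := h'.pos (Fin.last N)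
  have hx1 := h'.lt (Fin.last N)
  have hp := Real.pi_pos
  set y := x (Fin.last N) with hy
  have hc1 : Complex.cos ((8 * y / 3 : ℝ) : ℂ) = (cos (8 * y / 3) : ℝ) := by rw [Complex.ofReal_cos]
  have hc3 : Complex.cos (3 * ((8 * y / 3 : ℝ) : ℂ) / 4) = (cos (2 * y) : ℝ) := by
    rw [Complex.ofReal_cos]
    congr 1
    push_cast
    ring
  have hcy : 0 < cos (2 * y) := by
    have := cos_node_gt hx0 hx1.le
    linarith [sqrt2_half_pos]
  have hHC : ∀ i : Option (Fin N), HC (cos (2 * yO (cs x) i)) ((cos (2 * y) : ℝ) : ℂ) =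
      (HH (cos (2 * y)) (cos (2 * yO (cs x) i)) : ℝ) := by
    intro i
    unfold HC HH
    push_cast
    ring
  have hHH : ∀ i : Option (Fin N), 0 < HH (cos (2 * y)) (cos (2 * yO (cs x) i)) := fun i =>
    HH_pos (cos_node_gt hx0 hx1.le) (cos_node_gt (yO_pos h i) (yO_le h i))
  have hτ : ∀ k : Fin N, cos (8 * y / 3) ≠ cos (8 * cs x k / 3) := by
    intro k hk
    have h1 := Real.injOn_cos (x₁ := 8 * y / 3) (x₂ := 8 * cs x k / 3) ⟨by linarith, by linarith⟩
      ⟨by linarith [h.pos k], by linarith [h.lt k]⟩ hk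
    have h2 : y = cs x k := by linarith
    have h3 := h'.inj h2
    exact absurd h3 (Fin.castSucc_lt_last k).ne'
  have e := Uc_form h hQ (w := ((8 * y / 3 : ℝ) : ℂ)) (by
      rw [Complex.ofReal_re, abs_of_pos (by positivity)]; linarith)
    (fun k => by rw [hc1]; exact_mod_cast hτ k)
    (by rw [hc3]; exact_mod_cast hcy.ne')
    (fun i => by rw [hc3, hHC]; exact_mod_cast (hHH i).ne')
  unfold Uw
  rw [e, hc1, hc3]
  have e1 : ∑ i : Option (Fin N), (sO s0 s i : ℂ) * (((cos (2 * y) : ℝ) : ℂ) *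
      HC (cos (2 * yO (cs x) i)) ((cos (2 * y) : ℝ) : ℂ))⁻¹ = (((cos (2 * y) : ℝ) : ℂ))⁻¹ * SC (cs x) s0 s (cos (2 * y) : ℝ) := by
    unfold SC
    rw [Finset.mul_sum]
    refine Finset.sum_congr rfl fun i _ => ?_
    rw [mul_inv]
    ring
  rw [e1, SC_real]
  push_cast
  ring

/-- `U` at `π/2` -/
lemma U_half {M : ℕ} {y : Fin M → ℝ} {r0 : ℝ} {r : Fin M → ℝ} (h : SD y r0 r) {Q : ℝ[X]}
    (hQ : Pp y r0 r = (∏ k, (X - C (cos (2 * y k)))) * Q) :
    Uw y Q ((π / 2 : ℝ) : ℂ) = ((ta / 4 * (-1) ^ M * SS y r0 r cst / cst : ℝ) : ℂ) := by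
  have hc : Complex.cos ((π / 2 : ℝ) : ℂ) = 0 := by
    rw [← Complex.ofReal_cos, Real.cos_pi_div_two]; simp
  have hc3 : Complex.cos (3 * ((π / 2 : ℝ) : ℂ) / 4) = (cst : ℂ) := by
    unfold cst
    rw [Complex.ofReal_cos]
    congr 1
    push_cast
    ring
  have hcst : 0 < cst := by
    unfold cst
    apply Real.cos_pos_of_mem_Ioo
    constructor <;> linarith [Real.pi_pos]
  have hHC : ∀ i : Option (Fin M), HC (cos (2 * yO y i)) (cst : ℂ) = (HH cst (cos (2 * yO y i)) : ℝ) := by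
    intro i
    unfold HC HH
    push_cast
    ring
  have hHH : ∀ i : Option (Fin M), 0 < HH cst (cos (2 * yO y i)) := by
    intro i
    have h1 := cos_node_gt (yO_pos h i) (yO_le h i)
    have h2 := sqrt2_half
    have h3 := sqrt2_half_pos
    have h4 : 0 < √2 * cst * cos (2 * yO y i) := by
      have : 0 < cos (2 * yO y i) := by linarith
      positivity
    unfold HH
    nlinarith [sq_nonneg cst]
  have e := Uc_form h hQ (w := ((π / 2 : ℝ) : ℂ)) (by
      rw [Complex.ofReal_re, abs_of_pos (by positivity)]; linarith [Real.pi_pos])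
    (fun k => by
      rw [hc]
      have := (tau_gt h k).1
      exact_mod_cast this.ne)
    (by rw [hc3]; exact_mod_cast hcst.ne')
    (fun i => by rw [hc3, hHC]; exact_mod_cast (hHH i).ne')
  unfold Uw
  rw [e, hc, hc3]
  have e1 : ∑ i : Option (Fin M), (sO r0 r i : ℂ) * ((cst : ℂ) * HC (cos (2 * yO y i)) (cst : ℂ))⁻¹ =
      (cst : ℂ)⁻¹ * SC y r0 r cst := by
    unfold SC
    rw [Finset.mul_sum]
    refine Finset.sum_congr rfl fun i _ => ?_
    rw [mul_inv]
    ring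
  have e2 : ∏ k, (((0 : ℂ) + (cos (8 * y k / 3) : ℝ)) / (0 - (cos (8 * y k / 3) : ℝ))) = (-1) ^ M := by
    rw [Finset.prod_congr rfl (g := fun _ => (-1 : ℂ)) fun k _ => ?_, Finset.prod_const, Finset.card_univ, Fintype.card_fin]
    have := (tau_gt h k).1
    have h3 : ((cos (8 * y k / 3) : ℝ) : ℂ) ≠ 0 := by exact_mod_cast this.ne'
    rw [zero_add, zero_sub, div_neg, div_self h3]
  rw [e1, SC_real, e2]
  push_cast
  ring

/-- **the value at `π/2`** -/
theorem V_half (h : SD (cs x) s0 s) (h' : SD x s0' s') {Q Q' : ℝ[X]}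
    (hQ : Pp (cs x) s0 s = (∏ k, (X - C (cos (2 * cs x k)))) * Q)
    (hQ' : Pp x s0' s' = (∏ k, (X - C (cos (2 * x k)))) * Q') :
    Vw x s0 s0' s s' Q Q' ((π / 2 : ℝ) : ℂ) =
      ((√3 / (8 * √2 * cst) * cos (8 * x (Fin.last N) / 3) * (-1) ^ N *
        (SS (cs x) s0 s cst - SS x s0' s' cst) / (F1 x s0' s' - F1 (cs x) s0 s) : ℝ) : ℂ) := by
  have hc : Complex.cos ((π / 2 : ℝ) : ℂ) = 0 := by
    rw [← Complex.ofReal_cos, Real.cos_pi_div_two]; simp
  have hcst : 0 < cst := by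
    unfold cst
    apply Real.cos_pos_of_mem_Ioo
    constructor <;> linarith [Real.pi_pos]
  have h2 : (0 : ℝ) < √2 := by positivity
  unfold Vw
  rw [U_half h hQ, U_half h' hQ', hc]
  have e : (((0 : ℂ) + (cos (8 * x (Fin.last N) / 3) : ℝ)) * ((ta / 4 * (-1) ^ N * SS (cs x) s0 s cst / cst : ℝ) : ℂ) -
      (0 - (cos (8 * x (Fin.last N) / 3) : ℝ)) * ((ta / 4 * (-1) ^ (N + 1) * SS x s0' s' cst / cst : ℝ) : ℂ)) /
        (kap x s0 s0' s s' : ℂ) =
      (((0 + cos (8 * x (Fin.last N) / 3)) * (ta / 4 * (-1) ^ N * SS (cs x) s0 s cst / cst) -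
      (0 - cos (8 * x (Fin.last N) / 3)) * (ta / 4 * (-1) ^ (N + 1) * SS x s0' s' cst / cst)) /
        kap x s0 s0' s s' : ℝ) := by
    push_cast
    rfl
  rw [e]
  congr 1
  unfold kap ta
  rw [pow_succ]
  by_cases hF : F1 x s0' s' - F1 (cs x) s0 s = 0
  · rw [hF]; simp
  field_simp
  ring

/-! ### the value at `w₋`, `cos w₋ = -u` -/

lemma prod_erase_last (f : Option (Fin (N + 1)) → ℂ) :
    ∏ i ∈ Finset.univ.erase (some (Fin.last N)), f i = f none * ∏ k : Fin N, f (some k.castSucc) := by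
  classical
  have h1 : ∏ i ∈ Finset.univ.erase (some (Fin.last N)), f i =
      ∏ i ∈ Finset.univ.erase (some (Fin.last N)), (if i = some (Fin.last N) then 1 else f i) := by
    refine Finset.prod_congr rfl fun i hi => ?_
    rw [if_neg (Finset.ne_of_mem_erase hi)]
  rw [h1, Finset.prod_erase _ (by simp), Fintype.prod_option, Fin.prod_univ_castSucc]
  rw [if_neg (by simp), if_pos rfl, mul_one]
  congr 1
  refine Finset.prod_congr rfl fun k _ => ?_
  rw [if_neg]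
  intro h
  exact (Fin.castSucc_lt_last k).ne (Option.some_injective _ h)

lemma HC_ne (h' : SD x s0' s') {i : Option (Fin (N + 1))} (hi : i ≠ some (Fin.last N)) :
    HC (cos (2 * yO x i)) (cP (kb (x (Fin.last N)))) ≠ 0 := by
  have hp := Real.pi_pos
  have a0 := h'.pos (Fin.last N)
  have a1 := h'.lt (Fin.last N)
  have b0 := yO_pos h' i
  have b1 := yO_le h' i
  have hne : yO x i ≠ x (Fin.last N) := by
    cases i with
    | none =>
      show π / 16 ≠ x (Fin.last N)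
      exact a1.ne'
    | some k =>
      show x k ≠ x (Fin.last N)
      intro h
      exact hi (by rw [h'.inj h])
  rw [HC_eq]
  unfold kb kc
  rw [cP_cos, cP_cos, cP_cos]
  refine mul_ne_zero (sub_ne_zero.2 ?_) (sub_ne_zero.2 ?_)
  · intro h
    have h1 : cos (3 * (π / 4 - 2 * x (Fin.last N) / 3)) = cos (3 * (π / 4 - 2 * yO x i / 3)) := by
      exact_mod_cast h
    have := Real.injOn_cos (x₁ := 3 * (π / 4 - 2 * x (Fin.last N) / 3)) (x₂ := 3 * (π / 4 - 2 * yO x i / 3))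
      ⟨by linarith, by linarith⟩ ⟨by linarith, by linarith⟩ h1
    exact hne (by linarith)
  · intro h
    have h1 : cos (3 * (π / 4 - 2 * x (Fin.last N) / 3)) = cos (3 * (π / 4 + 2 * yO x i / 3)) := by
      exact_mod_cast h
    have := Real.injOn_cos (x₁ := 3 * (π / 4 - 2 * x (Fin.last N) / 3)) (x₂ := 3 * (π / 4 + 2 * yO x i / 3))
      ⟨by linarith, by linarith⟩ ⟨by linarith, by linarith⟩ h1
    linarith

lemma U_minus (h' : SD x s0' s') {Q' : ℝ[X]}
    (hQ' : Pp x s0' s' = (∏ k, (X - C (cos (2 * x k)))) * Q') {z : ℂ} (hz : z = (kb (x (Fin.last N)) : ℂ))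
    {u : ℝ} (hu : u = cos (8 * x (Fin.last N) / 3)) :
    Uc x Q' z = (4 * z ^ 2 - 1) / (4 * z) * (s' (Fin.last N)) *
      ((ta - u) * ∏ k : Fin N, ((cos (8 * cs x k / 3) : ℝ) - u : ℂ)) *
      gA (kb (x (Fin.last N))) (kc (x (Fin.last N))) z /
      ((∏ k : Fin N, (-(u + (cos (8 * cs x k / 3) : ℝ)) : ℂ)) * -(2 * u)) := by
  set l : Option (Fin (N + 1)) := some (Fin.last N) with hl
  have hp := Real.pi_pos
  have a0 := h'.pos (Fin.last N)
  have a1 := h'.lt (Fin.last N)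
  have hzD : z ∈ DD := by
    rw [hz]
    show √2 / 2 ≤ ((kb (x (Fin.last N)) : ℝ) : ℂ).re
    rw [Complex.ofReal_re]
    exact (kb_gt a0 a1.le).le
  have hT : tP z = -(u : ℂ) := by rw [hz, tP_kb, hu]
  have hu0 := tau_gt h' (Fin.last N)
  rw [← hu] at hu0
  have hHC : ∀ i : Option (Fin (N + 1)), i ≠ l → HC (cos (2 * yO x i)) (cP z) ≠ 0 := fun i hi => by
    rw [hz]; exact HC_ne h' hi
  have hHl : HC (cos (2 * yO x l)) (cP z) = 0 := by
    rw [HC_eq, hz]
    show (cP (kb (x (Fin.last N))) - cP (kb (x (Fin.last N)))) * _ = 0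
    rw [sub_self, zero_mul]
  -- the product of the poles
  have e1 : ∏ i : Option (Fin (N + 1)), gA (kb (yO x i)) (kc (yO x i)) z =
      gA (kb (x (Fin.last N))) (kc (x (Fin.last N))) z *
        ((∏ i ∈ Finset.univ.erase l, (-(u : ℂ) - tP (kb (yO x i)))) /
          ∏ i ∈ Finset.univ.erase l, HC (cos (2 * yO x i)) (cP z)) := by
    rw [← Finset.mul_prod_erase Finset.univ _ (Finset.mem_univ l), ← Finset.prod_div_distrib]
    congr 1
    refine Finset.prod_congr rfl fun i hi => ?_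
    have hi' := Finset.ne_of_mem_erase hi
    rw [eq_div_iff (hHC i hi'), HC_eq, ← hT]
    exact gA_mul hzD (by linarith [kb_gt (yO_pos h' i) (yO_le h' i), sqrt2_half_gt])
      (kc_ge (yO_pos h' i) (yO_le h' i)) (kc_lt (yO_pos h' i) (yO_le h' i))
  -- the zeros
  have hτ : ∀ k : Fin (N + 1), tP z ≠ (cos (8 * x k / 3) : ℝ) := by
    intro k hk
    rw [hT] at hk
    have h1 : -u = cos (8 * x k / 3) := by exact_mod_cast hk
    linarith [(tau_gt h' k).1]
  have e2 : ∏ k : Fin (N + 1), gR (ka (x k)) z = (∏ k : Fin (N + 1), (cP z - (cos (2 * x k) : ℝ))) /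
      ∏ k : Fin (N + 1), (-(u : ℂ) - (cos (8 * x k / 3) : ℝ)) := by
    rw [← Finset.prod_div_distrib]
    refine Finset.prod_congr rfl fun k _ => ?_
    rw [← hT, eq_div_iff (sub_ne_zero.2 (hτ k)), ← cP_ka, ← tP_ka]
    exact gR_mul hzD (ka_gt (h'.pos k) (h'.lt k).le)
  -- the numerator
  have e4 : aeval (cP z) Q' * (∏ k : Fin (N + 1), (cP z - (cos (2 * x k) : ℝ))) =
      (s' (Fin.last N) : ℂ) * ∏ i ∈ Finset.univ.erase l, HC (cos (2 * yO x i)) (cP z) := by
    have h1 := congrArg (aeval (cP z)) hQ'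
    rw [map_mul, map_prod] at h1
    simp only [map_sub, aeval_X, aeval_C, Complex.coe_algebraMap] at h1
    rw [mul_comm, ← h1]
    unfold Pp
    rw [map_sum, Finset.sum_eq_single l]
    · rw [map_mul, map_prod, aeval_C]
      simp only [aeval_Hp]
      rfl
    · intro i _ hi
      rw [map_mul, map_prod]
      simp only [aeval_Hp]
      rw [Finset.prod_eq_zero (Finset.mem_erase.2 ⟨hi.symm, Finset.mem_univ l⟩) hHl, mul_zero]
    · intro h
      exact absurd (Finset.mem_univ l) h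
  have e5 : (∏ i ∈ Finset.univ.erase l, (-(u : ℂ) - tP (kb (yO x i)))) =
      (ta - u) * ∏ k : Fin N, ((cos (8 * cs x k / 3) : ℝ) - u : ℂ) := by
    rw [hl, prod_erase_last]
    congr 1
    · rw [tP_kb]
      have : cos (8 * yO x none / 3) = ta := by
        show cos (8 * (π / 16) / 3) = ta
        rw [show 8 * (π / 16) / 3 = π / 6 by ring, Real.cos_pi_div_six]
        rfl
      rw [this]; ring
    · refine Finset.prod_congr rfl fun k _ => ?_
      rw [tP_kb]
      show -(u : ℂ) - -((cos (8 * x k.castSucc / 3) : ℝ) : ℂ) = _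
      ring
  have e6 : ∏ k : Fin (N + 1), (-(u : ℂ) - (cos (8 * x k / 3) : ℝ)) =
      (∏ k : Fin N, (-(u + (cos (8 * cs x k / 3) : ℝ)) : ℂ)) * -(2 * u) := by
    rw [Fin.prod_univ_castSucc]
    congr 1
    · refine Finset.prod_congr rfl fun k _ => ?_
      ring
    · rw [← hu]; ring
  have hne : ∏ i ∈ Finset.univ.erase l, HC (cos (2 * yO x i)) (cP z) ≠ 0 :=
    Finset.prod_ne_zero_iff.2 fun i hi => hHC i (Finset.ne_of_mem_erase hi)
  unfold Uc
  rw [e1, e2, e5, e6]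
  generalize (∏ i ∈ Finset.univ.erase l, HC (cos (2 * yO x i)) (cP z)) = H at *
  generalize (∏ k : Fin (N + 1), (cP z - (cos (2 * x k) : ℝ))) = R at *
  generalize (aeval (cP z)) Q' = q at *
  generalize gA (kb (x (Fin.last N))) (kc (x (Fin.last N))) z = g at *
  generalize ((ta : ℂ) - u) * ∏ k : Fin N, ((cos (8 * cs x k / 3) : ℝ) - u : ℂ) = P at *
  generalize (∏ k : Fin N, (-(u + (cos (8 * cs x k / 3) : ℝ)) : ℂ)) * -(2 * (u : ℂ)) = D at *
  have : (4 * z ^ 2 - 1) / (4 * z) * q * (g * (P / H)) * (R / D) =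
      (4 * z ^ 2 - 1) / (4 * z) * (q * R) * g * P / D / H := by ring
  rw [this, e4]
  field_simp

/-- the trigonometric identity -/
lemma key_real {y : ℝ} (h0 : 0 < y) (h1 : y ≤ π / 16) :
    √2 / 2 * (cos (8 * y / 3) + 1 / 2) * ((4 * kb y ^ 2 - 1) / (4 * kb y)) *
      (2 * (kb y + kb y) * (kb y ^ 2 + kb y ^ 2 - 1) / ((kb y ^ 2 + kb y * kb y + kb y ^ 2 - 3 / 4) *
        (4 * (kb y - kc y) * (kb y ^ 2 + kb y * kc y + kc y ^ 2 - 3 / 4)))) = 2 / 3 * cos (2 * y) := by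
  have hp := Real.pi_pos
  have hs : √2 ^ 2 = 2 := Real.sq_sqrt (by norm_num)
  have hs0 : 0 < √2 := by positivity
  set a := cos (2 * y / 3) with ha
  set b := sin (2 * y / 3) with hb
  have hb0 : 0 < b := Real.sin_pos_of_pos_of_lt_pi (by positivity) (by linarith)
  have ha1 : √2 / 2 < a := ka_gt h0 h1
  have hab : a ^ 2 + b ^ 2 = 1 := by rw [ha, hb]; exact Real.cos_sq_add_sin_sq _
  have ha0 : 0 < a := by linarith [sqrt2_half_pos]
  have ha2 : 1 / 2 < a ^ 2 := by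
    have := sqrt2_half
    nlinarith [sqrt2_half_pos]
  have ez : kb y = √2 / 2 * (a + b) := by
    unfold kb
    rw [Real.cos_sub, Real.cos_pi_div_four, Real.sin_pi_div_four]; ring
  have ek : kc y = √2 / 2 * (a - b) := by
    unfold kc
    rw [Real.cos_add, Real.cos_pi_div_four, Real.sin_pi_div_four]; ring
  have eu : cos (8 * y / 3) + 1 / 2 = 8 * (a ^ 2 - 1 / 4) * (a ^ 2 - 3 / 4) := by
    have h2 : cos (8 * y / 3) = 2 * (2 * a ^ 2 - 1) ^ 2 - 1 := by
      rw [ha, ← Real.cos_two_mul, ← Real.cos_two_mul]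
      congr 1
      ring
    rw [h2]; ring
  have ec : cos (2 * y) = 4 * a * (a ^ 2 - 3 / 4) := by
    have h2 : cos (2 * y) = 4 * a ^ 3 - 3 * a := by
      rw [ha, ← Real.cos_three_mul]
      congr 1
      ring
    rw [h2]; ring
  have z0 : 0 < kb y := by rw [ez]; positivity
  have h2 : kb y ^ 2 = 1 / 2 + a * b := by
    rw [ez]; linear_combination ((a + b) ^ 2 / 4) * hs + (1 / 2) * hab
  have h3 : kc y ^ 2 = 1 / 2 - a * b := by
    rw [ek]; linear_combination ((a - b) ^ 2 / 4) * hs + (1 / 2) * hab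
  have h4 : kb y * kc y = a ^ 2 - 1 / 2 := by
    rw [ez, ek]; linear_combination ((a + b) * (a - b) / 4) * hs - (1 / 2) * hab
  have h5 : kb y - kc y = √2 * b := by rw [ez, ek]; ring
  have e1 : kb y ^ 2 + kb y * kb y + kb y ^ 2 - 3 / 4 = 3 * (1 / 4 + a * b) := by
    linear_combination 3 * h2
  have e2 : kb y ^ 2 + kb y * kc y + kc y ^ 2 - 3 / 4 = a ^ 2 - 1 / 4 := by
    linear_combination h2 + h3 + h4
  have e3 : kb y ^ 2 + kb y ^ 2 - 1 = 2 * (a * b) := by linear_combination 2 * h2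
  have e4 : 4 * kb y ^ 2 - 1 = 4 * (1 / 4 + a * b) := by linear_combination 4 * h2
  rw [e1, e2, e3, e4, h5, eu, ec]
  have n1 : 1 / 4 + a * b ≠ 0 := by positivity
  have n2 : a ^ 2 - 1 / 4 ≠ 0 := by
    have : 0 < a ^ 2 - 1 / 4 := by linarith
    exact this.ne'
  have z1 : kb y ≠ 0 := z0.ne'
  have e5 : a ^ 2 - 3 / 4 = (a ^ 2 - 1 / 4) - 1 / 2 := by ring
  rw [e5]
  clear e1 e2 e3 e4 h5 eu ec h2 h3 h4 ez ek z0 e5
  generalize kb y = z at *
  generalize a ^ 2 - 1 / 4 = D at *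
  generalize 1 / 4 + a * b = E at *
  field_simp
  ring

/-- **the product of the values at `w₊` and `w₋`** -/
theorem V_prod (h : SD (cs x) s0 s) (h' : SD x s0' s') {Q Q' : ℝ[X]}
    (hQ : Pp (cs x) s0 s = (∏ k, (X - C (cos (2 * cs x k)))) * Q)
    (hQ' : Pp x s0' s' = (∏ k, (X - C (cos (2 * x k)))) * Q')
    (hF : F1 (cs x) s0 s ≠ F1 x s0' s') :
    Vw x s0 s0' s s' Q Q' ((8 * x (Fin.last N) / 3 : ℝ) : ℂ) *
      Vw x s0 s0' s s' Q Q' ((π - 8 * x (Fin.last N) / 3 : ℝ) : ℂ) = 2 / 3 := by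
  have hp := Real.pi_pos
  have a0 := h'.pos (Fin.last N)
  have a1 := h'.lt (Fin.last N)
  have hs : √2 ^ 2 = 2 := Real.sq_sqrt (by norm_num)
  have hs0 : 0 < √2 := by positivity
  have hUp := U_plus h h' hQ
  have hUm := U_minus h' hQ' rfl rfl
  have hdisp := disp_id h h'
  have hkey := key_real a0 a1.le
  set y := x (Fin.last N) with hy
  set u := cos (8 * y / 3) with hu
  have hu0 : ta < u := by
    have : ta = cos (π / 6) := by rw [Real.cos_pi_div_six]; rfl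
    rw [this, hu]
    exact Real.cos_lt_cos_of_nonneg_of_le_pi (by positivity) (by linarith) (by linarith)
  have hta : 0 < ta := by unfold ta; positivity
  have hta2 : ta ^ 2 = 3 / 4 := by
    unfold ta
    rw [div_pow, Real.sq_sqrt (by norm_num)]; norm_num
  have hc1 : Complex.cos ((8 * y / 3 : ℝ) : ℂ) = (u : ℂ) := by rw [hu, Complex.ofReal_cos]
  have hc2 : Complex.cos ((π - 8 * y / 3 : ℝ) : ℂ) = -(u : ℂ) := by
    rw [← Complex.ofReal_cos, Real.cos_pi_sub, hu]; push_cast; rfl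
  have hz : Complex.cos (((π - 8 * y / 3 : ℝ) : ℂ) / 4) = (kb y : ℂ) := by
    unfold kb
    rw [Complex.ofReal_cos]
    congr 1
    push_cast
    ring
  have hc8 : cos (8 * y) = 4 * u * (u ^ 2 - ta ^ 2) := by
    have : cos (8 * y) = 4 * u ^ 3 - 3 * u := by
      rw [hu, ← Real.cos_three_mul]; congr 1; ring
    rw [this, hta2]; ring
  have hcy : 0 < cos (2 * y) := by
    have := cos_node_gt a0 a1.le
    linarith [sqrt2_half_pos]
  unfold Vw
  rw [hc1, hc2, ← hy, ← hu, hUp]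
  have hUm' : Uw x Q' ((π - 8 * y / 3 : ℝ) : ℂ) = Uc x Q' (kb y) := by
    unfold Uw
    rw [hz]
  rw [hUm', hUm]
  -- the products
  have hτ : ∀ k : Fin N, u - cos (8 * cs x k / 3) ≠ 0 ∧ u + cos (8 * cs x k / 3) ≠ 0 := by
    intro k
    constructor
    · intro hk
      have h1 := Real.injOn_cos (x₁ := 8 * y / 3) (x₂ := 8 * cs x k / 3) ⟨by linarith, by linarith⟩
        ⟨by linarith [h.pos k], by linarith [h.lt k]⟩ (by linarith)
      have h2 : y = cs x k := by linarith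
      have h3 := h'.inj h2
      exact absurd h3 (Fin.castSucc_lt_last k).ne'
    · have := (tau_gt h k).1
      intro hk
      linarith
  have hPP : (∏ k : Fin N, ((u + cos (8 * cs x k / 3)) / (u - cos (8 * cs x k / 3)))) *
      (∏ k : Fin N, (cos (8 * cs x k / 3) - u)) = ∏ k : Fin N, (-(u + cos (8 * cs x k / 3))) := by
    rw [← Finset.prod_mul_distrib]
    refine Finset.prod_congr rfl fun k _ => ?_
    have := (hτ k).1
    field_simp
    ring
  have hP3 : ∏ k : Fin N, (-(u + cos (8 * cs x k / 3))) ≠ 0 :=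
    Finset.prod_ne_zero_iff.2 fun k _ => neg_ne_zero.2 (hτ k).2
  set P1 := ∏ k : Fin N, ((u + cos (8 * cs x k / 3)) / (u - cos (8 * cs x k / 3)))
  set P2 := ∏ k : Fin N, (cos (8 * cs x k / 3) - u)
  set P3 := ∏ k : Fin N, (-(u + cos (8 * cs x k / 3)))
  have c2 : ∏ k : Fin N, ((cos (8 * cs x k / 3) : ℝ) - u : ℂ) = (P2 : ℂ) := by
    rw [show P2 = ∏ k : Fin N, (cos (8 * cs x k / 3) - u) from rfl, Complex.ofReal_prod]
    refine Finset.prod_congr rfl fun k _ => ?_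
    push_cast; rfl
  have c3 : (∏ k : Fin N, (-(u + (cos (8 * cs x k / 3) : ℝ)) : ℂ)) = (P3 : ℂ) := by
    rw [show P3 = ∏ k : Fin N, (-(u + cos (8 * cs x k / 3))) from rfl, Complex.ofReal_prod]
    refine Finset.prod_congr rfl fun k _ => ?_
    push_cast; rfl
  rw [c2, c3]
  set S := SS (cs x) s0 s (cos (2 * y))
  set σ := s' (Fin.last N)
  have hk : kap x s0 s0' s s' ^ 2 = cos (8 * y) * σ * S / (2 * √2) := by
    rw [eq_div_iff (by positivity), ← hdisp]
    unfold kap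
    linear_combination (2 * √2 * (F1 x s0' s' - F1 (cs x) s0 s) ^ 2) * hs
  have hk0 : kap x s0 s0' s s' ≠ 0 := mul_ne_zero (by positivity) (sub_ne_zero.2 hF.symm)
  set κ := kap x s0 s0' s s'
  have hg : gA (kb y) (kc y) (kb y : ℂ) = ((2 * (kb y + kb y) * (kb y ^ 2 + kb y ^ 2 - 1) /
      ((kb y ^ 2 + kb y * kb y + kb y ^ 2 - 3 / 4) *
        (4 * (kb y - kc y) * (kb y ^ 2 + kb y * kc y + kc y ^ 2 - 3 / 4))) : ℝ) : ℂ) := by
    unfold gA
    push_cast
    rfl
  rw [hg]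
  set g := 2 * (kb y + kb y) * (kb y ^ 2 + kb y ^ 2 - 1) /
      ((kb y ^ 2 + kb y * kb y + kb y ^ 2 - 3 / 4) *
        (4 * (kb y - kc y) * (kb y ^ 2 + kb y * kc y + kc y ^ 2 - 3 / 4)))
  set K := (4 * kb y ^ 2 - 1) / (4 * kb y) with hK
  have hKc : (4 * (kb y : ℂ) ^ 2 - 1) / (4 * (kb y : ℂ)) = (K : ℂ) := by
    rw [hK]; push_cast; rfl
  rw [hKc]
  have main : (u + u) * ((u + ta) * ((u + 1 / 2) / 2) * P1 * (S / cos (2 * y))) / κ *
      (-(-u - u) * (K * σ * ((ta - u) * P2) * g / (P3 * -(2 * u))) / κ) = 2 / 3 := by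
    have hu1 : 0 < u := by linarith
    have hd : 0 < u ^ 2 - ta ^ 2 := by nlinarith
    have h8 : κ ^ 2 = 4 * u * (u ^ 2 - ta ^ 2) * σ * S / (2 * √2) := by rw [hk, hc8]
    have hPP' : P1 * P2 / P3 = 1 := by rw [hPP]; exact div_self hP3
    have hkey' : (u + 1 / 2) * K * g = 2 / 3 * cos (2 * y) * √2 := by
      linear_combination √2 * hkey - ((u + 1 / 2) * K * g / 2) * hs
    have e : (u + u) * ((u + ta) * ((u + 1 / 2) / 2) * P1 * (S / cos (2 * y))) / κ *
      (-(-u - u) * (K * σ * ((ta - u) * P2) * g / (P3 * -(2 * u))) / κ) =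
      (u * (u ^ 2 - ta ^ 2) * (S * σ) * (P1 * P2 / P3) * ((u + 1 / 2) * K * g) / cos (2 * y)) / κ ^ 2 := by
      field_simp
      ring
    rw [e, hPP', hkey', div_eq_iff (pow_ne_zero 2 hk0), h8]
    have e3 : (1 : ℝ) / (2 * √2) = √2 / 4 := by
      rw [div_eq_div_iff (by positivity) (by norm_num)]
      linear_combination (-(2 : ℝ)) * hs
    have e4 : 4 * u * (u ^ 2 - ta ^ 2) * σ * S / (2 * √2) =
        4 * u * (u ^ 2 - ta ^ 2) * σ * S * (√2 / 4) := by rw [← e3]; ring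
    rw [e4]
    field_simp
  have cast := congrArg (fun r : ℝ => (r : ℂ)) main
  push_cast at cast ⊢
  rw [← cast]
  ring

/-- module V: the difference function -/
theorem exists_VF (h : SD (cs x) s0 s) (h' : SD x s0' s') (hF : F1 (cs x) s0 s ≠ F1 x s0' s') :
    ∃ V : ℂ → ℂ, VF (fun k : Fin N => cos (8 * cs x k / 3)) (cos (8 * x (Fin.last N) / 3)) V ∧
      V ((π / 2 : ℝ) : ℂ) = ((√3 / (8 * √2 * cst) * cos (8 * x (Fin.last N) / 3) * (-1) ^ N *
          (SS (cs x) s0 s cst - SS x s0' s' cst) / (F1 x s0' s' - F1 (cs x) s0 s) : ℝ) : ℂ) ∧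
      V ((8 * x (Fin.last N) / 3 : ℝ) : ℂ) * V ((π - 8 * x (Fin.last N) / 3 : ℝ) : ℂ) = 2 / 3 := by
  obtain ⟨Q, hQ⟩ := exists_Q h
  obtain ⟨Q', hQ'⟩ := exists_Q h'
  exact ⟨_, VF_Vw h h' hQ hQ' hF, V_half h h' hQ hQ', V_prod h h' hQ hQ' hF⟩

end

end CenC
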