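import Pool.Agent.CenC.FinB
import Pool.Agent.CenC.Ode
import Pool.Agent.CenC.Expo

/-!
# CENC: every solution of the limit problem: `th0 ^ 2 = 2 / 3`, `th1 = (5 / 48) th0`
-/

set_option autoImplicit false

namespace CenC

open Filter Topology EXS HexPolygon MeasureTheory

noncomputable section

/-- existence of a solution of the limit problem, with its normalisation -/
theorem exists_sol : ∃ γ : ℝ → ℝ, Sol γ ∧ th0 γ ^ 2 = 2 / 3 ∧ 2 * th0 γ * th2 γ - th1 γ ^ 2 ≤ 0 := by
  choose τ u w X p q f c V h1 h2 h3 h4 h5 h6 using data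
  have hdel3 : Tendsto (fun n => 3 * del n) atTop (𝓝 0) := by
    have := del_zero.const_mul 3
    rwa [mul_zero] at this
  obtain ⟨γ, hγ, l1, l2⟩ := lim_main (τ := τ) (u := u) (V := V) (w := w) h1 h3
    (fun ε hε => by
      filter_upwards [hdel3.eventually (gt_mem_nhds hε)] with n hn k
      exact (h2 n k).trans hn.le)
    (by
      rw [← tendsto_sub_nhds_zero_iff]
      exact squeeze_zero_norm (fun n => by rw [Real.norm_eq_abs]; exact h4 n) hdel3)
    (by filter_upwards [eventually_ge_atTop 1] with n hn; exact (h6 n hn).1)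
    h5
  -- real limits
  have m1 : Tendsto X atTop (𝓝 (th0 γ)) := by
    have := (Complex.continuous_re.tendsto _).comp l1
    rw [Complex.ofReal_re] at this
    refine this.congr' ?_
    filter_upwards [eventually_ge_atTop 1] with n hn
    rw [Function.comp_apply, (h6 n hn).2.1, Complex.ofReal_re]
  set L : ℝ := -(1 / 4) * (2 * th0 γ * th2 γ - th1 γ ^ 2) with hL
  have m2 : Tendsto (fun n : ℕ => (n : ℝ) ^ 2 * (X n ^ 2 - 2 / 3)) atTop (𝓝 L) := by
    have := (Complex.continuous_re.tendsto _).comp l2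
    rw [Complex.ofReal_re] at this
    refine this.congr' ?_
    filter_upwards [eventually_ge_atTop 1] with n hn
    rw [Function.comp_apply, (h6 n hn).2.1, (h6 n hn).2.2.1]
    have e : (n : ℂ) ^ 2 * ((X n : ℂ) ^ 2 - 2 / 3) = (((n : ℝ) ^ 2 * (X n ^ 2 - 2 / 3) : ℝ) : ℂ) := by
      push_cast
      rfl
    rw [e, Complex.ofReal_re]
  have m3 : Tendsto (fun n : ℕ => X n ^ 2) atTop (𝓝 (2 / 3)) := by
    have := (zero_of_sq m2).add_const (2 / 3)
    simpa using this
  have m4 : th0 γ ^ 2 = 2 / 3 := tendsto_nhds_unique (m1.pow 2) m3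
  have m5 : th0 γ ≠ 0 := by
    intro h
    rw [h] at m4
    norm_num at m4
  have hC := C0_pos
  have key := core_diff (b := HexObs.bT) (D := DD) (w := ww) (p := p) (q := q) (f := f) (c := c) (X := X) (w1 := w1) hC
    (fun n hn => bT_pos' hn) ratio_b (fun n hn => DD_pos hn) (fun n hn => starD hn) ww_lim
    (fun n hn => (h6 n hn).2.2.2.1) (fun n hn => (h6 n hn).2.2.2.2.1) (fun n hn => (h6 n hn).2.2.2.2.2.1)
    (fun n hn => (h6 n hn).2.2.2.2.2.2.1) (fun n hn => (h6 n hn).2.2.2.2.2.2.2) m1 m5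
  set v : ℕ → ℝ := fun n => C0 * (Real.sqrt 3 / 2) * ww n with hv
  set v1 : ℝ := C0 * (Real.sqrt 3 / 2) * w1 with hv1
  have k1 : Tendsto (fun n : ℕ => (n : ℝ) ^ 2 * (v n ^ 2 - 2 / 3)) atTop (𝓝 L) := by
    have := m2.sub key
    rw [sub_zero] at this
    refine this.congr (fun n => ?_)
    ring
  have k2 : Tendsto v atTop (𝓝 v1) := ww_lim.const_mul _
  have k3 : v1 ^ 2 = 2 / 3 := by
    have := (zero_of_sq k1).add_const (2 / 3)
    simp only [sub_add_cancel, zero_add] at this
    exact tendsto_nhds_unique (k2.pow 2) this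
  have hpos : ∀ n, 1 ≤ n → 0 ≤ v n := by
    intro n hn
    have := ww_pos hn
    positivity
  have k4 : 0 < v1 := by
    have h7 : 0 ≤ v1 := ge_of_tendsto k2 (by filter_upwards [eventually_ge_atTop 1] with n hn; exact hpos n hn)
    rcases h7.lt_or_eq with h | h
    · exact h
    · exfalso
      rw [← h] at k3
      norm_num at k3
  have hs := s1_pos
  have hk : C0 * (Real.sqrt 3 / 2) * (2 * Real.sin (Real.pi / 8)) = 3 / (8 * Real.sqrt 2) := by
    unfold C0
    rw [cst_eq]
    have : Real.sqrt 3 ^ 2 = 3 := Real.sq_sqrt (by norm_num)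
    field_simp
    linear_combination this
  have hSle : ∀ n, (HexPolygon.S n).toReal ≤ (HexPolygon.Sall).toReal := by
    intro n
    refine ENNReal.toReal_mono Sall_ne ?_
    unfold HexPolygon.S HexPolygon.Sall
    have h1 := tsum_subtype {L : List (ℤ × ℤ) | Polygon L} HexPolygon.wt
    have h2 := tsum_subtype {L : List (ℤ × ℤ) | Polygon L ∧ ∀ p ∈ L, p.2 ≤ (n : ℤ)} HexPolygon.wt
    refine (le_of_eq h2).trans (le_trans ?_ (le_of_eq h1.symm))
    refine ENNReal.tsum_le_tsum fun L => ?_
    exact Set.indicator_le_indicator_of_subset (fun L hL => hL.1) (fun _ => zero_le) L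
  have kv : ∀ n, v n - v1 = 3 / (8 * Real.sqrt 2) * ((HexPolygon.Sall).toReal - (HexPolygon.S (n + 1)).toReal) := by
    intro n
    rw [← hk]
    show C0 * (Real.sqrt 3 / 2) * ww n - C0 * (Real.sqrt 3 / 2) * w1 = _
    unfold ww w1
    ring
  have k5 : 0 ≤ L := by
    refine ge_of_tendsto k1 ?_
    filter_upwards [eventually_ge_atTop 1] with n hn
    have h7 : v1 ≤ v n := by
      have := kv n
      have h8 := hSle (n + 1)
      have h9 : 0 ≤ 3 / (8 * Real.sqrt 2) * ((HexPolygon.Sall).toReal - (HexPolygon.S (n + 1)).toReal) :=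
        mul_nonneg (by positivity) (by linarith)
      linarith
    have h8 : v1 ^ 2 ≤ v n ^ 2 := pow_le_pow_left₀ k4.le h7 2
    rw [k3] at h8
    exact mul_nonneg (by positivity) (by linarith)
  exact ⟨γ, hγ, m4, by rw [hL] at k5; linarith⟩

/-- the solution of the limit problem is unique -/
theorem sol_unique {γ γ' : ℝ → ℝ} (h : Sol γ) (h' : Sol γ') : γ = γ' := by
  obtain ⟨M, hM⟩ := h.bd
  obtain ⟨M', hM'⟩ := h'.bd
  have hm : Measurable (fun t => γ t - γ' t) := h.meas.sub h'.meas
  have hb : ∀ t, |γ t - γ' t| ≤ (M + M') * Real.exp (-(t / 2)) := by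
    intro t
    refine (abs_sub _ _).trans ?_
    have := hM t
    have := hM' t
    linarith
  have hC : ∀ t, Cl (fun s => γ s - γ' s) (zl t) = Cl γ (zl t) - Cl γ' (zl t) := by
    intro t
    have i1 := Cl_intg h.meas hM t
    have i2 := Cl_intg h'.meas hM' t
    unfold Cl
    rw [← mul_sub, ← integral_sub i1 i2]
    congr 1
    refine integral_congr_ae (Eventually.of_forall fun s => ?_)
    simp only []
    push_cast
    ring
  have := uniq hm hb (fun t => by
    have e1 := h.eq t
    have e2 := h'.eq t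
    rw [hC t]
    show γ t - γ' t = _
    rw [e1, e2, ← Complex.sub_im]
    congr 1
    ring)
  funext t
  have h3 := this t
  linarith

/-- **every solution of the limit problem** -/
theorem sol_all {γ : ℝ → ℝ} (h : Sol γ) : th0 γ ^ 2 = 2 / 3 ∧ th1 γ = 5 / 48 * th0 γ := by
  obtain ⟨γ', h', h0, h1⟩ := exists_sol
  obtain rfl := sol_unique h h'
  have hne : th0 γ ≠ 0 := by
    intro hz
    rw [hz] at h0
    norm_num at h0
  refine ⟨h0, ?_⟩
  obtain ⟨b, hb1, hb2, P1, P2, P3, hd, hA, hB, hC, hD⟩ := ode h hne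
  have e1 : 2 * th0 γ * th2 γ - th1 γ ^ 2 = -2 * th0 γ * th1 γ := by
    linear_combination (th0 γ / 3) * hb2 - (th1 γ / 3) * hb1
  have hb : b ≤ 2 := by
    have h3 : 0 ≤ th0 γ * th1 γ := by rw [e1] at h1; nlinarith
    have h4 : (2 - b) * th0 γ ^ 2 = 3 * (th0 γ * th1 γ) := by linear_combination -(th0 γ) * hb1
    have h5 : 0 < th0 γ ^ 2 := by positivity
    by_contra hc
    push Not at hc
    nlinarith
  have h2 := exponent h hne hb hd hA hB hC hD
  subst h2
  linarith

end

end CenC
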