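import Pool.Agent.CenC.ConK

/-!
# CENC, module C: uniqueness for the limit problem
-/

set_option autoImplicit false

namespace CenC

open MeasureTheory Set Filter Topology EXS

/-- `e^{-iπ/3} = 1/2 - i √3/2` -/
theorem exp_neg_third (r : ℝ) (t t' : ℝ) (hr : r = Real.exp (t - t')) :
    1 + Complex.exp (zl t - (t' : ℂ)) = ((1 + r / 2 : ℝ) : ℂ) + ((-(√3 / 2 * r) : ℝ) : ℂ) * Complex.I := by
  have e : zl t - (t' : ℂ) = ((t - t' : ℝ) : ℂ) + ((-(Real.pi / 3) : ℝ) : ℂ) * Complex.I := by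
    unfold zl
    push_cast
    ring
  rw [e, Complex.exp_add, ← Complex.ofReal_exp, ← hr, Complex.exp_mul_I, ← Complex.ofReal_cos,
    ← Complex.ofReal_sin, Real.cos_neg, Real.sin_neg, Real.cos_pi_div_three, Real.sin_pi_div_three]
  push_cast
  ring

theorem wl_bd (t : ℝ) : |(wl t).re| ≤ Real.exp (-(3 / 2 * Real.exp (-t))) ∧
    |(wl t).im| ≤ Real.exp (-(3 / 2 * Real.exp (-t))) * (√3 / 2 * Real.exp (-t)) := by
  set x := Real.exp (-t) with hx
  have hx0 : 0 < x := Real.exp_pos _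
  have e : wl t = ((Real.exp (-(3 / 2 * x)) : ℝ) : ℂ) * Complex.exp (((-(√3 / 2 * x) : ℝ) : ℂ) * Complex.I) := by
    unfold wl
    rw [← hx, Complex.ofReal_exp (-(3 / 2 * x)), ← Complex.exp_add, Complex.exp_mul_I, ← Complex.ofReal_cos,
      ← Complex.ofReal_sin, Real.cos_pi_div_three, Real.sin_pi_div_three]
    congr 1
    push_cast
    ring
  rw [e, Complex.re_ofReal_mul, Complex.im_ofReal_mul, Complex.exp_ofReal_mul_I_re, Complex.exp_ofReal_mul_I_im,
    abs_mul, abs_mul, abs_of_pos (Real.exp_pos _)]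
  constructor
  · exact mul_le_of_le_one_right (Real.exp_pos _).le (Real.abs_cos_le_one _)
  · refine mul_le_mul_of_nonneg_left ?_ (Real.exp_pos _).le
    refine (Real.abs_sin_le_abs).trans ?_
    rw [abs_neg, abs_of_nonneg (by positivity)]

/-- the comparison kernel -/
theorem kl_eq (a b t t' : ℝ) :
    Real.exp (-(t' / 2)) * ((a + b * Real.exp (t - t')) / (1 + Real.exp (t - t') + Real.exp (t - t') ^ 2)) =
      Real.exp (-(t / 2)) * (Real.exp ((t' - t) / 2) * ((a * Real.exp (t' - t) + b) /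
        (1 + Real.exp (t' - t) + Real.exp (t' - t) ^ 2))) := by
  have h0 : Real.exp (t - t') = (Real.exp (t' - t))⁻¹ := by
    rw [← Real.exp_neg]; congr 1; ring
  have h1 : Real.exp (-(t' / 2)) * Real.exp (t' - t) = Real.exp (-(t / 2)) * Real.exp ((t' - t) / 2) := by
    rw [← Real.exp_add, ← Real.exp_add]; congr 1; ring
  set E := Real.exp (t' - t) with hE
  have hE0 : 0 < E := Real.exp_pos _
  rw [h0]
  have h2 : (a + b * E⁻¹) / (1 + E⁻¹ + E⁻¹ ^ 2) = E * ((a * E + b) / (1 + E + E ^ 2)) := by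
    rw [mul_div_assoc', div_eq_div_iff (by positivity) (by positivity)]
    field_simp
    ring
  rw [h2, ← mul_assoc, h1]
  ring

/-- integrability of the kernel of `Cl` on the ray -/
theorem Cl_intg {δ : ℝ → ℝ} (hm : Measurable δ) {M : ℝ} (hb : ∀ t, |δ t| ≤ M * Real.exp (-(t / 2))) (t : ℝ) :
    Integrable (fun t' : ℝ => (δ t' : ℂ) / (1 + Complex.exp (zl t - (t' : ℂ)))) := by
  have hM0 : 0 ≤ M := by
    have h := (abs_nonneg _).trans (hb 0)
    exact nonneg_of_mul_nonneg_left h (Real.exp_pos _)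
  have hne : ∀ t' : ℝ, Complex.normSq (1 + Complex.exp (zl t - (t' : ℂ))) =
      1 + Real.exp (t - t') + Real.exp (t - t') ^ 2 := by
    intro t'
    rw [exp_neg_third _ t t' rfl, Complex.normSq_add_mul_I]
    have := s3_sq
    nlinarith
  have h1 := ((ker_int_log (a := 1) (b := 1) zero_le_one zero_le_one).1.comp_sub_right t).const_mul
    (M * Real.exp (-(t / 2)))
  refine Integrable.mono' h1 ?_ (Eventually.of_forall fun t' => ?_)
  · refine (Complex.measurable_ofReal.comp hm).aestronglyMeasurable.mul ?_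
    refine (Continuous.aestronglyMeasurable ?_)
    refine Continuous.inv₀ (by fun_prop) ?_
    intro t' h
    have h2 := hne t'
    rw [h, map_zero] at h2
    have : 0 < 1 + Real.exp (t - t') + Real.exp (t - t') ^ 2 := by positivity
    linarith
  · rw [norm_div, Complex.norm_real, Real.norm_eq_abs]
    set r := Real.exp (t - t') with hr
    have hr0 : 0 < r := Real.exp_pos _
    have h2 : 0 < ‖1 + Complex.exp (zl t - (t' : ℂ))‖ := by
      rw [norm_pos_iff]
      intro h
      have h2 := hne t'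
      rw [h, map_zero, ← hr] at h2
      nlinarith [sq_nonneg r]
    have h3 : ‖1 + Complex.exp (zl t - (t' : ℂ))‖ ^ 2 = 1 + r + r ^ 2 := by
      rw [Complex.sq_norm, hne t', ← hr]
    have h4 : 1 / ‖1 + Complex.exp (zl t - (t' : ℂ))‖ ≤ (1 + 1 * r) / (1 + r + r ^ 2) := by
      rw [← h3, div_le_div_iff₀ h2 (by positivity)]
      have h5 : ‖1 + Complex.exp (zl t - (t' : ℂ))‖ ≤ 1 + r := by
        refine abs_le_of_sq_le_sq' ?_ (by positivity) |>.2
        rw [h3]
        nlinarith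
      nlinarith
    calc |δ t'| / ‖1 + Complex.exp (zl t - (t' : ℂ))‖ = |δ t'| * (1 / ‖1 + Complex.exp (zl t - (t' : ℂ))‖) := by
          ring
      _ ≤ (M * Real.exp (-(t' / 2))) * ((1 + 1 * r) / (1 + r + r ^ 2)) :=
          mul_le_mul (hb t') h4 (by positivity) (by positivity)
      _ = M * (Real.exp (-(t' / 2)) * ((1 + 1 * r) / (1 + r + r ^ 2))) := by ring
      _ = _ := by
          rw [kl_eq]
          ring

/-- the general estimate -/
theorem uniq_gen {δ : ℝ → ℝ} (hm : Measurable δ) {M : ℝ} (hb : ∀ t, |δ t| ≤ M * Real.exp (-(t / 2)))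
    {w : ℂ} {p r : ℝ} (hp : |w.re| ≤ p) (hr : |w.im| ≤ r) (t : ℝ) :
    |(w * Cl δ (zl t)).im| ≤ M * Real.exp (-(t / 2)) * ((r + (r / 2 + √3 / 2 * p)) / √3) := by
  have hM0 : 0 ≤ M := by
    have h := (abs_nonneg _).trans (hb 0)
    exact nonneg_of_mul_nonneg_left h (Real.exp_pos _)
  have hp0 := (abs_nonneg _).trans hp
  have hr0 := (abs_nonneg _).trans hr
  have h3 := s3_sq
  have hpi := Real.pi_pos
  have hi := Cl_intg hm hb t
  have h1 : (w * Cl δ (zl t)).im = 1 / Real.pi * ∫ t' : ℝ, (w * ((δ t' : ℂ) / (1 + Complex.exp (zl t - (t' : ℂ))))).im := by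
    have h2 := integral_im (𝕜 := ℂ) (hi.const_mul w)
    simp only [RCLike.im_eq_complex_im] at h2
    rw [h2, integral_const_mul]
    unfold Cl
    rw [mul_left_comm, Complex.im_ofReal_mul]
  have hb0 : 0 ≤ r / 2 + √3 / 2 * p := by positivity
  obtain ⟨ki, ke⟩ := ker_int_log hr0 hb0
  set K : ℝ → ℝ := fun u => Real.exp (u / 2) * ((r * Real.exp u + (r / 2 + √3 / 2 * p)) / (1 + Real.exp u + Real.exp u ^ 2)) with hK
  have hker : ∀ t' : ℝ, |(w * ((δ t' : ℂ) / (1 + Complex.exp (zl t - (t' : ℂ))))).im| ≤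
      M * Real.exp (-(t / 2)) * K (t' - t) := by
    intro t'
    set ρ := Real.exp (t - t') with hρ
    have hρ0 : 0 < ρ := Real.exp_pos _
    have e : w * ((δ t' : ℂ) / (1 + Complex.exp (zl t - (t' : ℂ)))) =
        ((δ t' : ℝ) : ℂ) * (w / (1 + Complex.exp (zl t - (t' : ℂ)))) := by ring
    have hS : 0 < 1 + ρ + ρ ^ 2 := by positivity
    have e2 : (w / (1 + Complex.exp (zl t - (t' : ℂ)))).im =
        (w.im * (1 + ρ / 2) + w.re * (√3 / 2 * ρ)) / (1 + ρ + ρ ^ 2) := by
      rw [exp_neg_third ρ t t' hρ, Complex.div_im, Complex.normSq_add_mul_I]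
      have : (1 + ρ / 2) ^ 2 + (-(√3 / 2 * ρ)) ^ 2 = 1 + ρ + ρ ^ 2 := by nlinarith
      rw [this]
      simp only [Complex.add_re, Complex.ofReal_re, Complex.add_im, Complex.ofReal_im, Complex.mul_re,
        Complex.mul_im, Complex.I_re, Complex.I_im]
      field_simp
      ring
    rw [e, Complex.im_ofReal_mul, abs_mul, e2]
    have h2 : |(w.im * (1 + ρ / 2) + w.re * (√3 / 2 * ρ)) / (1 + ρ + ρ ^ 2)| ≤
        (r + (r / 2 + √3 / 2 * p) * ρ) / (1 + ρ + ρ ^ 2) := by
      rw [abs_div, abs_of_pos hS]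
      refine div_le_div_of_nonneg_right ?_ hS.le
      have e3 : r + (r / 2 + √3 / 2 * p) * ρ = r * (1 + ρ / 2) + p * (√3 / 2 * ρ) := by ring
      rw [e3]
      refine (abs_add_le _ _).trans (add_le_add ?_ ?_)
      · rw [abs_mul, abs_of_pos (by positivity : 0 < 1 + ρ / 2)]
        gcongr
      · rw [abs_mul, abs_of_nonneg (by positivity : 0 ≤ √3 / 2 * ρ)]
        gcongr
    refine (mul_le_mul (hb t') h2 (abs_nonneg _) (by positivity)).trans (le_of_eq ?_)
    rw [mul_assoc, kl_eq]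
    ring
  have ki1 : Integrable (fun t' => M * Real.exp (-(t / 2)) * K (t' - t)) := (ki.comp_sub_right t).const_mul _
  have h4 : |∫ t' : ℝ, (w * ((δ t' : ℂ) / (1 + Complex.exp (zl t - (t' : ℂ))))).im| ≤
      ∫ t' : ℝ, M * Real.exp (-(t / 2)) * K (t' - t) := by
    rw [← Real.norm_eq_abs]
    refine norm_integral_le_of_norm_le ki1 (Eventually.of_forall fun t' => ?_)
    rw [Real.norm_eq_abs]
    exact hker t'
  have h5 : ∫ t' : ℝ, M * Real.exp (-(t / 2)) * K (t' - t) =
      M * Real.exp (-(t / 2)) * ((r + (r / 2 + √3 / 2 * p)) * Real.pi / √3) := by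
    rw [integral_const_mul, integral_sub_right_eq_self K t, ke]
  rw [h1, abs_mul, abs_of_pos (by positivity : 0 < 1 / Real.pi)]
  calc 1 / Real.pi * |∫ t' : ℝ, (w * ((δ t' : ℂ) / (1 + Complex.exp (zl t - (t' : ℂ))))).im|
      ≤ 1 / Real.pi * (M * Real.exp (-(t / 2)) * ((r + (r / 2 + √3 / 2 * p)) * Real.pi / √3)) := by
        refine mul_le_mul_of_nonneg_left (h4.trans h5.le) (by positivity)
    _ = _ := by
        have := s3_pos
        field_simp

/-- **uniqueness** -/
theorem uniq {δ : ℝ → ℝ} (hm : Measurable δ) {M : ℝ} (hb : ∀ t, |δ t| ≤ M * Real.exp (-(t / 2)))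
    (h : ∀ t, δ t = (wl t * Cl δ (zl t)).im) : ∀ t, δ t = 0 := by
  have hM0 : 0 ≤ M := by
    have h := (abs_nonneg _).trans (hb 0)
    exact nonneg_of_mul_nonneg_left h (Real.exp_pos _)
  have h3p := s3_pos
  have h3 := s3_sq
  have step : ∀ M' : ℝ, 0 ≤ M' → (∀ t, |δ t| ≤ M' * Real.exp (-(t / 2))) → ∀ t, |δ t| ≤ M' / 2 * Real.exp (-(t / 2)) := by
    intro M' hM' hb' t
    obtain ⟨w1, w2⟩ := wl_bd t
    rw [h t]
    refine (uniq_gen hm hb' w1 w2 t).trans ?_
    set x := Real.exp (-t) with hx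
    have hx0 : 0 < x := Real.exp_pos _
    have h6 : 3 / 2 * x + 1 ≤ Real.exp (3 / 2 * x) := Real.add_one_le_exp _
    have h7 : Real.exp (-(3 / 2 * x)) * Real.exp (3 / 2 * x) = 1 := by
      rw [← Real.exp_add]; simp
    have h8 : Real.exp (-(3 / 2 * x)) * (3 / 2 * x + 1) ≤ 1 := by
      exact (mul_le_mul_of_nonneg_left h6 (Real.exp_pos _).le).trans h7.le
    have e : (Real.exp (-(3 / 2 * x)) * (√3 / 2 * x) + (Real.exp (-(3 / 2 * x)) * (√3 / 2 * x) / 2 +
        √3 / 2 * Real.exp (-(3 / 2 * x)))) / √3 = 1 / 2 * (Real.exp (-(3 / 2 * x)) * (3 / 2 * x + 1)) := by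
      field_simp
      ring
    rw [e]
    have h9 : 0 ≤ M' * Real.exp (-(t / 2)) := by positivity
    nlinarith
  have hn : ∀ n : ℕ, ∀ t, |δ t| ≤ M / 2 ^ n * Real.exp (-(t / 2)) := by
    intro n
    induction n with
    | zero => simpa using hb
    | succ n ih =>
      have := step _ (by positivity) ih
      intro t
      refine (this t).trans (le_of_eq ?_)
      rw [pow_succ]
      ring
  intro t
  have hl : Tendsto (fun n : ℕ => M / 2 ^ n * Real.exp (-(t / 2))) atTop (𝓝 0) := by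
    have h1 : Tendsto (fun n : ℕ => (2 : ℝ) ^ n) atTop atTop := tendsto_pow_atTop_atTop_of_one_lt (by norm_num)
    have := (h1.const_div_atTop M).mul_const (Real.exp (-(t / 2)))
    simpa using this
  have := ge_of_tendsto' hl fun n => hn n t
  exact abs_eq_zero.1 (le_antisymm this (abs_nonneg _))

end CenC
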