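import Pool.Agent.CenC.Defs
import Pool.Agent.EXS.S3

/-!
# CENC V1: the difference function
-/

set_option autoImplicit false

namespace CenC

open MeasureTheory Filter Topology EXS Asymptotics Bornology Polynomial Real EXS.S3

noncomputable section

/-- the first `N` nodes -/
abbrev cs {N : ℕ} (x : Fin (N + 1) → ℝ) : Fin N → ℝ := fun k => x k.castSucc

/-- first moment of the coefficients -/
def F1 {N : ℕ} (x : Fin N → ℝ) (s0 : ℝ) (s : Fin N → ℝ) : ℝ :=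
  s0 * Real.cos (Real.pi / 8) + ∑ k, s k * Real.cos (2 * x k)

/-- `U` as a function of `w` -/
def Uw {N : ℕ} (x : Fin N → ℝ) (Q : ℝ[X]) (w : ℂ) : ℂ := Uc x Q (Complex.cos (w / 4))

section

variable {N : ℕ} {x : Fin N → ℝ} {s0 : ℝ} {s : Fin N → ℝ}

lemma Uw_diff (h : SD x s0 s) (Q : ℝ[X]) {w : ℂ} (hw : |w.re| ≤ π) : DifferentiableAt ℂ (Uw x Q) w :=
  DifferentiableAt.comp w (f := fun w : ℂ => Complex.cos (w / 4)) (g := Uc x Q)
    (Uc_diff h Q (cos_mem_DD hw)) (by fun_prop)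

lemma Uw_even (Q : ℝ[X]) (w : ℂ) : Uw x Q (-w) = Uw x Q w := by
  unfold Uw
  rw [neg_div, Complex.cos_neg]

lemma Uw_real (Q : ℝ[X]) (w : ℂ) : Uw x Q (starRingEnd ℂ w) = starRingEnd ℂ (Uw x Q w) := by
  unfold Uw
  rw [← Uc_conj, ← Complex.cos_conj]
  congr 2
  simp [map_div₀, map_ofNat]

lemma Uw_jump (h : SD x s0 s) {Q : ℝ[X]} (hQ : Pp x s0 s = (∏ k, (X - C (cos (2 * x k)))) * Q)
    {η : ℝ} (hη : 0 < η) : (Uw x Q ((π : ℂ) + Complex.I * (η : ℂ))).im =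
      (Wt (Wf fun k => cos (8 * x k / 3)) (cosh η) *
        Uw x Q (((π / 3 : ℝ) : ℂ) + Complex.I * (η : ℂ))).im := Uc_jump h hQ hη

/-- third order expansion of the residual function -/
lemma SC_exp (h : SD x s0 s) : (fun z => cP z ^ 3 * SC x s0 s (cP z) - cP z + √2 * F1 x s0 s)
    =O[cobounded ℂ] fun z => (z ^ 3)⁻¹ := by
  have h1 : ∀ i : Option (Fin N), (fun z => (sO s0 s i : ℂ) *
      (cP z ^ 3 / HC (cos (2 * yO x i)) (cP z) - cP z + √2 * (cos (2 * yO x i) : ℝ)))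
      =O[cobounded ℂ] fun z => (z ^ 3)⁻¹ := by
    intro i
    apply IsBigO.const_mul_left
    set q := cos (2 * yO x i)
    have h2 : (fun z => cP z * ((q : ℂ) ^ 2 + 1 / 2) + √2 * q * ((q : ℂ) ^ 2 - 1 / 2))
        =O[cobounded ℂ] fun z => z ^ 3 := by
      have : Tendsto (fun z : ℂ => (cP z * ((q : ℂ) ^ 2 + 1 / 2) + √2 * q * ((q : ℂ) ^ 2 - 1 / 2)) * (z ^ 3)⁻¹)
          (cobounded ℂ) (𝓝 (4 * ((q : ℂ) ^ 2 + 1 / 2) + √2 * q * ((q : ℂ) ^ 2 - 1 / 2) * 0)) := by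
        have h2 := (cP_lim.mul_const ((q : ℂ) ^ 2 + 1 / 2)).add
          ((pow_small (n := 3) (by norm_num)).const_mul (√2 * q * ((q : ℂ) ^ 2 - 1 / 2)))
        exact h2.congr fun z => by ring
      exact bigO_pow this
    have h3 := h2.mul (HC_inv q)
    refine h3.congr' ?_ ?_
    · filter_upwards [HC_ev q] with z hz
      have h5 : ((√2 : ℝ) : ℂ) ^ 2 = 2 := by
        rw [← Complex.ofReal_pow, Real.sq_sqrt (by norm_num)]; norm_num
      rw [mul_inv_eq_iff_eq_mul₀ hz, add_mul, sub_mul, div_mul_cancel₀ _ hz]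
      unfold HC
      linear_combination (-(q : ℂ) ^ 2 * cP z) * h5
    · filter_upwards [ev_ne] with z hz
      field_simp
  have h2 := IsBigO.sum (s := Finset.univ) fun i _ => h1 i
  refine h2.congr (fun z => ?_) fun z => rfl
  have h3 : ∑ i : Option (Fin N), (sO s0 s i : ℂ) = 1 := by
    rw [Fintype.sum_option]
    have := h.sum
    show (s0 : ℂ) + ∑ k, (s k : ℂ) = 1
    exact_mod_cast this
  have h4 : ∑ i : Option (Fin N), (sO s0 s i : ℂ) * (cos (2 * yO x i) : ℝ) = (F1 x s0 s : ℝ) := by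
    rw [Fintype.sum_option]
    unfold F1
    show (s0 : ℂ) * (cos (2 * (π / 16)) : ℝ) + ∑ k, (s k : ℂ) * (cos (2 * x k) : ℝ) = _
    rw [show 2 * (π / 16) = π / 8 by ring]
    push_cast
    rfl
  show (∑ i : Option (Fin N), fun z => (sO s0 s i : ℂ) *
      (cP z ^ 3 / HC (cos (2 * yO x i)) (cP z) - cP z + √2 * (cos (2 * yO x i) : ℝ))) z = _
  rw [Finset.sum_apply]
  have h5 : ∀ i : Option (Fin N), (sO s0 s i : ℂ) *
      (cP z ^ 3 / HC (cos (2 * yO x i)) (cP z) - cP z + √2 * (cos (2 * yO x i) : ℝ)) =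
      cP z ^ 3 * ((sO s0 s i : ℂ) / HC (cos (2 * yO x i)) (cP z)) - (sO s0 s i : ℂ) * cP z +
        √2 * ((sO s0 s i : ℂ) * (cos (2 * yO x i) : ℝ)) := fun i => by ring
  rw [Finset.sum_congr rfl fun i _ => h5 i, Finset.sum_add_distrib, Finset.sum_sub_distrib,
    ← Finset.mul_sum, ← Finset.mul_sum, ← Finset.sum_mul, h3, h4, one_mul]
  rfl

end

section

variable {N : ℕ} {x : Fin (N + 1) → ℝ} {s0 s0' : ℝ} {s : Fin N → ℝ} {s' : Fin (N + 1) → ℝ}

/-- the difference function in `z = cos (w / 4)`, not normalised -/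
def Dz (x : Fin (N + 1) → ℝ) (Q Q' : ℝ[X]) (z : ℂ) : ℂ :=
  (tP z + (cos (8 * x (Fin.last N) / 3) : ℝ)) * Uc (cs x) Q z -
    (tP z - (cos (8 * x (Fin.last N) / 3) : ℝ)) * Uc x Q' z

/-- the normalisation -/
def kap (x : Fin (N + 1) → ℝ) (s0 s0' : ℝ) (s : Fin N → ℝ) (s' : Fin (N + 1) → ℝ) : ℝ :=
  √2 * (F1 x s0' s' - F1 (cs x) s0 s)

lemma Dz_eq (h : SD (cs x) s0 s) (h' : SD x s0' s') {Q Q' : ℝ[X]}
    (hQ : Pp (cs x) s0 s = (∏ k, (X - C (cos (2 * cs x k)))) * Q)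
    (hQ' : Pp x s0' s' = (∏ k, (X - C (cos (2 * x k)))) * Q') :
    ∀ᶠ z in cobounded ℂ, z ∈ DD → Dz x Q Q' z =
      (tP z + ta) * (tP z + (cos (8 * x (Fin.last N) / 3) : ℝ)) * ((4 * z ^ 2 - 1) / (4 * z)) *
        (SC (cs x) s0 s (cP z) - SC x s0' s' (cP z)) *
      ∏ k : Fin N, ((tP z + (cos (8 * cs x k / 3) : ℝ)) / (tP z - (cos (8 * cs x k / 3) : ℝ))) := by
  have h1 : ∀ᶠ z in cobounded ℂ, ∀ k : Fin (N + 1), tP z ≠ (cos (8 * x k / 3) : ℝ) :=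
    (eventually_all (l := cobounded ℂ)).2 fun k => tP_ev _
  have h2 : ∀ᶠ z in cobounded ℂ, ∀ i : Option (Fin (N + 1)), HC (cos (2 * yO x i)) (cP z) ≠ 0 :=
    (eventually_all (l := cobounded ℂ)).2 fun i => HC_ev _
  have h3 : ∀ᶠ z in cobounded ℂ, ∀ i : Option (Fin N), HC (cos (2 * yO (cs x) i)) (cP z) ≠ 0 :=
    (eventually_all (l := cobounded ℂ)).2 fun i => HC_ev _
  filter_upwards [h1, h2, h3] with z h1 h2 h3 hz
  have h4 : tP z - (cos (8 * x (Fin.last N) / 3) : ℝ) ≠ 0 := sub_ne_zero.2 (h1 _)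
  unfold Dz
  rw [Uc_eq h hQ hz (fun k => h1 k.castSucc) h3, Uc_eq h' hQ' hz h1 h2, Fin.prod_univ_castSucc]
  set P := ∏ k : Fin N, ((tP z + (cos (8 * cs x k / 3) : ℝ)) / (tP z - (cos (8 * cs x k / 3) : ℝ)))
  set u := ((cos (8 * x (Fin.last N) / 3) : ℝ) : ℂ)
  have h5 : (tP z - u) * ((tP z + ta) * ((4 * z ^ 2 - 1) / (4 * z)) * SC x s0' s' (cP z) *
      (P * ((tP z + u) / (tP z - u)))) = (tP z + ta) * (tP z + u) * ((4 * z ^ 2 - 1) / (4 * z)) *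
        SC x s0' s' (cP z) * P * ((tP z - u) / (tP z - u)) := by ring
  rw [h5, div_self h4]
  ring

lemma E3_D (h : SD (cs x) s0 s) (h' : SD x s0' s') (hF : F1 (cs x) s0 s ≠ F1 x s0' s') :
    E3 fun z => cP z ^ 3 * (SC (cs x) s0 s (cP z) - SC x s0' s' (cP z)) / kap x s0 s0' s s' := by
  have h1 := (SC_exp h).sub (SC_exp h')
  have hk : (kap x s0 s0' s s' : ℂ) ≠ 0 := by
    have : kap x s0 s0' s s' ≠ 0 := mul_ne_zero (by positivity) (sub_ne_zero.2 hF.symm)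
    exact_mod_cast this
  have h2 := h1.const_mul_left (1 / (kap x s0 s0' s s' : ℂ))
  refine h2.congr (fun z => ?_) fun z => rfl
  have e : (kap x s0 s0' s s' : ℂ) = √2 * ((F1 x s0' s' : ℂ) - (F1 (cs x) s0 s : ℂ)) := by
    unfold kap; push_cast; rfl
  field_simp
  rw [e]
  ring

/-- `V → 1` -/
lemma Dz_asy (h : SD (cs x) s0 s) (h' : SD x s0' s') {Q Q' : ℝ[X]}
    (hQ : Pp (cs x) s0 s = (∏ k, (X - C (cos (2 * cs x k)))) * Q)
    (hQ' : Pp x s0' s' = (∏ k, (X - C (cos (2 * x k)))) * Q')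
    (hF : F1 (cs x) s0 s ≠ F1 x s0' s') :
    (fun z => Dz x Q Q' z / kap x s0 s0' s s' - 1) =O[cobounded ℂ ⊓ 𝓟 DD] fun z => (z ^ 3)⁻¹ := by
  have h1 : E3 fun z => (tP z + ta) / tP z * ((tP z + (cos (8 * x (Fin.last N) / 3) : ℝ)) / tP z) *
      ((tP z + 1 / 2) / tP z) * (tP z ^ 3 / (2 * cP z ^ 4)) *
      (cP z ^ 3 * (SC (cs x) s0 s (cP z) - SC x s0' s' (cP z)) / kap x s0 s0' s s') *
      ∏ k : Fin N, ((tP z + (cos (8 * cs x k / 3) : ℝ)) / tP z *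
        ((tP z + (-(cos (8 * cs x k / 3) : ℝ) : ℂ)) / tP z)⁻¹) :=
    (((((E3_T _).mul (E3_T _)).mul (E3_T _)).mul E3_Tc).mul (E3_D h h' hF)).mul
      (E3.prod _ fun _ _ => (E3_T _).mul (E3_T _).inv)
  have h2 : (fun z => Dz x Q Q' z / kap x s0 s0' s s' - 1) =ᶠ[cobounded ℂ ⊓ 𝓟 DD] fun z =>
      (tP z + ta) / tP z * ((tP z + (cos (8 * x (Fin.last N) / 3) : ℝ)) / tP z) *
      ((tP z + 1 / 2) / tP z) * (tP z ^ 3 / (2 * cP z ^ 4)) *
      (cP z ^ 3 * (SC (cs x) s0 s (cP z) - SC x s0' s' (cP z)) / kap x s0 s0' s s') *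
      (∏ k : Fin N, ((tP z + (cos (8 * cs x k / 3) : ℝ)) / tP z *
        ((tP z + (-(cos (8 * cs x k / 3) : ℝ) : ℂ)) / tP z)⁻¹)) - 1 := by
    rw [EventuallyEq, eventually_inf_principal]
    have h3 : ∀ᶠ z in cobounded ℂ, ∀ k : Fin N, tP z ≠ (cos (8 * cs x k / 3) : ℝ) :=
      (eventually_all (l := cobounded ℂ)).2 fun k => tP_ev _
    filter_upwards [Dz_eq h h' hQ hQ', h3, tP_ev 0, cP_ev 0, ev_ne] with z h1 h3 h4 h5 h6 hz
    rw [h1 hz]
    have h7 : ∀ k : Fin N, (tP z + (cos (8 * cs x k / 3) : ℝ)) / tP z *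
        ((tP z + (-(cos (8 * cs x k / 3) : ℝ) : ℂ)) / tP z)⁻¹ =
        (tP z + (cos (8 * cs x k / 3) : ℝ)) / (tP z - (cos (8 * cs x k / 3) : ℝ)) := by
      intro k
      have := sub_ne_zero.2 (h3 k)
      rw [← sub_eq_add_neg]
      field_simp
    rw [Finset.prod_congr rfl fun k _ => h7 k]
    have h10 : (4 * z ^ 2 - 1) / (4 * z) = (tP z + 1 / 2) / (2 * cP z) := by
      rw [div_eq_div_iff (mul_ne_zero (by norm_num) h6) (mul_ne_zero two_ne_zero h5)]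
      unfold tP cP
      ring
    rw [h10]
    generalize (∏ k : Fin N, ((tP z + (cos (8 * cs x k / 3) : ℝ)) / (tP z - (cos (8 * cs x k / 3) : ℝ)))) = P
    generalize SC (cs x) s0 s (cP z) - SC x s0' s' (cP z) = S
    field_simp
  have h3 : (fun z => Dz x Q Q' z / kap x s0 s0' s s' - 1) =O[cobounded ℂ ⊓ 𝓟 DD] fun z => (z ^ 3)⁻¹ := by
    refine IsBigO.congr' ?_ h2.symm EventuallyEq.rfl
    exact IsBigO.mono h1 inf_le_left
  exact h3

/-- the difference function -/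
def Vw (x : Fin (N + 1) → ℝ) (s0 s0' : ℝ) (s : Fin N → ℝ) (s' : Fin (N + 1) → ℝ) (Q Q' : ℝ[X]) (w : ℂ) : ℂ :=
  ((Complex.cos w + (cos (8 * x (Fin.last N) / 3) : ℝ)) * Uw (cs x) Q w -
    (Complex.cos w - (cos (8 * x (Fin.last N) / 3) : ℝ)) * Uw x Q' w) / kap x s0 s0' s s'

lemma Vw_eq (Q Q' : ℝ[X]) (w : ℂ) : Vw x s0 s0' s s' Q Q' w =
    Dz x Q Q' (Complex.cos (w / 4)) / kap x s0 s0' s s' := by
  unfold Vw Dz Uw
  rw [← cos_eq_tP]

theorem VF_Vw (h : SD (cs x) s0 s) (h' : SD x s0' s') {Q Q' : ℝ[X]}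
    (hQ : Pp (cs x) s0 s = (∏ k, (X - C (cos (2 * cs x k)))) * Q)
    (hQ' : Pp x s0' s' = (∏ k, (X - C (cos (2 * x k)))) * Q')
    (hF : F1 (cs x) s0 s ≠ F1 x s0' s') :
    VF (fun k : Fin N => cos (8 * cs x k / 3)) (cos (8 * x (Fin.last N) / 3)) (Vw x s0 s0' s s' Q Q') := by
  have hd : ∀ w : ℂ, |w.re| ≤ π → DifferentiableAt ℂ (Vw x s0 s0' s s' Q Q') w := by
    intro w hw
    have h1 := Uw_diff h Q hw
    have h2 := Uw_diff h' Q' hw
    unfold Vw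
    fun_prop
  refine ⟨fun w hw => (hd w hw).continuousAt.continuousWithinAt,
    fun w hw => (hd w (le_of_lt hw)).differentiableWithinAt, fun w => ?_, fun w => ?_, ?_, ?_⟩
  · unfold Vw
    rw [Complex.cos_neg, Uw_even, Uw_even]
  · unfold Vw
    rw [Uw_real, Uw_real, Complex.cos_conj]
    simp only [map_div₀, map_sub, map_mul, map_add, Complex.conj_ofReal]
  · have hc : ContinuousOn (fun z => Dz x Q Q' z / kap x s0 s0' s s' - 1) DD := by
      intro z hz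
      have h1 := Uc_diff h Q hz
      have h2 := Uc_diff h' Q' hz
      have h3 : DifferentiableAt ℂ (fun z => Dz x Q Q' z / kap x s0 s0' s s' - 1) z := by
        unfold Dz tP
        fun_prop
      exact h3.continuousAt.continuousWithinAt
    obtain ⟨K, hK, hb⟩ := bound_DD hc (Dz_asy h h' hQ hQ' hF)
    refine ⟨K * ((√2 / 4) ^ 3)⁻¹, fun w hw => ?_⟩
    rw [Vw_eq]
    have h1 := hb _ (cos_mem_DD hw)
    have h2 := inv_norm_le hw 3
    refine h1.trans ((mul_le_mul_of_nonneg_left h2 hK).trans (le_of_eq ?_))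
    rw [← mul_assoc]
    congr 2
    push_cast
    ring
  · intro η hη
    have hX : 1 < cosh η := Real.one_lt_cosh.2 hη.ne'
    have hu := tau_gt h' (Fin.last N)
    set u := cos (8 * x (Fin.last N) / 3) with hu_def
    set W := Wt (Wf fun k : Fin N => cos (8 * cs x k / 3)) (cosh η) with hW
    have j1 := Uw_jump h hQ hη
    have j2 := Uw_jump h' hQ' hη
    have hWW : Wt (Wf fun k : Fin (N + 1) => cos (8 * x k / 3)) (cosh η) =
        W * (((cosh η : ℂ) - u) * (T2 (cosh η) - u) / (((cosh η : ℂ) + u) * (T2 (cosh η) + u))) := by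
      rw [hW]
      unfold Wt Wf
      rw [Fin.prod_univ_castSucc]
      ring
    rw [hWW] at j2
    rw [← hW] at j1
    have hT : Complex.cos (((π / 3 : ℝ) : ℂ) + Complex.I * (η : ℂ)) = T2 (cosh η) := T2_cosh' hη.le
    have hP : Complex.cos ((π : ℂ) + Complex.I * (η : ℂ)) = -(cosh η : ℝ) := cos_pi_add η
    unfold Vw WD
    rw [← hW, hT, hP, ← hu_def]
    set A1 := Uw (cs x) Q ((π : ℂ) + Complex.I * (η : ℂ))
    set A2 := Uw (cs x) Q (((π / 3 : ℝ) : ℂ) + Complex.I * (η : ℂ))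
    set B1 := Uw x Q' ((π : ℂ) + Complex.I * (η : ℂ))
    set B2 := Uw x Q' (((π / 3 : ℝ) : ℂ) + Complex.I * (η : ℂ))
    set κ := kap x s0 s0' s s'
    have hXu : ((cosh η : ℝ) : ℂ) + (u : ℂ) ≠ 0 := by
      have : cosh η + u ≠ 0 := by linarith [hu.1]
      exact_mod_cast this
    have hTu : T2 (cosh η) + (u : ℂ) ≠ 0 := T2_add_ne hu.1.le hX
    have e1 : (((-(cosh η : ℝ) : ℂ) + u) * A1 - (-(cosh η : ℝ) - u) * B1) / (κ : ℂ) =
        (((-(cosh η) + u) / κ : ℝ) : ℂ) * A1 + (((cosh η + u) / κ : ℝ) : ℂ) * B1 := by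
      push_cast
      ring
    rw [e1, Complex.add_im, Complex.im_ofReal_mul, Complex.im_ofReal_mul, j1, j2, ← Complex.im_ofReal_mul,
      ← Complex.im_ofReal_mul, ← Complex.add_im]
    congr 1
    generalize cosh η = Y at *
    push_cast
    field_simp
    ring

end

end

end CenC
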